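import Pool.Agent.ADS.EvStmts

/-!
Module ADS_EV1 of MP_43d07b_co: the reciprocal sum over the integers whose prime factors are squares modulo `w`.
-/

set_option autoImplicit false

namespace Pool.Agent.ADS

namespace EV1m

open Finset

section Char

variable (w : ℕ) [hw : Fact w.Prime]

/-- The quadratic character modulo `w`, on the natural numbers. -/
noncomputable def ch (n : ℕ) : ℝ := ((quadraticChar (ZMod w) (n : ZMod w) : ℤ) : ℝ)

theorem ch_mul (m n : ℕ) : ch w (m * n) = ch w m * ch w n := by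
  unfold ch
  push_cast
  rw [map_mul]
  push_cast
  rfl

theorem ch_one : ch w 1 = 1 := by
  unfold ch
  simp

theorem ch_abs_le (n : ℕ) : |ch w n| ≤ 1 := by
  unfold ch
  by_cases h : (n : ZMod w) = 0
  · rw [h]
    simp
  · rcases quadraticChar_dichotomy h with h1 | h1 <;> rw [h1] <;> simp

theorem block_sum (h2 : w ≠ 2) (a : ℕ) : ∑ i ∈ range w, ch w (a + i) = 0 := by
  have hR : ringChar (ZMod w) ≠ 2 := by
    rw [ZMod.ringChar_zmod_n]
    exact h2
  have h0 := quadraticChar_sum_zero hR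
  have hz : (((∑ x : ZMod w, quadraticChar (ZMod w) x) : ℤ) : ℝ) = 0 := by rw [h0]; simp
  rw [← hz]
  push_cast
  unfold ch
  refine Finset.sum_nbij' (fun i => ((a + i : ℕ) : ZMod w)) (fun x => (x - a).val) ?_ ?_ ?_ ?_ ?_
  · intro i _
    exact Finset.mem_univ _
  · intro x _
    rw [Finset.mem_range]
    exact ZMod.val_lt _
  · intro i hi
    rw [Finset.mem_range] at hi
    have : (((a + i : ℕ) : ZMod w) - (a : ZMod w)) = (i : ZMod w) := by
      push_cast
      ring
    rw [this]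
    exact ZMod.val_cast_of_lt hi
  · intro x _
    push_cast
    rw [ZMod.natCast_zmod_val]
    ring
  · intro i _
    rfl

theorem partial_le (h2 : w ≠ 2) (a : ℕ) : ∀ N : ℕ, |∑ i ∈ range N, ch w (a + i)| ≤ w := by
  intro N
  induction N using Nat.strong_induction_on with
  | _ N ih =>
    by_cases hN : N < w
    · calc |∑ i ∈ range N, ch w (a + i)| ≤ ∑ i ∈ range N, |ch w (a + i)| :=
            Finset.abs_sum_le_sum_abs _ _
        _ ≤ ∑ _i ∈ range N, (1 : ℝ) := Finset.sum_le_sum fun i _ => ch_abs_le w _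
        _ = N := by simp
        _ ≤ w := by exact_mod_cast hN.le
    · push Not at hN
      obtain ⟨M, rfl⟩ := Nat.exists_eq_add_of_le' hN
      have hw0 : 0 < w := hw.out.pos
      rw [Finset.sum_range_add]
      have hb := block_sum w h2 (a + M)
      simp_rw [add_assoc] at hb
      rw [hb, add_zero]
      exact ih M (by omega)

theorem conv_nonneg (k : ℕ) : 0 ≤ ∑ d ∈ k.divisors, ch w d := by
  open scoped ComplexOrder in
  let χ : DirichletCharacter ℂ w := (quadraticChar (ZMod w)).ringHomComp (Int.castRingHom ℂ)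
  have hχ : χ ^ 2 = 1 := by
    refine MulChar.ext fun u => ?_
    have h := quadraticChar_sq_one (u.ne_zero)
    rw [MulChar.pow_apply_coe, MulChar.one_apply_coe]
    simp only [χ, MulChar.ringHomComp_apply]
    rw [← map_pow, h]
    simp
  have h := DirichletCharacter.zetaMul_nonneg hχ k
  have e : DirichletCharacter.zetaMul χ k = ((∑ d ∈ k.divisors, ch w d : ℝ) : ℂ) := by
    rw [DirichletCharacter.zetaMul, ArithmeticFunction.coe_zeta_mul_apply]
    push_cast
    refine Finset.sum_congr rfl fun d hd => ?_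
    have hd0 : d ≠ 0 := by
      rintro rfl
      simp at hd
    simp only [toArithmeticFunction, ArithmeticFunction.coe_mk, hd0, if_false]
    simp only [χ, MulChar.ringHomComp_apply, ch]
    simp
  rw [e] at h
  exact_mod_cast h

theorem ch_eq_one : ∀ d : ℕ, d ≠ 0 → (∀ p : ℕ, p.Prime → p ∣ d → ch w p = 1) → ch w d = 1 := by
  intro d
  induction d using induction_on_primes with
  | zero => intro h; exact absurd rfl h
  | one => intro _ _; exact ch_one w
  | prime_mul p a hp ih =>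
    intro h0 h
    have ha : a ≠ 0 := by
      rintro rfl
      simp at h0
    rw [ch_mul, h p hp (Dvd.intro _ rfl), ih ha fun q hq hd => h q hq (hd.mul_left p), one_mul]

end Char

theorem abel (f g : ℕ → ℝ) (B : ℝ) (hf : Antitone f) (hf0 : ∀ i, 0 ≤ f i)
    (hg : ∀ N, |∑ i ∈ range N, g i| ≤ B) (N : ℕ) : ∑ i ∈ range N, f i * g i ≤ B * f 0 := by
  have hB : 0 ≤ B := (abs_nonneg _).trans (hg 0)
  rcases Nat.eq_zero_or_pos N with rfl | hN
  · simp only [range_zero, sum_empty]
    exact mul_nonneg hB (hf0 0)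
  have h := Finset.sum_range_by_parts f g N
  simp only [smul_eq_mul] at h
  rw [h]
  have h1 : f (N - 1) * ∑ i ∈ range N, g i ≤ B * f (N - 1) := by
    rw [mul_comm]
    exact mul_le_mul_of_nonneg_right ((le_abs_self _).trans (hg N)) (hf0 _)
  have h2 : - ∑ i ∈ range (N - 1), (f (i + 1) - f i) * ∑ j ∈ range (i + 1), g j ≤
      ∑ i ∈ range (N - 1), B * (f i - f (i + 1)) := by
    rw [← Finset.sum_neg_distrib]
    refine Finset.sum_le_sum fun i _ => ?_
    have h3 : 0 ≤ f i - f (i + 1) := sub_nonneg.2 (hf (Nat.le_succ i))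
    have h4 := (le_abs_self _).trans (hg (i + 1))
    calc -((f (i + 1) - f i) * ∑ j ∈ range (i + 1), g j)
        = (∑ j ∈ range (i + 1), g j) * (f i - f (i + 1)) := by ring
      _ ≤ B * (f i - f (i + 1)) := mul_le_mul_of_nonneg_right h4 h3
  rw [← Finset.mul_sum, Finset.sum_range_sub'] at h2
  linarith

/-- Sums of the harmonic series up to `n`. -/
noncomputable def H (n : ℕ) : ℝ := ∑ m ∈ Icc 1 n, (1 : ℝ) / m

theorem H_nonneg (n : ℕ) : 0 ≤ H n := Finset.sum_nonneg fun _ _ => by positivity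

theorem H_mono : Monotone H := by
  intro a b h
  exact Finset.sum_le_sum_of_subset_of_nonneg (Finset.Icc_subset_Icc_right h)
    fun _ _ _ => by positivity

theorem H_le (n : ℕ) : H n ≤ 1 + Real.log n := by
  have h := harmonic_le_one_add_log n
  have e : H n = (harmonic n : ℝ) := by
    unfold H
    rw [harmonic_eq_sum_Icc]
    push_cast
    simp
  rw [e]
  exact h

theorem swap (g : ℕ → ℝ) (K : ℕ) :
    ∑ k ∈ Icc 1 K, (∑ d ∈ k.divisors, g d) / k = ∑ d ∈ Icc 1 K, g d / d * H (K / d) := by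
  unfold H
  simp_rw [Finset.sum_div, Finset.mul_sum]
  rw [Finset.sum_sigma', Finset.sum_sigma']
  refine Finset.sum_nbij' (fun x => ⟨x.2, x.1 / x.2⟩) (fun x => ⟨x.1 * x.2, x.1⟩) ?_ ?_ ?_ ?_ ?_
  · rintro ⟨k, d⟩ h
    simp only [mem_sigma, mem_Icc, Nat.mem_divisors] at h ⊢
    obtain ⟨⟨h1, h2⟩, h3, h4⟩ := h
    have hd : 0 < d := Nat.pos_of_dvd_of_pos h3 (by omega)
    exact ⟨⟨hd, (Nat.le_of_dvd (by omega) h3).trans h2⟩,
      Nat.div_pos (Nat.le_of_dvd (by omega) h3) hd, Nat.div_le_div_right h2⟩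
  · rintro ⟨d, m⟩ h
    simp only [mem_sigma, mem_Icc, Nat.mem_divisors] at h ⊢
    obtain ⟨⟨h1, h2⟩, h3, h4⟩ := h
    have hmul : d * m ≤ K := by
      rw [mul_comm]
      exact (Nat.le_div_iff_mul_le h1).1 h4
    have hpos : 0 < d * m := Nat.mul_pos h1 h3
    exact ⟨⟨hpos, hmul⟩, Dvd.intro _ rfl, hpos.ne'⟩
  · rintro ⟨k, d⟩ h
    simp only [mem_sigma, mem_Icc, Nat.mem_divisors] at h
    simp only
    rw [Nat.mul_div_cancel' h.2.1]
  · rintro ⟨d, m⟩ h
    simp only [mem_sigma, mem_Icc] at h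
    simp only
    rw [Nat.mul_div_cancel_left _ (by omega : 0 < d)]
  · rintro ⟨k, d⟩ h
    simp only [mem_sigma, mem_Icc, Nat.mem_divisors] at h
    simp only
    obtain ⟨⟨h1, h2⟩, ⟨c, rfl⟩, h4⟩ := h
    have hd : 0 < d := Nat.pos_of_ne_zero (by rintro rfl; simp at h4)
    have hc : 0 < c := Nat.pos_of_ne_zero (by rintro rfl; simp at h4)
    rw [Nat.mul_div_cancel_left _ hd]
    have hd' : (d : ℝ) ≠ 0 := by exact_mod_cast hd.ne'
    have hc' : (c : ℝ) ≠ 0 := by exact_mod_cast hc.ne'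
    push_cast
    field_simp

theorem main_sum (w : ℕ) [hw : Fact w.Prime] (h2 : w ≠ 2) (K : ℕ) :
    ∑ k ∈ Icc 1 K, (∑ d ∈ k.divisors, ch w d) / k ≤ (2 + Real.log w) * H K := by
  rw [swap]
  have hHK := H_nonneg K
  have hwpos : 0 < w := hw.out.pos
  have hsplit : ∑ d ∈ Icc 1 K, ch w d / d * H (K / d) =
      ∑ d ∈ (Icc 1 K).filter (· ≤ w), ch w d / d * H (K / d) +
      ∑ d ∈ (Icc 1 K).filter (fun d => ¬ d ≤ w), ch w d / d * H (K / d) :=
    (Finset.sum_filter_add_sum_filter_not _ _ _).symm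
  have hfirst : ∑ d ∈ (Icc 1 K).filter (· ≤ w), ch w d / d * H (K / d) ≤
      (1 + Real.log w) * H K := by
    calc ∑ d ∈ (Icc 1 K).filter (· ≤ w), ch w d / d * H (K / d)
        ≤ ∑ d ∈ (Icc 1 K).filter (· ≤ w), (1 : ℝ) / d * H K := by
          refine Finset.sum_le_sum fun d _ => ?_
          have h1 : ch w d / d ≤ (1 : ℝ) / d :=
            div_le_div_of_nonneg_right ((le_abs_self _).trans (ch_abs_le w d)) (by positivity)
          calc ch w d / d * H (K / d) ≤ (1 : ℝ) / d * H (K / d) :=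
                mul_le_mul_of_nonneg_right h1 (H_nonneg _)
            _ ≤ (1 : ℝ) / d * H K :=
                mul_le_mul_of_nonneg_left (H_mono (Nat.div_le_self _ _)) (by positivity)
      _ = (∑ d ∈ (Icc 1 K).filter (· ≤ w), (1 : ℝ) / d) * H K := by rw [Finset.sum_mul]
      _ ≤ H w * H K := by
          refine mul_le_mul_of_nonneg_right ?_ hHK
          refine Finset.sum_le_sum_of_subset_of_nonneg ?_ fun _ _ _ => by positivity
          intro d hd
          simp only [mem_filter, mem_Icc] at hd ⊢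
          exact ⟨hd.1.1, hd.2⟩
      _ ≤ (1 + Real.log w) * H K := mul_le_mul_of_nonneg_right (H_le w) hHK
  have hsecond : ∑ d ∈ (Icc 1 K).filter (fun d => ¬ d ≤ w), ch w d / d * H (K / d) ≤ H K := by
    let f : ℕ → ℝ := fun i => H (K / (w + 1 + i)) / ((w + 1 + i : ℕ) : ℝ)
    let g : ℕ → ℝ := fun i => ch w (w + 1 + i)
    have hf : Antitone f := by
      intro i j hij
      have h1 : H (K / (w + 1 + j)) ≤ H (K / (w + 1 + i)) :=
        H_mono (Nat.div_le_div_left (by omega) (by omega))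
      have h2 : ((w + 1 + i : ℕ) : ℝ) ≤ ((w + 1 + j : ℕ) : ℝ) := by exact_mod_cast (by omega)
      have h3 : (0 : ℝ) < ((w + 1 + i : ℕ) : ℝ) := by exact_mod_cast (by omega)
      exact div_le_div₀ (H_nonneg _) h1 h3 h2
    have hab := abel f g w hf (fun i => div_nonneg (H_nonneg _) (by positivity))
      (partial_le w h2 (w + 1)) (K - w)
    have e : ∑ d ∈ (Icc 1 K).filter (fun d => ¬ d ≤ w), ch w d / d * H (K / d) =
        ∑ i ∈ range (K - w), f i * g i := by
      refine Finset.sum_nbij' (fun d => d - (w + 1)) (fun i => w + 1 + i) ?_ ?_ ?_ ?_ ?_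
      · intro d hd
        simp only [mem_filter, mem_Icc, mem_range] at hd ⊢
        omega
      · intro i hi
        simp only [mem_filter, mem_Icc, mem_range] at hi ⊢
        omega
      · intro d hd
        simp only [mem_filter, mem_Icc] at hd ⊢
        omega
      · intro i hi
        simp
      · intro d hd
        simp only [mem_filter, mem_Icc] at hd
        have hd' : w + 1 + (d - (w + 1)) = d := by omega
        simp only [f, g, hd']
        ring
    rw [e]
    refine hab.trans ?_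
    simp only [f, add_zero]
    have h3 : (0 : ℝ) < ((w + 1 : ℕ) : ℝ) := by positivity
    calc (w : ℝ) * (H (K / (w + 1)) / ((w + 1 : ℕ) : ℝ))
        = (w / ((w + 1 : ℕ) : ℝ)) * H (K / (w + 1)) := by ring
      _ ≤ 1 * H K := by
          refine mul_le_mul ?_ (H_mono (Nat.div_le_self _ _)) (H_nonneg _) (by norm_num)
          rw [div_le_one h3]
          push_cast
          linarith
      _ = H K := one_mul _
  rw [hsplit]
  nlinarith [hfirst, hsecond]

open Classical in
/-- The integers all of whose prime factors have character `1`. -/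
noncomputable def Q1 (w : ℕ) [Fact w.Prime] (z : ℕ) : Finset ℕ :=
  (Icc 1 z).filter (fun n => ∀ p : ℕ, p.Prime → p ∣ n → ch w p = 1)

open Classical in
theorem sq_le (w : ℕ) [hw : Fact w.Prime] (z : ℕ) :
    (∑ n ∈ Q1 w z, (1 : ℝ) / n) ^ 2 ≤
      ∑ k ∈ Icc 1 (z ^ 2), (∑ d ∈ k.divisors, ch w d) / k := by
  rw [sq, Finset.sum_mul_sum, ← Finset.sum_product']
  have hmaps : ∀ x ∈ Q1 w z ×ˢ Q1 w z, x.1 * x.2 ∈ Icc 1 (z ^ 2) := by
    rintro ⟨m, n⟩ h
    simp only [Q1, mem_product, mem_filter, mem_Icc] at h ⊢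
    obtain ⟨⟨⟨h1, h2⟩, -⟩, ⟨h3, h4⟩, -⟩ := h
    refine ⟨Nat.mul_pos h1 h3, ?_⟩
    rw [sq]
    exact Nat.mul_le_mul h2 h4
  rw [← Finset.sum_fiberwise_of_maps_to hmaps]
  refine Finset.sum_le_sum fun k hk => ?_
  have hk0 : k ≠ 0 := by
    rw [mem_Icc] at hk
    omega
  have e : ∑ x ∈ (Q1 w z ×ˢ Q1 w z).filter (fun x => x.1 * x.2 = k), (1 : ℝ) / x.1 * (1 / x.2) =
      (((Q1 w z ×ˢ Q1 w z).filter (fun x => x.1 * x.2 = k)).card : ℝ) / k := by
    rw [Finset.card_eq_sum_ones, Nat.cast_sum, Finset.sum_div]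
    refine Finset.sum_congr rfl fun x hx => ?_
    rw [mem_filter] at hx
    rw [← hx.2]
    push_cast
    rw [one_div_mul_one_div]
  rw [e]
  refine div_le_div_of_nonneg_right ?_ (by positivity)
  rcases Finset.eq_empty_or_nonempty
    ((Q1 w z ×ˢ Q1 w z).filter (fun x => x.1 * x.2 = k)) with h | ⟨x, hx⟩
  · rw [h]
    simpa using conv_nonneg w k
  · have hk1 : ∀ p : ℕ, p.Prime → p ∣ k → ch w p = 1 := by
      intro p hp hpk
      simp only [Q1, mem_filter, mem_product, mem_Icc] at hx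
      obtain ⟨⟨⟨-, h1⟩, ⟨-, h2⟩⟩, h3⟩ := hx
      rw [← h3] at hpk
      rcases (Nat.Prime.dvd_mul hp).1 hpk with h | h
      · exact h1 p hp h
      · exact h2 p hp h
    have hsum : ∑ d ∈ k.divisors, ch w d = (k.divisors.card : ℝ) := by
      rw [Finset.card_eq_sum_ones, Nat.cast_sum]
      refine Finset.sum_congr rfl fun d hd => ?_
      have hd' := Nat.mem_divisors.1 hd
      rw [ch_eq_one w d (fun h => by rw [h] at hd'; exact hk0 (Nat.eq_zero_of_zero_dvd hd'.1))
        fun p hp hpd => hk1 p hp (hpd.trans hd'.1)]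
      simp
    rw [hsum]
    norm_cast
    refine Finset.card_le_card_of_injOn Prod.fst ?_ ?_
    · rintro ⟨m, n⟩ h
      simp only [coe_filter, Set.mem_ofPred_eq] at h
      simp only [mem_coe, Nat.mem_divisors]
      exact ⟨Dvd.intro _ h.2, hk0⟩
    · rintro ⟨m, n⟩ h ⟨m', n'⟩ h' hmm
      simp only [coe_filter, Set.mem_ofPred_eq] at h h'
      simp only at hmm
      subst hmm
      have hm : m ≠ 0 := by
        rintro rfl
        simp at h
        exact hk0 h.2.symm
      have : n = n' := Nat.eq_of_mul_eq_mul_left (Nat.pos_of_ne_zero hm) (h.2.trans h'.2.symm)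
      rw [this]

open Classical in
theorem QR_le (w : ℕ) [hw : Fact w.Prime] (h2 : w ≠ 2) (z : ℕ) :
    ∑ n ∈ QRset w z, (1 : ℝ) / n ≤ 2 * ∑ n ∈ Q1 w z, (1 : ℝ) / n := by
  set A := ∑ n ∈ QRset w z, (1 : ℝ) / n with hA
  set A1 := ∑ n ∈ Q1 w z, (1 : ℝ) / n with hA1
  have hw3 : 3 ≤ w := by
    have := hw.out.two_le
    omega
  have hw0 : (0 : ℝ) < w := by exact_mod_cast (by omega : 0 < w)
  have hAnn : 0 ≤ A := Finset.sum_nonneg fun _ _ => by positivity
  have hsplit : A = ∑ n ∈ (QRset w z).filter (fun n => w ∣ n), (1 : ℝ) / n +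
      ∑ n ∈ (QRset w z).filter (fun n => ¬ w ∣ n), (1 : ℝ) / n :=
    (Finset.sum_filter_add_sum_filter_not _ _ _).symm
  have h1 : ∑ n ∈ (QRset w z).filter (fun n => ¬ w ∣ n), (1 : ℝ) / n ≤ A1 := by
    refine Finset.sum_le_sum_of_subset_of_nonneg ?_ fun _ _ _ => by positivity
    intro n hn
    simp only [QRset, Q1, mem_filter] at hn ⊢
    refine ⟨hn.1.1, fun p hp hpn => ?_⟩
    have hsq := hn.1.2 p hp hpn
    have hp0 : (p : ZMod w) ≠ 0 := by
      intro h
      rw [ZMod.natCast_eq_zero_iff] at h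
      exact hn.2 (h.trans hpn)
    unfold ch
    rw [(quadraticChar_one_iff_isSquare hp0).2 hsq]
    simp
  have h3 : ∑ n ∈ (QRset w z).filter (fun n => w ∣ n), (1 : ℝ) / n ≤ A / w := by
    have hsub : (QRset w z).filter (fun n => w ∣ n) ⊆ (QRset w z).image (fun n => w * n) := by
      intro n hn
      simp only [QRset, mem_filter, mem_image, mem_Icc] at hn ⊢
      obtain ⟨⟨⟨h1, h2⟩, h3⟩, c, rfl⟩ := hn
      have hc : 0 < c := Nat.pos_of_ne_zero (by rintro rfl; simp at h1)
      refine ⟨c, ⟨⟨hc, ?_⟩, fun p hp hpc => h3 p hp (hpc.mul_left w)⟩, rfl⟩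
      exact (Nat.le_mul_of_pos_left c (by omega)).trans h2
    calc ∑ n ∈ (QRset w z).filter (fun n => w ∣ n), (1 : ℝ) / n
        ≤ ∑ n ∈ (QRset w z).image (fun n => w * n), (1 : ℝ) / n :=
          Finset.sum_le_sum_of_subset_of_nonneg hsub fun _ _ _ => by positivity
      _ = ∑ n ∈ QRset w z, (1 : ℝ) / ((w * n : ℕ) : ℝ) := by
          rw [Finset.sum_image]
          intro a _ b _ hab
          exact Nat.eq_of_mul_eq_mul_left (by omega : 0 < w) hab
      _ = A / w := by
          rw [hA, Finset.sum_div]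
          refine Finset.sum_congr rfl fun n _ => ?_
          push_cast
          rw [one_div, one_div, mul_inv, div_eq_inv_mul]
  have h4 : A / w ≤ A / 3 := by
    refine div_le_div_of_nonneg_left hAnn (by norm_num) ?_
    exact_mod_cast hw3
  have hA1nn : 0 ≤ A1 := Finset.sum_nonneg fun _ _ => by positivity
  linarith

end EV1m

open EV1m in
theorem EV1_thm : Stmt_EV1 := by
  refine ⟨7, by norm_num, ?_⟩
  intro w hw h2 z hz
  have : Fact w.Prime := ⟨hw⟩
  have hw3 : 3 ≤ w := by
    have := hw.two_le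
    omega
  have hlw : 1 ≤ Real.log w := by
    rw [Real.le_log_iff_exp_le (by positivity)]
    have : (3 : ℝ) ≤ w := by exact_mod_cast hw3
    linarith [Real.exp_one_lt_d9]
  have hlz : 1 / 2 ≤ Real.log z := by
    have h2z : (2 : ℝ) ≤ z := by exact_mod_cast hz
    have := Real.log_le_log (by norm_num) h2z
    linarith [Real.log_two_gt_d9]
  have h1 := QR_le w h2 z
  have h3 := (sq_le w z).trans (main_sum w h2 (z ^ 2))
  have h4 : H (z ^ 2) ≤ 1 + 2 * Real.log z := by
    refine (H_le _).trans ?_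
    push_cast
    rw [Real.log_pow]
    push_cast
    exact le_rfl
  have hH := H_nonneg (z ^ 2)
  have h5 : (2 + Real.log w) * H (z ^ 2) ≤ 12 * (Real.log w * Real.log z) := by
    calc (2 + Real.log w) * H (z ^ 2) ≤ (3 * Real.log w) * (4 * Real.log z) := by
          refine mul_le_mul (by linarith) (by linarith) hH (by linarith)
      _ = _ := by ring
  have hA1nn : 0 ≤ ∑ n ∈ Q1 w z, (1 : ℝ) / n := Finset.sum_nonneg fun _ _ => by positivity
  have h6 : (2 * ∑ n ∈ Q1 w z, (1 : ℝ) / n) ^ 2 ≤ 49 * (Real.log w * Real.log z) := by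
    have hpos : 0 ≤ Real.log w * Real.log z := mul_nonneg (by linarith) (by linarith)
    nlinarith [h3, h5]
  have h7 : 2 * ∑ n ∈ Q1 w z, (1 : ℝ) / n ≤ 7 * Real.sqrt (Real.log w * Real.log z) := by
    have h8 := Real.le_sqrt_of_sq_le h6
    have h9 : Real.sqrt (49 * (Real.log w * Real.log z)) =
        7 * Real.sqrt (Real.log w * Real.log z) := by
      rw [Real.sqrt_mul (by norm_num)]
      congr 1
      rw [show (49 : ℝ) = 7 ^ 2 by norm_num, Real.sqrt_sq (by norm_num)]
    rw [← h9]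
    exact h8
  exact h1.trans h7

end Pool.Agent.ADS
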