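import Mathlib

/-!
# Project ADS (MP_43d07b_co): orders of abelian affine difference sets

Definitions. `X` is the natural number up to which orders are counted; the parameters are
`v = (log X)^(1/4)`, `B = exp (v^2)`, `Z = exp (v^3)`, `K = exp (v^3/4)`, `X = exp (v^4)`.
-/

set_option autoImplicit false

namespace Pool.Agent.ADS

open Finset

/-- `D` is an affine difference set of order `n` in the group `G` relative to the subgroup `N`. -/
structure IsAffineDifferenceSet {G : Type*} [Group G] (n : ℕ) (N : Subgroup G)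
    (D : Finset G) : Prop where
  two_le : 2 ≤ n
  card_group : Nat.card G = n ^ 2 - 1
  card_subgroup : Nat.card N = n - 1
  card_set : D.card = n
  existsUnique_of_notMem : ∀ g : G, g ∉ N →
    ∃! d : G × G, d.1 ∈ D ∧ d.2 ∈ D ∧ d.1 * d.2⁻¹ = g
  ne_of_mem : ∀ g : G, g ∈ N → g ≠ 1 → ∀ d₁ ∈ D, ∀ d₂ ∈ D, d₁ * d₂⁻¹ ≠ g

/-- Some finite abelian group has an affine difference set of order `n`. -/
def AbelianOrder (n : ℕ) : Prop :=
  ∃ (G : Type) (_ : CommGroup G) (N : Subgroup G) (D : Finset G), IsAffineDifferenceSet n N D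

/-- Some finite cyclic group has an affine difference set of order `n`. -/
def CyclicOrder (n : ℕ) : Prop :=
  ∃ (G : Type) (_ : CommGroup G) (_ : IsCyclic G) (N : Subgroup G) (D : Finset G),
    IsAffineDifferenceSet n N D

/-- The order condition of the key lemma. -/
def KC (n : ℕ) : Prop :=
  ∀ p w : ℕ, p.Prime → w.Prime → p ∣ n → w ∣ n - 1 →
    orderOf (p : ZMod w) ∣ orderOf (p : ZMod (n + 1))

/-- `v = (log X)^(1/4)`, so `log X = v^4`. -/
noncomputable def pv (X : ℕ) : ℝ := (Real.log X) ^ (1 / 4 : ℝ)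

/-- `B = exp (v^2)`. -/
noncomputable def pB (X : ℕ) : ℝ := Real.exp (pv X ^ 2)

/-- `Z = exp (v^3)`. -/
noncomputable def pZ (X : ℕ) : ℝ := Real.exp (pv X ^ 3)

/-- `K = exp (v^3/4)`. -/
noncomputable def pK (X : ℕ) : ℝ := Real.exp (pv X ^ 3 / 4)

open Classical in
/-- The set counted. -/
noncomputable def S0 (X : ℕ) : Finset ℕ :=
  (Icc 2 X).filter (fun n => ¬ n.Prime ∧ KC n)

open Classical in
/-- `n - 1` is `Z`-smooth. -/
noncomputable def E1 (X : ℕ) : Finset ℕ :=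
  (Icc 2 X).filter (fun n => ∀ w : ℕ, w.Prime → w ∣ n - 1 → (w : ℝ) ≤ pZ X)

open Classical in
/-- Small order: some prime `q ≤ √X` dividing `n` has order `≤ K` modulo some prime `w > Z`
dividing `n - 1`. -/
noncomputable def E2 (X : ℕ) : Finset ℕ :=
  (Icc 2 X).filter (fun n => ∃ q w : ℕ, q.Prime ∧ w.Prime ∧ q ^ 2 ≤ X ∧ q ∣ n ∧ w ∣ n - 1 ∧
    pZ X < w ∧ (orderOf (q : ZMod w) : ℝ) ≤ pK X)

open Classical in
/-- `w - 1` has a large `B`-smooth divisor `k > K`, for some prime `w ∣ n - 1`. -/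
noncomputable def E3 (X : ℕ) : Finset ℕ :=
  (Icc 2 X).filter (fun n => ∃ w k : ℕ, w.Prime ∧ w ∣ n - 1 ∧ k ∣ w - 1 ∧ pK X < k ∧
    ∀ l : ℕ, l.Prime → l ∣ k → (l : ℝ) ≤ pB X)

open Classical in
/-- `n + 1` is divisible by the square of a prime `> B`. -/
noncomputable def E4 (X : ℕ) : Finset ℕ :=
  (Icc 2 X).filter (fun n => ∃ l : ℕ, l.Prime ∧ pB X < l ∧ l ^ 2 ∣ n + 1)

/-- The relation between `n` and `(i, j, l, a, b)`: `n = 1 + i w`, `n + 1 = j r` with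
`w = 1 + l a`, `r = 1 + l b` prime and `l > B` prime. -/
def Rel (X n i j l a b : ℕ) : Prop :=
  1 ≤ i ∧ 1 ≤ j ∧ 1 ≤ a ∧ 1 ≤ b ∧ l.Prime ∧ pB X < l ∧ (1 + l * a).Prime ∧ (1 + l * b).Prime ∧
    n = 1 + i * (1 + l * a) ∧ n + 1 = j * (1 + l * b)

open Classical in
/-- `j ≠ i + 2` and `i j ≤ X / √B`. -/
noncomputable def E5a (X : ℕ) : Finset ℕ :=
  (Icc 2 X).filter (fun n => ∃ i j l a b : ℕ, Rel X n i j l a b ∧ j ≠ i + 2 ∧
    ((i * j : ℕ) : ℝ) * Real.sqrt (pB X) ≤ X)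

open Classical in
/-- `i j > X / √B`. -/
noncomputable def E5b (X : ℕ) : Finset ℕ :=
  (Icc 2 X).filter (fun n => ∃ i j l a b : ℕ, Rel X n i j l a b ∧
    (X : ℝ) < ((i * j : ℕ) : ℝ) * Real.sqrt (pB X))

open Classical in
/-- `n = 1 + i w`, `n + 1 = (i + 2) r` with `w > Z` and `i > (log X)^2`. -/
noncomputable def E6a (X : ℕ) : Finset ℕ :=
  (Icc 2 X).filter (fun n => ∃ i w r : ℕ, pv X ^ 8 < i ∧ pZ X < w ∧ n = 1 + i * w ∧
    n + 1 = (i + 2) * r)

open Classical in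
/-- `n = 1 + i w`, `n + 1 = (i + 2) r` with `w, r` prime and `1 ≤ i ≤ (log X)^2`. -/
noncomputable def E6b (X : ℕ) : Finset ℕ :=
  (Icc 2 X).filter (fun n => ∃ i w r : ℕ, 1 ≤ i ∧ (i : ℝ) ≤ pv X ^ 8 ∧ w.Prime ∧ r.Prime ∧
    n = 1 + i * w ∧ n + 1 = (i + 2) * r)

end Pool.Agent.ADS
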