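import Mathlib
import Pool.Agent.ADS.Defs

/-!
# Project ADS (MP_43d07b_co), third part: even orders, all solvable groups

For even `n` a group of order `n ^ 2 - 1` has odd order, so it is solvable (Feit-Thompson).
-/

set_option autoImplicit false

namespace Pool.Agent.ADS

open Finset

/-- Some finite solvable group has an affine difference set of order `n`. -/
def SolvOrder (n : ℕ) : Prop :=
  ∃ (G : Type) (_ : Group G) (_ : Group.IsSolvable G) (N : Subgroup G) (D : Finset G),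
    IsAffineDifferenceSet n N D

/-- Every prime dividing `n` to an odd power has odd order modulo every prime divisor of
`n - 1`. -/
def OddCond (n : ℕ) : Prop :=
  ∀ l w : ℕ, l.Prime → w.Prime → Odd (n.factorization l) → w ∣ n - 1 →
    Odd (orderOf (l : ZMod w))

/-- ... is a square modulo every prime divisor of `n - 1`. -/
def SqCond (n : ℕ) : Prop :=
  ∀ l w : ℕ, l.Prime → w.Prime → Odd (n.factorization l) → w ∣ n - 1 → IsSquare (l : ZMod w)

/-- EVA: the landed condition (EvenOrderPrimes) for all solvable groups. -/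
def Stmt_EVA : Prop := ∀ n : ℕ, Even n → SolvOrder n → OddCond n ∧ SqCond n

open Classical in
/-- The integers all of whose prime factors are squares modulo `w`, up to `z`. -/
noncomputable def QRset (w z : ℕ) : Finset ℕ :=
  (Icc 1 z).filter (fun n => ∀ p : ℕ, p.Prime → p ∣ n → IsSquare (p : ZMod w))

/-- EV1: reciprocal sum of `QRset`. -/
def Stmt_EV1 : Prop := ∃ C : ℝ, 0 < C ∧ ∀ w : ℕ, w.Prime → w ≠ 2 → ∀ z : ℕ, 2 ≤ z →
  ∑ n ∈ QRset w z, (1 : ℝ) / n ≤ C * Real.sqrt (Real.log w * Real.log z)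

/-- EV2: the sieve. -/
def Stmt_EV2 : Prop := ∃ C : ℝ, 0 < C ∧ ∀ w : ℕ, w.Prime → w ≠ 2 → ∀ a Y z : ℕ, 2 ≤ z →
  (((QRset w Y).filter (fun r => r ≡ a [MOD w])).card : ℝ) ≤
    C * (Y / w) * Real.sqrt (Real.log w / Real.log z) + (z : ℝ) ^ 6

open Classical in
/-- EV3: integers `n` such that `n - 1` has no prime factor `≤ y`. -/
def Stmt_EV3 : Prop := ∃ C : ℝ, 0 < C ∧ ∀ X y : ℕ, 2 ≤ y →
  (((Icc 2 X).filter (fun n => ∀ w : ℕ, w.Prime → w ∣ n - 1 → y < w)).card : ℝ) ≤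
    C * (X / Real.log y) + (y : ℝ) ^ 6

/-- EV5: a weighted sum over primes. -/
def Stmt_EV5 : Prop := ∃ C : ℝ, 0 < C ∧ ∀ y : ℕ, 2 ≤ y →
  ∑ w ∈ (Icc 1 y).filter Nat.Prime, Real.sqrt (Real.log w) / w ≤ C * Real.sqrt (Real.log y)

open Classical in
/-- The set counted. -/
noncomputable def SE (X : ℕ) : Finset ℕ :=
  (Icc 2 X).filter (fun n => Even n ∧ SqCond n)

/-- The count. -/
def Stmt_EVcount : Prop := ∃ C : ℝ, 0 < C ∧ ∀ X : ℕ, 2 ≤ X →
  ((SE X).card : ℝ) ≤ C * X / (Real.log X) ^ (1 / 3 : ℝ)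

/-- EV4: assembly of the count. -/
def Stmt_EV4 : Prop := Stmt_EV2 → Stmt_EV3 → Stmt_EV5 → Stmt_EVcount

/-- The main theorem of this part. -/
def MainStatementEv : Prop :=
  (∀ n : ℕ, Even n → SolvOrder n → OddCond n) ∧
  ∃ C : ℝ, ∀ x : ℝ, 2 ≤ x →
    ({n : ℕ | (n : ℝ) ≤ x ∧ Even n ∧ SolvOrder n}.ncard : ℝ) ≤
      C * x / (Real.log x) ^ (1 / 3 : ℝ)

/-- EV6: final assembly. -/
def Stmt_EV6 : Prop := Stmt_EVA → Stmt_EVcount → MainStatementEv

end Pool.Agent.ADS
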