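import Mathlib
import Pool.Agent.ADS.Defs

/-!
# Project ADS: common tools
-/

set_option autoImplicit false

namespace Pool.Agent.ADS.Tools

open Finset

theorem pv_nonneg (X : ℕ) : 0 ≤ pv X := by
  unfold pv
  exact Real.rpow_nonneg (Real.log_natCast_nonneg X) _

theorem log_eq (X : ℕ) : Real.log X = pv X ^ 4 := by
  unfold pv
  rw [← Real.rpow_natCast, ← Real.rpow_mul (Real.log_natCast_nonneg X)]
  norm_num

theorem tendsto_pv : Filter.Tendsto pv Filter.atTop Filter.atTop := by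
  unfold pv
  exact (tendsto_rpow_atTop (by norm_num)).comp
    (Real.tendsto_log_atTop.comp tendsto_natCast_atTop_atTop)

theorem exists_le_pv (c : ℝ) : ∃ X0 : ℕ, 1 ≤ X0 ∧ ∀ X : ℕ, X0 ≤ X → c ≤ pv X := by
  obtain ⟨X0, h⟩ := Filter.eventually_atTop.1 (tendsto_pv.eventually_ge_atTop c)
  exact ⟨max X0 1, le_max_right _ _, fun X hX => h X ((le_max_left _ _).trans hX)⟩

theorem cast_eq_exp {X : ℕ} (hX : 1 ≤ X) : (X : ℝ) = Real.exp (pv X ^ 4) := by
  rw [← log_eq, Real.exp_log (by exact_mod_cast hX)]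

/-- Exponentials beat powers. -/
theorem pow_mul_exp_le (A : ℕ) {c : ℝ} (hc : 0 < c) :
    ∃ C : ℝ, 0 ≤ C ∧ ∀ v : ℝ, 1 ≤ v → v ^ A * Real.exp (-(c * v)) ≤ C / v ^ 8 := by
  refine ⟨(A + 8).factorial / c ^ (A + 8), by positivity, ?_⟩
  intro v hv
  have hv0 : 0 < v := by linarith
  have h1 := Real.pow_div_factorial_le_exp (c * v) (by positivity) (A + 8)
  rw [le_div_iff₀ (by positivity), le_div_iff₀ (by positivity), Real.exp_neg]
  have hf : (0 : ℝ) < (A + 8).factorial := by positivity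
  have h2 : (c * v) ^ (A + 8) ≤ (A + 8).factorial * Real.exp (c * v) := by
    rw [div_le_iff₀ hf] at h1
    linarith
  have he : 0 < Real.exp (c * v) := Real.exp_pos _
  calc v ^ A * (Real.exp (c * v))⁻¹ * v ^ 8 * c ^ (A + 8)
      = (c * v) ^ (A + 8) * (Real.exp (c * v))⁻¹ := by
        rw [mul_pow, pow_add v A 8]; ring
    _ ≤ ((A + 8).factorial * Real.exp (c * v)) * (Real.exp (c * v))⁻¹ := by
        gcongr
    _ = (A + 8).factorial := by
        field_simp

/-- A set of integers in `[1, X]` congruent modulo `M` has at most `X / M + 1` elements. -/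
theorem card_le_of_modEq (S : Finset ℕ) (X M : ℕ) (hM : 0 < M)
    (hS : ∀ n ∈ S, 1 ≤ n ∧ n ≤ X) (h : ∀ m ∈ S, ∀ n ∈ S, m ≡ n [MOD M]) :
    (S.card : ℝ) ≤ X / M + 1 := by
  classical
  have hM' : (0 : ℝ) < M := by exact_mod_cast hM
  rcases S.eq_empty_or_nonempty with rfl | ⟨n0, hn0⟩
  · simp only [card_empty, Nat.cast_zero]
    positivity
  have hsub : S.card ≤ (range (X / M + 1)).card := by
    apply Finset.card_le_card_of_injOn (fun n => (n - 1) / M)
    · intro n hn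
      rw [mem_coe] at hn
      rw [mem_coe, mem_range, Nat.lt_succ_iff]
      apply Nat.div_le_div_right
      have := (hS n hn).2
      omega
    · intro m hm n hn hmn
      rw [mem_coe] at hm hn
      simp only at hmn
      have h1 : (m - 1) ≡ (n - 1) [MOD M] := by
        have h2 : (m - 1) + 1 ≡ (n - 1) + 1 [MOD M] := by
          rw [Nat.sub_add_cancel (hS m hm).1, Nat.sub_add_cancel (hS n hn).1]
          exact h m hm n hn
        exact Nat.ModEq.add_right_cancel' 1 h2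
      have h2 : (m - 1) % M = (n - 1) % M := h1
      have h3 := Nat.div_add_mod (m - 1) M
      have h4 := Nat.div_add_mod (n - 1) M
      rw [hmn, h2] at h3
      have h5 : m - 1 = n - 1 := h3.symm.trans h4
      have := (hS m hm).1
      have := (hS n hn).1
      omega
  rw [card_range] at hsub
  calc (S.card : ℝ) ≤ ((X / M + 1 : ℕ) : ℝ) := by exact_mod_cast hsub
    _ = ((X / M : ℕ) : ℝ) + 1 := by push_cast; ring
    _ ≤ X / M + 1 := by
        gcongr
        exact Nat.cast_div_le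

/-- Harmonic sums. -/
theorem sum_inv_le (N : ℕ) : ∑ k ∈ Icc 1 N, (1 : ℝ) / k ≤ 1 + Real.log N := by
  have h := harmonic_le_one_add_log N
  rw [harmonic_eq_sum_Icc] at h
  push_cast at h
  simpa [one_div] using h

/-- A nonzero integer `m` has at most `log m / log 2` prime factors. -/
theorem card_primeFactors_le {m : ℕ} (hm : m ≠ 0) :
    (m.primeFactors.card : ℝ) ≤ Real.log m / Real.log 2 := by
  have h1 : 2 ^ m.primeFactors.card ≤ m := by
    calc 2 ^ m.primeFactors.card = ∏ _p ∈ m.primeFactors, 2 := by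
          rw [Finset.prod_const]
      _ ≤ ∏ p ∈ m.primeFactors, p := by
          apply Finset.prod_le_prod'
          intro p hp
          exact (Nat.prime_of_mem_primeFactors hp).two_le
      _ ≤ m := Nat.le_of_dvd (Nat.pos_of_ne_zero hm) (Nat.prod_primeFactors_dvd m)
  rw [le_div_iff₀ (Real.log_pos (by norm_num)), ← Real.log_pow]
  apply Real.log_le_log (by positivity)
  exact_mod_cast h1

/-- At most `3 log m` prime factors. -/
theorem card_primeFactors_le' {m : ℕ} (hm : m ≠ 0) :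
    (m.primeFactors.card : ℝ) ≤ 3 * Real.log m := by
  refine (card_primeFactors_le hm).trans ?_
  have h1 : (1 : ℝ) / 3 ≤ Real.log 2 := by
    have := Real.log_two_gt_d9
    linarith
  rw [div_le_iff₀ (by linarith)]
  have h2 : 0 ≤ Real.log m := Real.log_natCast_nonneg m
  nlinarith

theorem card_mul_le (M a : ℕ) (ha : 1 ≤ a) {Y : ℝ} (hY : 0 ≤ Y) :
    (((Icc 1 M).filter (fun b => ((a * b : ℕ) : ℝ) ≤ Y)).card : ℝ) ≤ Y * (1 / a) := by
  have ha' : (0 : ℝ) < a := by exact_mod_cast ha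
  have hsub : (Icc 1 M).filter (fun b => ((a * b : ℕ) : ℝ) ≤ Y) ⊆ Icc 1 ⌊Y / a⌋₊ := by
    intro b hb
    rw [mem_filter, mem_Icc] at hb
    rw [mem_Icc]
    refine ⟨hb.1.1, ?_⟩
    rw [Nat.le_floor_iff (by positivity), le_div_iff₀ ha']
    have := hb.2
    push_cast at this
    linarith
  have h1 := Finset.card_le_card hsub
  rw [Nat.card_Icc, Nat.add_sub_cancel] at h1
  calc (((Icc 1 M).filter (fun b => ((a * b : ℕ) : ℝ) ≤ Y)).card : ℝ) ≤ (⌊Y / a⌋₊ : ℝ) := by
        exact_mod_cast h1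
    _ ≤ Y / a := Nat.floor_le (by positivity)
    _ = Y * (1 / a) := by ring

open Classical in
/-- Pairs with bounded product. -/
theorem card_pairs_le (M : ℕ) {Y : ℝ} (hY : 0 ≤ Y) :
    (((Icc 1 M ×ˢ Icc 1 M).filter (fun p : ℕ × ℕ => ((p.1 * p.2 : ℕ) : ℝ) ≤ Y)).card : ℝ) ≤
      Y * (1 + Real.log M) := by
  have h1 : ((Icc 1 M ×ˢ Icc 1 M).filter (fun p : ℕ × ℕ => ((p.1 * p.2 : ℕ) : ℝ) ≤ Y)).card =
      ∑ a ∈ Icc 1 M, ((Icc 1 M).filter (fun b => ((a * b : ℕ) : ℝ) ≤ Y)).card := by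
    rw [Finset.card_filter, Finset.sum_product]
    apply Finset.sum_congr rfl
    intro a _
    rw [Finset.card_filter]
  rw [h1, Nat.cast_sum]
  calc ∑ a ∈ Icc 1 M, (((Icc 1 M).filter (fun b => ((a * b : ℕ) : ℝ) ≤ Y)).card : ℝ)
      ≤ ∑ a ∈ Icc 1 M, Y * (1 / (a : ℝ)) := by
        apply Finset.sum_le_sum
        intro a ha
        exact card_mul_le M a (mem_Icc.1 ha).1 hY
    _ = Y * ∑ a ∈ Icc 1 M, 1 / (a : ℝ) := by rw [Finset.mul_sum]
    _ ≤ Y * (1 + Real.log M) := by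
        apply mul_le_mul_of_nonneg_left (sum_inv_le M) hY

open Classical in
/-- Triples with bounded product. -/
theorem card_triples_le (M : ℕ) {Y : ℝ} (hY : 0 ≤ Y) :
    (((Icc 1 M ×ˢ (Icc 1 M ×ˢ Icc 1 M)).filter
      (fun p : ℕ × (ℕ × ℕ) => ((p.1 * p.2.1 * p.2.2 : ℕ) : ℝ) ≤ Y)).card : ℝ) ≤
      Y * (1 + Real.log M) ^ 2 := by
  have h1 : ((Icc 1 M ×ˢ (Icc 1 M ×ˢ Icc 1 M)).filter
      (fun p : ℕ × (ℕ × ℕ) => ((p.1 * p.2.1 * p.2.2 : ℕ) : ℝ) ≤ Y)).card =
      ∑ a ∈ Icc 1 M, ∑ b ∈ Icc 1 M,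
        ((Icc 1 M).filter (fun c => ((a * b * c : ℕ) : ℝ) ≤ Y)).card := by
    rw [Finset.card_filter, Finset.sum_product]
    apply Finset.sum_congr rfl
    intro a _
    rw [Finset.sum_product]
    apply Finset.sum_congr rfl
    intro b _
    rw [Finset.card_filter]
  rw [h1]
  rw [Nat.cast_sum]
  calc ∑ a ∈ Icc 1 M, ((∑ b ∈ Icc 1 M,
        ((Icc 1 M).filter (fun c => ((a * b * c : ℕ) : ℝ) ≤ Y)).card : ℕ) : ℝ)
      ≤ ∑ a ∈ Icc 1 M, ∑ b ∈ Icc 1 M, Y * ((1 / (a : ℝ)) * (1 / (b : ℝ))) := by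
        apply Finset.sum_le_sum
        intro a ha
        rw [Nat.cast_sum]
        apply Finset.sum_le_sum
        intro b hb
        have h2 := card_mul_le M (a * b)
          (Nat.mul_pos (mem_Icc.1 ha).1 (mem_Icc.1 hb).1) hY
        refine h2.trans (le_of_eq ?_)
        push_cast
        rw [one_div_mul_one_div]
    _ = Y * ((∑ a ∈ Icc 1 M, 1 / (a : ℝ)) * ∑ b ∈ Icc 1 M, 1 / (b : ℝ)) := by
        rw [Finset.sum_mul_sum, Finset.mul_sum]
        apply Finset.sum_congr rfl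
        intro a _
        rw [Finset.mul_sum]
    _ ≤ Y * ((1 + Real.log M) * (1 + Real.log M)) := by
        apply mul_le_mul_of_nonneg_left _ hY
        apply mul_le_mul (sum_inv_le M) (sum_inv_le M)
        · exact Finset.sum_nonneg (fun i _ => by positivity)
        · have := Real.log_natCast_nonneg M
          linarith
    _ = Y * (1 + Real.log M) ^ 2 := by ring

/-- `lcm a b ≥ a b / 2` if `gcd a b ∣ 2`. -/
theorem lcm_ge {a b : ℕ} (h : Nat.gcd a b ∣ 2) :
    ((a * b : ℕ) : ℝ) / 2 ≤ Nat.lcm a b := by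
  have h1 := Nat.gcd_mul_lcm a b
  have h2 : Nat.gcd a b ≤ 2 := Nat.le_of_dvd (by norm_num) h
  have h3 : a * b ≤ 2 * Nat.lcm a b := by
    rw [← h1]
    exact Nat.mul_le_mul_right _ h2
  have h4 : ((a * b : ℕ) : ℝ) ≤ 2 * (Nat.lcm a b : ℝ) := by exact_mod_cast h3
  linarith

end Pool.Agent.ADS.Tools
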