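import Mathlib
import Pool.Agent.ADS.Defs
import Pool.Agent.ADS.EvStmts
import Pool.Agent.ADS.Tools

/-!
# Project ADS, module EV4: assembly of the count of even orders
-/

set_option autoImplicit false

namespace Pool.Agent.ADS

open Finset

namespace EV4

/-- Numbers with a large square divisor. -/
theorem card_sq_le (X M : ℕ) (hM : 1 ≤ M) (S : Finset ℕ)
    (hS : ∀ n ∈ S, 1 ≤ n ∧ n ≤ X ∧ ∃ m : ℕ, M < m ∧ m ^ 2 ∣ n) :
    (S.card : ℝ) ≤ X / M := by
  classical
  have hsub : S ⊆ (Ioc M X).biUnion (fun m => (Ioc 0 X).filter (fun n => m ^ 2 ∣ n)) := by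
    intro n hn
    obtain ⟨h1, h2, m, hm, hd⟩ := hS n hn
    rw [mem_biUnion]
    have hmn : m ^ 2 ≤ n := Nat.le_of_dvd (by omega) hd
    refine ⟨m, ?_, ?_⟩
    · rw [mem_Ioc]
      refine ⟨hm, ?_⟩
      nlinarith
    · rw [mem_filter, mem_Ioc]
      exact ⟨⟨by omega, h2⟩, hd⟩
  have hMr : (0 : ℝ) < M := by exact_mod_cast hM
  rcases Nat.lt_or_ge X M with hXM | hXM
  · have h0 : S = ∅ := by
      apply Finset.eq_empty_of_forall_notMem
      intro n hn
      have := hsub hn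
      rw [Ioc_eq_empty (by omega)] at this
      simp at this
    rw [h0, card_empty, Nat.cast_zero]
    positivity
  · have h1 : S.card ≤ ∑ m ∈ Ioc M X, X / m ^ 2 := by
      refine (Finset.card_le_card hsub).trans (Finset.card_biUnion_le.trans (le_of_eq ?_))
      apply Finset.sum_congr rfl
      intro m _
      exact Nat.Ioc_filter_dvd_card_eq_div X (m ^ 2)
    have h2 : ((∑ m ∈ Ioc M X, X / m ^ 2 : ℕ) : ℝ) ≤ ∑ m ∈ Ioc M X, (X : ℝ) * ((m : ℝ) ^ 2)⁻¹ := by
      rw [Nat.cast_sum]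
      apply Finset.sum_le_sum
      intro m _
      refine Nat.cast_div_le.trans (le_of_eq ?_)
      push_cast
      rw [div_eq_mul_inv]
    calc (S.card : ℝ) ≤ ((∑ m ∈ Ioc M X, X / m ^ 2 : ℕ) : ℝ) := by exact_mod_cast h1
      _ ≤ ∑ m ∈ Ioc M X, (X : ℝ) * ((m : ℝ) ^ 2)⁻¹ := h2
      _ = X * ∑ m ∈ Ioc M X, ((m : ℝ) ^ 2)⁻¹ := by rw [Finset.mul_sum]
      _ ≤ X * ((M : ℝ)⁻¹ - (X : ℝ)⁻¹) := by
          apply mul_le_mul_of_nonneg_left _ (Nat.cast_nonneg X)
          exact sum_Ioc_inv_sq_le_sub (by omega) hXM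
      _ ≤ X * (M : ℝ)⁻¹ := by
          apply mul_le_mul_of_nonneg_left _ (Nat.cast_nonneg X)
          have : (0 : ℝ) ≤ (X : ℝ)⁻¹ := by positivity
          linarith
      _ = X / M := by rw [div_eq_mul_inv]

/-- `∑ 1/m^2 ≤ 2`. -/
theorem sum_inv_sq_le (M : ℕ) : ∑ m ∈ Icc 1 M, ((m : ℝ) ^ 2)⁻¹ ≤ 2 := by
  have h := sum_Ioo_inv_sq_le (α := ℝ) 0 (M + 1)
  have h2 : Ioo 0 (M + 1) = Icc 1 M := by
    ext m
    simp only [mem_Ioo, mem_Icc]
    omega
  rw [h2] at h
  simpa using h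

/-- One value of `w` and `m`. -/
theorem one_le {C2 : ℝ} (hC2 : 0 < C2)
    (h2 : ∀ w : ℕ, w.Prime → w ≠ 2 → ∀ a Y z : ℕ, 2 ≤ z →
      (((QRset w Y).filter (fun r => r ≡ a [MOD w])).card : ℝ) ≤
        C2 * (Y / w) * Real.sqrt (Real.log w / Real.log z) + (z : ℝ) ^ 6)
    {X w m z : ℕ} (hw : w.Prime) (hw2 : w ≠ 2) (hm : 1 ≤ m) (hz : 2 ≤ z) :
    (((QRset w (X / m ^ 2)).filter (fun r => m ^ 2 * r ≡ 1 [MOD w])).card : ℝ) ≤
      C2 * (X / Real.sqrt (Real.log z)) * (((m : ℝ) ^ 2)⁻¹ * (Real.sqrt (Real.log w) / w)) +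
        (z : ℝ) ^ 6 := by
  classical
  have hw0 : (0 : ℝ) < w := by exact_mod_cast hw.pos
  have hm0 : (0 : ℝ) < m := by exact_mod_cast hm
  rcases ((QRset w (X / m ^ 2)).filter (fun r => m ^ 2 * r ≡ 1 [MOD w])).eq_empty_or_nonempty with
    h0 | ⟨a, ha⟩
  · rw [h0, card_empty, Nat.cast_zero]
    positivity
  · rw [mem_filter] at ha
    have hcop : Nat.Coprime (m ^ 2) w := by
      have h1 := ha.2.gcd_eq
      rw [Nat.gcd_one_left] at h1
      exact Nat.Coprime.coprime_mul_right h1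
    have hsub : (QRset w (X / m ^ 2)).filter (fun r => m ^ 2 * r ≡ 1 [MOD w]) ⊆
        (QRset w (X / m ^ 2)).filter (fun r => r ≡ a [MOD w]) := by
      intro r hr
      rw [mem_filter] at hr ⊢
      refine ⟨hr.1, ?_⟩
      apply Nat.ModEq.cancel_left_of_coprime (c := m ^ 2)
      · exact hcop.symm
      · exact hr.2.trans ha.2.symm
    have h3 := h2 w hw hw2 a (X / m ^ 2) z hz
    have h4 : ((((QRset w (X / m ^ 2)).filter (fun r => m ^ 2 * r ≡ 1 [MOD w])).card : ℕ) : ℝ) ≤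
        (((QRset w (X / m ^ 2)).filter (fun r => r ≡ a [MOD w])).card : ℝ) := by
      exact_mod_cast Finset.card_le_card hsub
    refine h4.trans (h3.trans ?_)
    have h5 : (((X / m ^ 2 : ℕ)) : ℝ) ≤ X * ((m : ℝ) ^ 2)⁻¹ := by
      refine Nat.cast_div_le.trans (le_of_eq ?_)
      push_cast
      rw [div_eq_mul_inv]
    have h6 : Real.sqrt (Real.log w / Real.log z) =
        Real.sqrt (Real.log w) / Real.sqrt (Real.log z) :=
      Real.sqrt_div (Real.log_natCast_nonneg w) _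
    rw [h6]
    have h7 : C2 * (((X / m ^ 2 : ℕ) : ℝ) / w) * (Real.sqrt (Real.log w) / Real.sqrt (Real.log z)) ≤
        C2 * ((X * ((m : ℝ) ^ 2)⁻¹) / w) * (Real.sqrt (Real.log w) / Real.sqrt (Real.log z)) := by
      gcongr
    have h8 : C2 * ((X * ((m : ℝ) ^ 2)⁻¹) / w) *
        (Real.sqrt (Real.log w) / Real.sqrt (Real.log z)) =
        C2 * (X / Real.sqrt (Real.log z)) *
          (((m : ℝ) ^ 2)⁻¹ * (Real.sqrt (Real.log w) / w)) := by
      ring
    linarith [h7, h8]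

open Classical in
/-- The numbers `n = m^2 r ≤ X` with `m ≤ M` and a small prime `w ∣ n - 1`. -/
theorem card_B1_le {C2 C5 : ℝ} (hC2 : 0 < C2)
    (h2 : ∀ w : ℕ, w.Prime → w ≠ 2 → ∀ a Y z : ℕ, 2 ≤ z →
      (((QRset w Y).filter (fun r => r ≡ a [MOD w])).card : ℝ) ≤
        C2 * (Y / w) * Real.sqrt (Real.log w / Real.log z) + (z : ℝ) ^ 6)
    (h5 : ∀ y : ℕ, 2 ≤ y →
      ∑ w ∈ (Icc 1 y).filter Nat.Prime, Real.sqrt (Real.log w) / w ≤
        C5 * Real.sqrt (Real.log y))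
    {X y M z : ℕ} (hy : 2 ≤ y) (hz : 2 ≤ z) (S : Finset ℕ)
    (hS : ∀ n ∈ S, ∃ w : ℕ, w.Prime ∧ w ≠ 2 ∧ w ≤ y ∧ ∃ m : ℕ, 1 ≤ m ∧ m ≤ M ∧
      ∃ r ∈ QRset w (X / m ^ 2), m ^ 2 * r ≡ 1 [MOD w] ∧ n = m ^ 2 * r) :
    (S.card : ℝ) ≤ C2 * (X / Real.sqrt (Real.log z)) * (2 * (C5 * Real.sqrt (Real.log y))) +
      y * M * (z : ℝ) ^ 6 := by
  have hsub : S ⊆ ((Icc 1 y).filter (fun w => w.Prime ∧ w ≠ 2)).biUnion (fun w =>
      (Icc 1 M).biUnion (fun m =>
        ((QRset w (X / m ^ 2)).filter (fun r => m ^ 2 * r ≡ 1 [MOD w])).image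
          (fun r => m ^ 2 * r))) := by
    intro n hn
    obtain ⟨w, hw, hw2, hwy, m, hm1, hm2, r, hr, hmr, rfl⟩ := hS n hn
    rw [mem_biUnion]
    refine ⟨w, ?_, ?_⟩
    · rw [mem_filter, mem_Icc]
      exact ⟨⟨hw.pos, hwy⟩, hw, hw2⟩
    · rw [mem_biUnion]
      refine ⟨m, ?_, ?_⟩
      · rw [mem_Icc]
        exact ⟨hm1, hm2⟩
      · rw [mem_image]
        refine ⟨r, ?_, rfl⟩
        rw [mem_filter]
        exact ⟨hr, hmr⟩
  have hcard : S.card ≤ ∑ w ∈ (Icc 1 y).filter (fun w => w.Prime ∧ w ≠ 2), ∑ m ∈ Icc 1 M,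
      ((QRset w (X / m ^ 2)).filter (fun r => m ^ 2 * r ≡ 1 [MOD w])).card := by
    refine (Finset.card_le_card hsub).trans (Finset.card_biUnion_le.trans ?_)
    apply Finset.sum_le_sum
    intro w _
    refine Finset.card_biUnion_le.trans ?_
    apply Finset.sum_le_sum
    intro m _
    exact Finset.card_image_le
  have hcard' : (S.card : ℝ) ≤ ∑ w ∈ (Icc 1 y).filter (fun w => w.Prime ∧ w ≠ 2),
      ∑ m ∈ Icc 1 M,
      (((QRset w (X / m ^ 2)).filter (fun r => m ^ 2 * r ≡ 1 [MOD w])).card : ℝ) := by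
    exact_mod_cast hcard
  refine hcard'.trans ?_
  have hstep : ∀ w ∈ (Icc 1 y).filter (fun w => w.Prime ∧ w ≠ 2), ∀ m ∈ Icc 1 M,
      (((QRset w (X / m ^ 2)).filter (fun r => m ^ 2 * r ≡ 1 [MOD w])).card : ℝ) ≤
      C2 * (X / Real.sqrt (Real.log z)) * (((m : ℝ) ^ 2)⁻¹ * (Real.sqrt (Real.log w) / w)) +
        (z : ℝ) ^ 6 := by
    intro w hw m hm
    rw [mem_filter] at hw
    rw [mem_Icc] at hm
    exact one_le hC2 h2 hw.2.1 hw.2.2 hm.1 hz
  have h6 : ∑ w ∈ (Icc 1 y).filter (fun w => w.Prime ∧ w ≠ 2), Real.sqrt (Real.log w) / w ≤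
      C5 * Real.sqrt (Real.log y) := by
    refine le_trans ?_ (h5 y hy)
    apply Finset.sum_le_sum_of_subset_of_nonneg
    · intro w hw
      rw [mem_filter] at hw ⊢
      exact ⟨hw.1, hw.2.1⟩
    · intro w _ _
      positivity
  have h7 := sum_inv_sq_le M
  have hA : 0 ≤ C2 * (X / Real.sqrt (Real.log z)) := by positivity
  have hz6 : 0 ≤ (z : ℝ) ^ 6 := by positivity
  have hW : ((((Icc 1 y).filter (fun w => w.Prime ∧ w ≠ 2)).card : ℕ) : ℝ) ≤ y := by
    have h8 : ((Icc 1 y).filter (fun w => w.Prime ∧ w ≠ 2)).card ≤ y := by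
      refine (Finset.card_filter_le _ _).trans ?_
      rw [Nat.card_Icc]
      omega
    exact_mod_cast h8
  have hsum0 : 0 ≤ ∑ m ∈ Icc 1 M, ((m : ℝ) ^ 2)⁻¹ := Finset.sum_nonneg (fun m _ => by positivity)
  have hsum1 : 0 ≤ ∑ w ∈ (Icc 1 y).filter (fun w => w.Prime ∧ w ≠ 2),
      Real.sqrt (Real.log w) / w := Finset.sum_nonneg (fun m _ => by positivity)
  calc ∑ w ∈ (Icc 1 y).filter (fun w => w.Prime ∧ w ≠ 2), ∑ m ∈ Icc 1 M,
        (((QRset w (X / m ^ 2)).filter (fun r => m ^ 2 * r ≡ 1 [MOD w])).card : ℝ)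
      ≤ ∑ w ∈ (Icc 1 y).filter (fun w => w.Prime ∧ w ≠ 2), ∑ m ∈ Icc 1 M,
        (C2 * (X / Real.sqrt (Real.log z)) *
          (((m : ℝ) ^ 2)⁻¹ * (Real.sqrt (Real.log w) / w)) + (z : ℝ) ^ 6) :=
        Finset.sum_le_sum (fun w hw => Finset.sum_le_sum (fun m hm => hstep w hw m hm))
    _ = C2 * (X / Real.sqrt (Real.log z)) * ((∑ m ∈ Icc 1 M, ((m : ℝ) ^ 2)⁻¹) *
          ∑ w ∈ (Icc 1 y).filter (fun w => w.Prime ∧ w ≠ 2), Real.sqrt (Real.log w) / w) +
        ((((Icc 1 y).filter (fun w => w.Prime ∧ w ≠ 2)).card : ℕ) : ℝ) * (M * (z : ℝ) ^ 6) := by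
        simp only [Finset.sum_add_distrib, Finset.sum_const, Nat.card_Icc, Nat.add_sub_cancel,
          nsmul_eq_mul]
        congr 1
        rw [Finset.sum_mul_sum, Finset.sum_comm, Finset.mul_sum]
        apply Finset.sum_congr rfl
        intro m _
        rw [Finset.mul_sum]
    _ ≤ C2 * (X / Real.sqrt (Real.log z)) * (2 * (C5 * Real.sqrt (Real.log y))) +
        y * (M * (z : ℝ) ^ 6) := by
        gcongr
    _ = C2 * (X / Real.sqrt (Real.log z)) * (2 * (C5 * Real.sqrt (Real.log y))) +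
      y * M * (z : ℝ) ^ 6 := by ring

/-- A decomposition of `n`. -/
theorem decomp {X n w : ℕ} (hn : 2 ≤ n) (hnX : n ≤ X) (hw : w.Prime) (hwn : w ∣ n - 1)
    (hsq : SqCond n) :
    ∃ m : ℕ, 1 ≤ m ∧ m ^ 2 ∣ n ∧ ∃ r ∈ QRset w (X / m ^ 2), m ^ 2 * r ≡ 1 [MOD w] ∧
      n = m ^ 2 * r := by
  classical
  obtain ⟨r, m, hrpos, hmpos, hmr, hrsq⟩ := Nat.sq_mul_squarefree_of_pos (show 0 < n by omega)
  refine ⟨m, hmpos, ⟨r, hmr.symm⟩, r, ?_, ?_, hmr.symm⟩
  · unfold QRset
    rw [mem_filter, mem_Icc]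
    refine ⟨⟨hrpos, ?_⟩, ?_⟩
    · rw [Nat.le_div_iff_mul_le (by positivity)]
      calc r * m ^ 2 = n := by rw [← hmr]; ring
        _ ≤ X := hnX
    · intro p hp hpr
      apply hsq p w hp hw _ hwn
      rw [← hmr, Nat.factorization_mul (by positivity) (by omega), Nat.factorization_pow]
      have h1 : r.factorization p = 1 := by
        have h2 : r.factorization p ≤ 1 := (Nat.squarefree_iff_factorization_le_one (by omega)).1
          hrsq p
        have h3 : 1 ≤ r.factorization p := (hp.dvd_iff_one_le_factorization (by omega)).1 hpr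
        omega
      simp only [Finsupp.coe_add, Finsupp.coe_smul, Pi.add_apply, Pi.smul_apply, smul_eq_mul, h1]
      exact ⟨_, rfl⟩
  · rw [hmr]
    have h1 : n = (n - 1) + 1 := by omega
    rw [h1]
    have h2 : (n - 1) ≡ 0 [MOD w] := (Nat.modEq_zero_iff_dvd).2 hwn
    simpa using h2.add_right 1

/-- Elementary: `⌊exp t⌋ ≥ exp (t/2)` for `t ≥ 2`. -/
theorem floor_ge {t : ℝ} (ht : 2 ≤ t) : Real.exp (t / 2) ≤ (⌊Real.exp t⌋₊ : ℝ) := by
  have h1 : Real.exp t - 1 ≤ (⌊Real.exp t⌋₊ : ℝ) := by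
    have := Nat.lt_floor_add_one (Real.exp t)
    linarith
  have h2 : Real.exp t = Real.exp (t / 2) * Real.exp (t / 2) := by
    rw [← Real.exp_add]; congr 1; ring
  have h3 : 2 ≤ Real.exp (t / 2) := by
    have := Real.add_one_le_exp (t / 2)
    linarith
  nlinarith

end EV4

open EV4 in
theorem EV4_thm : Stmt_EV4 := by
  classical
  rintro ⟨C2, hC2, h2⟩ ⟨C3, hC3, h3⟩ ⟨C5, hC5, h5⟩
  -- the constant
  have hlim : ∃ X0 : ℕ, 2 ≤ X0 ∧ ∀ X : ℕ, X0 ≤ X → (10 : ℝ) ≤ (Real.log X) ^ (1 / 3 : ℝ) := by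
    have h : Filter.Tendsto (fun X : ℕ => (Real.log X) ^ (1 / 3 : ℝ)) Filter.atTop Filter.atTop :=
      (tendsto_rpow_atTop (by norm_num)).comp
        (Real.tendsto_log_atTop.comp tendsto_natCast_atTop_atTop)
    obtain ⟨X0, h0⟩ := Filter.eventually_atTop.1 (h.eventually_ge_atTop 10)
    exact ⟨max X0 2, le_max_right _ _, fun X hX => h0 X ((le_max_left _ _).trans hX)⟩
  obtain ⟨X0, hX02, hX0⟩ := hlim
  refine ⟨2 * C3 + 14 * (C2 * C5) + 4 + (Real.log X0) ^ (1 / 3 : ℝ) + 1, by positivity, ?_⟩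
  intro X hX2
  have hlogpos : 0 < Real.log X := Real.log_pos (by exact_mod_cast hX2)
  have hXr : (0 : ℝ) < X := by exact_mod_cast (by omega : 0 < X)
  set s : ℝ := (Real.log X) ^ (1 / 3 : ℝ) with hs
  have hspos : 0 < s := Real.rpow_pos_of_pos hlogpos _
  have hs3 : s ^ 3 = Real.log X := by
    rw [hs, ← Real.rpow_natCast, ← Real.rpow_mul hlogpos.le]
    norm_num
  have hcardX : ((SE X).card : ℝ) ≤ X := by
    have h1 : (SE X).card ≤ X := by
      unfold SE
      refine (Finset.card_filter_le _ _).trans ?_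
      rw [Nat.card_Icc]
      omega
    exact_mod_cast h1
  rcases Nat.lt_or_ge X X0 with hlt | hge
  · -- small `X`
    have h1 : s ≤ (Real.log X0) ^ (1 / 3 : ℝ) := by
      rw [hs]
      apply Real.rpow_le_rpow hlogpos.le _ (by norm_num)
      apply Real.log_le_log hXr
      exact_mod_cast hlt.le
    rw [le_div_iff₀ hspos]
    calc ((SE X).card : ℝ) * s ≤ X * s := by gcongr
      _ ≤ X * (Real.log X0) ^ (1 / 3 : ℝ) := by gcongr
      _ = (Real.log X0) ^ (1 / 3 : ℝ) * X := by ring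
      _ ≤ (2 * C3 + 14 * (C2 * C5) + 4 + (Real.log X0) ^ (1 / 3 : ℝ) + 1) * X := by
          gcongr
          have : 0 < C2 * C5 := by positivity
          linarith
  · have hs10 : 10 ≤ s := hX0 X hge
    have hXexp : (X : ℝ) = Real.exp (s ^ 3) := by rw [hs3, Real.exp_log hXr]
    -- parameters
    set y : ℕ := ⌊Real.exp s⌋₊ with hy
    set z : ℕ := ⌊Real.exp (s ^ 3 / 24)⌋₊ with hz
    set M : ℕ := ⌊Real.exp (s ^ 3 / 4)⌋₊ with hM
    have hs2 : (100 : ℝ) ≤ s ^ 2 := by nlinarith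
    have hs31 : 100 * s ≤ s ^ 3 := by nlinarith
    have hyge : Real.exp (s / 2) ≤ y := floor_ge (by linarith)
    have hzge : Real.exp (s ^ 3 / 24 / 2) ≤ z := floor_ge (by linarith)
    have hMge : Real.exp (s ^ 3 / 4 / 2) ≤ M := floor_ge (by linarith)
    have hyle : (y : ℝ) ≤ Real.exp s := Nat.floor_le (Real.exp_pos _).le
    have hzle : (z : ℝ) ≤ Real.exp (s ^ 3 / 24) := Nat.floor_le (Real.exp_pos _).le
    have hMle : (M : ℝ) ≤ Real.exp (s ^ 3 / 4) := Nat.floor_le (Real.exp_pos _).le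
    have hexp2 : ∀ t : ℝ, 1 ≤ t → (2 : ℝ) ≤ Real.exp t := by
      intro t ht
      have := Real.add_one_le_exp t
      linarith
    have hy2 : 2 ≤ y := by
      have h1 : (2 : ℝ) ≤ y := (hexp2 _ (by linarith)).trans hyge
      exact_mod_cast h1
    have hz2 : 2 ≤ z := by
      have h1 : (2 : ℝ) ≤ z := (hexp2 _ (by linarith)).trans hzge
      exact_mod_cast h1
    have hM2 : 2 ≤ M := by
      have h1 : (2 : ℝ) ≤ M := (hexp2 _ (by linarith)).trans hMge
      exact_mod_cast h1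
    have hyr : (0 : ℝ) < y := by exact_mod_cast (by omega : 0 < y)
    have hzr : (0 : ℝ) < z := by exact_mod_cast (by omega : 0 < z)
    have hMr : (0 : ℝ) < M := by exact_mod_cast (by omega : 0 < M)
    have hlogy : s / 2 ≤ Real.log y := by
      rw [Real.le_log_iff_exp_le hyr]; exact hyge
    have hlogy' : Real.log y ≤ s := by
      rw [Real.log_le_iff_le_exp hyr]; exact hyle
    have hlogz : s ^ 3 / 48 ≤ Real.log z := by
      rw [Real.le_log_iff_exp_le hzr]
      convert hzge using 2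
      ring
    -- the small exceptional terms
    have hE : ∀ t : ℝ, t ≤ 3 / 4 * s ^ 3 → Real.exp t ≤ X / s := by
      intro t ht
      rw [le_div_iff₀ hspos, hXexp]
      have h1 : s ≤ Real.exp (s ^ 3 / 4) := by
        have := Real.add_one_le_exp (s ^ 3 / 4)
        nlinarith
      calc Real.exp t * s ≤ Real.exp (3 / 4 * s ^ 3) * Real.exp (s ^ 3 / 4) := by
            gcongr
        _ = Real.exp (s ^ 3) := by
            rw [← Real.exp_add]; congr 1; ring
    -- the three parts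
    set A : Finset ℕ := (Icc 2 X).filter (fun n => ∀ w : ℕ, w.Prime → w ∣ n - 1 → y < w) with hA
    set B1 : Finset ℕ := (SE X).filter (fun n => ∃ w : ℕ, w.Prime ∧ w ≠ 2 ∧ w ≤ y ∧
      ∃ m : ℕ, 1 ≤ m ∧ m ≤ M ∧ ∃ r ∈ QRset w (X / m ^ 2), m ^ 2 * r ≡ 1 [MOD w] ∧
        n = m ^ 2 * r) with hB1
    set B2 : Finset ℕ := (SE X).filter (fun n => ∃ m : ℕ, M < m ∧ m ^ 2 ∣ n) with hB2
    have hsub : SE X ⊆ A ∪ (B1 ∪ B2) := by
      intro n hn
      have hn' := hn
      unfold SE at hn'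
      rw [mem_filter, mem_Icc] at hn'
      obtain ⟨⟨hn2, hnX⟩, heven, hsq⟩ := hn'
      by_cases hall : ∀ w : ℕ, w.Prime → w ∣ n - 1 → y < w
      · apply mem_union_left
        rw [hA, mem_filter, mem_Icc]
        exact ⟨⟨hn2, hnX⟩, hall⟩
      · apply mem_union_right
        push Not at hall
        obtain ⟨w, hw, hwn, hwy⟩ := hall
        have hw2 : w ≠ 2 := by
          rintro rfl
          obtain ⟨k, hk⟩ := heven
          obtain ⟨l, hl⟩ := hwn
          omega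
        obtain ⟨m, hm1, hmn, r, hr, hmr, hnr⟩ := decomp hn2 hnX hw hwn hsq
        rcases Nat.lt_or_ge M m with hMm | hMm
        · apply mem_union_right
          rw [hB2, mem_filter]
          exact ⟨hn, m, hMm, hmn⟩
        · apply mem_union_left
          rw [hB1, mem_filter]
          exact ⟨hn, w, hw, hw2, hwy, m, hm1, hMm, r, hr, hmr, hnr⟩
    have hcardU : ((SE X).card : ℝ) ≤ A.card + (B1.card + B2.card) := by
      have h1 : (SE X).card ≤ A.card + (B1.card + B2.card) := by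
        refine (Finset.card_le_card hsub).trans ((Finset.card_union_le _ _).trans ?_)
        have := Finset.card_union_le B1 B2
        omega
      exact_mod_cast h1
    -- part A
    have hAle : (A.card : ℝ) ≤ 2 * C3 * (X / s) + X / s := by
      have h1 := h3 X y hy2
      have h2' : (X : ℝ) / Real.log y ≤ X / (s / 2) := by
        gcongr
      have h3' : (X : ℝ) / (s / 2) = 2 * (X / s) := by
        field_simp
      have h4 : (y : ℝ) ^ 6 ≤ X / s := by
        calc (y : ℝ) ^ 6 ≤ (Real.exp s) ^ 6 := by gcongr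
          _ = Real.exp (6 * s) := by rw [← Real.exp_nat_mul]; norm_num
          _ ≤ X / s := hE _ (by linarith)
      calc (A.card : ℝ) ≤ C3 * (X / Real.log y) + (y : ℝ) ^ 6 := by
            convert h1 using 3
        _ ≤ C3 * (2 * (X / s)) + X / s := by
            rw [← h3']
            gcongr
        _ = 2 * C3 * (X / s) + X / s := by ring
    -- part B2
    have hB2le : (B2.card : ℝ) ≤ 2 * (X / s) := by
      have h1 := card_sq_le X M (by omega) B2 (by
        intro n hn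
        rw [hB2, mem_filter] at hn
        obtain ⟨hn1, m, hm, hmn⟩ := hn
        unfold SE at hn1
        rw [mem_filter, mem_Icc] at hn1
        exact ⟨by omega, hn1.1.2, m, hm, hmn⟩)
      refine h1.trans ?_
      have hMge2 : Real.exp (s ^ 3 / 4) / 2 ≤ M := by
        have h2' : Real.exp (s ^ 3 / 4) - 1 ≤ M := by
          have := Nat.lt_floor_add_one (Real.exp (s ^ 3 / 4))
          linarith
        have h3' := hexp2 (s ^ 3 / 4) (by linarith)
        linarith
      calc (X : ℝ) / M ≤ X / (Real.exp (s ^ 3 / 4) / 2) := by gcongr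
        _ = 2 * Real.exp (3 / 4 * s ^ 3) := by
            rw [hXexp]
            have h4 : Real.exp (s ^ 3) = Real.exp (3 / 4 * s ^ 3) * Real.exp (s ^ 3 / 4) := by
              rw [← Real.exp_add]; congr 1; ring
            rw [h4]
            have := (Real.exp_pos (s ^ 3 / 4)).ne'
            field_simp
        _ ≤ 2 * (X / s) := by
            gcongr
            exact hE _ le_rfl
    -- part B1
    have hB1le : (B1.card : ℝ) ≤ 14 * (C2 * C5) * (X / s) + X / s := by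
      have h1 := card_B1_le (C5 := C5) hC2 h2 h5 (X := X) (M := M) hy2 hz2 B1 (by
        intro n hn
        rw [hB1, mem_filter] at hn
        exact hn.2)
      refine h1.trans ?_
      have h4 : (y : ℝ) * M * (z : ℝ) ^ 6 ≤ X / s := by
        calc (y : ℝ) * M * (z : ℝ) ^ 6
            ≤ Real.exp s * Real.exp (s ^ 3 / 4) * (Real.exp (s ^ 3 / 24)) ^ 6 := by gcongr
          _ = Real.exp (s + s ^ 3 / 4 + s ^ 3 / 4) := by
              rw [← Real.exp_nat_mul, ← Real.exp_add, ← Real.exp_add]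
              congr 1
              push_cast
              ring
          _ ≤ X / s := hE _ (by linarith)
      have h5' : Real.sqrt (Real.log y) ≤ Real.sqrt s := Real.sqrt_le_sqrt hlogy'
      have h6 : s * Real.sqrt s / 7 ≤ Real.sqrt (Real.log z) := by
        apply Real.le_sqrt_of_sq_le
        have h7 : (s * Real.sqrt s / 7) ^ 2 = s ^ 3 / 49 := by
          rw [div_pow, mul_pow, Real.sq_sqrt hspos.le]
          ring
        rw [h7]
        refine le_trans ?_ hlogz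
        have : 0 < s ^ 3 := by positivity
        linarith
      have hsq : 0 < Real.sqrt s := Real.sqrt_pos.2 hspos
      have h8 : C2 * (X / Real.sqrt (Real.log z)) * (2 * (C5 * Real.sqrt (Real.log y))) ≤
          C2 * (X / (s * Real.sqrt s / 7)) * (2 * (C5 * Real.sqrt s)) := by
        gcongr
      have h9 : C2 * (X / (s * Real.sqrt s / 7)) * (2 * (C5 * Real.sqrt s)) =
          14 * (C2 * C5) * (X / s) := by
        field_simp
        ring
      linarith
    -- conclusion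
    have hXs : 0 < (X : ℝ) / s := by positivity
    have hlog0 : 0 ≤ (Real.log X0) ^ (1 / 3 : ℝ) :=
      Real.rpow_nonneg (Real.log_natCast_nonneg X0) _
    calc ((SE X).card : ℝ) ≤ A.card + (B1.card + B2.card) := hcardU
      _ ≤ (2 * C3 + 14 * (C2 * C5) + 4) * (X / s) := by nlinarith
      _ ≤ (2 * C3 + 14 * (C2 * C5) + 4 + (Real.log X0) ^ (1 / 3 : ℝ) + 1) * (X / s) :=
          mul_le_mul_of_nonneg_right (by linarith) hXs.le
      _ = (2 * C3 + 14 * (C2 * C5) + 4 + (Real.log X0) ^ (1 / 3 : ℝ) + 1) * X / s := by ring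

end Pool.Agent.ADS
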