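import Mathlib
import Pool.Agent.ADS.Defs

/-!
# Project ADS (MP_43d07b_co): statements of the modules
-/

set_option autoImplicit false

namespace Pool.Agent.ADS

open Finset

/-- MULT: the multiplier theorem. -/
def Stmt_MULT : Prop :=
  ∀ (G : Type) [CommGroup G] (n : ℕ) (N : Subgroup G) (D : Finset G),
    IsAffineDifferenceSet n N D → ∀ p : ℕ, p.Prime → p ∣ n →
      ∃ g : G, ∀ d ∈ D, ∃ e ∈ D, d ^ p = g * e

/-- KEY: the order condition. -/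
def Stmt_KEY : Prop := ∀ n : ℕ, AbelianOrder n → KC n

/-- CASES: every counted `n` is in one of the exceptional sets. -/
def Stmt_CASES : Prop :=
  ∃ X0 : ℕ, ∀ X : ℕ, X0 ≤ X →
    S0 X ⊆ E1 X ∪ E2 X ∪ E3 X ∪ E4 X ∪ E5a X ∪ E5b X ∪ E6a X ∪ E6b X

/-- The bound for an exceptional set. -/
def Small (E : ℕ → Finset ℕ) : Prop :=
  ∃ C : ℝ, ∃ X0 : ℕ, ∀ X : ℕ, X0 ≤ X → ((E X).card : ℝ) ≤ C * (X / pv X ^ 8)

def Stmt_E1 : Prop := Small E1
def Stmt_E2 : Prop := Small E2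
def Stmt_E3 : Prop := Small E3
def Stmt_E4 : Prop := Small E4
def Stmt_E5a : Prop := Small E5a
def Stmt_E5b : Prop := Small E5b
def Stmt_E6a : Prop := Small E6a
def Stmt_E6b : Prop := Small E6b

/-- BOSE: every prime is the order of a cyclic affine difference set. -/
def Stmt_BOSE : Prop := ∀ p : ℕ, p.Prime → CyclicOrder p

/-- The main theorem. -/
def MainStatement : Prop :=
  ∃ C : ℝ, ∀ x : ℝ, 2 ≤ x →
    (Nat.primeCounting ⌊x⌋₊ : ℝ) ≤ ({n : ℕ | (n : ℝ) ≤ x ∧ CyclicOrder n}.ncard : ℝ) ∧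
    ({n : ℕ | (n : ℝ) ≤ x ∧ AbelianOrder n}.ncard : ℝ) ≤
      Nat.primeCounting ⌊x⌋₊ + C * x / Real.log x ^ 2

/-- FINAL: the assembly. -/
def Stmt_FINAL : Prop :=
  Stmt_KEY → Stmt_CASES → Stmt_E1 → Stmt_E2 → Stmt_E3 → Stmt_E4 → Stmt_E5a → Stmt_E5b →
    Stmt_E6a → Stmt_E6b → Stmt_BOSE → MainStatement

/-! ### Common tools (proved in `Tools.lean`) -/

/-- `log X = v^4`, for `X ≥ 1`. -/
def Stmt_LOG : Prop := ∀ X : ℕ, 1 ≤ X → Real.log X = pv X ^ 4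

/-- `v → ∞`. -/
def Stmt_VTEND : Prop := Filter.Tendsto pv Filter.atTop Filter.atTop

end Pool.Agent.ADS
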