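import Mathlib
import Pool.Agent.ADS.Stmts

/-!
# Project ADS: affine difference sets of prime order in cyclic groups (Bose)
-/

set_option autoImplicit false

namespace Pool.Agent.ADS

open Finset

namespace BOSE

theorem cyclicOrder (p : ℕ) [Fact p.Prime] : CyclicOrder p := by
  classical
  have hp : p.Prime := Fact.out
  let F := GaloisField p 2
  let ι : ZMod p →+* F := algebraMap (ZMod p) F
  have hι : Function.Injective ι := ι.injective
  have hcF : Nat.card F = p ^ 2 := GaloisField.card p 2 two_ne_zero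
  have hfin : Finite F := Nat.finite_of_card_ne_zero (by rw [hcF]; exact pow_ne_zero 2 hp.ne_zero)
  have : Fintype F := Fintype.ofFinite F
  have hcF' : Fintype.card F = p ^ 2 := by rw [← Nat.card_eq_fintype_card, hcF]
  -- an element outside of the prime field
  obtain ⟨θ, hθ⟩ : ∃ θ : F, ∀ x : ZMod p, ι x ≠ θ := by
    by_contra hcon
    push Not at hcon
    have hsurj : Function.Surjective ι := hcon
    have h1 := Fintype.card_le_of_surjective ι hsurj
    rw [hcF', ZMod.card] at h1
    have h2 := hp.two_le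
    nlinarith
  have hne : ∀ a : ZMod p, θ + ι a ≠ 0 := by
    intro a h
    apply hθ (-a)
    rw [map_neg]
    linear_combination -h
  let d : ZMod p → Fˣ := fun a => Units.mk0 (θ + ι a) (hne a)
  have hd : ∀ a, ((d a : Fˣ) : F) = θ + ι a := fun a => rfl
  have hdinj : Function.Injective d := by
    intro a b hab
    have h1 : ((d a : Fˣ) : F) = d b := by rw [hab]
    rw [hd, hd] at h1
    exact hι (add_left_cancel h1)
  let N : Subgroup Fˣ := (Units.map ι.toMonoidHom).range
  have hN : ∀ g : Fˣ, g ∈ N ↔ ∃ x : ZMod p, ι x = g := by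
    intro g
    constructor
    · rintro ⟨u, rfl⟩
      exact ⟨u, rfl⟩
    · rintro ⟨x, hx⟩
      have hx0 : x ≠ 0 := by
        rintro rfl
        rw [map_zero] at hx
        exact g.ne_zero hx.symm
      refine ⟨Units.mk0 x hx0, Units.ext ?_⟩
      exact hx
  refine ⟨Fˣ, inferInstance, inferInstance, N, univ.map ⟨d, hdinj⟩, ?_⟩
  refine ⟨hp.two_le, ?_, ?_, ?_, ?_, ?_⟩
  · rw [Nat.card_units, hcF]
  · have h1 : Function.Injective (Units.map ι.toMonoidHom) := Units.map_injective hι
    have h2 : Nat.card N = Nat.card (ZMod p)ˣ :=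
      (Nat.card_congr (MonoidHom.ofInjective h1).toEquiv).symm
    rw [h2, Nat.card_units, Nat.card_zmod]
  · rw [card_map, card_univ, ZMod.card]
  · intro g hg
    have hg' : ∀ x : ZMod p, ι x ≠ (g : F) := by
      intro x hx
      exact hg ((hN g).mpr ⟨x, hx⟩)
    let φ : ZMod p × ZMod p → F := fun q => ι q.1 - g * ι q.2
    have hφinj : Function.Injective φ := by
      rintro ⟨a, b⟩ ⟨a', b'⟩ h
      have h1 : ι a - g * ι b = ι a' - g * ι b' := h
      have h2 : ι (a - a') = g * ι (b - b') := by
        rw [map_sub, map_sub]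
        linear_combination h1
      by_cases hb : b = b'
      · subst hb
        rw [sub_self, map_zero, mul_zero] at h2
        have h3 : a - a' = 0 := hι (by rw [h2, map_zero])
        rw [sub_eq_zero.mp h3]
      · exfalso
        have hb' : ι (b - b') ≠ 0 := by
          intro h0
          exact hb (sub_eq_zero.mp (hι (by rw [h0, map_zero])))
        apply hg' ((a - a') / (b - b'))
        rw [map_div₀, h2, mul_div_cancel_right₀ _ hb']
    have hφbij : Function.Bijective φ := by
      rw [Fintype.bijective_iff_injective_and_card]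
      refine ⟨hφinj, ?_⟩
      rw [Fintype.card_prod, ZMod.card, hcF', sq]
    obtain ⟨⟨a, b⟩, hab⟩ := hφbij.2 (θ * (g - 1))
    have hab' : ι a - g * ι b = θ * (g - 1) := hab
    have key : ∀ x y : ZMod p, d x * (d y)⁻¹ = g ↔ φ (x, y) = θ * (g - 1) := by
      intro x y
      rw [mul_inv_eq_iff_eq_mul, Units.ext_iff, Units.val_mul, hd, hd]
      change _ ↔ ι x - g * ι y = θ * (g - 1)
      constructor
      · intro h
        linear_combination h
      · intro h
        linear_combination h
    refine ⟨(d a, d b), ⟨mem_map_of_mem _ (mem_univ a), mem_map_of_mem _ (mem_univ b),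
      (key a b).mpr hab⟩, ?_⟩
    rintro ⟨u, v⟩ ⟨hu, hv, huv⟩
    obtain ⟨x, -, rfl⟩ := mem_map.mp hu
    obtain ⟨y, -, rfl⟩ := mem_map.mp hv
    have h3 : φ (x, y) = φ (a, b) := by
      rw [hab]
      exact (key x y).mp huv
    have h4 := hφinj h3
    rw [Prod.mk.injEq] at h4
    obtain ⟨rfl, rfl⟩ := h4
    rfl
  · intro g hg hg1 u hu v hv huv
    obtain ⟨x, hx⟩ := (hN g).mp hg
    obtain ⟨a, -, rfl⟩ := mem_map.mp hu
    obtain ⟨b, -, rfl⟩ := mem_map.mp hv
    change d a * (d b)⁻¹ = g at huv
    rw [mul_inv_eq_iff_eq_mul, Units.ext_iff, Units.val_mul, hd, hd, ← hx] at huv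
    have hx1 : x ≠ 1 := by
      rintro rfl
      apply hg1
      rw [Units.ext_iff, ← hx, map_one, Units.val_one]
    have hx1' : ι (1 - x) ≠ 0 := by
      intro h0
      exact hx1 (sub_eq_zero.mp (hι (by rw [h0, map_zero]))).symm
    apply hθ ((x * b - a) / (1 - x))
    rw [map_div₀, div_eq_iff hx1', map_sub, map_sub, map_mul, map_one]
    linear_combination -huv

end BOSE

theorem BOSE_thm : Stmt_BOSE := by
  intro p hp
  have : Fact p.Prime := ⟨hp⟩
  exact BOSE.cyclicOrder p

end Pool.Agent.ADS
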