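import Pool.Agent.ADS.EvStmts

/-!
# EV5: a weighted sum over primes
-/

set_option autoImplicit false

namespace Pool.Agent.ADS

open Finset

namespace EV5

/-- the term -/
noncomputable def f (w : ℕ) : ℝ := Real.sqrt (Real.log w) / w

theorem f_nonneg (w : ℕ) : 0 ≤ f w := by unfold f; positivity

theorem theta_bound (x : ℕ) :
    ∑ w ∈ (Icc 1 x).filter Nat.Prime, Real.log w ≤ Real.log 4 * x := by
  have h := Chebyshev.theta_le_log4_mul_x (x := (x : ℝ)) (by positivity)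
  rw [Chebyshev.theta] at h
  rw [Nat.floor_natCast] at h
  refine le_trans (le_of_eq ?_) h
  refine Finset.sum_congr ?_ fun _ _ => rfl
  ext w
  simp only [mem_filter, mem_Icc, mem_Ioc]
  constructor
  · rintro ⟨⟨h1, h2⟩, h3⟩
    exact ⟨⟨by omega, h2⟩, h3⟩
  · rintro ⟨⟨h1, h2⟩, h3⟩
    exact ⟨⟨by omega, h2⟩, h3⟩

/-- the block -/
noncomputable def blk (m : ℕ) : Finset ℕ := (Ioc (2 ^ m) (2 ^ (m + 1))).filter Nat.Prime

theorem blk_bound (m : ℕ) (hm : 1 ≤ m) :
    ∑ w ∈ blk m, f w ≤ Real.sqrt (Real.log 2) * (4 / Real.sqrt m) := by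
  have hl2 : 0 < Real.log 2 := Real.log_pos (by norm_num)
  have hm0 : (0 : ℝ) < m := by exact_mod_cast hm
  have hs : 0 < Real.sqrt (m * Real.log 2) := Real.sqrt_pos.2 (by positivity)
  have h2m : (0 : ℝ) < 2 ^ m := by positivity
  have h1 : ∀ w ∈ blk m, f w ≤ 1 / (2 ^ m * Real.sqrt (m * Real.log 2)) * Real.log w := by
    intro w hw
    unfold blk at hw
    rw [mem_filter, mem_Ioc] at hw
    obtain ⟨⟨hw1, hw2⟩, hw3⟩ := hw
    have hwr : (2 : ℝ) ^ m ≤ w := by exact_mod_cast hw1.le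
    have hw0 : (0 : ℝ) < w := lt_of_lt_of_le h2m hwr
    have hlog : m * Real.log 2 ≤ Real.log w := by
      rw [← Real.log_pow]
      exact Real.log_le_log h2m hwr
    have hlw : 0 < Real.log w := lt_of_lt_of_le (by positivity) hlog
    have hsq : Real.sqrt (m * Real.log 2) ≤ Real.sqrt (Real.log w) := Real.sqrt_le_sqrt hlog
    have e1 : Real.sqrt (Real.log w) * Real.sqrt (Real.log w) = Real.log w :=
      Real.mul_self_sqrt hlw.le
    unfold f
    rw [div_le_iff₀ hw0]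
    have e2 : 1 / (2 ^ m * Real.sqrt (m * Real.log 2)) * Real.log w * w =
        (w / 2 ^ m) * (Real.sqrt (Real.log w) / Real.sqrt (m * Real.log 2)) *
          Real.sqrt (Real.log w) := by
      rw [← e1]
      rw [Real.sqrt_mul_self (Real.sqrt_nonneg _)]
      field_simp
    rw [e2]
    have h3 : 1 ≤ (w : ℝ) / 2 ^ m := by rw [le_div_iff₀ h2m]; linarith
    have h4 : 1 ≤ Real.sqrt (Real.log w) / Real.sqrt (m * Real.log 2) := by
      rw [le_div_iff₀ hs]; linarith
    have h5 : 1 ≤ (w : ℝ) / 2 ^ m * (Real.sqrt (Real.log w) / Real.sqrt (m * Real.log 2)) := by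
      nlinarith
    nlinarith [Real.sqrt_nonneg (Real.log w)]
  have h2 : ∑ w ∈ blk m, Real.log w ≤ Real.log 4 * 2 ^ (m + 1) := by
    have h := theta_bound (2 ^ (m + 1))
    push_cast at h
    refine le_trans ?_ h
    refine Finset.sum_le_sum_of_subset_of_nonneg ?_ ?_
    · intro w hw
      unfold blk at hw
      rw [mem_filter, mem_Ioc] at hw
      rw [mem_filter, mem_Icc]
      exact ⟨⟨hw.2.one_lt.le, hw.1.2⟩, hw.2⟩
    · intro w hw _
      rw [mem_filter] at hw
      exact Real.log_nonneg (by exact_mod_cast hw.2.one_lt.le)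
  calc ∑ w ∈ blk m, f w ≤ ∑ w ∈ blk m, 1 / (2 ^ m * Real.sqrt (m * Real.log 2)) * Real.log w :=
        Finset.sum_le_sum h1
    _ = 1 / (2 ^ m * Real.sqrt (m * Real.log 2)) * ∑ w ∈ blk m, Real.log w := by
        rw [Finset.mul_sum]
    _ ≤ 1 / (2 ^ m * Real.sqrt (m * Real.log 2)) * (Real.log 4 * 2 ^ (m + 1)) :=
        mul_le_mul_of_nonneg_left h2 (by positivity)
    _ = Real.sqrt (Real.log 2) * (4 / Real.sqrt m) := by
        have e4 : Real.log 4 = 2 * Real.log 2 := by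
          rw [show (4 : ℝ) = 2 ^ 2 by norm_num, Real.log_pow]
          norm_num
        have e5 : Real.sqrt (m * Real.log 2) = Real.sqrt m * Real.sqrt (Real.log 2) :=
          Real.sqrt_mul hm0.le _
        have e6 : Real.sqrt (Real.log 2) * Real.sqrt (Real.log 2) = Real.log 2 :=
          Real.mul_self_sqrt hl2.le
        have h7 : 0 < Real.sqrt m := Real.sqrt_pos.2 hm0
        have h8 : 0 < Real.sqrt (Real.log 2) := Real.sqrt_pos.2 hl2
        rw [e4, e5, pow_succ, ← e6]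
        rw [Real.sqrt_mul_self h8.le]
        field_simp
        norm_num

theorem pow_bound (m : ℕ) (hm : 1 ≤ m) :
    ∑ w ∈ (Icc 1 (2 ^ m)).filter Nat.Prime, f w ≤
      Real.sqrt (Real.log 2) * (1 / 2 + 8 * Real.sqrt ((m : ℝ) - 1)) := by
  induction m, hm using Nat.le_induction with
  | base =>
    have h : (Icc 1 (2 ^ 1)).filter Nat.Prime = {2} := by decide
    rw [h, Finset.sum_singleton]
    unfold f
    norm_num
    linarith
  | succ m hm ih =>
    have hm0 : (0 : ℝ) < m := by exact_mod_cast hm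
    have hm1 : (1 : ℝ) ≤ m := by exact_mod_cast hm
    have hsplit : (Icc 1 (2 ^ (m + 1))).filter Nat.Prime =
        (Icc 1 (2 ^ m)).filter Nat.Prime ∪ blk m := by
      have h2 : 2 ^ m ≤ 2 ^ (m + 1) := Nat.pow_le_pow_right (by norm_num) (by omega)
      ext w
      unfold blk
      simp only [mem_union, mem_filter, mem_Icc, mem_Ioc]
      constructor
      · rintro ⟨⟨h3, h4⟩, h5⟩
        rcases Nat.lt_or_ge (2 ^ m) w with h | h
        · exact Or.inr ⟨⟨h, h4⟩, h5⟩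
        · exact Or.inl ⟨⟨h3, h⟩, h5⟩
      · rintro (⟨⟨h3, h4⟩, h5⟩ | ⟨⟨h3, h4⟩, h5⟩)
        · exact ⟨⟨h3, h4.trans h2⟩, h5⟩
        · exact ⟨⟨h5.one_lt.le, h4⟩, h5⟩
    have hU : ∑ w ∈ (Icc 1 (2 ^ (m + 1))).filter Nat.Prime, f w ≤
        ∑ w ∈ (Icc 1 (2 ^ m)).filter Nat.Prime, f w + ∑ w ∈ blk m, f w := by
      rw [hsplit]
      have := Finset.sum_union_inter (s₁ := (Icc 1 (2 ^ m)).filter Nat.Prime) (s₂ := blk m) (f := f)
      have h0 : 0 ≤ ∑ w ∈ ((Icc 1 (2 ^ m)).filter Nat.Prime) ∩ blk m, f w :=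
        Finset.sum_nonneg fun w _ => f_nonneg w
      linarith
    have hb := blk_bound m hm
    have hs0 : 0 < Real.sqrt (Real.log 2) := Real.sqrt_pos.2 (Real.log_pos (by norm_num))
    have key : 8 * Real.sqrt ((m : ℝ) - 1) + 4 / Real.sqrt m ≤ 8 * Real.sqrt m := by
      have h1 : 0 < Real.sqrt m := Real.sqrt_pos.2 hm0
      have h2 : 0 ≤ Real.sqrt ((m : ℝ) - 1) := Real.sqrt_nonneg _
      have h3 : Real.sqrt ((m : ℝ) - 1) ^ 2 = m - 1 := Real.sq_sqrt (by linarith)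
      have h4 : Real.sqrt m ^ 2 = m := Real.sq_sqrt hm0.le
      have h5 : 4 / Real.sqrt m * Real.sqrt m = 4 := by field_simp
      by_contra hcon
      push_neg at hcon
      have h6 : 8 * Real.sqrt m * Real.sqrt m <
          (8 * Real.sqrt ((m : ℝ) - 1) + 4 / Real.sqrt m) * Real.sqrt m :=
        mul_lt_mul_of_pos_right hcon h1
      nlinarith [sq_nonneg (Real.sqrt m - Real.sqrt ((m : ℝ) - 1))]
    have e : ((m + 1 : ℕ) : ℝ) - 1 = m := by push_cast; ring
    rw [e]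
    nlinarith

end EV5

theorem EV5_thm : Stmt_EV5 := by
  refine ⟨9, by norm_num, fun y hy => ?_⟩
  set K := Nat.log 2 y with hK
  have hy1 : 2 ^ K ≤ y := Nat.pow_log_le_self 2 (by omega)
  have hy2 : y < 2 ^ (K + 1) := Nat.lt_pow_succ_log_self (by norm_num) y
  have hl2 : 0 < Real.log 2 := Real.log_pos (by norm_num)
  have h1 : ∑ w ∈ (Icc 1 y).filter Nat.Prime, EV5.f w ≤
      ∑ w ∈ (Icc 1 (2 ^ (K + 1))).filter Nat.Prime, EV5.f w := by
    refine Finset.sum_le_sum_of_subset_of_nonneg ?_ fun w _ _ => EV5.f_nonneg w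
    intro w hw
    rw [mem_filter, mem_Icc] at hw ⊢
    exact ⟨⟨hw.1.1, hw.1.2.trans hy2.le⟩, hw.2⟩
  have h2 := EV5.pow_bound (K + 1) (by omega)
  have e : ((K + 1 : ℕ) : ℝ) - 1 = K := by push_cast; ring
  rw [e] at h2
  have hyr : (2 : ℝ) ≤ y := by exact_mod_cast hy
  have h3 : Real.sqrt (Real.log 2) ≤ Real.sqrt (Real.log y) :=
    Real.sqrt_le_sqrt (Real.log_le_log (by norm_num) hyr)
  have h4 : Real.sqrt (Real.log 2) * Real.sqrt K ≤ Real.sqrt (Real.log y) := by
    rw [← Real.sqrt_mul hl2.le]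
    refine Real.sqrt_le_sqrt ?_
    have h5 : Real.log ((2 : ℝ) ^ K) ≤ Real.log y :=
      Real.log_le_log (by positivity) (by exact_mod_cast hy1)
    rw [Real.log_pow] at h5
    linarith
  have h6 : 0 ≤ Real.sqrt (Real.log y) := Real.sqrt_nonneg _
  show ∑ w ∈ (Icc 1 y).filter Nat.Prime, EV5.f w ≤ _
  nlinarith

end Pool.Agent.ADS
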