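import Pool.Agent.ADS.EvStmts
import Pool.Agent.Lib_helper72.AP.SelbergBound
import Pool.Agent.Lib_helper72.AP.SumLower

/-!
Modules ADS_EV2, ADS_EV3 of MP_43d07b_co: the Selberg sieve in a residue class, for an arbitrary set of
primes.
-/

set_option autoImplicit false

namespace Pool.Agent.ADS

namespace EV23m

open Finset ArithmeticFunction BoundingSieve

/-- The number of integers in a residue class. -/
theorem count_class (r v Y : ℕ) (hr : 0 < r) :
    |(((Icc 1 Y).filter (fun x => x ≡ v [MOD r])).card : ℝ) - (Y : ℝ) / r| ≤ 1 := by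
  have h0 : Icc 1 Y = Ioc 0 Y := rfl
  have h := Nat.Ioc_filter_modEq_card 0 Y hr v
  rw [h0]
  have hrq : (0 : ℚ) < r := by exact_mod_cast hr
  set A : ℚ := ((Y : ℚ) - v) / r with hA
  set B : ℚ := (((0 : ℕ) : ℚ) - v) / r with hB
  have hAB : A = B + Y / r := by
    rw [hA, hB]
    push_cast
    field_simp
    ring
  have hY : (0 : ℚ) ≤ Y / r := by positivity
  have hfl : ⌊B⌋ ≤ ⌊A⌋ := Int.floor_le_floor (by linarith)
  rw [max_eq_left (by linarith)] at h
  have h1 := Int.floor_le A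
  have h2 := Int.lt_floor_add_one A
  have h3 := Int.floor_le B
  have h4 := Int.lt_floor_add_one B
  have h5 : |((((Ioc 0 Y).filter (fun x => x ≡ v [MOD r])).card : ℤ) : ℚ) - (Y : ℚ) / r| ≤ 1 := by
    rw [h]
    push_cast
    rw [abs_le]
    constructor <;> linarith
  have h6 : ((|((((Ioc 0 Y).filter (fun x => x ≡ v [MOD r])).card : ℤ) : ℚ) - (Y : ℚ) / r| : ℚ) : ℝ)
      ≤ ((1 : ℚ) : ℝ) := Rat.cast_le.mpr h5
  push_cast at h6
  exact h6

theorem count_div (w a Y d : ℕ) (hw : 0 < w) (hd : 0 < d) (hc : Nat.Coprime w d) :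
    |(((Icc 1 Y).filter (fun x => x ≡ a [MOD w] ∧ d ∣ x)).card : ℝ) - (d : ℝ)⁻¹ * ((Y : ℝ) / w)|
      ≤ 1 := by
  obtain ⟨v, hv1, hv2⟩ := Nat.chineseRemainder hc a 0
  have e : (Icc 1 Y).filter (fun x => x ≡ a [MOD w] ∧ d ∣ x) =
      (Icc 1 Y).filter (fun x => x ≡ v [MOD (w * d)]) := by
    ext x
    rw [mem_filter, mem_filter, ← Nat.modEq_and_modEq_iff_modEq_mul hc]
    refine and_congr_right fun _ => and_congr ?_ ?_
    · exact ⟨fun h => h.trans hv1.symm, fun h => h.trans hv1⟩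
    · rw [← Nat.modEq_zero_iff_dvd]
      exact ⟨fun h => h.trans hv2.symm, fun h => h.trans hv2⟩
  have h := count_class (w * d) v Y (Nat.mul_pos hw hd)
  rw [e]
  have hw' : (w : ℝ) ≠ 0 := by positivity
  have hd' : (d : ℝ) ≠ 0 := by positivity
  have e2 : (d : ℝ)⁻¹ * ((Y : ℝ) / w) = (Y : ℝ) / ((w * d : ℕ) : ℝ) := by
    push_cast
    field_simp
  rw [e2]
  exact h

/-- `1 / d` as an arithmetic function. -/
noncomputable def nuA : ArithmeticFunction ℝ := ⟨fun d => ((d : ℝ))⁻¹, by simp⟩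

theorem nuA_apply (d : ℕ) : nuA d = ((d : ℝ))⁻¹ := rfl

theorem nuA_mult : nuA.IsMultiplicative := by
  constructor
  · simp [nuA_apply]
  · intro m n _
    rw [nuA_apply, nuA_apply, nuA_apply]
    push_cast
    rw [mul_inv]

theorem sqf_prod (P : Finset ℕ) (hP : ∀ p ∈ P, p.Prime) : Squarefree (∏ p ∈ P, p) := by
  apply Finset.squarefree_prod_of_pairwise_isCoprime
  · intro p hp q hq hpq
    rw [Function.onFun, ← Nat.coprime_iff_isRelPrime]
    exact (Nat.coprime_primes (hP p hp) (hP q hq)).2 hpq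
  · intro p hp
    exact (hP p hp).prime.squarefree

theorem dvd_prod (P : Finset ℕ) (hP : ∀ p ∈ P, p.Prime) {q : ℕ} (hq : q.Prime)
    (h : q ∣ ∏ p ∈ P, p) : q ∈ P := by
  obtain ⟨p, hp, hqp⟩ := (Prime.dvd_finsetProd_iff hq.prime _).1 h
  rwa [(Nat.prime_dvd_prime_iff_eq hq (hP p hp)).1 hqp]

/-- The sieve. -/
noncomputable def sv (w a Y : ℕ) (P : Finset ℕ) (hP : ∀ p ∈ P, p.Prime) : BoundingSieve where
  support := (Icc 1 Y).filter (fun x => x ≡ a [MOD w])
  prodPrimes := ∏ p ∈ P, p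
  prodPrimes_squarefree := sqf_prod P hP
  weights := fun _ => 1
  weights_nonneg := fun _ => zero_le_one
  totalMass := (Y : ℝ) / w
  nu := nuA
  nu_mult := nuA_mult
  nu_pos_of_prime := by
    intro p hp _
    rw [nuA_apply]
    have := hp.pos
    positivity
  nu_lt_one_of_prime := by
    intro p hp _
    rw [nuA_apply]
    have h1 : (1 : ℝ) < p := by exact_mod_cast hp.one_lt
    exact inv_lt_one_of_one_lt₀ h1

open Classical in
/-- The sum of the reciprocals of the integers with all prime factors in `P`. -/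
noncomputable def RS (P : Finset ℕ) (z : ℕ) : ℝ :=
  ∑ m ∈ (Icc 1 z).filter (fun m => ∀ p : ℕ, p.Prime → p ∣ m → p ∈ P), (1 : ℝ) / m

theorem one_le_RS (P : Finset ℕ) {z : ℕ} (hz : 1 ≤ z) : 1 ≤ RS P z := by
  classical
  have h1 : (1 : ℕ) ∈ (Icc 1 z).filter (fun m => ∀ p : ℕ, p.Prime → p ∣ m → p ∈ P) := by
    rw [mem_filter, mem_Icc]
    refine ⟨⟨le_rfl, hz⟩, fun p hp h => ?_⟩
    exact absurd (Nat.dvd_one.1 h) hp.one_lt.ne'
  have h2 := Finset.single_le_sum (f := fun m : ℕ => (1 : ℝ) / m) (fun i _ => by positivity) h1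
  simpa [RS] using h2

theorem RS_le (w a Y : ℕ) (P : Finset ℕ) (hP : ∀ p ∈ P, p.Prime) (z : ℕ) :
    RS P z ≤ Lib_helper72.AP.selS (sv w a Y P hP) z := by
  classical
  have hset : Lib_helper72.AP.selD (sv w a Y P hP) z =
      ((Icc 1 z).filter Squarefree).filter (fun m => ∀ p : ℕ, p.Prime → p ∣ m → p ∈ P) := by
    ext l
    rw [Lib_helper72.AP.mem_selD, mem_filter, mem_filter, mem_Icc]
    change l ∣ ∏ p ∈ P, p ∧ l ≤ z ↔ _
    constructor
    · rintro ⟨h1, h2⟩
      have h3 := (sqf_prod P hP).ne_zero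
      exact ⟨⟨⟨Nat.pos_of_ne_zero (ne_zero_of_dvd_ne_zero h3 h1), h2⟩,
        Squarefree.squarefree_of_dvd h1 (sqf_prod P hP)⟩, fun p hp hpl => dvd_prod P hP hp (hpl.trans h1)⟩
    · rintro ⟨⟨⟨_, h2⟩, h3⟩, h4⟩
      refine ⟨?_, h2⟩
      rw [← Nat.prod_primeFactors_of_squarefree h3]
      apply Finset.prod_dvd_prod_of_subset
      intro p hp
      exact h4 p (Nat.prime_of_mem_primeFactors hp) (Nat.dvd_of_mem_primeFactors hp)
  have hg : ∀ l ∈ Lib_helper72.AP.selD (sv w a Y P hP) z, (sv w a Y P hP).selbergTerms l =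
      ∏ p ∈ l.primeFactors, ((p : ℝ)⁻¹ * (1 - (p : ℝ)⁻¹)⁻¹) := by
    intro l hl
    rw [selbergTerms_apply, ← prod_primeFactors_nu (Lib_helper72.AP.mem_selD.1 hl).1,
      ← Finset.prod_mul_distrib]
    rfl
  have key := Lib_helper72.AP.sum_fiber_radical z (fun p k => if p ∈ P then ((p : ℝ) ^ k)⁻¹ else 0)
    (fun p => if p ∈ P then (p : ℝ)⁻¹ * (1 - (p : ℝ)⁻¹)⁻¹ else 0)
    (by
      intro p k
      split_ifs
      · positivity
      · exact le_rfl)
    (by
      intro p hp _
      by_cases hpP : p ∈ P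
      · simp only [if_pos hpP]
        have hp1 : (1 : ℝ) < p := by exact_mod_cast hp.one_lt
        set x : ℝ := (p : ℝ)⁻¹ with hx
        have hx0 : 0 < x := by positivity
        have hx1 : x < 1 := inv_lt_one_of_one_lt₀ hp1
        have e : ∀ k ∈ Icc 1 z, ((p : ℝ) ^ k)⁻¹ = x ^ k := fun k _ => by rw [hx, inv_pow]
        rw [Finset.sum_congr rfl e]
        have h3 : ∑ k ∈ Icc 1 z, x ^ k ≤ x * (1 - x)⁻¹ := by
          have h4 : ∀ z : ℕ, ∑ k ∈ Icc 1 z, x ^ k = x * (1 - x)⁻¹ * (1 - x ^ z) := by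
            intro z
            have hne : (1 - x) ≠ 0 := by linarith
            induction z with
            | zero => simp
            | succ z ih =>
              rw [Finset.sum_Icc_succ_top (by omega), ih]
              field_simp
              ring
          rw [h4]
          have h5 : 0 ≤ x ^ z := by positivity
          have h6 : 0 ≤ x * (1 - x)⁻¹ := by
            have : 0 < 1 - x := by linarith
            positivity
          nlinarith
        exact h3
      · simp [hpP])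
  refine le_trans (le_of_eq ?_) (key.trans (le_of_eq ?_))
  · rw [RS, sum_filter]
    refine sum_congr rfl fun m hm => ?_
    rw [mem_Icc] at hm
    by_cases h : ∀ p : ℕ, p.Prime → p ∣ m → p ∈ P
    · rw [if_pos h]
      have e1 : ∀ p ∈ m.primeFactors, (if p ∈ P then ((p : ℝ) ^ m.factorization p)⁻¹ else 0) =
          ((p : ℝ) ^ m.factorization p)⁻¹ := fun p hp => by
        rw [if_pos (h p (Nat.prime_of_mem_primeFactors hp) (Nat.dvd_of_mem_primeFactors hp))]
      rw [prod_congr rfl e1, prod_inv_distrib, one_div]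
      congr 1
      have h2 := Nat.prod_factorization_pow_eq_self (show m ≠ 0 by omega)
      conv_lhs => rw [← h2]
      rw [Finsupp.prod, Nat.support_factorization]
      push_cast
      rfl
    · rw [if_neg h]
      push Not at h
      obtain ⟨p, hp, hpm, hpP⟩ := h
      symm
      apply prod_eq_zero (i := p)
      · rw [Nat.mem_primeFactors]
        exact ⟨hp, hpm, by omega⟩
      · rw [if_neg hpP]
  · rw [Lib_helper72.AP.selS, sum_congr rfl hg, hset, sum_filter (s := (Icc 1 z).filter Squarefree)]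
    refine sum_congr rfl fun m hm => ?_
    rw [mem_filter, mem_Icc] at hm
    by_cases h : ∀ p : ℕ, p.Prime → p ∣ m → p ∈ P
    · rw [if_pos h]
      refine prod_congr rfl fun p hp => ?_
      rw [if_pos (h p (Nat.prime_of_mem_primeFactors hp) (Nat.dvd_of_mem_primeFactors hp))]
    · rw [if_neg h]
      push Not at h
      obtain ⟨p, hp, hpm, hpP⟩ := h
      apply prod_eq_zero (i := p)
      · rw [Nat.mem_primeFactors]
        exact ⟨hp, hpm, by omega⟩
      · rw [if_neg hpP]

/-- The sieve bound in a residue class. -/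
theorem sieve_class (w a Y z : ℕ) (hw : 0 < w) (hz : 1 ≤ z) (P : Finset ℕ)
    (hP : ∀ p ∈ P, p.Prime) (hPw : ∀ p ∈ P, ¬ p ∣ w) (T : Finset ℕ)
    (hT : ∀ x ∈ T, (1 ≤ x ∧ x ≤ Y) ∧ x ≡ a [MOD w] ∧ ∀ p ∈ P, ¬ p ∣ x) :
    (T.card : ℝ) ≤ (Y : ℝ) / w / RS P z + (z : ℝ) ^ 6 := by
  classical
  have hcop : ∀ d, d ∣ (sv w a Y P hP).prodPrimes → Nat.Coprime w d := by
    intro d hd
    rw [Nat.coprime_comm]
    refine Nat.Coprime.coprime_dvd_left hd ?_
    change Nat.Coprime (∏ p ∈ P, p) w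
    exact Nat.Coprime.prod_left fun p hp => ((hP p hp).coprime_iff_not_dvd).2 (hPw p hp)
  have hpos : ∀ d, d ∣ (sv w a Y P hP).prodPrimes → 0 < d := fun d hd =>
    Nat.pos_of_ne_zero (ne_zero_of_dvd_ne_zero prodPrimes_ne_zero hd)
  have h := Lib_helper72.AP.siftedSum_le_selberg (s := sv w a Y P hP) (z := z) hz
    (by
      intro d hd
      change ((d : ℝ)⁻¹)⁻¹ ≤ d
      rw [inv_inv])
    (by
      intro d hd
      have e1 : (sv w a Y P hP).rem d =
          (((Icc 1 Y).filter (fun x => x ≡ a [MOD w] ∧ d ∣ x)).card : ℝ) -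
            (d : ℝ)⁻¹ * ((Y : ℝ) / w) := by
        rw [BoundingSieve.rem, BoundingSieve.multSum]
        change (∑ n ∈ (Icc 1 Y).filter (fun x => x ≡ a [MOD w]), if d ∣ n then (1 : ℝ) else 0) -
          (d : ℝ)⁻¹ * ((Y : ℝ) / w) = _
        rw [← sum_filter, filter_filter]
        simp
      rw [e1]
      refine (count_div w a Y d hw (hpos d hd) (hcop d hd)).trans ?_
      exact_mod_cast hpos d hd)
  have hRS := RS_le w a Y P hP z
  have hR1 := one_le_RS P hz
  have htm : (sv w a Y P hP).totalMass = (Y : ℝ) / w := rfl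
  rw [htm] at h
  have hmain : (Y : ℝ) / w / Lib_helper72.AP.selS (sv w a Y P hP) z ≤ (Y : ℝ) / w / RS P z :=
    div_le_div_of_nonneg_left (by positivity) (by linarith) hRS
  have hs : (((Icc 1 Y).filter (fun x => x ≡ a [MOD w] ∧ ∀ p ∈ P, ¬ p ∣ x)).card : ℝ) =
      (sv w a Y P hP).siftedSum := by
    rw [BoundingSieve.siftedSum]
    change _ = ∑ d ∈ (Icc 1 Y).filter (fun x => x ≡ a [MOD w]),
      if Nat.Coprime (∏ p ∈ P, p) d then (1 : ℝ) else 0
    rw [← sum_filter, filter_filter]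
    simp only [sum_const, nsmul_eq_mul, mul_one]
    congr 2
    ext x
    rw [mem_filter, mem_filter]
    refine and_congr_right fun _ => and_congr_right fun _ => ?_
    constructor
    · intro hx
      exact Nat.Coprime.prod_left fun p hp => ((hP p hp).coprime_iff_not_dvd).2 (hx p hp)
    · intro hx p hp hpx
      have h1 : p ∣ Nat.gcd (∏ p ∈ P, p) x := Nat.dvd_gcd (dvd_prod_of_mem _ hp) hpx
      rw [hx] at h1
      exact (hP p hp).one_lt.ne' (Nat.dvd_one.1 h1)
  have hTc : (T.card : ℝ) ≤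
      (((Icc 1 Y).filter (fun x => x ≡ a [MOD w] ∧ ∀ p ∈ P, ¬ p ∣ x)).card : ℝ) := by
    have hsub : T ⊆ (Icc 1 Y).filter (fun x => x ≡ a [MOD w] ∧ ∀ p ∈ P, ¬ p ∣ x) := by
      intro x hx
      rw [mem_filter, mem_Icc]
      exact hT x hx
    exact_mod_cast card_le_card hsub
  rw [hs] at hTc
  linarith

theorem log_le_harm (z : ℕ) : Real.log z ≤ ∑ m ∈ Icc 1 z, (1 : ℝ) / m := by
  have h := log_add_one_le_harmonic z
  have h1 : ((harmonic z : ℚ) : ℝ) = ∑ m ∈ Icc 1 z, (1 : ℝ) / m := by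
    rw [harmonic_eq_sum_Icc]
    push_cast
    simp
  have h2 : Real.log z ≤ Real.log ((z + 1 : ℕ) : ℝ) := by
    rcases Nat.eq_zero_or_pos z with rfl | hz
    · simp
    · apply Real.log_le_log
      · exact_mod_cast hz
      · push_cast
        linarith
  rw [← h1]
  exact h2.trans h

theorem split (Q : ℕ → Prop) (k : ℕ) : k ≠ 0 → ∃ m n : ℕ, m * n = k ∧
    (∀ p : ℕ, p.Prime → p ∣ m → Q p) ∧ ∀ p : ℕ, p.Prime → p ∣ n → ¬ Q p := by
  induction k using induction_on_primes with
  | zero => exact fun h => absurd rfl h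
  | one =>
    refine fun _ => ⟨1, 1, rfl, ?_, ?_⟩ <;>
    · intro p hp h
      exact absurd (Nat.dvd_one.1 h) hp.one_lt.ne'
  | prime_mul p a hp ih =>
    intro h0
    obtain ⟨m, n, hmn, hm, hn⟩ := ih (fun h => h0 (by rw [h, mul_zero]))
    by_cases hQ : Q p
    · refine ⟨p * m, n, by rw [mul_assoc, hmn], fun q hq hqm => ?_, hn⟩
      rcases (hq.dvd_mul).1 hqm with h | h
      · rwa [(Nat.prime_dvd_prime_iff_eq hq hp).1 h]
      · exact hm q hq h
    · refine ⟨m, p * n, by rw [mul_left_comm, hmn], hm, fun q hq hqn => ?_⟩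
      rcases (hq.dvd_mul).1 hqn with h | h
      · rwa [(Nat.prime_dvd_prime_iff_eq hq hp).1 h]
      · exact hn q hq h

open Classical in
/-- The primes that are not squares modulo `w`. -/
noncomputable def NS (w z : ℕ) : Finset ℕ :=
  (Icc 1 z).filter (fun p => p.Prime ∧ ¬ IsSquare (p : ZMod w))

theorem harm_le_mul (w z : ℕ) : ∑ k ∈ Icc 1 z, (1 : ℝ) / k ≤
    RS (NS w z) z * ∑ n ∈ QRset w z, (1 : ℝ) / n := by
  classical
  have h : ∀ k ∈ Icc 1 z, ∃ m n : ℕ, m * n = k ∧
      (∀ p : ℕ, p.Prime → p ∣ m → ¬ IsSquare (p : ZMod w)) ∧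
      ∀ p : ℕ, p.Prime → p ∣ n → ¬ ¬ IsSquare (p : ZMod w) := by
    intro k hk
    rw [mem_Icc] at hk
    exact split (fun p => ¬ IsSquare (p : ZMod w)) k (by omega)
  choose! f g h1 h2 h3 using h
  rw [RS, sum_mul_sum, ← sum_product']
  have hinj : Set.InjOn (fun k => (f k, g k)) (Icc 1 z : Finset ℕ) := by
    intro a ha b hb hab
    rw [mem_coe] at ha hb
    simp only [Prod.mk.injEq] at hab
    rw [← h1 a ha, ← h1 b hb, hab.1, hab.2]
  calc ∑ k ∈ Icc 1 z, (1 : ℝ) / k
      = ∑ k ∈ Icc 1 z, (1 : ℝ) / (f k) * (1 / (g k)) := by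
        refine sum_congr rfl fun k hk => ?_
        rw [one_div_mul_one_div]
        conv_lhs => rw [← h1 k hk]
        push_cast
        rfl
    _ = ∑ x ∈ (Icc 1 z).image (fun k => (f k, g k)), (1 : ℝ) / x.1 * (1 / x.2) := by
        rw [sum_image hinj]
    _ ≤ _ := by
        apply sum_le_sum_of_subset_of_nonneg
        · intro x hx
          rw [mem_image] at hx
          obtain ⟨k, hk, rfl⟩ := hx
          have hk' := mem_Icc.1 hk
          have e := h1 k hk
          have hf0 : f k ≠ 0 := by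
            rintro h0
            rw [h0, zero_mul] at e
            omega
          have hg0 : g k ≠ 0 := by
            rintro h0
            rw [h0, mul_zero] at e
            omega
          have hfk : f k ≤ k := Nat.le_of_dvd (by omega) ⟨g k, e.symm⟩
          have hgk : g k ≤ k := Nat.le_of_dvd (by omega) ⟨f k, by rw [mul_comm]; exact e.symm⟩
          rw [mem_product, mem_filter, QRset, mem_filter, mem_Icc, mem_Icc]
          refine ⟨⟨⟨by omega, by omega⟩, fun p hp hpf => ?_⟩, ⟨by omega, by omega⟩, fun p hp hpg => ?_⟩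
          · rw [NS, mem_filter, mem_Icc]
            refine ⟨⟨hp.one_lt.le, ?_⟩, hp, h2 k hk p hp hpf⟩
            exact (Nat.le_of_dvd (by omega) hpf).trans (by omega)
          · exact not_not.1 (h3 k hk p hp hpg)
        · intro x _ _
          positivity

end EV23m

open Finset EV23m in
theorem EV3_thm : Stmt_EV3 := by
  classical
  refine ⟨1, one_pos, fun X y hy => ?_⟩
  have hP : ∀ p ∈ (Icc 1 y).filter Nat.Prime, p.Prime := fun p hp => (mem_filter.1 hp).2
  have hRS : Real.log y ≤ RS ((Icc 1 y).filter Nat.Prime) y := by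
    have e : RS ((Icc 1 y).filter Nat.Prime) y = ∑ m ∈ Icc 1 y, (1 : ℝ) / m := by
      rw [RS]
      congr 1
      ext m
      rw [mem_filter, mem_Icc]
      refine ⟨fun h => h.1, fun h => ⟨h, fun p hp hpm => ?_⟩⟩
      rw [mem_filter, mem_Icc]
      exact ⟨⟨hp.one_lt.le, (Nat.le_of_dvd (by omega) hpm).trans h.2⟩, hp⟩
    rw [e]
    exact log_le_harm y
  have hlog : 0 < Real.log y := Real.log_pos (by exact_mod_cast hy)
  set T := (Icc 2 X).filter (fun n => ∀ w : ℕ, w.Prime → w ∣ n - 1 → y < w) with hT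
  have hinj : Set.InjOn (fun n => n - 1) (T : Set ℕ) := by
    intro a ha b hb hab
    rw [mem_coe, hT, mem_filter, mem_Icc] at ha hb
    simp only at hab
    omega
  have h := sieve_class 1 0 X y one_pos (by omega) ((Icc 1 y).filter Nat.Prime) hP
    (fun p hp hp1 => (hP p hp).one_lt.ne' (Nat.dvd_one.1 hp1)) (T.image (fun n => n - 1)) (by
      intro x hx
      rw [mem_image] at hx
      obtain ⟨n, hn, rfl⟩ := hx
      rw [hT, mem_filter, mem_Icc] at hn
      refine ⟨⟨by omega, by omega⟩, Nat.modEq_one, fun p hp hpn => ?_⟩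
      rw [mem_filter, mem_Icc] at hp
      have := hn.2 p hp.2 hpn
      omega)
  rw [card_image_of_injOn hinj] at h
  have hdiv : (X : ℝ) / RS ((Icc 1 y).filter Nat.Prime) y ≤ X / Real.log y :=
    div_le_div_of_nonneg_left (by positivity) hlog hRS
  rw [Nat.cast_one, div_one] at h
  linarith

open Finset EV23m in
theorem EV2_thm (h1 : Stmt_EV1) : Stmt_EV2 := by
  classical
  obtain ⟨C, hC, hE⟩ := h1
  refine ⟨C, hC, fun w hw hw2 a Y z hz => ?_⟩
  have hP : ∀ p ∈ NS w z, p.Prime := fun p hp => (mem_filter.1 hp).2.1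
  have hPw : ∀ p ∈ NS w z, ¬ p ∣ w := by
    intro p hp hpw
    have h2 := (mem_filter.1 hp).2
    rw [(Nat.prime_dvd_prime_iff_eq h2.1 hw).1 hpw] at h2
    apply h2.2
    rw [ZMod.natCast_self]
    exact IsSquare.zero
  have h := sieve_class w a Y z hw.pos (by omega) (NS w z) hP hPw
    ((QRset w Y).filter (fun r => r ≡ a [MOD w])) (by
      intro r hr
      rw [mem_filter, QRset, mem_filter, mem_Icc] at hr
      refine ⟨hr.1.1, hr.2, fun p hp hpr => ?_⟩
      exact (mem_filter.1 hp).2.2 (hr.1.2 p (hP p hp) hpr))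
  have hR1 := one_le_RS (NS w z) (show 1 ≤ z by omega)
  have hmul := harm_le_mul w z
  have hlh := log_le_harm z
  have hq := hE w hw hw2 z hz
  have hlz : 0 < Real.log z := Real.log_pos (by exact_mod_cast hz)
  have hlw : 0 < Real.log w := Real.log_pos (by exact_mod_cast hw.one_lt)
  have hsq : Real.sqrt (Real.log w * Real.log z) = Real.log z * Real.sqrt (Real.log w / Real.log z) := by
    have e : Real.log w * Real.log z = (Real.log z) ^ 2 * (Real.log w / Real.log z) := by
      field_simp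
    rw [e, Real.sqrt_mul (by positivity), Real.sqrt_sq hlz.le]
  rw [hsq] at hq
  set R := RS (NS w z) z with hR
  set s := Real.sqrt (Real.log w / Real.log z) with hs
  have hs0 : 0 ≤ s := Real.sqrt_nonneg _
  have hkey : 1 ≤ R * (C * s) := by
    have h2 : Real.log z ≤ R * (C * (Real.log z * s)) :=
      (hlh.trans hmul).trans (mul_le_mul_of_nonneg_left hq (by linarith))
    have h3 : Real.log z * 1 ≤ Real.log z * (R * (C * s)) := by
      rw [mul_one]
      refine h2.trans (le_of_eq (by ring))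
    exact le_of_mul_le_mul_left h3 hlz
  have hR0 : 0 < R := by linarith
  have hY : (0 : ℝ) ≤ (Y : ℝ) / w := by positivity
  have hdiv : (Y : ℝ) / w / R ≤ C * (Y / w) * s := by
    rw [div_le_iff₀ hR0]
    calc (Y : ℝ) / w = (Y : ℝ) / w * 1 := (mul_one _).symm
      _ ≤ (Y : ℝ) / w * (R * (C * s)) := mul_le_mul_of_nonneg_left hkey hY
      _ = C * (Y / w) * s * R := by ring
  linarith

end Pool.Agent.ADS
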