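import Mathlib
import Pool.Agent.ADS.EvStmts
import Pool.Agent.Lib_helper97.AffDiff.EvenCount
import Pool.Agent.Lib_helper97.AffDiff.GroupParity

/-!
# Module ADS_EVA (MP_43d07b_co): even orders, all solvable groups

The condition of EvenOrderPrimes for the definition of `Pool.Agent.ADS`, and its consequence for squares.
-/

set_option autoImplicit false

namespace Pool.Agent.ADS

namespace M_EVA

open Classical in
theorem count_eq {G : Type*} [Group G] [Fintype G] {n : ℕ} {N : Subgroup G} {D : Finset G}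
    (hD : IsAffineDifferenceSet n N D) (g h : G) :
    (Finset.univ.filter fun x => g * x⁻¹ ∈ D ∧ h * x⁻¹ ∈ D).card =
      if g = h then n else if g * h⁻¹ ∈ N then 0 else 1 := by
  by_cases hgh : g = h
  · subst hgh
    rw [if_pos rfl, ← hD.card_set]
    simp only [and_self]
    refine Finset.card_bij (fun x _ => g * x⁻¹) ?_ ?_ ?_
    · intro x hx
      exact (Finset.mem_filter.mp hx).2
    · intro x _ y _ hxy
      simpa using hxy
    · intro d hd
      refine ⟨d⁻¹ * g, ?_, ?_⟩
      · rw [Finset.mem_filter]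
        refine ⟨Finset.mem_univ _, ?_⟩
        have : g * (d⁻¹ * g)⁻¹ = d := by group
        rw [this]; exact hd
      · group
  · rw [if_neg hgh]
    by_cases hN : g * h⁻¹ ∈ N
    · rw [if_pos hN, Finset.card_eq_zero, Finset.filter_eq_empty_iff]
      rintro x _ ⟨h1, h2⟩
      have hne : g * h⁻¹ ≠ 1 := fun h3 => hgh (mul_inv_eq_one.mp h3)
      apply hD.ne_of_mem _ hN hne _ h1 _ h2
      group
    · rw [if_neg hN]
      obtain ⟨⟨d₁, d₂⟩, ⟨h1, h2, h3⟩, huniq⟩ := hD.existsUnique_of_notMem _ hN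
      simp only at h1 h2 h3
      rw [Finset.card_eq_one]
      refine ⟨d₁⁻¹ * g, ?_⟩
      ext x
      rw [Finset.mem_filter, Finset.mem_singleton]
      constructor
      · rintro ⟨_, h4, h5⟩
        have h6 := huniq (g * x⁻¹, h * x⁻¹) ⟨h4, h5, by group⟩
        have h7 : g * x⁻¹ = d₁ := congrArg Prod.fst h6
        rw [← h7]; group
      · rintro rfl
        refine ⟨Finset.mem_univ _, ?_, ?_⟩
        · have : g * (d₁⁻¹ * g)⁻¹ = d₁ := by group
          rw [this]; exact h1
        · have : h * (d₁⁻¹ * g)⁻¹ = d₂ := by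
            have h8 : h = (g * h⁻¹)⁻¹ * g := by group
            rw [h8, ← h3]; group
          rw [this]; exact h2

theorem odd_order {G : Type*} [Group G] [Finite G] [Group.IsSolvable G] (N : Subgroup G)
    (n : ℕ) (D : Finset G) (hD : IsAffineDifferenceSet n N D) (hn : Even n)
    (l p : ℕ) (hl : l.Prime) (hp : p.Prime) (hln : Odd (n.factorization l))
    (hpn : p ∣ n - 1) : Odd (orderOf (l : ZMod p)) := by
  classical
  have : Fintype G := Fintype.ofFinite G
  have : Fact l.Prime := ⟨hl⟩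
  have : Fact p.Prime := ⟨hp⟩
  have h2 := hD.two_le
  have hld : l ∣ n := by
    by_contra h
    rw [Nat.factorization_eq_zero_of_not_dvd h] at hln
    exact absurd hln (by decide)
  have hlp0 : (l : ZMod p) ≠ 0 := by
    intro h
    rw [ZMod.natCast_eq_zero_iff] at h
    have h3 := Nat.dvd_sub (h.trans hld) hpn
    have h4 : n - (n - 1) = 1 := by omega
    rw [h4] at h3
    exact hp.one_lt.ne' (Nat.dvd_one.mp h3)
  have hfin : IsOfFinOrder (l : ZMod p) :=
    isOfFinOrder_iff_pow_eq_one.mpr ⟨p - 1, Nat.sub_pos_of_lt hp.one_lt,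
      ZMod.pow_card_sub_one_eq_one hlp0⟩
  by_contra hodd
  rw [Nat.not_odd_iff_even] at hodd
  obtain ⟨j, hj⟩ := hodd
  have hpos := hfin.orderOf_pos
  have hjpos : 0 < j := by omega
  have hjm1 : (l : ZMod p) ^ j = -1 := by
    have h3 : (l : ZMod p) ^ j * (l : ZMod p) ^ j = 1 := by
      rw [← pow_add, ← hj, pow_orderOf_eq_one]
    rcases mul_self_eq_one_iff.mp h3 with h4 | h4
    · exfalso
      have h5 := orderOf_dvd_of_pow_eq_one h4
      have h6 := Nat.le_of_dvd hjpos h5
      omega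
    · exact h4
  have hnodd : Odd (n - 1) := by
    obtain ⟨t, ht⟩ := hn
    exact ⟨t - 1, by omega⟩
  have hcardG : Nat.card G = (n + 1) * (n - 1) := by
    rw [hD.card_group]
    obtain ⟨a, rfl⟩ : ∃ a, n = a + 1 := ⟨n - 1, by omega⟩
    have : (a + 1) ^ 2 = (a + 1 + 1) * (a + 1 - 1) + 1 := by
      rw [Nat.add_sub_cancel]; ring
    omega
  have hGodd : Odd (Nat.card G) := by
    rw [hcardG]
    exact (hn.add_one).mul hnodd
  have hidx : N.index = n + 1 := by
    have h3 := N.card_mul_index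
    rw [hcardG, hD.card_subgroup, mul_comm (n + 1)] at h3
    exact Nat.eq_of_mul_eq_mul_left (by omega) h3
  have hpG : p ∣ Nat.card G := by rw [hcardG]; exact hpn.mul_left _
  have hpidx : ¬ p ∣ N.index := by
    rw [hidx]
    intro h3
    have h4 := Nat.dvd_sub h3 hpn
    have h5 : n + 1 - (n - 1) = 2 := by omega
    rw [h5] at h4
    have h6 : p = 2 := (Nat.prime_dvd_prime_iff_eq hp Nat.prime_two).mp h4
    rw [h6] at hpn
    exact (Nat.not_even_iff_odd.mpr hnodd) (even_iff_two_dvd.mpr hpn)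
  obtain ⟨b, hb, hbodd⟩ := Pool.Agent.LibH97.AffDiff.exists_odd_count _ G rfl hGodd N p hpG hpidx
  have heven := Pool.Agent.LibH97.AffDiff.even_count N D n h2 hn (count_eq hD)
    hD.card_subgroup l hln p hpn j hjm1 b hb
  exact (Nat.not_even_iff_odd.mpr hbodd) heven

theorem isSquare_of_odd_order {M : Type*} [Monoid M] (x : M) (h : Odd (orderOf x)) :
    IsSquare x := by
  obtain ⟨k, hk⟩ := h
  refine ⟨x ^ (k + 1), ?_⟩
  have h1 : x ^ (orderOf x) = 1 := pow_orderOf_eq_one x
  rw [← pow_add]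
  have h2 : k + 1 + (k + 1) = orderOf x + 1 := by omega
  rw [h2, pow_succ, h1, one_mul]

end M_EVA

theorem EVA_thm : Stmt_EVA := by
  intro n hn hS
  obtain ⟨G, hG, hsol, N, D, hD⟩ := hS
  have h2 := hD.two_le
  have hfin : Finite G := by
    apply Nat.finite_of_card_ne_zero
    rw [hD.card_group]
    have : 2 ^ 2 ≤ n ^ 2 := Nat.pow_le_pow_left h2 2
    omega
  have hodd : OddCond n := fun l w hl hw hln hwn =>
    M_EVA.odd_order N n D hD hn l w hl hw hln hwn
  refine ⟨hodd, fun l w hl hw hln hwn => ?_⟩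
  exact M_EVA.isSquare_of_odd_order _ (hodd l w hl hw hln hwn)

end Pool.Agent.ADS
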