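import Mathlib
import Pool.Agent.ADS.Stmts

set_option autoImplicit false

namespace Pool.Agent.ADS

open Finset

/-- A prime dividing the totient of `m`: its square divides `m` or it divides `r - 1` for a prime
divisor `r` of `m`. -/
theorem CASES_totient (m l : ℕ) (hm : m ≠ 0) (hl : l.Prime) (h : l ∣ Nat.totient m) :
    l ^ 2 ∣ m ∨ ∃ r : ℕ, r.Prime ∧ r ∣ m ∧ l ∣ r - 1 := by
  rw [Nat.totient_eq_prod_factorization hm] at h
  unfold Finsupp.prod at h
  rw [Prime.dvd_finsetProd_iff hl.prime] at h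
  obtain ⟨p, hp, hlp⟩ := h
  have hpp : p.Prime := Nat.prime_of_mem_primeFactors (by simpa using hp)
  have hpm : p ∣ m := Nat.dvd_of_mem_primeFactors (by simpa using hp)
  rcases (Nat.Prime.dvd_mul hl).1 hlp with h1 | h1
  · left
    have h2 : l ∣ p := hl.dvd_of_dvd_pow h1
    have h3 : l = p := (Nat.prime_dvd_prime_iff_eq hl hpp).1 h2
    subst h3
    have h4 : 1 ≤ m.factorization l - 1 := by
      by_contra hc
      have : m.factorization l - 1 = 0 := by omega
      rw [this, pow_zero] at h1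
      exact hl.one_lt.ne' (Nat.dvd_one.1 h1)
    exact (pow_dvd_pow l (by omega)).trans (Nat.ordProj_dvd m l)
  · right
    exact ⟨p, hpp, hpm, h1⟩

theorem CASES_thm : Stmt_CASES := by
  classical
  refine ⟨0, fun X _ n hn => ?_⟩
  unfold S0 at hn
  rw [mem_filter, mem_Icc] at hn
  obtain ⟨⟨hn2, hnX⟩, hnp, hkc⟩ := hn
  have hIcc : n ∈ Icc 2 X := mem_Icc.2 ⟨hn2, hnX⟩
  simp only [mem_union]
  by_cases h1 : ∀ w : ℕ, w.Prime → w ∣ n - 1 → (w : ℝ) ≤ pZ X
  · left; left; left; left; left; left; left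
    unfold E1
    exact mem_filter.2 ⟨hIcc, h1⟩
  push Not at h1
  obtain ⟨w, hw, hwn, hwZ⟩ := h1
  have hq : (Nat.minFac n).Prime := Nat.minFac_prime (by omega)
  have hqn : Nat.minFac n ∣ n := Nat.minFac_dvd n
  have hq2 : Nat.minFac n ^ 2 ≤ n := Nat.minFac_sq_le_self (by omega) hnp
  generalize Nat.minFac n = q at hq hqn hq2
  by_cases h2 : (orderOf (q : ZMod w) : ℝ) ≤ pK X
  · left; left; left; left; left; left; right
    unfold E2
    exact mem_filter.2 ⟨hIcc, q, w, hq, hw, hq2.trans hnX, hqn, hwn, hwZ, h2⟩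
  push Not at h2
  have hwq : ¬ w ∣ q := by
    intro h
    have e : w = q := (Nat.prime_dvd_prime_iff_eq hw hq).1 h
    subst e
    have h3 : w ∣ n - (n - 1) := Nat.dvd_sub hqn hwn
    have h4 : n - (n - 1) = 1 := by omega
    rw [h4] at h3
    exact hw.one_lt.ne' (Nat.dvd_one.1 h3)
  have hkw : orderOf (q : ZMod w) ∣ w - 1 := by
    have : Fact w.Prime := ⟨hw⟩
    apply ZMod.orderOf_dvd_card_sub_one
    intro h
    exact hwq ((ZMod.natCast_eq_zero_iff q w).1 h)
  have hkn : orderOf (q : ZMod w) ∣ orderOf (q : ZMod (n + 1)) := hkc q w hq hw hqn hwn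
  generalize hkdef : orderOf (q : ZMod w) = k at h2 hkw hkn
  by_cases h3 : ∀ l : ℕ, l.Prime → l ∣ k → (l : ℝ) ≤ pB X
  · left; left; left; left; left; right
    unfold E3
    exact mem_filter.2 ⟨hIcc, w, k, hw, hwn, hkw, h2, h3⟩
  push Not at h3
  obtain ⟨l, hl, hlk, hlB⟩ := h3
  have hlw : l ∣ w - 1 := hlk.trans hkw
  have hcop : Nat.Coprime q (n + 1) := by
    have h4 : Nat.Coprime n (n + 1) := by
      rw [Nat.coprime_self_add_right]
      exact Nat.coprime_one_right n
    exact Nat.Coprime.coprime_dvd_left hqn h4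
  have hot : orderOf (q : ZMod (n + 1)) ∣ Nat.totient (n + 1) := by
    apply orderOf_dvd_of_pow_eq_one
    have h5 := ZMod.pow_totient (ZMod.unitOfCoprime q hcop)
    have h6 := congrArg (Units.val) h5
    rw [Units.val_pow_eq_pow_val, ZMod.coe_unitOfCoprime, Units.val_one] at h6
    exact h6
  have hlt : l ∣ Nat.totient (n + 1) := (hlk.trans hkn).trans hot
  rcases CASES_totient (n + 1) l (by omega) hl hlt with h4 | ⟨r, hr, hrn, hlr⟩
  · left; left; left; left; right
    unfold E4
    exact mem_filter.2 ⟨hIcc, l, hl, hlB, h4⟩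
  obtain ⟨a, ha⟩ := hlw
  obtain ⟨b, hb⟩ := hlr
  have hw1 := hw.two_le
  have hr1 := hr.two_le
  have ha1 : 1 ≤ a := by
    rcases Nat.eq_zero_or_pos a with h | h
    · subst h
      simp at ha
      omega
    · exact h
  have hb1 : 1 ≤ b := by
    rcases Nat.eq_zero_or_pos b with h | h
    · subst h
      simp at hb
      omega
    · exact h
  have hwe : w = 1 + l * a := by omega
  have hre : r = 1 + l * b := by omega
  obtain ⟨i, hi⟩ := hwn
  obtain ⟨j, hj⟩ := hrn
  have hi1 : 1 ≤ i := by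
    rcases Nat.eq_zero_or_pos i with h | h
    · subst h
      simp at hi
      omega
    · exact h
  have hj1 : 1 ≤ j := by
    rcases Nat.eq_zero_or_pos j with h | h
    · subst h
      simp at hj
    · exact h
  have hne : n = 1 + i * w := by
    rw [mul_comm i w]
    omega
  have hne2 : n + 1 = j * r := by
    rw [mul_comm j r]
    exact hj
  have hrel : Rel X n i j l a b := by
    refine ⟨hi1, hj1, ha1, hb1, hl, hlB, ?_, ?_, ?_, ?_⟩
    · rw [← hwe]; exact hw
    · rw [← hre]; exact hr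
    · rw [← hwe]; exact hne
    · rw [← hre]; exact hne2
  by_cases h5 : (X : ℝ) < ((i * j : ℕ) : ℝ) * Real.sqrt (pB X)
  · left; left; right
    unfold E5b
    exact mem_filter.2 ⟨hIcc, i, j, l, a, b, hrel, h5⟩
  push Not at h5
  by_cases h6 : j = i + 2
  · subst h6
    by_cases h7 : (i : ℝ) ≤ pv X ^ 8
    · right
      unfold E6b
      exact mem_filter.2 ⟨hIcc, i, w, r, hi1, h7, hw, hr, hne, hne2⟩
    · left; right
      push Not at h7
      unfold E6a
      exact mem_filter.2 ⟨hIcc, i, w, r, h7, hwZ, hne, hne2⟩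
  · left; left; left; right
    unfold E5a
    exact mem_filter.2 ⟨hIcc, i, j, l, a, b, hrel, h6, h5⟩

end Pool.Agent.ADS
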