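import Mathlib
import Pool.Agent.ADS.Stmts

/-!
# Project ADS (MP_43d07b_co), second part: groups with a small commutator subgroup

The group `G` need not be abelian; only the order of its commutator subgroup is bounded, by
`exp (√(log n))`. `N` is any subgroup (not assumed normal).
-/

set_option autoImplicit false

namespace Pool.Agent.ADS

open Finset

/-- Some finite group whose commutator subgroup has order at most `exp (√(log n))` has an affine
difference set of order `n`. -/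
def NearOrder (n : ℕ) : Prop :=
  ∃ (G : Type) (_ : Group G) (N : Subgroup G) (D : Finset G), IsAffineDifferenceSet n N D ∧
    (Nat.card (commutator G) : ℝ) ≤ Real.exp (Real.sqrt (Real.log n))

/-- The condition on `n` (with `m` the order of the commutator subgroup). -/
def KC2 (m n : ℕ) : Prop :=
  ∀ p w l : ℕ, p.Prime → w.Prime → l.Prime → p ∣ n → w ∣ n - 1 → m < p → m < w → m < l →
    l ∣ orderOf (p : ZMod w) → l ∣ Nat.totient (n + 1)

open Classical in
/-- MULT2: the multiplier theorem in an abelian quotient `A` of `G` with kernel of order `< p`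
(`c a` = number of elements of `D` over `a`; the statement is `c^(p) = g c`). -/
def Stmt_MULT2 : Prop :=
  ∀ (G : Type) [Group G] (A : Type) [CommGroup A] (φ : G →* A) (n : ℕ) (N : Subgroup G)
    (D : Finset G), Function.Surjective φ → IsAffineDifferenceSet n N D →
    ∀ p : ℕ, p.Prime → p ∣ n → Nat.card φ.ker < p →
      ∃ g : A, ∀ a : A,
        (D.filter (fun d => φ d = a)).card = (D.filter (fun d => φ d = g⁻¹ * a ^ p)).card

/-- KEY2. -/
def Stmt_KEY2 : Prop :=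
  ∀ (G : Type) [Group G] (n : ℕ) (N : Subgroup G) (D : Finset G),
    IsAffineDifferenceSet n N D → KC2 (Nat.card (commutator G)) n

open Classical in
/-- The set counted. -/
noncomputable def S2 (X : ℕ) : Finset ℕ :=
  (Icc 2 X).filter (fun n => ¬ n.Prime ∧ ∃ m : ℕ, (m : ℝ) ≤ pB X ∧ KC2 m n)

open Classical in
/-- `n` is `B`-smooth. -/
noncomputable def E0 (X : ℕ) : Finset ℕ :=
  (Icc 2 X).filter (fun n => ∀ p : ℕ, p.Prime → p ∣ n → (p : ℝ) ≤ pB X)

open Classical in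
/-- Small order of some divisor `q ≥ 2` of `n`, `q ≤ √X`. -/
noncomputable def E2g (X : ℕ) : Finset ℕ :=
  (Icc 2 X).filter (fun n => ∃ q w : ℕ, 2 ≤ q ∧ w.Prime ∧ q ^ 2 ≤ X ∧ q ∣ n ∧ w ∣ n - 1 ∧
    pZ X < w ∧ (orderOf (q : ZMod w) : ℝ) ≤ pK X)

/-- CASES2. -/
def Stmt_CASES2 : Prop :=
  ∃ X0 : ℕ, ∀ X : ℕ, X0 ≤ X →
    S2 X ⊆ E0 X ∪ E1 X ∪ E2g X ∪ E3 X ∪ E4 X ∪ E5a X ∪ E5b X ∪ E6a X ∪ E6b X

def Stmt_E0 : Prop := Small E0
def Stmt_E2g : Prop := Small E2g

/-- The main theorem. -/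
def MainStatement2 : Prop :=
  ∃ C : ℝ, ∀ x : ℝ, 2 ≤ x →
    (Nat.primeCounting ⌊x⌋₊ : ℝ) ≤ ({n : ℕ | (n : ℝ) ≤ x ∧ CyclicOrder n}.ncard : ℝ) ∧
    ({n : ℕ | (n : ℝ) ≤ x ∧ NearOrder n}.ncard : ℝ) ≤
      Nat.primeCounting ⌊x⌋₊ + C * x / Real.log x ^ 2

/-- FINAL2. -/
def Stmt_FINAL2 : Prop :=
  Stmt_KEY2 → Stmt_CASES2 → Stmt_E0 → Stmt_E1 → Stmt_E2g → Stmt_E3 → Stmt_E4 → Stmt_E5a →
    Stmt_E5b → Stmt_E6a → Stmt_E6b → Stmt_BOSE → MainStatement2

end Pool.Agent.ADS
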