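import Mathlib
import Pool.Agent.ADS.Stmts2
import Pool.Agent.ADS.Tools
import Pool.Agent.ADS.CASES

set_option autoImplicit false

namespace Pool.Agent.ADS

open Finset

/-- Two elements with product one have the same order. -/
theorem CASES2_order {M : Type*} [CommMonoid M] (a b : M) (h : a * b = 1) :
    orderOf a = orderOf b := by
  rw [orderOf_eq_orderOf_iff]
  intro k
  have hk : a ^ k * b ^ k = 1 := by rw [← mul_pow, h, one_pow]
  constructor
  · intro h1
    rw [h1, one_mul] at hk
    exact hk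
  · intro h1
    rw [h1, mul_one] at hk
    exact hk

/-- The last part of the case distinction. -/
theorem CASES2_tail (X n w l : ℕ) (hIcc : n ∈ Icc 2 X) (hw : w.Prime) (hwn : w ∣ n - 1)
    (hwZ : pZ X < w) (hl : l.Prime) (hlB : pB X < l) (hlw : l ∣ w - 1)
    (hlt : l ∣ Nat.totient (n + 1)) :
    n ∈ E4 X ∪ E5a X ∪ E5b X ∪ E6a X ∪ E6b X := by
  classical
  simp only [mem_union]
  rcases CASES_totient (n + 1) l (by omega) hl hlt with h4 | ⟨r, hr, hrn, hlr⟩
  · left; left; left; left
    unfold E4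
    exact mem_filter.2 ⟨hIcc, l, hl, hlB, h4⟩
  obtain ⟨a, ha⟩ := hlw
  obtain ⟨b, hb⟩ := hlr
  have hw1 := hw.two_le
  have hr1 := hr.two_le
  have ha1 : 1 ≤ a := by
    rcases Nat.eq_zero_or_pos a with h | h
    · subst h
      simp at ha
      omega
    · exact h
  have hb1 : 1 ≤ b := by
    rcases Nat.eq_zero_or_pos b with h | h
    · subst h
      simp at hb
      omega
    · exact h
  have hwe : w = 1 + l * a := by omega
  have hre : r = 1 + l * b := by omega
  have hn2 := (mem_Icc.1 hIcc).1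
  obtain ⟨i, hi⟩ := hwn
  obtain ⟨j, hj⟩ := hrn
  have hi1 : 1 ≤ i := by
    rcases Nat.eq_zero_or_pos i with h | h
    · subst h
      simp at hi
      omega
    · exact h
  have hj1 : 1 ≤ j := by
    rcases Nat.eq_zero_or_pos j with h | h
    · subst h
      simp at hj
    · exact h
  have hne : n = 1 + i * w := by
    rw [mul_comm i w]
    omega
  have hne2 : n + 1 = j * r := by
    rw [mul_comm j r]
    exact hj
  have hrel : Rel X n i j l a b := by
    refine ⟨hi1, hj1, ha1, hb1, hl, hlB, ?_, ?_, ?_, ?_⟩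
    · rw [← hwe]; exact hw
    · rw [← hre]; exact hr
    · rw [← hwe]; exact hne
    · rw [← hre]; exact hne2
  by_cases h5 : (X : ℝ) < ((i * j : ℕ) : ℝ) * Real.sqrt (pB X)
  · left; left; right
    unfold E5b
    exact mem_filter.2 ⟨hIcc, i, j, l, a, b, hrel, h5⟩
  push Not at h5
  by_cases h6 : j = i + 2
  · subst h6
    by_cases h7 : (i : ℝ) ≤ pv X ^ 8
    · right
      unfold E6b
      exact mem_filter.2 ⟨hIcc, i, w, r, hi1, h7, hw, hr, hne, hne2⟩
    · left; right
      push Not at h7
      unfold E6a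
      exact mem_filter.2 ⟨hIcc, i, w, r, h7, hwZ, hne, hne2⟩
  · left; left; left; right
    unfold E5a
    exact mem_filter.2 ⟨hIcc, i, j, l, a, b, hrel, h6, h5⟩


theorem CASES2_thm : Stmt_CASES2 := by
  classical
  obtain ⟨X0, _, hX0⟩ := _root_.Pool.Agent.ADS.Tools.exists_le_pv 2
  refine ⟨X0, fun X hX n hn => ?_⟩
  have hv := hX0 X hX
  have hBZ : pB X < pZ X := by
    unfold pB pZ
    apply Real.exp_lt_exp.2
    have h1 : 0 < pv X ^ 2 := by
      have h2 : 0 < pv X := by linarith
      positivity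
    nlinarith
  unfold S2 at hn
  rw [mem_filter, mem_Icc] at hn
  obtain ⟨⟨hn2, hnX⟩, hnp, m, hmB, hkc⟩ := hn
  have hIcc : n ∈ Icc 2 X := mem_Icc.2 ⟨hn2, hnX⟩
  by_cases h0 : ∀ p : ℕ, p.Prime → p ∣ n → (p : ℝ) ≤ pB X
  · simp only [mem_union]
    left; left; left; left; left; left; left; left
    unfold E0
    exact mem_filter.2 ⟨hIcc, h0⟩
  push Not at h0
  obtain ⟨P, hP, hPn, hPB⟩ := h0
  have hmP : m < P := by exact_mod_cast hmB.trans_lt hPB
  by_cases h1 : ∀ w : ℕ, w.Prime → w ∣ n - 1 → (w : ℝ) ≤ pZ X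
  · simp only [mem_union]
    left; left; left; left; left; left; left; right
    unfold E1
    exact mem_filter.2 ⟨hIcc, h1⟩
  push Not at h1
  obtain ⟨w, hw, hwn, hwZ⟩ := h1
  have hmw : m < w := by exact_mod_cast hmB.trans_lt (hBZ.trans hwZ)
  by_cases h2 : (orderOf (P : ZMod w) : ℝ) ≤ pK X
  · simp only [mem_union]
    left; left; left; left; left; left; right
    unfold E2g
    by_cases hPX : P ^ 2 ≤ X
    · exact mem_filter.2 ⟨hIcc, P, w, hP.two_le, hw, hPX, hPn, hwn, hwZ, h2⟩
    · push Not at hPX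
      obtain ⟨q, hq⟩ := hPn
      have hP2 := hP.two_le
      have hq2 : 2 ≤ q := by
        by_contra hc
        have h3 : q = 0 ∨ q = 1 := by omega
        rcases h3 with h3 | h3
        · rw [h3] at hq
          omega
        · rw [h3, mul_one] at hq
          rw [hq] at hnp
          exact hnp hP
      have hqP : q < P := by
        by_contra hc
        push Not at hc
        have h3 : P ^ 2 ≤ P * q := by
          rw [pow_two]
          exact Nat.mul_le_mul_left P hc
        omega
      have hqX : q ^ 2 ≤ X := by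
        have h3 : q ^ 2 ≤ P * q := by
          rw [pow_two]
          exact Nat.mul_le_mul_right q hqP.le
        omega
      have hqn : q ∣ n := ⟨P, by rw [hq, mul_comm]⟩
      have hone : (q : ZMod w) * (P : ZMod w) = 1 := by
        have h3 : ((n - 1 : ℕ) : ZMod w) = 0 := (ZMod.natCast_eq_zero_iff _ _).2 hwn
        have h4 : n = (n - 1) + 1 := by omega
        have h5 : (n : ZMod w) = 1 := by
          rw [h4, Nat.cast_add, h3, zero_add, Nat.cast_one]
        rw [← h5, hq, Nat.cast_mul, mul_comm]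
      refine mem_filter.2 ⟨hIcc, q, w, hq2, hw, hqX, hqn, hwn, hwZ, ?_⟩
      rw [CASES2_order _ _ hone]
      exact h2
  push Not at h2
  have hwq : ¬ w ∣ P := by
    intro h
    have h3 : w ∣ n - (n - 1) := Nat.dvd_sub (h.trans hPn) hwn
    have h4 : n - (n - 1) = 1 := by omega
    rw [h4] at h3
    exact hw.one_lt.ne' (Nat.dvd_one.1 h3)
  have hkw : orderOf (P : ZMod w) ∣ w - 1 := by
    have : Fact w.Prime := ⟨hw⟩
    apply ZMod.orderOf_dvd_card_sub_one
    intro h
    exact hwq ((ZMod.natCast_eq_zero_iff P w).1 h)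
  by_cases h3 : ∀ l : ℕ, l.Prime → l ∣ orderOf (P : ZMod w) → (l : ℝ) ≤ pB X
  · simp only [mem_union]
    left; left; left; left; left; right
    unfold E3
    exact mem_filter.2 ⟨hIcc, w, orderOf (P : ZMod w), hw, hwn, hkw, h2, h3⟩
  push Not at h3
  obtain ⟨l, hl, hlk, hlB⟩ := h3
  have hml : m < l := by exact_mod_cast hmB.trans_lt hlB
  have hlw : l ∣ w - 1 := hlk.trans hkw
  have hlt : l ∣ Nat.totient (n + 1) := hkc P w l hP hw hl hPn hwn hmP hmw hml hlk
  have hfin := CASES2_tail X n w l hIcc hw hwn hwZ hl hlB hlw hlt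
  simp only [mem_union] at hfin ⊢
  tauto

end Pool.Agent.ADS
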