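import Mathlib
import Pool.Agent.ADS.Stmts
import Pool.Agent.Lib_helper72.AS.LB2

/-!
# Project ADS (MP_43d07b_co): the set `E1`
-/

set_option autoImplicit false

namespace Pool.Agent.ADS

open Finset

lemma E1_log_eq (X : ℕ) : Real.log X = pv X ^ 4 := by
  unfold pv
  have h : 0 ≤ Real.log (X : ℝ) := Real.log_natCast_nonneg X
  rw [← Real.rpow_natCast, ← Real.rpow_mul h]
  norm_num

lemma E1_tendsto_pv : Filter.Tendsto pv Filter.atTop Filter.atTop := by
  unfold pv
  have h1 : Filter.Tendsto (fun X : ℕ => Real.log (X : ℝ)) Filter.atTop Filter.atTop :=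
    Real.tendsto_log_atTop.comp tendsto_natCast_atTop_atTop
  exact (tendsto_rpow_atTop (by norm_num : (0 : ℝ) < 1 / 4)).comp h1

theorem E1_thm : Stmt_E1 := by
  classical
  obtain ⟨X0, hX0⟩ := (E1_tendsto_pv.eventually
    (Filter.eventually_ge_atTop (Real.exp 4))).exists_forall_of_atTop
  refine ⟨Real.exp (4 + 5 / 2 * Lib_helper72.AS.zth), X0, ?_⟩
  intro X hX
  have hv := hX0 X hX
  set v := pv X with hvdef
  have he4 : (22 : ℝ) ≤ Real.exp 4 := by
    have h1 : (2.7 : ℝ) ≤ Real.exp 1 := by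
      have := Real.exp_one_gt_d9
      linarith
    have h2 : Real.exp 4 = Real.exp 1 ^ 4 := by
      rw [← Real.exp_nat_mul]
      norm_num
    rw [h2]
    calc (22 : ℝ) ≤ (2.7 : ℝ) ^ 4 := by norm_num
      _ ≤ Real.exp 1 ^ 4 := by gcongr
  have hv22 : 22 ≤ v := he4.trans hv
  have hv0 : 0 < v := by linarith
  have hlogv : 4 ≤ Real.log v := by
    rw [Real.le_log_iff_exp_le hv0]
    exact hv
  have hlogvle : Real.log v ≤ v := (Real.log_le_sub_one_of_pos hv0).trans (by linarith)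
  have hv3 : v ≤ v ^ 3 / 4 := by nlinarith [mul_pos hv0 hv0, mul_pos (mul_pos hv0 hv0) hv0]
  have hZ : Real.exp (v ^ 3) = pZ X := rfl
  set z := ⌊pZ X⌋₊ with hz
  have hZ2 : (2 : ℝ) ≤ pZ X := by
    rw [← hZ]
    have := Real.add_one_le_exp (v ^ 3)
    linarith
  have hz2 : 2 ≤ z := Nat.le_floor (by exact_mod_cast hZ2)
  have hzle : (z : ℝ) ≤ pZ X := Nat.floor_le (by linarith)
  have hz0 : (0 : ℝ) < z := by exact_mod_cast (by omega : 0 < z)
  have hlogz : Real.log z ≤ v ^ 3 := by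
    rw [Real.log_le_iff_le_exp hz0]
    exact hzle
  have hlog4 : Real.log 4 ≤ v ^ 3 := by
    have : Real.log 4 ≤ 4 - 1 := Real.log_le_sub_one_of_pos (by norm_num)
    linarith
  have hT : v * v ^ 3 ≤ Real.log X := by
    rw [E1_log_eq, ← hvdef]
    apply le_of_eq
    ring
  set S : Finset ℕ := (E1 X).image (fun n => n - 1) with hS
  have hcard : S.card = (E1 X).card := by
    rw [hS]
    apply Finset.card_image_of_injOn
    intro a ha b hb hab
    have ha' := (Finset.mem_Icc.1 (Finset.mem_filter.1 ha).1).1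
    have hb' := (Finset.mem_Icc.1 (Finset.mem_filter.1 hb).1).1
    simp only at hab
    omega
  have hSS : ∀ k ∈ S, k ∈ Nat.smoothNumbers (z + 1) ∧ 1 ≤ k ∧ k ≤ X := by
    intro k hk
    obtain ⟨n, hn, rfl⟩ := Finset.mem_image.1 hk
    have hn1 := Finset.mem_Icc.1 (Finset.mem_filter.1 hn).1
    have hn2 := (Finset.mem_filter.1 hn).2
    refine ⟨?_, by omega, by omega⟩
    rw [Nat.mem_smoothNumbers']
    intro p hp hpd
    have h1 : p ≤ z := Nat.le_floor (hn2 p hp hpd)
    omega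
  have hmain := Lib_helper72.AS.rankin (L := v ^ 3) (u := v) (z := z) (T := X) hz2 hlogz hlog4
    (by linarith) (by linarith) hT S hSS
  rw [hcard] at hmain
  refine hmain.trans ?_
  have hX : (0 : ℝ) ≤ X := Nat.cast_nonneg X
  have hkey : v ^ 3 * Real.exp (2 * v + (4 + 5 / 2 * Lib_helper72.AS.zth) - v * Real.log v) * v ^ 8
      ≤ Real.exp (4 + 5 / 2 * Lib_helper72.AS.zth) := by
    have h1 : v ^ 11 = Real.exp (11 * Real.log v) := by
      have : (11 : ℝ) * Real.log v = ((11 : ℕ) : ℝ) * Real.log v := by norm_num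
      rw [this, Real.exp_nat_mul, Real.exp_log hv0]
    calc v ^ 3 * Real.exp (2 * v + (4 + 5 / 2 * Lib_helper72.AS.zth) - v * Real.log v) * v ^ 8
        = v ^ 11 * Real.exp (2 * v + (4 + 5 / 2 * Lib_helper72.AS.zth) - v * Real.log v) := by
          ring
      _ = Real.exp (11 * Real.log v +
            (2 * v + (4 + 5 / 2 * Lib_helper72.AS.zth) - v * Real.log v)) := by
          rw [h1, ← Real.exp_add]
      _ ≤ _ := by
          apply Real.exp_le_exp.2
          nlinarith [mul_nonneg (show 0 ≤ v - 22 by linarith) (show 0 ≤ Real.log v - 4 by linarith)]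
  have hv8 : 0 < v ^ 8 := by positivity
  have e : Real.exp (4 + 5 / 2 * Lib_helper72.AS.zth) * (X / v ^ 8) =
      X * (Real.exp (4 + 5 / 2 * Lib_helper72.AS.zth) / v ^ 8) := by ring
  rw [e]
  apply mul_le_mul_of_nonneg_left _ hX
  rw [le_div_iff₀ hv8]
  exact hkey

end Pool.Agent.ADS
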