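import Mathlib
import Pool.Agent.ADS.Tools
import Pool.Agent.ADS.Stmts

/-!
# Project ADS: the exceptional set `E2` (small order)
-/

set_option autoImplicit false

namespace Pool.Agent.ADS

open Finset

namespace E2aux

open Classical in
/-- The integers in `[2, X]` divisible by `q` and congruent to `1` modulo `w`. -/
noncomputable def fib (X q w : ℕ) : Finset ℕ :=
  (Icc 2 X).filter (fun n => q ∣ n ∧ w ∣ n - 1)

theorem card_fib (X q w : ℕ) (hq : q.Prime) (hw : w.Prime) (hne : q ≠ w) :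
    ((fib X q w).card : ℝ) ≤ X / (q * w) + 1 := by
  classical
  have h := Tools.card_le_of_modEq (fib X q w) X (q * w) (Nat.mul_pos hq.pos hw.pos) ?_ ?_
  · push_cast at h
    exact h
  · intro n hn
    unfold fib at hn
    rw [mem_filter, mem_Icc] at hn
    exact ⟨by omega, hn.1.2⟩
  · intro m hm n hn
    unfold fib at hm hn
    rw [mem_filter, mem_Icc] at hm hn
    have hc : Nat.Coprime q w := (Nat.coprime_primes hq hw).2 hne
    rw [← Nat.modEq_and_modEq_iff_modEq_mul hc]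
    constructor
    · exact ((Nat.modEq_zero_iff_dvd).2 hm.2.1).trans ((Nat.modEq_zero_iff_dvd).2 hn.2.1).symm
    · have h1 : 1 ≡ m [MOD w] := (Nat.modEq_iff_dvd' (by omega)).2 hm.2.2
      have h2 : 1 ≡ n [MOD w] := (Nat.modEq_iff_dvd' (by omega)).2 hn.2.2
      exact h1.symm.trans h2

open Classical in
/-- The primes `w > Z` different from `q` which divide `q ^ k - 1`. -/
noncomputable def W (X q k : ℕ) : Finset ℕ :=
  (q ^ k - 1).primeFactors.filter (fun w => pZ X < w ∧ q ≠ w)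

open Classical in
noncomputable def Q (X : ℕ) : Finset ℕ :=
  (Icc 1 (Nat.sqrt X)).filter (fun q => q.Prime)

theorem sub (X : ℕ) :
    E2 X ⊆ (Q X).biUnion (fun q => (Icc 1 ⌊pK X⌋₊).biUnion (fun k =>
      (W X q k).biUnion (fun w => fib X q w))) := by
  classical
  intro n hn
  unfold E2 at hn
  rw [mem_filter, mem_Icc] at hn
  obtain ⟨⟨h2, hX⟩, q, w, hq, hw, hqX, hqn, hwn, hZ, hord⟩ := hn
  have hne : q ≠ w := by
    rintro rfl
    have h3 : q ∣ n - (n - 1) := Nat.dvd_sub hqn hwn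
    have h4 : n - (n - 1) = 1 := by omega
    rw [h4] at h3
    exact hq.one_lt.ne' (Nat.dvd_one.1 h3)
  have : Fact w.Prime := ⟨hw⟩
  have hc : Nat.Coprime q w := (Nat.coprime_primes hq hw).2 hne
  have hpos : 0 < orderOf (q : ZMod w) := by
    have h5 : (ZMod.unitOfCoprime q hc : ZMod w) = (q : ZMod w) := ZMod.coe_unitOfCoprime q hc
    rw [← h5, orderOf_units]
    exact orderOf_pos _
  rw [mem_biUnion]
  refine ⟨q, ?_, ?_⟩
  · unfold Q
    rw [mem_filter, mem_Icc]
    refine ⟨⟨hq.one_lt.le, ?_⟩, hq⟩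
    rw [Nat.le_sqrt']
    exact hqX
  rw [mem_biUnion]
  refine ⟨orderOf (q : ZMod w), ?_, ?_⟩
  · rw [mem_Icc]
    refine ⟨hpos, ?_⟩
    exact Nat.le_floor hord
  rw [mem_biUnion]
  refine ⟨w, ?_, ?_⟩
  · unfold W
    rw [mem_filter, Nat.mem_primeFactors]
    have h6 : 1 < q ^ orderOf (q : ZMod w) := Nat.one_lt_pow hpos.ne' hq.one_lt
    refine ⟨⟨hw, ?_, by omega⟩, hZ, hne⟩
    have h7 : ((q ^ orderOf (q : ZMod w) : ℕ) : ZMod w) = ((1 : ℕ) : ZMod w) := by
      push_cast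
      exact pow_orderOf_eq_one _
    have h8 := (ZMod.natCast_eq_natCast_iff _ _ _).1 h7
    exact (Nat.modEq_iff_dvd' h6.le).1 h8.symm
  · unfold fib
    rw [mem_filter, mem_Icc]
    exact ⟨⟨h2, hX⟩, hqn, hwn⟩

theorem card_W (X q k : ℕ) (hq : q.Prime) (hk : 1 ≤ k) :
    ((W X q k).card : ℝ) ≤ 3 * (k * Real.log q) := by
  classical
  have h6 : 1 < q ^ k := Nat.one_lt_pow (by omega) hq.one_lt
  have h1 : (W X q k).card ≤ (q ^ k - 1).primeFactors.card := Finset.card_filter_le _ _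
  have h2 := Tools.card_primeFactors_le' (m := q ^ k - 1) (by omega)
  have h3 : Real.log ((q ^ k - 1 : ℕ) : ℝ) ≤ k * Real.log q := by
    rw [← Real.log_pow]
    apply Real.log_le_log
    · have : 0 < q ^ k - 1 := by omega
      exact_mod_cast this
    · have : q ^ k - 1 ≤ q ^ k := Nat.sub_le _ _
      exact_mod_cast this
  calc ((W X q k).card : ℝ) ≤ ((q ^ k - 1).primeFactors.card : ℝ) := by exact_mod_cast h1
    _ ≤ 3 * Real.log ((q ^ k - 1 : ℕ) : ℝ) := h2
    _ ≤ 3 * (k * Real.log q) := by linarith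

/-- The count before the final estimate. -/
theorem count (X : ℕ) (hX : 1 ≤ X) :
    ((E2 X).card : ℝ) ≤ 3 * pK X ^ 2 * Real.log X *
      (X / pZ X * (1 + Real.log X) + Real.sqrt X) := by
  classical
  have hZ : 0 < pZ X := Real.exp_pos _
  have hK : 0 < pK X := Real.exp_pos _
  have hL : 0 ≤ Real.log X := Real.log_natCast_nonneg X
  have hX0 : (0 : ℝ) < X := by exact_mod_cast hX
  have h1 : ((E2 X).card : ℝ) ≤ ∑ q ∈ Q X, ∑ k ∈ Icc 1 ⌊pK X⌋₊, ∑ w ∈ W X q k,
      ((fib X q w).card : ℝ) := by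
    have h2 : (E2 X).card ≤ ∑ q ∈ Q X, ∑ k ∈ Icc 1 ⌊pK X⌋₊, ∑ w ∈ W X q k,
        (fib X q w).card := by
      refine (Finset.card_le_card (sub X)).trans (Finset.card_biUnion_le.trans ?_)
      apply Finset.sum_le_sum
      intro q _
      refine Finset.card_biUnion_le.trans ?_
      apply Finset.sum_le_sum
      intro k _
      exact Finset.card_biUnion_le
    exact_mod_cast h2
  refine h1.trans ?_
  have h3 : ∀ q ∈ Q X, ∑ k ∈ Icc 1 ⌊pK X⌋₊, ∑ w ∈ W X q k, ((fib X q w).card : ℝ) ≤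
      3 * pK X ^ 2 * Real.log X * (X / pZ X * (1 / q) + 1) := by
    intro q hq
    unfold Q at hq
    rw [mem_filter, mem_Icc] at hq
    have hqp : q.Prime := hq.2
    have hq0 : (0 : ℝ) < q := by exact_mod_cast hqp.pos
    have hqX : q ≤ X := hq.1.2.trans (Nat.sqrt_le_self X)
    have hlq : Real.log q ≤ Real.log X := Real.log_le_log hq0 (by exact_mod_cast hqX)
    have hlq0 : 0 ≤ Real.log q := Real.log_natCast_nonneg q
    have hb : 0 ≤ X / pZ X * (1 / q) + 1 := by positivity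
    have h4 : ∀ k ∈ Icc 1 ⌊pK X⌋₊, ∑ w ∈ W X q k, ((fib X q w).card : ℝ) ≤
        3 * pK X * Real.log X * (X / pZ X * (1 / q) + 1) := by
      intro k hk
      rw [mem_Icc, Nat.le_floor_iff hK.le] at hk
      have h5 : ∀ w ∈ W X q k, ((fib X q w).card : ℝ) ≤ X / pZ X * (1 / q) + 1 := by
        intro w hw
        unfold W at hw
        rw [mem_filter] at hw
        have hwp : w.Prime := Nat.prime_of_mem_primeFactors hw.1
        refine (card_fib X q w hqp hwp hw.2.2).trans ?_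
        have h6 : (X : ℝ) / (q * w) ≤ X / (q * pZ X) := by
          apply div_le_div_of_nonneg_left hX0.le (by positivity)
          exact mul_le_mul_of_nonneg_left hw.2.1.le hq0.le
        have h7 : (X : ℝ) / (q * pZ X) = X / pZ X * (1 / q) := by
          field_simp
        linarith
      calc ∑ w ∈ W X q k, ((fib X q w).card : ℝ)
          ≤ ∑ w ∈ W X q k, (X / pZ X * (1 / q) + 1) := Finset.sum_le_sum h5
        _ = (W X q k).card * (X / pZ X * (1 / q) + 1) := by
            rw [Finset.sum_const, nsmul_eq_mul]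
        _ ≤ (3 * (k * Real.log q)) * (X / pZ X * (1 / q) + 1) := by
            apply mul_le_mul_of_nonneg_right (card_W X q k hqp hk.1) hb
        _ ≤ (3 * (pK X * Real.log X)) * (X / pZ X * (1 / q) + 1) := by
            apply mul_le_mul_of_nonneg_right _ hb
            have : (k : ℝ) * Real.log q ≤ pK X * Real.log X :=
              mul_le_mul hk.2 hlq hlq0 hK.le
            linarith
        _ = 3 * pK X * Real.log X * (X / pZ X * (1 / q) + 1) := by ring
    calc ∑ k ∈ Icc 1 ⌊pK X⌋₊, ∑ w ∈ W X q k, ((fib X q w).card : ℝ)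
        ≤ ∑ k ∈ Icc 1 ⌊pK X⌋₊, 3 * pK X * Real.log X * (X / pZ X * (1 / q) + 1) :=
          Finset.sum_le_sum h4
      _ = (⌊pK X⌋₊ : ℝ) * (3 * pK X * Real.log X * (X / pZ X * (1 / q) + 1)) := by
          rw [Finset.sum_const, nsmul_eq_mul, Nat.card_Icc, Nat.add_sub_cancel]
      _ ≤ pK X * (3 * pK X * Real.log X * (X / pZ X * (1 / q) + 1)) := by
          apply mul_le_mul_of_nonneg_right (Nat.floor_le hK.le)
          positivity
      _ = 3 * pK X ^ 2 * Real.log X * (X / pZ X * (1 / q) + 1) := by ring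
  have hQ : Q X ⊆ Icc 1 (Nat.sqrt X) := Finset.filter_subset _ _
  calc ∑ q ∈ Q X, ∑ k ∈ Icc 1 ⌊pK X⌋₊, ∑ w ∈ W X q k, ((fib X q w).card : ℝ)
      ≤ ∑ q ∈ Q X, 3 * pK X ^ 2 * Real.log X * (X / pZ X * (1 / q) + 1) :=
        Finset.sum_le_sum h3
    _ ≤ ∑ q ∈ Icc 1 (Nat.sqrt X), 3 * pK X ^ 2 * Real.log X * (X / pZ X * (1 / (q : ℝ)) + 1) := by
        apply Finset.sum_le_sum_of_subset_of_nonneg hQ
        intro q _ _
        positivity
    _ = 3 * pK X ^ 2 * Real.log X *
        (X / pZ X * (∑ q ∈ Icc 1 (Nat.sqrt X), 1 / (q : ℝ)) + (Nat.sqrt X : ℝ)) := by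
        rw [← Finset.mul_sum, Finset.sum_add_distrib, ← Finset.mul_sum, Finset.sum_const,
          nsmul_eq_mul, Nat.card_Icc, Nat.add_sub_cancel, mul_one]
    _ ≤ 3 * pK X ^ 2 * Real.log X * (X / pZ X * (1 + Real.log X) + Real.sqrt X) := by
        have hs : (Nat.sqrt X : ℝ) ≤ Real.sqrt X := Real.nat_sqrt_le_real_sqrt
        have hl : Real.log (Nat.sqrt X : ℝ) ≤ Real.log X := by
          rcases Nat.eq_zero_or_pos (Nat.sqrt X) with h0 | h0
          · rw [h0]
            simpa using hL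
          · apply Real.log_le_log (by exact_mod_cast h0)
            exact_mod_cast Nat.sqrt_le_self X
        have hsum := Tools.sum_inv_le (Nat.sqrt X)
        apply mul_le_mul_of_nonneg_left _ (by positivity)
        apply add_le_add _ hs
        apply mul_le_mul_of_nonneg_left _ (by positivity)
        linarith

end E2aux

/-- The exceptional set `E2` is small. -/
theorem E2_thm : Stmt_E2 := by
  obtain ⟨C1, hC1, h1⟩ := Tools.pow_mul_exp_le 8 (c := 1 / 2) (by norm_num)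
  obtain ⟨X0, hX0, hv⟩ := Tools.exists_le_pv 2
  refine ⟨9 * C1, X0, ?_⟩
  intro X hX
  have hv2 := hv X hX
  have hX1 : 1 ≤ X := hX0.trans hX
  have hcount := E2aux.count X hX1
  have hexp := Tools.cast_eq_exp hX1
  have hlog := Tools.log_eq X
  set v := pv X with hvdef
  have hv0 : 0 < v := by linarith
  have hv1 : 1 ≤ v := by linarith
  have hXpos : (0 : ℝ) < X := by exact_mod_cast hX1
  have hK : pK X ^ 2 = Real.exp (v ^ 3 / 2) := by
    unfold pK
    rw [← Real.exp_nat_mul]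
    congr 1
    push_cast
    ring
  have hZ : pZ X = Real.exp (v ^ 3) := rfl
  have hs : Real.sqrt X = X * Real.exp (-(v ^ 4 / 2)) := by
    rw [hexp, ← Real.exp_add, Real.sqrt_eq_iff_mul_self_eq (Real.exp_pos _).le
      (Real.exp_pos _).le, ← Real.exp_add]
    congr 1
    ring
  have hdiv : (X : ℝ) / pZ X = X * Real.exp (-(v ^ 3)) := by
    rw [hZ, Real.exp_neg, div_eq_mul_inv]
  rw [hK, hlog, hs, hdiv] at hcount
  have he1 : Real.exp (v ^ 3 / 2) * Real.exp (-(v ^ 3)) ≤ Real.exp (-(1 / 2 * v)) := by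
    rw [← Real.exp_add]
    apply Real.exp_le_exp.2
    nlinarith [mul_pos hv0 hv0, mul_nonneg hv0.le (mul_nonneg (sub_nonneg.2 hv1)
      (by linarith : (0:ℝ) ≤ v + 1))]
  have he2 : Real.exp (v ^ 3 / 2) * Real.exp (-(v ^ 4 / 2)) ≤ Real.exp (-(1 / 2 * v)) := by
    rw [← Real.exp_add]
    apply Real.exp_le_exp.2
    have h3 : v ≤ v ^ 3 := by nlinarith [mul_pos hv0 hv0, mul_nonneg hv0.le (mul_nonneg
      (sub_nonneg.2 hv1) (by linarith : (0:ℝ) ≤ v + 1))]
    have h4 : v ^ 3 ≤ v ^ 3 * (v - 1) := by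
      have : 0 ≤ v ^ 3 := by positivity
      nlinarith
    nlinarith
  have hm := h1 v hv1
  have h48 : v ^ 4 ≤ v ^ 8 := pow_le_pow_right₀ hv1 (by norm_num)
  have h4p : 0 ≤ v ^ 4 := by positivity
  have hE : 0 < Real.exp (-(1 / 2 * v)) := Real.exp_pos _
  calc ((E2 X).card : ℝ)
      ≤ 3 * Real.exp (v ^ 3 / 2) * v ^ 4 *
        (X * Real.exp (-(v ^ 3)) * (1 + v ^ 4) + X * Real.exp (-(v ^ 4 / 2))) := hcount
    _ = 3 * X * (v ^ 4 * (1 + v ^ 4) * (Real.exp (v ^ 3 / 2) * Real.exp (-(v ^ 3))) +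
        v ^ 4 * (Real.exp (v ^ 3 / 2) * Real.exp (-(v ^ 4 / 2)))) := by ring
    _ ≤ 3 * X * (v ^ 4 * (1 + v ^ 4) * Real.exp (-(1 / 2 * v)) +
        v ^ 4 * Real.exp (-(1 / 2 * v))) := by
        gcongr
    _ ≤ 3 * X * (3 * (v ^ 8 * Real.exp (-(1 / 2 * v)))) := by
        apply mul_le_mul_of_nonneg_left _ (by positivity)
        have h5 : v ^ 4 * (1 + v ^ 4) = v ^ 4 + v ^ 8 := by ring
        rw [h5]
        nlinarith
    _ ≤ 3 * X * (3 * (C1 / v ^ 8)) := by
        gcongr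
    _ = 9 * C1 * (X / v ^ 8) := by ring

end Pool.Agent.ADS
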