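import Mathlib
import Pool.Agent.ADS.Stmts
import Pool.Agent.ADS.Tools
import Pool.Agent.Lib_helper72.AS.LB2

/-!
# Project ADS: the exceptional set `E3`

`n - 1 = j w`, `w = 1 + m k` with `k > K` a `B`-smooth number.
-/

set_option autoImplicit false

namespace Pool.Agent.ADS

open Finset

namespace E3aux

open Classical in
/-- The `B`-smooth numbers `k > K` up to `X`. -/
noncomputable def SK (X : ℕ) : Finset ℕ :=
  (Icc 1 X).filter (fun k => pK X < k ∧ ∀ l : ℕ, l.Prime → l ∣ k → (l : ℝ) ≤ pB X)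

open Classical in
/-- The pairs `(j, m)` with `j m ≤ X / k`. -/
noncomputable def prs (X k : ℕ) : Finset (ℕ × ℕ) :=
  (Icc 1 X ×ˢ Icc 1 X).filter (fun p : ℕ × ℕ => ((p.1 * p.2 : ℕ) : ℝ) ≤ (X : ℝ) / k)

open Classical in
theorem E3_sub (X : ℕ) :
    E3 X ⊆ (SK X).biUnion (fun k => (prs X k).image (fun p => 1 + p.1 * (1 + p.2 * k))) := by
  intro n hn
  unfold E3 at hn
  rw [mem_filter, mem_Icc] at hn
  obtain ⟨⟨hn2, hnX⟩, w, k, hw, hwn, hkw, hK, hB⟩ := hn
  have hw2 := hw.two_le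
  obtain ⟨j, hj⟩ := hwn
  obtain ⟨m, hm⟩ := hkw
  have hk1 : 1 ≤ k := by
    rcases Nat.eq_zero_or_pos k with h | h
    · rw [h, zero_mul] at hm
      omega
    · exact h
  have hm1 : 1 ≤ m := by
    rcases Nat.eq_zero_or_pos m with h | h
    · rw [h, mul_zero] at hm
      omega
    · exact h
  have hj1 : 1 ≤ j := by
    rcases Nat.eq_zero_or_pos j with h | h
    · rw [h, mul_zero] at hj
      omega
    · exact h
  have hwe : w = 1 + m * k := by
    rw [Nat.mul_comm m k]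
    omega
  have hne : n = 1 + j * (1 + m * k) := by
    rw [← hwe, Nat.mul_comm j w]
    omega
  have hjmk : j * m * k ≤ X := by
    have h1 : j * (1 + m * k) = j + j * m * k := by ring
    omega
  have hkX : k ≤ X := by
    calc k = 1 * 1 * k := by ring
      _ ≤ j * m * k := by gcongr
      _ ≤ X := hjmk
  have hjX : j ≤ X := by
    calc j = j * 1 * 1 := by ring
      _ ≤ j * m * k := by gcongr
      _ ≤ X := hjmk
  have hmX : m ≤ X := by
    calc m = 1 * m * 1 := by ring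
      _ ≤ j * m * k := by gcongr
      _ ≤ X := hjmk
  rw [mem_biUnion]
  refine ⟨k, ?_, ?_⟩
  · unfold SK
    rw [mem_filter, mem_Icc]
    exact ⟨⟨hk1, hkX⟩, hK, hB⟩
  · rw [mem_image]
    refine ⟨(j, m), ?_, hne.symm⟩
    unfold prs
    rw [mem_filter, mem_product, mem_Icc, mem_Icc]
    refine ⟨⟨⟨hj1, hjX⟩, ⟨hm1, hmX⟩⟩, ?_⟩
    have hk0 : (0 : ℝ) < k := by exact_mod_cast hk1
    rw [le_div_iff₀ hk0]
    exact_mod_cast hjmk

theorem card_E3_le (X : ℕ) :
    ((E3 X).card : ℝ) ≤ X * (1 + Real.log X) * ∑ k ∈ SK X, 1 / (k : ℝ) := by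
  classical
  have h1 : (E3 X).card ≤ ∑ k ∈ SK X, (prs X k).card := by
    refine (card_le_card (E3_sub X)).trans (card_biUnion_le.trans ?_)
    apply sum_le_sum
    intro k _
    exact card_image_le
  calc ((E3 X).card : ℝ) ≤ ((∑ k ∈ SK X, (prs X k).card : ℕ) : ℝ) := by exact_mod_cast h1
    _ = ∑ k ∈ SK X, ((prs X k).card : ℝ) := by push_cast; rfl
    _ ≤ ∑ k ∈ SK X, (X : ℝ) / k * (1 + Real.log X) := by
        apply sum_le_sum
        intro k _
        exact Tools.card_pairs_le X (div_nonneg (Nat.cast_nonneg X) (Nat.cast_nonneg k))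
    _ = X * (1 + Real.log X) * ∑ k ∈ SK X, 1 / (k : ℝ) := by
        rw [mul_sum]
        apply sum_congr rfl
        intro k _
        ring

/-- Rankin's bound for the tail. -/
theorem sum_SK_le (X : ℕ) (hv : 2 ≤ pv X) :
    ∑ k ∈ SK X, 1 / (k : ℝ) ≤
      Real.exp (-(Real.log 2 / 4 * pv X)) *
        (pv X ^ 2 * Real.exp (2 * 2 + (4 + 5 / 2 * Lib_helper72.AS.zth))) := by
  classical
  have hv0 : 0 < pv X := by linarith
  have hL : 0 < pv X ^ 2 := by positivity
  have hL4 : 4 ≤ pv X ^ 2 := by nlinarith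
  have hlog2 : 0 < Real.log 2 := Real.log_pos (by norm_num)
  have hlog21 : Real.log 2 ≤ 1 := by
    have := Real.log_two_lt_d9
    linarith
  have hlog4 : Real.log 4 = 2 * Real.log 2 := by
    rw [show (4 : ℝ) = 2 ^ 2 by norm_num, Real.log_pow]
    norm_num
  set z : ℕ := ⌊pB X⌋₊ with hz
  have hBpos : 0 < pB X := Real.exp_pos _
  have hz2 : 2 ≤ z := by
    rw [hz]
    apply Nat.le_floor
    unfold pB
    have h1 := Real.add_one_le_exp (pv X ^ 2)
    push_cast
    linarith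
  have hzL : Real.log z ≤ pv X ^ 2 := by
    have hz0 : (0 : ℝ) < z := by
      have : 0 < z := by omega
      exact_mod_cast this
    rw [Real.log_le_iff_le_exp hz0]
    exact Nat.floor_le hBpos.le
  set θ : ℝ := Real.log 2 / pv X ^ 2 with hθ
  have hθ0 : 0 ≤ θ := by positivity
  have hθ1 : θ ≤ 1 / 4 := by
    rw [hθ, div_le_iff₀ hL]
    linarith
  have hs : 0 < 1 - θ := by linarith
  have hprod := Lib_helper72.AS.prod_factor_le (L := pv X ^ 2) (u := 2) (z := z) hz2 hzL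
    (by linarith) (by norm_num) (by linarith)
  have hsm := Lib_helper72.AS.smooth_sum_le (s := 1 - θ) hs z (SK X) (by
    intro k hk
    unfold SK at hk
    rw [mem_filter] at hk
    rw [Nat.mem_smoothNumbers']
    intro p hp hd
    have h1 := hk.2.2 p hp hd
    have h2 : p ≤ z := Nat.le_floor h1
    omega)
  have hKθ : ∀ k ∈ SK X, 1 / (k : ℝ) ≤
      Real.exp (-(Real.log 2 / 4 * pv X)) * (k : ℝ) ^ (-(1 - θ)) := by
    intro k hk
    unfold SK at hk
    rw [mem_filter, mem_Icc] at hk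
    have hk1 : (1 : ℝ) ≤ k := by exact_mod_cast hk.1.1
    have hk0 : (0 : ℝ) < k := by linarith
    have hkK := hk.2.1
    have hK0 : 0 < pK X := Real.exp_pos _
    have h1 : 1 / (k : ℝ) = (k : ℝ) ^ (-θ) * (k : ℝ) ^ (-(1 - θ)) := by
      rw [← Real.rpow_add hk0, show -θ + -(1 - θ) = -1 by ring, Real.rpow_neg_one, one_div]
    rw [h1]
    apply mul_le_mul_of_nonneg_right _ (by positivity)
    have h2 : (k : ℝ) ^ (-θ) ≤ pK X ^ (-θ) :=
      Real.rpow_le_rpow_of_nonpos hK0 hkK.le (by linarith)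
    refine h2.trans (le_of_eq ?_)
    unfold pK
    rw [← Real.exp_mul]
    congr 1
    rw [hθ]
    field_simp
  calc ∑ k ∈ SK X, 1 / (k : ℝ) ≤
        ∑ k ∈ SK X, Real.exp (-(Real.log 2 / 4 * pv X)) * (k : ℝ) ^ (-(1 - θ)) :=
        sum_le_sum hKθ
    _ = Real.exp (-(Real.log 2 / 4 * pv X)) * ∑ k ∈ SK X, (k : ℝ) ^ (-(1 - θ)) := by
        rw [mul_sum]
    _ ≤ _ := by
        apply mul_le_mul_of_nonneg_left (hsm.trans hprod) (Real.exp_pos _).le

end E3aux

theorem E3_thm : Stmt_E3 := by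
  have hc : 0 < Real.log 2 / 4 := by
    have : 0 < Real.log 2 := Real.log_pos (by norm_num)
    positivity
  obtain ⟨C0, hC0, hC⟩ := Tools.pow_mul_exp_le 6 hc
  obtain ⟨X0, hX01, hX0⟩ := Tools.exists_le_pv 2
  refine ⟨2 * C0 * Real.exp (2 * 2 + (4 + 5 / 2 * Lib_helper72.AS.zth)), X0, ?_⟩
  intro X hX
  have hv := hX0 X hX
  have hv0 : 0 < pv X := by linarith
  have h1 := E3aux.card_E3_le X
  have h2 := E3aux.sum_SK_le X hv
  have h3 := hC (pv X) (by linarith)
  set M := Real.exp (2 * 2 + (4 + 5 / 2 * Lib_helper72.AS.zth)) with hM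
  have hM0 : 0 < M := Real.exp_pos _
  set Ev := Real.exp (-(Real.log 2 / 4 * pv X)) with hEv
  have hEv0 : 0 < Ev := Real.exp_pos _
  have hX0' : (0 : ℝ) ≤ X := Nat.cast_nonneg X
  have hlog : 1 + Real.log X ≤ 2 * pv X ^ 4 := by
    rw [Tools.log_eq]
    have : 1 ≤ pv X ^ 4 := one_le_pow₀ (by linarith)
    linarith
  have hlog0 : 0 ≤ 1 + Real.log X := by
    have := Real.log_natCast_nonneg X
    linarith
  calc ((E3 X).card : ℝ) ≤ X * (1 + Real.log X) * ∑ k ∈ E3aux.SK X, 1 / (k : ℝ) := h1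
    _ ≤ X * (1 + Real.log X) * (Ev * (pv X ^ 2 * M)) := by
        apply mul_le_mul_of_nonneg_left h2 (mul_nonneg hX0' hlog0)
    _ ≤ X * (2 * pv X ^ 4) * (Ev * (pv X ^ 2 * M)) := by
        apply mul_le_mul_of_nonneg_right _ (by positivity)
        apply mul_le_mul_of_nonneg_left hlog hX0'
    _ = 2 * M * X * (pv X ^ 6 * Ev) := by ring
    _ ≤ 2 * M * X * (C0 / pv X ^ 8) := by
        apply mul_le_mul_of_nonneg_left h3 (by positivity)
    _ = 2 * C0 * M * (X / pv X ^ 8) := by ring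

end Pool.Agent.ADS
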