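import Mathlib
import Pool.Agent.ADS.Stmts
import Pool.Agent.ADS.Tools

/-!
# Project ADS: the sets `E4` and `E6a`
-/

set_option autoImplicit false

namespace Pool.Agent.ADS

open Finset

namespace E4E6a

/-- `exp (-v^k) ≤ C / v^8` for `k ≥ 1`. -/
theorem exp_small (k : ℕ) (hk : 1 ≤ k) :
    ∃ C : ℝ, 0 ≤ C ∧ ∀ v : ℝ, 1 ≤ v → Real.exp (-(v ^ k)) ≤ C / v ^ 8 := by
  obtain ⟨C, hC, h⟩ := Tools.pow_mul_exp_le 0 (c := 1) one_pos
  refine ⟨C, hC, fun v hv => ?_⟩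
  have h1 := h v hv
  rw [pow_zero, one_mul, one_mul] at h1
  refine le_trans (Real.exp_le_exp.2 ?_) h1
  have h2 : v ≤ v ^ k := le_self_pow₀ hv (by omega)
  linarith

/-- The number of `n ≤ X` with `l² ∣ n + 1`. -/
theorem card_sq (X l : ℕ) (hl : 1 ≤ l) :
    (((Icc 2 X).filter (fun n => l ^ 2 ∣ n + 1)).card : ℝ) ≤ (X + 1) * ((l : ℝ) ^ 2)⁻¹ := by
  have hl2 : 0 < l ^ 2 := by positivity
  have h1 : ((Icc 2 X).filter (fun n => l ^ 2 ∣ n + 1)).card ≤ (X + 1) / l ^ 2 := by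
    have h2 : ((Icc 2 X).filter (fun n => l ^ 2 ∣ n + 1)).card ≤
        (Icc 1 ((X + 1) / l ^ 2)).card := by
      apply Finset.card_le_card_of_injOn (fun n => (n + 1) / l ^ 2)
      · intro n hn
        rw [mem_coe, mem_filter, mem_Icc] at hn
        rw [mem_coe, mem_Icc]
        obtain ⟨⟨hn1, hn2⟩, hn3⟩ := hn
        refine ⟨Nat.div_pos (Nat.le_of_dvd (by omega) hn3) hl2, Nat.div_le_div_right (by omega)⟩
      · intro m hm n hn hmn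
        rw [mem_coe, mem_filter] at hm hn
        simp only at hmn
        have h3 := Nat.div_mul_cancel hm.2
        have h4 := Nat.div_mul_cancel hn.2
        rw [hmn, h4] at h3
        omega
    rwa [Nat.card_Icc, Nat.add_sub_cancel] at h2
  calc (((Icc 2 X).filter (fun n => l ^ 2 ∣ n + 1)).card : ℝ)
      ≤ (((X + 1) / l ^ 2 : ℕ) : ℝ) := by exact_mod_cast h1
    _ ≤ ((X + 1 : ℕ) : ℝ) / ((l ^ 2 : ℕ) : ℝ) := Nat.cast_div_le
    _ = (X + 1) * ((l : ℝ) ^ 2)⁻¹ := by push_cast; rw [div_eq_mul_inv]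

theorem card_E4 (X : ℕ) : ((E4 X).card : ℝ) ≤ (X + 1) * (2 / pB X) := by
  classical
  have hB : 0 < pB X := Real.exp_pos _
  have hsub : E4 X ⊆ (Ioo ⌊pB X⌋₊ (X + 2)).biUnion
      (fun l => (Icc 2 X).filter (fun n => l ^ 2 ∣ n + 1)) := by
    intro n hn
    unfold E4 at hn
    rw [mem_filter] at hn
    obtain ⟨hn1, l, hl, hlB, hdvd⟩ := hn
    rw [mem_biUnion]
    refine ⟨l, ?_, ?_⟩
    · rw [mem_Ioo]
      refine ⟨(Nat.floor_lt hB.le).2 hlB, ?_⟩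
      have h1 := Nat.le_of_dvd (by omega) hdvd
      have h2 : l ≤ l ^ 2 := Nat.le_self_pow (by norm_num) l
      rw [mem_Icc] at hn1
      omega
    · rw [mem_filter]
      exact ⟨hn1, hdvd⟩
  calc ((E4 X).card : ℝ) ≤ (((Ioo ⌊pB X⌋₊ (X + 2)).biUnion
        (fun l => (Icc 2 X).filter (fun n => l ^ 2 ∣ n + 1))).card : ℝ) := by
        exact_mod_cast card_le_card hsub
    _ ≤ ∑ l ∈ Ioo ⌊pB X⌋₊ (X + 2), (((Icc 2 X).filter (fun n => l ^ 2 ∣ n + 1)).card : ℝ) := by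
        exact_mod_cast card_biUnion_le
    _ ≤ ∑ l ∈ Ioo ⌊pB X⌋₊ (X + 2), ((X : ℝ) + 1) * ((l : ℝ) ^ 2)⁻¹ := by
        apply sum_le_sum
        intro l hl
        rw [mem_Ioo] at hl
        exact card_sq X l (by omega)
    _ = (X + 1) * ∑ l ∈ Ioo ⌊pB X⌋₊ (X + 2), ((l : ℝ) ^ 2)⁻¹ := by rw [mul_sum]
    _ ≤ (X + 1) * (2 / ((⌊pB X⌋₊ : ℝ) + 1)) := by
        gcongr
        exact sum_Ioo_inv_sq_le _ _
    _ ≤ (X + 1) * (2 / pB X) := by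
        gcongr
        exact (Nat.lt_floor_add_one _).le

/-- The solutions for given `i`. -/
theorem card_i (X i : ℕ) (hi : 1 ≤ i) :
    (((Icc 2 X).filter (fun n => n ≡ 1 [MOD i] ∧ i + 2 ∣ n + 1)).card : ℝ) ≤
      2 * X * ((i : ℝ) ^ 2)⁻¹ + 1 := by
  have hi' : (0 : ℝ) < i := by exact_mod_cast hi
  have hg : Nat.gcd i (i + 2) ∣ 2 := by
    have h1 := Nat.gcd_dvd_left i (i + 2)
    have h2 := Nat.gcd_dvd_right i (i + 2)
    exact (Nat.dvd_add_right h1).1 h2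
  have hl0 : 0 < Nat.lcm i (i + 2) := Nat.lcm_pos (by omega) (by omega)
  have h1 := Tools.card_le_of_modEq
    ((Icc 2 X).filter (fun n => n ≡ 1 [MOD i] ∧ i + 2 ∣ n + 1)) X (Nat.lcm i (i + 2)) hl0
    (by
      intro n hn
      rw [mem_filter, mem_Icc] at hn
      omega)
    (by
      intro m hm n hn
      rw [mem_filter] at hm hn
      have e1 : m ≡ n [MOD i] := hm.2.1.trans hn.2.1.symm
      have e2 : m ≡ n [MOD i + 2] := by
        have e3 : m + 1 ≡ n + 1 [MOD i + 2] :=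
          ((Nat.modEq_zero_iff_dvd).2 hm.2.2).trans ((Nat.modEq_zero_iff_dvd).2 hn.2.2).symm
        exact Nat.ModEq.add_right_cancel' 1 e3
      rw [Nat.modEq_iff_dvd] at e1 e2 ⊢
      rw [Int.natCast_dvd] at e1 e2 ⊢
      exact Nat.lcm_dvd e1 e2)
  have h2 := Tools.lcm_ge hg
  have h3 : (0 : ℝ) < Nat.lcm i (i + 2) := by exact_mod_cast hl0
  have h4 : ((i : ℝ) ^ 2) / 2 ≤ Nat.lcm i (i + 2) := by
    refine le_trans ?_ h2
    push_cast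
    nlinarith
  calc (((Icc 2 X).filter (fun n => n ≡ 1 [MOD i] ∧ i + 2 ∣ n + 1)).card : ℝ)
      ≤ X / (Nat.lcm i (i + 2) : ℝ) + 1 := h1
    _ ≤ X / ((i : ℝ) ^ 2 / 2) + 1 := by gcongr
    _ = 2 * X * ((i : ℝ) ^ 2)⁻¹ + 1 := by field_simp

theorem card_E6a (X : ℕ) (hv : 1 ≤ pv X) :
    ((E6a X).card : ℝ) ≤ 2 * X * (2 / pv X ^ 8) + X / pZ X := by
  classical
  have hZ : 0 < pZ X := Real.exp_pos _
  have hv8 : 0 < pv X ^ 8 := by positivity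
  set M := ⌊(X : ℝ) / pZ X⌋₊ with hM
  have hsub : E6a X ⊆ (Ioo ⌊pv X ^ 8⌋₊ (M + 1)).biUnion
      (fun i => (Icc 2 X).filter (fun n => n ≡ 1 [MOD i] ∧ i + 2 ∣ n + 1)) := by
    intro n hn
    unfold E6a at hn
    rw [mem_filter] at hn
    obtain ⟨hn1, i, w, r, hi, hw, h1, h2⟩ := hn
    rw [mem_biUnion]
    refine ⟨i, ?_, ?_⟩
    · rw [mem_Ioo]
      refine ⟨(Nat.floor_lt hv8.le).2 hi, Nat.lt_succ_of_le ?_⟩
      rw [hM, Nat.le_floor_iff (by positivity), le_div_iff₀ hZ]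
      rw [mem_Icc] at hn1
      have h3 : i * w ≤ X := by omega
      have h4 : (i : ℝ) * w ≤ X := by exact_mod_cast h3
      have h5 : (i : ℝ) * pZ X ≤ i * w := by gcongr
      linarith
    · rw [mem_filter]
      refine ⟨hn1, ?_, ⟨r, h2⟩⟩
      rw [h1]
      exact Nat.ModEq.add_left 1 ((Nat.modEq_zero_iff_dvd).2 (dvd_mul_right i w))
  have hcard : (((Ioo ⌊pv X ^ 8⌋₊ (M + 1)).card : ℕ) : ℝ) ≤ X / pZ X := by
    have h1 : (Ioo ⌊pv X ^ 8⌋₊ (M + 1)).card ≤ M := by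
      rw [Nat.card_Ioo]
      omega
    calc (((Ioo ⌊pv X ^ 8⌋₊ (M + 1)).card : ℕ) : ℝ) ≤ (M : ℝ) := by exact_mod_cast h1
      _ ≤ X / pZ X := Nat.floor_le (by positivity)
  calc ((E6a X).card : ℝ) ≤ (((Ioo ⌊pv X ^ 8⌋₊ (M + 1)).biUnion
        (fun i => (Icc 2 X).filter (fun n => n ≡ 1 [MOD i] ∧ i + 2 ∣ n + 1))).card : ℝ) := by
        exact_mod_cast card_le_card hsub
    _ ≤ ∑ i ∈ Ioo ⌊pv X ^ 8⌋₊ (M + 1),
        (((Icc 2 X).filter (fun n => n ≡ 1 [MOD i] ∧ i + 2 ∣ n + 1)).card : ℝ) := by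
        exact_mod_cast card_biUnion_le
    _ ≤ ∑ i ∈ Ioo ⌊pv X ^ 8⌋₊ (M + 1), (2 * (X : ℝ) * ((i : ℝ) ^ 2)⁻¹ + 1) := by
        apply sum_le_sum
        intro i hi
        rw [mem_Ioo] at hi
        exact card_i X i (by omega)
    _ = 2 * X * ∑ i ∈ Ioo ⌊pv X ^ 8⌋₊ (M + 1), ((i : ℝ) ^ 2)⁻¹ +
        ((Ioo ⌊pv X ^ 8⌋₊ (M + 1)).card : ℕ) := by
        rw [sum_add_distrib, ← mul_sum, sum_const, nsmul_eq_mul, mul_one]
    _ ≤ 2 * X * (2 / ((⌊pv X ^ 8⌋₊ : ℝ) + 1)) + X / pZ X := by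
        gcongr
        exact sum_Ioo_inv_sq_le _ _
    _ ≤ 2 * X * (2 / pv X ^ 8) + X / pZ X := by
        gcongr
        exact (Nat.lt_floor_add_one _).le

end E4E6a

/-- **E4.** -/
theorem E4_thm : Stmt_E4 := by
  obtain ⟨C, hC, hexp⟩ := E4E6a.exp_small 2 (by norm_num)
  obtain ⟨X0, hX0, hpv⟩ := Tools.exists_le_pv 1
  refine ⟨4 * C, X0, fun X hX => ?_⟩
  have hv := hpv X hX
  have hX1 : (1 : ℝ) ≤ X := by exact_mod_cast hX0.trans hX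
  refine (E4E6a.card_E4 X).trans ?_
  have h1 := hexp (pv X) hv
  have h2 : 2 / pB X = 2 * Real.exp (-(pv X ^ 2)) := by
    unfold pB
    rw [Real.exp_neg, div_eq_mul_inv]
  rw [h2]
  have h3 : 0 < Real.exp (-(pv X ^ 2)) := Real.exp_pos _
  calc ((X : ℝ) + 1) * (2 * Real.exp (-(pv X ^ 2)))
      ≤ (2 * X) * (2 * (C / pv X ^ 8)) := by gcongr; linarith
    _ = 4 * C * (X / pv X ^ 8) := by ring

/-- **E6a.** -/
theorem E6a_thm : Stmt_E6a := by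
  obtain ⟨C, hC, hexp⟩ := E4E6a.exp_small 3 (by norm_num)
  obtain ⟨X0, hX0, hpv⟩ := Tools.exists_le_pv 1
  refine ⟨4 + C, X0, fun X hX => ?_⟩
  have hv := hpv X hX
  refine (E4E6a.card_E6a X hv).trans ?_
  have h1 := hexp (pv X) hv
  have h2 : X / pZ X = X * Real.exp (-(pv X ^ 3)) := by
    unfold pZ
    rw [Real.exp_neg, div_eq_mul_inv]
  rw [h2]
  calc 2 * (X : ℝ) * (2 / pv X ^ 8) + X * Real.exp (-(pv X ^ 3))
      ≤ 2 * (X : ℝ) * (2 / pv X ^ 8) + X * (C / pv X ^ 8) := by gcongr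
    _ = (4 + C) * (X / pv X ^ 8) := by ring

end Pool.Agent.ADS
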