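import Mathlib
import Pool.Agent.ADS.Stmts
import Pool.Agent.ADS.Tools

/-!
# Project ADS (MP_43d07b_co): the set `E5a`
-/

set_option autoImplicit false

namespace Pool.Agent.ADS

open Finset

namespace M_E5a

open Classical in
noncomputable def SS (X i j l : ℕ) : Finset ℕ :=
  (Icc 2 X).filter (fun n => ∃ a b : ℕ, Rel X n i j l a b)

def dd (i j : ℕ) : ℕ := ((j : ℤ) - (i + 2)).natAbs

open Classical in
noncomputable def PP (X : ℕ) : Finset (ℕ × ℕ) :=
  (Icc 1 X ×ˢ Icc 1 X).filter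
    (fun p : ℕ × ℕ => ((p.1 * p.2 : ℕ) : ℝ) ≤ X / Real.sqrt (pB X))

open Classical in
noncomputable def QQ (X : ℕ) : Finset (ℕ × ℕ) := (PP X).filter (fun p => p.2 ≠ p.1 + 2)

theorem pB_pos (X : ℕ) : 0 < pB X := Real.exp_pos _

theorem one_le_pB (X : ℕ) : 1 ≤ pB X := by
  unfold pB
  exact Real.one_le_exp (sq_nonneg _)

theorem sqrt_pB (X : ℕ) : Real.sqrt (pB X) = Real.exp (pv X ^ 2 / 2) := by
  unfold pB
  rw [Real.exp_half]

theorem card_SS (X i j l : ℕ) (hi : 1 ≤ i) (hj : 1 ≤ j) :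
    ((SS X i j l).card : ℝ) ≤ 2 * X / pB X * (1 / i * (1 / j)) + 1 := by
  classical
  have hB := pB_pos X
  have hi' : (0 : ℝ) < i := by exact_mod_cast hi
  have hj' : (0 : ℝ) < j := by exact_mod_cast hj
  rcases (SS X i j l).eq_empty_or_nonempty with h0 | ⟨n0, hn0⟩
  · rw [h0]
    simp only [card_empty, Nat.cast_zero]
    positivity
  · have hn0' := hn0
    unfold SS at hn0'
    rw [mem_filter] at hn0'
    obtain ⟨_, a0, b0, h1, h2, h3, h4, hl, hlB, h5, h6, h7, h8⟩ := hn0'
    have hl0 : 0 < l := hl.pos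
    have hgcd : Nat.gcd i j ∣ 2 := by
      have hd1 : Nat.gcd i j ∣ i * (1 + l * a0) := (Nat.gcd_dvd_left i j).mul_right _
      have hd2 : Nat.gcd i j ∣ j * (1 + l * b0) := (Nat.gcd_dvd_right i j).mul_right _
      have e : j * (1 + l * b0) = i * (1 + l * a0) + 2 := by
        rw [← h8, h7]; ring
      rw [e] at hd2
      exact (Nat.dvd_add_right hd1).1 hd2
    have hlcm : ((i * j : ℕ) : ℝ) / 2 ≤ Nat.lcm i j := Tools.lcm_ge hgcd
    have hM : 0 < Nat.lcm (i * l) (j * l) :=
      Nat.lcm_pos (Nat.mul_pos hi hl0) (Nat.mul_pos hj hl0)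
    have hcard := Tools.card_le_of_modEq (SS X i j l) X (Nat.lcm (i * l) (j * l)) hM
      (by
        intro n hn
        unfold SS at hn
        rw [mem_filter, mem_Icc] at hn
        exact ⟨by omega, hn.1.2⟩)
      (by
        intro m hm n hn
        unfold SS at hm hn
        rw [mem_filter] at hm hn
        obtain ⟨_, a, b, _, _, _, _, _, _, _, _, hm1, hm2⟩ := hm
        obtain ⟨_, a', b', _, _, _, _, _, _, _, _, hn1, hn2⟩ := hn
        have e1 : m ≡ n [MOD i * l] := by
          have q1 : m = (1 + i) + (i * l) * a := by rw [hm1]; ring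
          have q2 : n = (1 + i) + (i * l) * a' := by rw [hn1]; ring
          unfold Nat.ModEq
          rw [q1, q2, Nat.add_mul_mod_self_left, Nat.add_mul_mod_self_left]
        have e2 : m ≡ n [MOD j * l] := by
          have q1 : m + 1 = j + (j * l) * b := by rw [hm2]; ring
          have q2 : n + 1 = j + (j * l) * b' := by rw [hn2]; ring
          have q3 : m + 1 ≡ n + 1 [MOD j * l] := by
            unfold Nat.ModEq
            rw [q1, q2, Nat.add_mul_mod_self_left, Nat.add_mul_mod_self_left]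
          exact Nat.ModEq.add_right_cancel' 1 q3
        rw [Nat.modEq_iff_dvd] at e1 e2 ⊢
        have e3 : ((Nat.lcm (i * l) (j * l) : ℕ) : ℤ) ∣ ((n : ℤ) - m) := by
          have := Int.natAbs_dvd_natAbs.2 e1
          have := Int.natAbs_dvd_natAbs.2 e2
          rw [← Int.natAbs_dvd_natAbs]
          simp only [Int.natAbs_natCast] at *
          exact Nat.lcm_dvd (by assumption) (by assumption)
        exact e3)
    have hge : pB X * (i * j) / 2 ≤ ((Nat.lcm (i * l) (j * l) : ℕ) : ℝ) := by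
      have e : Nat.lcm (i * l) (j * l) = Nat.lcm i j * l := Nat.lcm_mul_right i l j
      rw [e]
      push_cast at hlcm ⊢
      have hlc : (0 : ℝ) ≤ (Nat.lcm i j : ℝ) := Nat.cast_nonneg _
      calc pB X * (i * j) / 2 = pB X * ((i * j) / 2) := by ring
        _ ≤ l * (Nat.lcm i j : ℝ) := by
            apply mul_le_mul hlB.le hlcm (by positivity) (Nat.cast_nonneg _)
        _ = (Nat.lcm i j : ℝ) * l := by ring
    have hpos : 0 < pB X * (i * j) / 2 := by positivity
    calc ((SS X i j l).card : ℝ) ≤ X / ((Nat.lcm (i * l) (j * l) : ℕ) : ℝ) + 1 := hcard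
      _ ≤ X / (pB X * (i * j) / 2) + 1 := by
          have := div_le_div_of_nonneg_left (Nat.cast_nonneg X) hpos hge
          linarith
      _ = 2 * X / pB X * (1 / i * (1 / j)) + 1 := by
          field_simp

theorem subset_union (X : ℕ) :
    E5a X ⊆ (QQ X).biUnion (fun p => (dd p.1 p.2).primeFactors.biUnion
      (fun l => SS X p.1 p.2 l)) := by
  classical
  intro n hn
  unfold E5a at hn
  rw [mem_filter] at hn
  obtain ⟨hn1, i, j, l, a, b, hR, hne, hle⟩ := hn
  have hR' := hR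
  obtain ⟨h1, h2, h3, h4, hl, hlB, h5, h6, h7, h8⟩ := hR'
  rw [mem_Icc] at hn1
  have hs : 0 < Real.sqrt (pB X) := Real.sqrt_pos.2 (pB_pos X)
  have hs1 : 1 ≤ Real.sqrt (pB X) := by
    rw [Real.one_le_sqrt]
    exact one_le_pB X
  have hij : i * j ≤ X := by
    have : ((i * j : ℕ) : ℝ) ≤ X := by
      calc ((i * j : ℕ) : ℝ) = ((i * j : ℕ) : ℝ) * 1 := by ring
        _ ≤ ((i * j : ℕ) : ℝ) * Real.sqrt (pB X) := by gcongr
        _ ≤ X := hle
    exact_mod_cast this
  have hiX : i ≤ X := le_trans (Nat.le_mul_of_pos_right i h2) hij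
  have hjX : j ≤ X := le_trans (Nat.le_mul_of_pos_left j h1) hij
  rw [mem_biUnion]
  refine ⟨(i, j), ?_, ?_⟩
  · unfold QQ PP
    rw [mem_filter, mem_filter, mem_product, mem_Icc, mem_Icc]
    refine ⟨⟨⟨⟨h1, hiX⟩, ⟨h2, hjX⟩⟩, ?_⟩, hne⟩
    rw [le_div_iff₀ hs]
    exact hle
  · rw [mem_biUnion]
    refine ⟨l, ?_, ?_⟩
    · rw [Nat.mem_primeFactors]
      refine ⟨hl, ?_, ?_⟩
      · have e : (j : ℤ) - (i + 2) = l * ((i : ℤ) * a - j * b) := by
          have h9 : ((j * (1 + l * b) : ℕ) : ℤ) = ((i * (1 + l * a) + 2 : ℕ) : ℤ) := by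
            have : j * (1 + l * b) = i * (1 + l * a) + 2 := by
              rw [← h8, h7]; ring
            rw [this]
          push_cast at h9
          linarith
        have hd : (l : ℤ) ∣ (j : ℤ) - (i + 2) := ⟨_, e⟩
        have := Int.natAbs_dvd_natAbs.2 hd
        simpa [dd] using this
      · unfold dd
        simp only
        omega
    · unfold SS
      rw [mem_filter, mem_Icc]
      exact ⟨hn1, a, b, hR⟩

theorem dd_card (X i j : ℕ) (hX : 2 ≤ X) (hi : i ≤ X) (hj : j ≤ X) (hne : j ≠ i + 2) :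
    (((dd i j).primeFactors).card : ℝ) ≤ 6 * Real.log X := by
  have h0 : dd i j ≠ 0 := by
    unfold dd
    omega
  have h1 := Tools.card_primeFactors_le' h0
  have h2 : dd i j ≤ X ^ 2 := by
    have : dd i j ≤ X + 2 := by
      unfold dd
      omega
    nlinarith
  have h3 : Real.log (dd i j) ≤ 2 * Real.log X := by
    have e : (2 : ℝ) * Real.log X = Real.log ((X : ℝ) ^ 2) := by
      rw [Real.log_pow]; norm_num
    rw [e]
    apply Real.log_le_log
    · exact_mod_cast Nat.pos_of_ne_zero h0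
    · exact_mod_cast h2
  linarith

end M_E5a

open M_E5a in
theorem E5a_thm : Stmt_E5a := by
  classical
  obtain ⟨C, hC0, hC⟩ := Tools.pow_mul_exp_le 12 (c := 1 / 2) (by norm_num)
  obtain ⟨X0, hX01, hX0⟩ := Tools.exists_le_pv 1
  refine ⟨60 * C, max X0 2, ?_⟩
  intro X hX
  have hX2 : 2 ≤ X := le_trans (le_max_right _ _) hX
  have hv1 : 1 ≤ pv X := hX0 X (le_trans (le_max_left _ _) hX)
  have hlog : Real.log X = pv X ^ 4 := Tools.log_eq X
  set v := pv X with hv
  have hv0 : 0 < v := by linarith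
  have hXpos : (0 : ℝ) < X := by exact_mod_cast (by omega : 0 < X)
  have hB := pB_pos X
  have hs : 0 < Real.sqrt (pB X) := Real.sqrt_pos.2 hB
  have hlog0 : 0 ≤ Real.log (X : ℝ) := Real.log_natCast_nonneg X
  -- the union bound
  have step1 : ((E5a X).card : ℝ) ≤ ∑ p ∈ QQ X, ∑ l ∈ (dd p.1 p.2).primeFactors,
      ((SS X p.1 p.2 l).card : ℝ) := by
    have h1 := Finset.card_le_card (subset_union X)
    have h2 : (((QQ X).biUnion (fun p => (dd p.1 p.2).primeFactors.biUnion
        (fun l => SS X p.1 p.2 l))).card : ℝ) ≤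
        ∑ p ∈ QQ X, ∑ l ∈ (dd p.1 p.2).primeFactors, ((SS X p.1 p.2 l).card : ℝ) := by
      have h3 : ((QQ X).biUnion (fun p => (dd p.1 p.2).primeFactors.biUnion
        (fun l => SS X p.1 p.2 l))).card ≤
        ∑ p ∈ QQ X, ∑ l ∈ (dd p.1 p.2).primeFactors, (SS X p.1 p.2 l).card := by
        refine Finset.card_biUnion_le.trans ?_
        apply Finset.sum_le_sum
        intro p _
        exact Finset.card_biUnion_le
      exact_mod_cast h3
    exact le_trans (by exact_mod_cast h1) h2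
  have step2 : ∑ p ∈ QQ X, ∑ l ∈ (dd p.1 p.2).primeFactors, ((SS X p.1 p.2 l).card : ℝ) ≤
      ∑ p ∈ QQ X, 6 * Real.log X * (2 * X / pB X * (1 / (p.1 : ℝ) * (1 / (p.2 : ℝ))) + 1) := by
    apply Finset.sum_le_sum
    intro p hp
    unfold QQ PP at hp
    rw [mem_filter, mem_filter, mem_product, mem_Icc, mem_Icc] at hp
    obtain ⟨⟨⟨⟨hi1, hiX⟩, ⟨hj1, hjX⟩⟩, _⟩, hne⟩ := hp
    calc ∑ l ∈ (dd p.1 p.2).primeFactors, ((SS X p.1 p.2 l).card : ℝ)
        ≤ ∑ l ∈ (dd p.1 p.2).primeFactors,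
          (2 * X / pB X * (1 / (p.1 : ℝ) * (1 / (p.2 : ℝ))) + 1) := by
          apply Finset.sum_le_sum
          intro l _
          exact card_SS X p.1 p.2 l hi1 hj1
      _ = ((dd p.1 p.2).primeFactors.card : ℝ) *
          (2 * X / pB X * (1 / (p.1 : ℝ) * (1 / (p.2 : ℝ))) + 1) := by
          rw [Finset.sum_const, nsmul_eq_mul]
      _ ≤ 6 * Real.log X * (2 * X / pB X * (1 / (p.1 : ℝ) * (1 / (p.2 : ℝ))) + 1) := by
          apply mul_le_mul_of_nonneg_right (dd_card X p.1 p.2 hX2 hiX hjX hne)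
          positivity
  have hQP : QQ X ⊆ PP X := Finset.filter_subset _ _
  have hPprod : PP X ⊆ Icc 1 X ×ˢ Icc 1 X := Finset.filter_subset _ _
  have step3 : ∑ p ∈ QQ X, 6 * Real.log X *
      (2 * X / pB X * (1 / (p.1 : ℝ) * (1 / (p.2 : ℝ))) + 1) ≤
      6 * Real.log X * (2 * X / pB X * (1 + Real.log X) ^ 2 +
        X / Real.sqrt (pB X) * (1 + Real.log X)) := by
    rw [← Finset.mul_sum, Finset.sum_add_distrib, ← Finset.mul_sum]
    apply mul_le_mul_of_nonneg_left _ (by positivity)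
    apply add_le_add
    · apply mul_le_mul_of_nonneg_left _ (by positivity)
      calc ∑ p ∈ QQ X, (1 / (p.1 : ℝ) * (1 / (p.2 : ℝ)))
          ≤ ∑ p ∈ Icc 1 X ×ˢ Icc 1 X, (1 / (p.1 : ℝ) * (1 / (p.2 : ℝ))) := by
            apply Finset.sum_le_sum_of_subset_of_nonneg (hQP.trans hPprod)
            intro p _ _
            positivity
        _ = (∑ i ∈ Icc 1 X, 1 / (i : ℝ)) * ∑ j ∈ Icc 1 X, 1 / (j : ℝ) := by
            rw [Finset.sum_mul_sum, Finset.sum_product]
        _ ≤ (1 + Real.log X) * (1 + Real.log X) := by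
            apply mul_le_mul (Tools.sum_inv_le X) (Tools.sum_inv_le X)
            · exact Finset.sum_nonneg (fun i _ => by positivity)
            · positivity
        _ = (1 + Real.log X) ^ 2 := by ring
    · rw [Finset.sum_const, nsmul_eq_mul, mul_one]
      have h1 : ((QQ X).card : ℝ) ≤ ((PP X).card : ℝ) := by
        exact_mod_cast Finset.card_le_card hQP
      refine h1.trans ?_
      exact Tools.card_pairs_le X (by positivity)
  have hBv : pB X = Real.exp (v ^ 2) := rfl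
  have hsv : Real.sqrt (pB X) = Real.exp (v ^ 2 / 2) := sqrt_pB X
  have hE : Real.exp (-(1 / 2 * v)) = Real.exp (-(1 / 2 * v)) := rfl
  have hb1 : 1 / pB X ≤ Real.exp (-(1 / 2 * v)) := by
    rw [hBv, one_div, ← Real.exp_neg]
    apply Real.exp_le_exp.2
    nlinarith
  have hb2 : 1 / Real.sqrt (pB X) ≤ Real.exp (-(1 / 2 * v)) := by
    rw [hsv, one_div, ← Real.exp_neg]
    apply Real.exp_le_exp.2
    nlinarith
  have hv4 : 1 ≤ v ^ 4 := one_le_pow₀ hv1
  have hv8 : v ^ 4 ≤ v ^ 8 := pow_le_pow_right₀ hv1 (by norm_num)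
  have hfin := hC v hv1
  set e := Real.exp (-(1 / 2 * v)) with he
  have he0 : 0 < e := Real.exp_pos _
  calc ((E5a X).card : ℝ) ≤ _ := step1
    _ ≤ _ := step2
    _ ≤ _ := step3
    _ = 6 * v ^ 4 * X * (2 * (1 + v ^ 4) ^ 2 * (1 / pB X) +
        (1 + v ^ 4) * (1 / Real.sqrt (pB X))) := by
        rw [hlog]; ring
    _ ≤ 6 * v ^ 4 * X * (2 * (2 * v ^ 4) ^ 2 * e + (2 * v ^ 4) * e) := by
        gcongr
        · linarith
        · linarith
    _ = X * (6 * v ^ 4 * (8 * v ^ 8 + 2 * v ^ 4)) * e := by ring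
    _ ≤ X * (60 * v ^ 12) * e := by
        apply mul_le_mul_of_nonneg_right _ he0.le
        apply mul_le_mul_of_nonneg_left _ hXpos.le
        calc 6 * v ^ 4 * (8 * v ^ 8 + 2 * v ^ 4) ≤ 6 * v ^ 4 * (8 * v ^ 8 + 2 * v ^ 8) := by
              gcongr
          _ = 60 * v ^ 12 := by ring
    _ = 60 * X * (v ^ 12 * e) := by ring
    _ ≤ 60 * X * (C / v ^ 8) := by
        apply mul_le_mul_of_nonneg_left hfin (by positivity)
    _ = 60 * C * (X / v ^ 8) := by ring

end Pool.Agent.ADS
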