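import Mathlib
import Pool.Agent.ADS.Stmts
import Pool.Agent.ADS.Tools

/-!
# Project ADS: the exceptional set `E5b`
-/

set_option autoImplicit false

namespace Pool.Agent.ADS

open Finset

namespace E5bAux

open Classical in
/-- The values `n` attached to a triple `(l, a, b)`. -/
noncomputable def F (X : ℕ) (p : ℕ × (ℕ × ℕ)) : Finset ℕ :=
  (Icc 2 X).filter (fun n => (1 + p.1 * p.2.1).Prime ∧ (1 + p.1 * p.2.2).Prime ∧
    1 + p.1 * p.2.1 ≠ 1 + p.1 * p.2.2 ∧ (1 + p.1 * p.2.1) ∣ n - 1 ∧ (1 + p.1 * p.2.2) ∣ n + 1)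

open Classical in
/-- The triples. -/
noncomputable def T (X : ℕ) : Finset (ℕ × (ℕ × ℕ)) :=
  (((Icc 1 X ×ˢ (Icc 1 X ×ˢ Icc 1 X)).filter
      (fun p : ℕ × (ℕ × ℕ) => ((p.1 * p.2.1 * p.2.2 : ℕ) : ℝ) ≤ X / Real.sqrt (pB X)))).filter
    (fun p => pB X < (p.1 : ℝ))

theorem pB_pos (X : ℕ) : 0 < pB X := Real.exp_pos _

theorem one_le_pB (X : ℕ) : 1 ≤ pB X := by
  unfold pB
  exact Real.one_le_exp (by positivity)

theorem card_F_le (X : ℕ) (p : ℕ × (ℕ × ℕ)) (hp : p ∈ T X) :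
    ((F X p).card : ℝ) ≤
      (X / pB X) * (1 / (p.1 : ℝ) * (1 / (p.2.1 : ℝ) * (1 / (p.2.2 : ℝ)))) + 1 := by
  classical
  obtain ⟨l, a, b⟩ := p
  unfold T at hp
  rw [mem_filter, mem_filter, mem_product, mem_product, mem_Icc, mem_Icc, mem_Icc] at hp
  obtain ⟨⟨⟨⟨hl1, _⟩, ⟨ha1, _⟩, ⟨hb1, _⟩⟩, _⟩, hlB⟩ := hp
  simp only at hl1 ha1 hb1 hlB
  have hl : (0 : ℝ) < l := by exact_mod_cast hl1
  have ha : (0 : ℝ) < a := by exact_mod_cast ha1
  have hb : (0 : ℝ) < b := by exact_mod_cast hb1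
  have hB := pB_pos X
  have hX : (0 : ℝ) ≤ X := Nat.cast_nonneg X
  have hbound : ((F X (l, (a, b))).card : ℝ) ≤
      (X : ℝ) / (((1 + l * a) * (1 + l * b) : ℕ) : ℝ) + 1 := by
    apply Tools.card_le_of_modEq _ X ((1 + l * a) * (1 + l * b))
    · exact Nat.mul_pos (by omega) (by omega)
    · intro n hn
      unfold F at hn
      rw [mem_filter, mem_Icc] at hn
      exact ⟨by omega, hn.1.2⟩
    · intro m hm n hn
      unfold F at hm hn
      rw [mem_filter, mem_Icc] at hm hn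
      simp only at hm hn
      obtain ⟨⟨hm2, _⟩, hw, hr, hne, hm1, hm3⟩ := hm
      obtain ⟨⟨hn2, _⟩, _, _, _, hn1, hn3⟩ := hn
      have hcop : Nat.Coprime (1 + l * a) (1 + l * b) := (Nat.coprime_primes hw hr).2 hne
      rw [← Nat.modEq_and_modEq_iff_modEq_mul hcop]
      constructor
      · have h1 : m - 1 ≡ 0 [MOD (1 + l * a)] := (Nat.modEq_zero_iff_dvd).2 hm1
        have h2 : n - 1 ≡ 0 [MOD (1 + l * a)] := (Nat.modEq_zero_iff_dvd).2 hn1
        have h3 := (h1.trans h2.symm).add_right 1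
        rw [Nat.sub_add_cancel (by omega), Nat.sub_add_cancel (by omega)] at h3
        exact h3
      · have h1 : m + 1 ≡ 0 [MOD (1 + l * b)] := (Nat.modEq_zero_iff_dvd).2 hm3
        have h2 : n + 1 ≡ 0 [MOD (1 + l * b)] := (Nat.modEq_zero_iff_dvd).2 hn3
        exact Nat.ModEq.add_right_cancel' 1 (h1.trans h2.symm)
  refine hbound.trans ?_
  have hmain : (X : ℝ) / (((1 + l * a) * (1 + l * b) : ℕ) : ℝ) ≤
      (X / pB X) * (1 / (l : ℝ) * (1 / (a : ℝ) * (1 / (b : ℝ)))) := by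
    have e : (X / pB X) * (1 / (l : ℝ) * (1 / (a : ℝ) * (1 / (b : ℝ)))) =
        X / (pB X * l * a * b) := by
      field_simp
    rw [e]
    apply div_le_div_of_nonneg_left hX (by positivity)
    push_cast
    have h1 : pB X * l * a * b ≤ (l : ℝ) * l * a * b := by
      gcongr
    have h2 : (l : ℝ) * l * a * b ≤ (1 + l * a) * (1 + l * b) := by
      have : 0 ≤ (l : ℝ) * a := by positivity
      have : 0 ≤ (l : ℝ) * b := by positivity
      nlinarith
    exact h1.trans h2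
  linarith

theorem E5b_subset (X : ℕ) : E5b X ⊆ (T X).biUnion (F X) := by
  classical
  intro n hn
  unfold E5b at hn
  rw [mem_filter, mem_Icc] at hn
  obtain ⟨⟨hn2, hnX⟩, i, j, l, a, b, hrel, hij⟩ := hn
  obtain ⟨hi, hj, ha, hb, hl, hlB, hw, hr, hnw, hnr⟩ := hrel
  have hl2 := hl.two_le
  have hla : 1 ≤ l * a := Nat.mul_pos (by omega) ha
  have hlb : 1 ≤ l * b := Nat.mul_pos (by omega) hb
  have hla2 : a ≤ l * a := Nat.le_mul_of_pos_left a (by omega)
  have hla3 : l ≤ l * a := Nat.le_mul_of_pos_right l (by omega)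
  have hlb2 : b ≤ l * b := Nat.le_mul_of_pos_left b (by omega)
  have hiw : 1 + l * a ≤ i * (1 + l * a) := Nat.le_mul_of_pos_left _ hi
  have hjr : 1 + l * b ≤ j * (1 + l * b) := Nat.le_mul_of_pos_left _ hj
  have hB := pB_pos X
  have hB1 := one_le_pB X
  rw [mem_biUnion]
  refine ⟨(l, (a, b)), ?_, ?_⟩
  · unfold T
    rw [mem_filter, mem_filter, mem_product, mem_product, mem_Icc, mem_Icc, mem_Icc]
    refine ⟨⟨⟨⟨by simp only; omega, by simp only; omega⟩, ⟨by simp only; omega,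
      by simp only; omega⟩, ⟨by simp only; omega, by simp only; omega⟩⟩, ?_⟩, hlB⟩
    simp only
    have hs : 0 < Real.sqrt (pB X) := Real.sqrt_pos.2 hB
    rw [le_div_iff₀ hs]
    -- natural inequality
    have hN : i * j * (l * l * a * b) ≤ n * n := by
      have h1 : i * (l * a) ≤ n - 1 := by
        have : i * (1 + l * a) = i + i * (l * a) := by ring
        omega
      have h2 : j * (l * b) ≤ n + 1 := by
        have : j * (1 + l * b) = j + j * (l * b) := by ring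
        omega
      calc i * j * (l * l * a * b) = (i * (l * a)) * (j * (l * b)) := by ring
        _ ≤ (n - 1) * (n + 1) := Nat.mul_le_mul h1 h2
        _ ≤ n * n := by
          obtain ⟨k, rfl⟩ : ∃ k, n = k + 1 := ⟨n - 1, by omega⟩
          have : k + 1 - 1 = k := by omega
          rw [this]
          nlinarith
    have hN2 : ((i * j : ℕ) : ℝ) * ((l : ℝ) * l * a * b) ≤ (X : ℝ) * X := by
      have h1 : ((i * j * (l * l * a * b) : ℕ) : ℝ) ≤ ((n * n : ℕ) : ℝ) := by exact_mod_cast hN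
      have h2 : ((n * n : ℕ) : ℝ) ≤ ((X * X : ℕ) : ℝ) := by
        exact_mod_cast Nat.mul_le_mul hnX hnX
      have h3 := h1.trans h2
      push_cast at h3 ⊢
      linarith
    have hXpos : (0 : ℝ) < X := by
      have : 0 < X := by omega
      exact_mod_cast this
    have hl0 : (0 : ℝ) < l := by exact_mod_cast (show 0 < l by omega)
    have ha0 : (0 : ℝ) < a := by exact_mod_cast ha
    have hb0 : (0 : ℝ) < b := by exact_mod_cast hb
    have hss : Real.sqrt (pB X) * Real.sqrt (pB X) = pB X := Real.mul_self_sqrt hB.le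
    -- X * (l l a b) ≤ ij s (l l a b) ≤ X X s
    have h4 : (X : ℝ) * ((l : ℝ) * l * a * b) ≤ X * X * Real.sqrt (pB X) := by
      calc (X : ℝ) * ((l : ℝ) * l * a * b)
          ≤ (((i * j : ℕ) : ℝ) * Real.sqrt (pB X)) * ((l : ℝ) * l * a * b) := by
            apply mul_le_mul_of_nonneg_right hij.le (by positivity)
        _ = (((i * j : ℕ) : ℝ) * ((l : ℝ) * l * a * b)) * Real.sqrt (pB X) := by ring
        _ ≤ (X * X) * Real.sqrt (pB X) := mul_le_mul_of_nonneg_right hN2 hs.le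
    have h5 : (l : ℝ) * l * a * b ≤ X * Real.sqrt (pB X) := by
      have h6 : (X : ℝ) * ((l : ℝ) * l * a * b) ≤ X * (X * Real.sqrt (pB X)) := by
        calc (X : ℝ) * ((l : ℝ) * l * a * b) ≤ X * X * Real.sqrt (pB X) := h4
          _ = X * (X * Real.sqrt (pB X)) := by ring
      exact le_of_mul_le_mul_left h6 hXpos
    have h7 : pB X * ((l : ℝ) * a * b) ≤ X * Real.sqrt (pB X) := by
      calc pB X * ((l : ℝ) * a * b) ≤ l * ((l : ℝ) * a * b) := by
            apply mul_le_mul_of_nonneg_right hlB.le (by positivity)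
        _ = (l : ℝ) * l * a * b := by ring
        _ ≤ _ := h5
    have h8 : Real.sqrt (pB X) * (((l : ℝ) * a * b) * Real.sqrt (pB X)) ≤
        Real.sqrt (pB X) * X := by
      calc Real.sqrt (pB X) * (((l : ℝ) * a * b) * Real.sqrt (pB X))
          = (Real.sqrt (pB X) * Real.sqrt (pB X)) * ((l : ℝ) * a * b) := by ring
        _ = pB X * ((l : ℝ) * a * b) := by rw [hss]
        _ ≤ X * Real.sqrt (pB X) := h7
        _ = Real.sqrt (pB X) * X := by ring
    have h9 := le_of_mul_le_mul_left h8 hs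
    push_cast
    exact h9
  · unfold F
    rw [mem_filter, mem_Icc]
    refine ⟨⟨hn2, hnX⟩, hw, hr, ?_, ?_, ?_⟩
    · intro h
      simp only at h
      have h1 : (1 + l * a) ∣ n + 1 := by
        rw [hnr, h]
        exact Dvd.intro_left j rfl
      have h2 : (1 + l * a) ∣ n - 1 := by
        have : n - 1 = i * (1 + l * a) := by omega
        rw [this]
        exact Dvd.intro_left i rfl
      have h3 : (1 + l * a) ∣ (n + 1) - (n - 1) := Nat.dvd_sub h1 h2
      have h4 : (n + 1) - (n - 1) = 2 := by omega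
      rw [h4] at h3
      have h5 := Nat.le_of_dvd (by norm_num) h3
      omega
    · simp only
      have : n - 1 = i * (1 + l * a) := by omega
      rw [this]
      exact Dvd.intro_left i rfl
    · simp only
      rw [hnr]
      exact Dvd.intro_left j rfl

theorem sum_T_le (X : ℕ) :
    ∑ p ∈ T X, (1 / (p.1 : ℝ) * (1 / (p.2.1 : ℝ) * (1 / (p.2.2 : ℝ)))) ≤
      (1 + Real.log X) ^ 3 := by
  classical
  have hL : 0 ≤ 1 + Real.log X := by
    have := Real.log_natCast_nonneg X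
    linarith
  calc ∑ p ∈ T X, (1 / (p.1 : ℝ) * (1 / (p.2.1 : ℝ) * (1 / (p.2.2 : ℝ))))
      ≤ ∑ p ∈ Icc 1 X ×ˢ (Icc 1 X ×ˢ Icc 1 X),
          (1 / (p.1 : ℝ) * (1 / (p.2.1 : ℝ) * (1 / (p.2.2 : ℝ)))) := by
        apply Finset.sum_le_sum_of_subset_of_nonneg
        · unfold T
          exact (filter_subset _ _).trans (filter_subset _ _)
        · intro p _ _
          positivity
    _ = (∑ l ∈ Icc 1 X, 1 / (l : ℝ)) * ((∑ a ∈ Icc 1 X, 1 / (a : ℝ)) *
          ∑ b ∈ Icc 1 X, 1 / (b : ℝ)) := by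
        rw [Finset.sum_mul_sum (Icc 1 X) (Icc 1 X), ← Finset.sum_product',
          Finset.sum_mul_sum, ← Finset.sum_product']
    _ ≤ (1 + Real.log X) * ((1 + Real.log X) * (1 + Real.log X)) := by
        have h0 : 0 ≤ ∑ a ∈ Icc 1 X, 1 / (a : ℝ) :=
          Finset.sum_nonneg (fun i _ => by positivity)
        have h1 := Tools.sum_inv_le X
        apply mul_le_mul h1 _ (mul_nonneg h0 h0) hL
        exact mul_le_mul h1 h1 h0 hL
    _ = (1 + Real.log X) ^ 3 := by ring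

theorem card_E5b_le (X : ℕ) :
    ((E5b X).card : ℝ) ≤ X / pB X * (1 + Real.log X) ^ 3 +
      X / Real.sqrt (pB X) * (1 + Real.log X) ^ 2 := by
  classical
  have hB := pB_pos X
  have hs : 0 < Real.sqrt (pB X) := Real.sqrt_pos.2 hB
  have hX : (0 : ℝ) ≤ X := Nat.cast_nonneg X
  have h1 : (E5b X).card ≤ ∑ p ∈ T X, (F X p).card :=
    (Finset.card_le_card (E5b_subset X)).trans Finset.card_biUnion_le
  have h2 : ((E5b X).card : ℝ) ≤ ∑ p ∈ T X, ((F X p).card : ℝ) := by exact_mod_cast h1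
  have h3 : ∑ p ∈ T X, ((F X p).card : ℝ) ≤ ∑ p ∈ T X,
      ((X / pB X) * (1 / (p.1 : ℝ) * (1 / (p.2.1 : ℝ) * (1 / (p.2.2 : ℝ)))) + 1) :=
    Finset.sum_le_sum (fun p hp => card_F_le X p hp)
  rw [Finset.sum_add_distrib, ← Finset.mul_sum, Finset.sum_const, nsmul_eq_mul, mul_one] at h3
  have h4 : ((T X).card : ℝ) ≤ X / Real.sqrt (pB X) * (1 + Real.log X) ^ 2 := by
    have h5 := Tools.card_triples_le X (Y := X / Real.sqrt (pB X)) (by positivity)
    refine le_trans ?_ h5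
    have h6 : T X ⊆ (Icc 1 X ×ˢ (Icc 1 X ×ˢ Icc 1 X)).filter
        (fun p : ℕ × (ℕ × ℕ) => ((p.1 * p.2.1 * p.2.2 : ℕ) : ℝ) ≤ X / Real.sqrt (pB X)) := by
      unfold T
      exact filter_subset _ _
    exact_mod_cast Finset.card_le_card h6
  have h7 : X / pB X * ∑ p ∈ T X, (1 / (p.1 : ℝ) * (1 / (p.2.1 : ℝ) * (1 / (p.2.2 : ℝ)))) ≤
      X / pB X * (1 + Real.log X) ^ 3 :=
    mul_le_mul_of_nonneg_left (sum_T_le X) (by positivity)
  linarith

end E5bAux

theorem E5b_thm : Stmt_E5b := by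
  obtain ⟨C, hC0, hC⟩ := Tools.pow_mul_exp_le 12 (c := 1 / 2) (by norm_num)
  obtain ⟨X0, hX01, hX0⟩ := Tools.exists_le_pv 1
  refine ⟨16 * C, X0, ?_⟩
  intro X hX
  have hv := hX0 X hX
  have hX0' : (0 : ℝ) ≤ X := Nat.cast_nonneg X
  refine (E5bAux.card_E5b_le X).trans ?_
  rw [Tools.log_eq]
  have hsq : Real.sqrt (pB X) = Real.exp (pv X ^ 2 / 2) := by
    unfold pB
    rw [Real.sqrt_eq_iff_mul_self_eq (Real.exp_pos _).le (Real.exp_pos _).le, ← Real.exp_add]
    congr 1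
    ring
  rw [hsq]
  have hBe : pB X = Real.exp (pv X ^ 2) := rfl
  rw [hBe]
  generalize pv X = v at hv ⊢
  have hvC := hC v hv
  have hv0 : 0 < v := by linarith
  have hv4 : 1 ≤ v ^ 4 := one_le_pow₀ hv
  have hv2 : v ≤ v ^ 2 := by nlinarith
  have e1 : Real.exp (-(v ^ 2)) ≤ Real.exp (-(1 / 2 * v)) := by
    apply Real.exp_le_exp.2
    nlinarith
  have e2 : Real.exp (-(v ^ 2 / 2)) ≤ Real.exp (-(1 / 2 * v)) := by
    apply Real.exp_le_exp.2
    nlinarith
  have p3 : (1 + v ^ 4) ^ 3 ≤ 8 * v ^ 12 := by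
    calc (1 + v ^ 4) ^ 3 ≤ (2 * v ^ 4) ^ 3 := by
          apply pow_le_pow_left₀ (by positivity)
          linarith
      _ = 8 * v ^ 12 := by ring
  have p2 : (1 + v ^ 4) ^ 2 ≤ 8 * v ^ 12 := by
    calc (1 + v ^ 4) ^ 2 ≤ (1 + v ^ 4) ^ 3 := by
          apply pow_le_pow_right₀ _ (by norm_num)
          linarith
      _ ≤ _ := p3
  have hexp : 0 < Real.exp (-(1 / 2 * v)) := Real.exp_pos _
  have t1 : X / Real.exp (v ^ 2) * (1 + v ^ 4) ^ 3 ≤
      X * (8 * (v ^ 12 * Real.exp (-(1 / 2 * v)))) := by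
    have : X / Real.exp (v ^ 2) * (1 + v ^ 4) ^ 3 =
        X * ((1 + v ^ 4) ^ 3 * Real.exp (-(v ^ 2))) := by
      rw [Real.exp_neg]
      ring
    rw [this]
    apply mul_le_mul_of_nonneg_left _ hX0'
    calc (1 + v ^ 4) ^ 3 * Real.exp (-(v ^ 2)) ≤ (8 * v ^ 12) * Real.exp (-(1 / 2 * v)) :=
          mul_le_mul p3 e1 (Real.exp_pos _).le (by positivity)
      _ = 8 * (v ^ 12 * Real.exp (-(1 / 2 * v))) := by ring
  have t2 : X / Real.exp (v ^ 2 / 2) * (1 + v ^ 4) ^ 2 ≤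
      X * (8 * (v ^ 12 * Real.exp (-(1 / 2 * v)))) := by
    have : X / Real.exp (v ^ 2 / 2) * (1 + v ^ 4) ^ 2 =
        X * ((1 + v ^ 4) ^ 2 * Real.exp (-(v ^ 2 / 2))) := by
      rw [Real.exp_neg]
      ring
    rw [this]
    apply mul_le_mul_of_nonneg_left _ hX0'
    calc (1 + v ^ 4) ^ 2 * Real.exp (-(v ^ 2 / 2)) ≤ (8 * v ^ 12) * Real.exp (-(1 / 2 * v)) :=
          mul_le_mul p2 e2 (Real.exp_pos _).le (by positivity)
      _ = 8 * (v ^ 12 * Real.exp (-(1 / 2 * v))) := by ring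
  have t3 : X * (8 * (v ^ 12 * Real.exp (-(1 / 2 * v)))) ≤ X * (8 * (C / v ^ 8)) := by
    apply mul_le_mul_of_nonneg_left _ hX0'
    linarith
  calc X / Real.exp (v ^ 2) * (1 + v ^ 4) ^ 3 + X / Real.exp (v ^ 2 / 2) * (1 + v ^ 4) ^ 2
      ≤ X * (8 * (C / v ^ 8)) + X * (8 * (C / v ^ 8)) := by linarith
    _ = 16 * C * (X / v ^ 8) := by ring

end Pool.Agent.ADS
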