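import Mathlib
import Pool.Agent.ADS.Defs
import Pool.Agent.ADS.Stmts
import Pool.Agent.ADS.Tools
import Pool.Agent.Lib_helper72.AP.ProdAvg
import Pool.Agent.Lib_helper72.AP.TwoForms

/-!
# Project ADS: module E6b
-/

set_option autoImplicit false

namespace Pool.Agent.ADS.E6bAux

open Finset Pool.Agent.Lib_helper72.AP

/-! ### The forms -/

section

variable {a b : ℕ}

theorem rho_pos (hab : Nat.Coprime a b) (p : ℕ) (hp : p.Prime) :
    1 ≤ rhoF (twoF a b 1 1) p := by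
  classical
  have : Fact p.Prime := ⟨hp⟩
  have : NeZero p := ⟨hp.ne_zero⟩
  rw [rhoF_eq_card hp (twoF a b 1 1)
    (fun x => ((a : ZMod p) * x + ((1 : ℤ) : ZMod p)) * ((b : ZMod p) * x + ((1 : ℤ) : ZMod p)))
    (fun n => twoF_cast n)]
  apply Finset.card_pos.2
  by_cases h : p ∣ a
  · have h2 : (b : ZMod p) ≠ 0 := by
      intro h0
      have h3 := (ZMod.natCast_eq_zero_iff b p).1 h0
      have h4 := Nat.dvd_gcd h h3
      rw [hab] at h4
      exact hp.one_lt.ne' (Nat.dvd_one.1 h4)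
    refine ⟨-1 / (b : ZMod p), ?_⟩
    rw [mem_filter]
    refine ⟨mem_univ _, ?_⟩
    have : (b : ZMod p) * (-1 / (b : ZMod p)) + ((1 : ℤ) : ZMod p) = 0 := by
      push_cast
      field_simp
      ring
    rw [this, mul_zero]
  · have h2 : (a : ZMod p) ≠ 0 := by
      intro h0
      exact h ((ZMod.natCast_eq_zero_iff a p).1 h0)
    refine ⟨-1 / (a : ZMod p), ?_⟩
    rw [mem_filter]
    refine ⟨mem_univ _, ?_⟩
    have : (a : ZMod p) * (-1 / (a : ZMod p)) + ((1 : ℤ) : ZMod p) = 0 := by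
      push_cast
      field_simp
      ring
    rw [this, zero_mul]

theorem rho_lt (p : ℕ) (hp : p.Prime) : rhoF (twoF a b 1 1) p < p := by
  have h1 : (range p).filter (fun n => (p : ℤ) ∣ twoF a b 1 1 n) ⊆ (range p).erase 0 := by
    intro n hn
    rw [mem_filter] at hn
    rw [mem_erase]
    refine ⟨?_, hn.1⟩
    rintro rfl
    have h2 := hn.2
    have h3 : twoF a b 1 1 0 = 1 := by
      unfold twoF
      simp
    rw [h3] at h2
    have h4 := Int.eq_one_of_dvd_one (by positivity) h2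
    have h5 := hp.one_lt
    omega
  have h2 := Finset.card_le_card h1
  rw [Finset.card_erase_of_mem (mem_range.2 hp.pos), card_range] at h2
  have := hp.pos
  rw [rhoF]
  omega

theorem rho_two (hd : a = b + 1 ∨ a = b + 2) (p : ℕ) (hp : p.Prime) (h : ¬ p ∣ 2 * a * b) :
    2 ≤ rhoF (twoF a b 1 1) p := by
  apply twoF_two_le p hp
  intro h0
  apply h
  have hp' : Prime (p : ℤ) := Nat.prime_iff_prime_int.1 hp
  have h1 : (p : ℤ) ∣ ((2 * a * b : ℕ) : ℤ) := by
    push_cast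
    rcases hp'.dvd_or_dvd h0 with h1 | h1
    · exact (h1.mul_left 2).trans (by rw [mul_assoc])
    · have h2 : (p : ℤ) ∣ 2 := by
        refine h1.trans ?_
        rcases hd with h3 | h3
        · rw [h3]; push_cast
          exact ⟨2, by ring⟩
        · rw [h3]; push_cast
          exact ⟨1, by ring⟩
      exact (h2.mul_right (a : ℤ)).mul_right (b : ℤ)
  exact_mod_cast h1

/-- The sieve bound. -/
theorem sieve_le (hab : Nat.Coprime a b) (ha : 1 ≤ a) (hb : 1 ≤ b)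
    (hd : a = b + 1 ∨ a = b + 2) (H y : ℕ) (hy : 1 ≤ y) :
    (((range H).filter
      (fun n => Nat.Coprime (primorial (y * y)) (twoF a b 1 1 n).natAbs)).card : ℝ) ≤
      H * cfac (2 * a * b) / (∑ u ∈ Icc 1 y, (1 : ℝ) / u) ^ 2 + (y : ℝ) ^ 12 := by
  have h := form_count_le (twoF a b 1 1) (twoF_cong a b 1 1) 0 H (rho_pos hab) (rho_lt)
    (B := 2 * a * b) (by positivity) (by rw [mul_assoc]; exact dvd_mul_right _ _)
    (fun p hp hpB => rho_two hd p hp hpB) y hy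
  rw [Nat.zero_add] at h
  rw [Finset.range_eq_Ico]
  exact h

/-- Both forms prime. -/
theorem primes_le (hab : Nat.Coprime a b) (ha : 1 ≤ a) (hb : 1 ≤ b)
    (hd : a = b + 1 ∨ a = b + 2) (H y : ℕ) (hy : 1 ≤ y) :
    (((range H).filter (fun t => (1 + a * t).Prime ∧ (1 + b * t).Prime)).card : ℝ) ≤
      H * cfac (2 * a * b) / (∑ u ∈ Icc 1 y, (1 : ℝ) / u) ^ 2 + (y : ℝ) ^ 12 + y ^ 2 + 1 := by
  classical
  have hsub : (range H).filter (fun t => (1 + a * t).Prime ∧ (1 + b * t).Prime) ⊆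
      (range H).filter (fun n => Nat.Coprime (primorial (y * y)) (twoF a b 1 1 n).natAbs) ∪
      range (y * y + 1) := by
    intro t ht
    rw [mem_filter, mem_range] at ht
    rw [mem_union, mem_filter, mem_range, mem_range]
    by_cases h : t < y * y + 1
    · exact Or.inr h
    · left
      refine ⟨ht.1, ?_⟩
      have e1 : (twoF a b 1 1 t).natAbs = (1 + a * t) * (1 + b * t) := by
        have e2 : twoF a b 1 1 t = (((1 + a * t) * (1 + b * t) : ℕ) : ℤ) := by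
          unfold twoF
          push_cast
          ring
        rw [e2, Int.natAbs_natCast]
      rw [e1]
      have key : ∀ q : ℕ, q.Prime → y * y < q → Nat.Coprime (primorial (y * y)) q := by
        intro q hq hyq
        rw [Nat.coprime_comm, hq.coprime_iff_not_dvd]
        intro hdvd
        rw [primorial] at hdvd
        obtain ⟨r, hr, hqr⟩ := (hq.prime.dvd_finsetProd_iff _).1 hdvd
        rw [mem_filter, mem_range] at hr
        have := Nat.le_of_dvd hr.2.pos hqr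
        omega
      have h1 : t ≤ a * t := Nat.le_mul_of_pos_left t ha
      have h2 : t ≤ b * t := Nat.le_mul_of_pos_left t hb
      exact Nat.Coprime.mul_right (key _ ht.2.1 (by omega)) (key _ ht.2.2 (by omega))
  have h1 := Finset.card_le_card hsub
  have h2 := Finset.card_union_le
    ((range H).filter (fun n => Nat.Coprime (primorial (y * y)) (twoF a b 1 1 n).natAbs))
    (range (y * y + 1))
  rw [card_range] at h2
  have h3 := sieve_le hab ha hb hd H y hy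
  have h4 : (((range H).filter (fun t => (1 + a * t).Prime ∧ (1 + b * t).Prime)).card : ℝ) ≤
      (((range H).filter
      (fun n => Nat.Coprime (primorial (y * y)) (twoF a b 1 1 n).natAbs)).card : ℝ) +
      ((y * y + 1 : ℕ) : ℝ) := by exact_mod_cast h1.trans h2
  push_cast at h4
  nlinarith

end

/-! ### The parameters -/

theorem exists_ab (i : ℕ) (hi : 1 ≤ i) : ∃ g a b : ℕ, 1 ≤ g ∧ g ≤ 2 ∧ i = g * b ∧
    i + 2 = g * a ∧ Nat.Coprime a b ∧ 1 ≤ a ∧ 1 ≤ b ∧ (a = b + 1 ∨ a = b + 2) := by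
  obtain ⟨k, hk | hk⟩ := Nat.even_or_odd' i
  · refine ⟨2, k + 1, k, by norm_num, le_rfl, hk, by omega, ?_, by omega, by omega, Or.inl rfl⟩
    exact (Nat.coprime_self_add_left.2 (Nat.coprime_one_left k) : Nat.Coprime (k + 1) k)
  · refine ⟨1, 2 * k + 3, 2 * k + 1, le_rfl, by norm_num, by omega, by omega, ?_, by omega,
      by omega, Or.inr rfl⟩
    have h1 : Nat.Coprime 2 (2 * k + 1) := by
      rw [Nat.coprime_comm, Nat.coprime_two_right]
      exact ⟨k, rfl⟩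
    have h2 : Nat.Coprime ((2 * k + 1) + 2) (2 * k + 1) := Nat.coprime_self_add_left.2 h1
    exact h2

open Classical in
/-- The numbers with a given `i`. -/
noncomputable def Fib (X i : ℕ) : Finset ℕ :=
  (Icc 2 X).filter (fun n => ∃ w r : ℕ, w.Prime ∧ r.Prime ∧ n = 1 + i * w ∧
    n + 1 = (i + 2) * r)

theorem quarter (i : ℕ) : ((16 : ℝ) * (i : ℝ) ^ 2) ^ (1 / 4 : ℝ) = 2 * Real.sqrt i := by
  have h0 : (0 : ℝ) ≤ 2 * Real.sqrt i := by positivity
  have h1 : (16 : ℝ) * (i : ℝ) ^ 2 = (2 * Real.sqrt i) ^ 4 := by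
    have h2 : Real.sqrt i ^ 2 = i := Real.sq_sqrt (Nat.cast_nonneg i)
    calc (16 : ℝ) * (i : ℝ) ^ 2 = 16 * (Real.sqrt i ^ 2) ^ 2 := by rw [h2]
      _ = (2 * Real.sqrt i) ^ 4 := by ring
  rw [h1]
  have h3 := Real.pow_rpow_inv_natCast h0 (n := 4) (by norm_num)
  have h4 : (((4 : ℕ) : ℝ))⁻¹ = (1 / 4 : ℝ) := by norm_num
  rw [h4] at h3
  exact h3

theorem fiber_le (X i : ℕ) (hi : 1 ≤ i) (y : ℕ) (hy : 1 ≤ y) :
    ((Fib X i).card : ℝ) ≤ (2 * X / (i : ℝ) ^ 2 + 1) * (4 * ZZ * Real.sqrt i) /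
      (∑ u ∈ Icc 1 y, (1 : ℝ) / u) ^ 2 + (y : ℝ) ^ 12 + y ^ 2 + 1 := by
  classical
  obtain ⟨g, a, b, hg1, hg2, hb, ha, hab, ha1, hb1, hd⟩ := exists_ab i hi
  set H := X / (i * a) + 1 with hH
  have hsub : Fib X i ⊆ ((range H).filter
      (fun t => (1 + a * t).Prime ∧ (1 + b * t).Prime)).image (fun t => 1 + i * (1 + a * t)) := by
    intro n hn
    rw [Fib, mem_filter, mem_Icc] at hn
    obtain ⟨⟨hn2, hnX⟩, w, r, hw, hr, h1, h2⟩ := hn
    have hw1 := hw.two_le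
    have hr1 := hr.two_le
    obtain ⟨w', rfl⟩ : ∃ w', w = w' + 1 := ⟨w - 1, by omega⟩
    obtain ⟨r', rfl⟩ : ∃ r', r = r' + 1 := ⟨r - 1, by omega⟩
    have h3 : i * w' = (i + 2) * r' := by
      have : 1 + i * (w' + 1) + 1 = (i + 2) * (r' + 1) := by rw [← h1]; exact h2
      nlinarith
    have h4 : b * w' = a * r' := by
      rw [ha] at h3
      have h5 : g * b * w' = g * a * r' := by rw [← h3]; rw [← hb]
      have h6 : g * (b * w') = g * (a * r') := by
        rw [← mul_assoc, ← mul_assoc]; exact h5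
      exact Nat.eq_of_mul_eq_mul_left hg1 h6
    have h5 : a ∣ w' := by
      have h6 : a ∣ b * w' := ⟨r', h4⟩
      exact hab.dvd_of_dvd_mul_left h6
    obtain ⟨t, rfl⟩ := h5
    have h6 : r' = b * t := by
      have h7 : a * (b * t) = a * r' := by rw [← h4]; ring
      exact (Nat.eq_of_mul_eq_mul_left ha1 h7).symm
    subst h6
    rw [mem_image]
    refine ⟨t, ?_, ?_⟩
    · rw [mem_filter, mem_range]
      refine ⟨?_, ?_, ?_⟩
      · rw [hH, Nat.lt_succ_iff, Nat.le_div_iff_mul_le (Nat.mul_pos hi ha1)]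
        have h8 : n = 1 + i + i * a * t := by rw [h1]; ring
        have h9 : t * (i * a) = i * a * t := by ring
        omega
      · rw [add_comm]; exact hw
      · rw [add_comm]; exact hr
    · rw [h1]
      ring
  have h1 := (Finset.card_le_card hsub).trans Finset.card_image_le
  have h2 := primes_le hab ha1 hb1 hd H y hy
  set L := ∑ u ∈ Icc 1 y, (1 : ℝ) / u with hL
  have hLpos : 0 < L := by
    rw [hL]
    apply Finset.sum_pos
    · intro u hu
      rw [mem_Icc] at hu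
      have : (0 : ℝ) < u := by exact_mod_cast hu.1
      positivity
    · exact ⟨1, mem_Icc.2 ⟨le_rfl, hy⟩⟩
  have hi0 : (0 : ℝ) < i := by exact_mod_cast hi
  have ha0 : (0 : ℝ) < a := by exact_mod_cast ha1
  have hai : (i : ℝ) ≤ 2 * a := by
    have h3 : i ≤ 2 * a := by nlinarith
    exact_mod_cast h3
  have hHle : (H : ℝ) ≤ 2 * X / (i : ℝ) ^ 2 + 1 := by
    rw [hH]
    push_cast
    have h3 : ((X / (i * a) : ℕ) : ℝ) ≤ X / (i * a) := by
      refine Nat.cast_div_le.trans ?_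
      push_cast
      exact le_rfl
    have h4 : (X : ℝ) / (i * a) ≤ 2 * X / (i : ℝ) ^ 2 := by
      rw [div_le_div_iff₀ (by positivity) (by positivity)]
      have hX : (0 : ℝ) ≤ X := Nat.cast_nonneg X
      nlinarith [mul_le_mul_of_nonneg_left hai (mul_nonneg hX hi0.le)]
    linarith
  have hc : cfac (2 * a * b) ≤ 4 * ZZ * Real.sqrt i := by
    have h3 := cfac_le_rpow (e := 2 * a * b) (by positivity)
    have h4 : (((2 * a * b : ℕ) : ℝ)) ≤ 16 * (i : ℝ) ^ 2 := by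
      have h5 : a ≤ 3 * i := by nlinarith
      have h6 : b ≤ i := by nlinarith
      have h7 : 2 * a * b ≤ 16 * i ^ 2 := by
        calc 2 * a * b ≤ 2 * (3 * i) * i := by gcongr
          _ ≤ 16 * i ^ 2 := by nlinarith
      exact_mod_cast h7
    have h5 : ((2 * a * b : ℕ) : ℝ) ^ (1 / 4 : ℝ) ≤ 2 * Real.sqrt i := by
      rw [← quarter]
      exact Real.rpow_le_rpow (Nat.cast_nonneg _) h4 (by norm_num)
    have h6 := ZZ_ge_one
    calc cfac (2 * a * b) ≤ 2 * ZZ * ((2 * a * b : ℕ) : ℝ) ^ (1 / 4 : ℝ) := h3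
      _ ≤ 2 * ZZ * (2 * Real.sqrt i) := by
        apply mul_le_mul_of_nonneg_left h5 (by linarith)
      _ = 4 * ZZ * Real.sqrt i := by ring
  have h3 : (H : ℝ) * cfac (2 * a * b) / L ^ 2 ≤
      (2 * X / (i : ℝ) ^ 2 + 1) * (4 * ZZ * Real.sqrt i) / L ^ 2 := by
    apply div_le_div_of_nonneg_right _ (by positivity)
    apply mul_le_mul hHle hc (cfac_nonneg _) (by positivity)
  have h4 : ((Fib X i).card : ℝ) ≤ (((range H).filter
      (fun t => (1 + a * t).Prime ∧ (1 + b * t).Prime)).card : ℝ) := by exact_mod_cast h1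
  linarith

theorem sqrt_div_le (i : ℕ) (hi : 1 ≤ i) :
    Real.sqrt i / (i : ℝ) ^ 2 ≤ 1 / (i : ℝ) ^ (5 / 4 : ℝ) := by
  have hi1 : (1 : ℝ) ≤ i := by exact_mod_cast hi
  have hi0 : (0 : ℝ) < i := by linarith
  rw [div_le_div_iff₀ (by positivity) (by positivity), Real.sqrt_eq_rpow, ← Real.rpow_add hi0,
    one_mul, ← Real.rpow_natCast]
  apply Real.rpow_le_rpow_of_exponent_le hi1
  norm_num

/-- The sum over `i`. -/
theorem sum_le (X I y : ℕ) (hy : 1 ≤ y) :
    ∑ i ∈ Icc 1 I, ((Fib X i).card : ℝ) ≤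
      4 * ZZ * (2 * X * ZZ + (I : ℝ) ^ 2) / (∑ u ∈ Icc 1 y, (1 : ℝ) / u) ^ 2 +
        I * ((y : ℝ) ^ 12 + y ^ 2 + 1) := by
  set L := ∑ u ∈ Icc 1 y, (1 : ℝ) / u with hL
  have hZ := ZZ_ge_one
  have h1 : ∀ i ∈ Icc 1 I, ((Fib X i).card : ℝ) ≤
      4 * ZZ / L ^ 2 * (2 * X * (1 / (i : ℝ) ^ (5 / 4 : ℝ)) + I) +
        ((y : ℝ) ^ 12 + y ^ 2 + 1) := by
    intro i hi
    rw [mem_Icc] at hi
    have h2 := fiber_le X i hi.1 y hy
    have h3 := sqrt_div_le i hi.1
    have h4 : Real.sqrt i ≤ I := by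
      have h5 : (1 : ℝ) ≤ i := by exact_mod_cast hi.1
      have h6 : (i : ℝ) ≤ I := by exact_mod_cast hi.2
      have h7 : Real.sqrt i ≤ i := by
        rw [Real.sqrt_le_left (by linarith)]
        nlinarith
      linarith
    have hX : (0 : ℝ) ≤ X := Nat.cast_nonneg X
    have h5 : (2 * X / (i : ℝ) ^ 2 + 1) * Real.sqrt i ≤
        2 * X * (1 / (i : ℝ) ^ (5 / 4 : ℝ)) + I := by
      have h6 : (2 * X / (i : ℝ) ^ 2 + 1) * Real.sqrt i =
          2 * X * (Real.sqrt i / (i : ℝ) ^ 2) + Real.sqrt i := by ring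
      rw [h6]
      have h7 := mul_le_mul_of_nonneg_left h3 (by positivity : (0 : ℝ) ≤ 2 * X)
      linarith
    have h6 : (2 * X / (i : ℝ) ^ 2 + 1) * (4 * ZZ * Real.sqrt i) / L ^ 2 =
        4 * ZZ / L ^ 2 * ((2 * X / (i : ℝ) ^ 2 + 1) * Real.sqrt i) := by ring
    rw [h6] at h2
    have h7 := mul_le_mul_of_nonneg_left h5 (by positivity : (0 : ℝ) ≤ 4 * ZZ / L ^ 2)
    linarith
  refine (Finset.sum_le_sum h1).trans ?_
  rw [Finset.sum_add_distrib, ← Finset.mul_sum, Finset.sum_add_distrib, ← Finset.mul_sum,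
    Finset.sum_const, Finset.sum_const, Nat.card_Icc, Nat.add_sub_cancel, nsmul_eq_mul,
    nsmul_eq_mul]
  have h2 := sum_le_ZZ (Icc 1 I)
  have h3 : 4 * ZZ / L ^ 2 * (2 * X * ∑ i ∈ Icc 1 I, 1 / (i : ℝ) ^ (5 / 4 : ℝ) + (I : ℝ) * I) ≤
      4 * ZZ / L ^ 2 * (2 * X * ZZ + (I : ℝ) * I) := by
    gcongr
  have h4 : 4 * ZZ / L ^ 2 * (2 * X * ZZ + (I : ℝ) * I) =
      4 * ZZ * (2 * X * ZZ + (I : ℝ) ^ 2) / L ^ 2 := by ring
  linarith

end Pool.Agent.ADS.E6bAux

namespace Pool.Agent.ADS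

open Finset Pool.Agent.Lib_helper72.AP E6bAux

theorem E6b_thm : Stmt_E6b := by
  classical
  obtain ⟨X0, hX01, hX0⟩ := Tools.exists_le_pv 7
  refine ⟨9216 * ZZ * (2 * ZZ + 1) + 1, X0, ?_⟩
  intro X hX
  have hv := hX0 X hX
  have hX1 : 1 ≤ X := hX01.trans hX
  have hXe := Tools.cast_eq_exp hX1
  set v := pv X with hvdef
  have hZ := ZZ_ge_one
  have hv0 : (0 : ℝ) < v := by linarith
  set I : ℕ := ⌊v ^ 8⌋₊ with hI
  have hIle : (I : ℝ) ≤ v ^ 8 := Nat.floor_le (by positivity)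
  set y : ℕ := ⌊Real.exp (v ^ 4 / 48)⌋₊ with hy
  have hyle : (y : ℝ) ≤ Real.exp (v ^ 4 / 48) := Nat.floor_le (Real.exp_pos _).le
  have hy1 : 1 ≤ y := by
    rw [hy, Nat.one_le_floor_iff]
    exact Real.one_le_exp (by positivity)
  have hL : v ^ 4 / 48 ≤ ∑ u ∈ Icc 1 y, (1 : ℝ) / u := by
    have h1 := log_add_one_le_harmonic y
    rw [harmonic_eq_sum_Icc] at h1
    push_cast at h1
    have h2 : Real.exp (v ^ 4 / 48) ≤ (y : ℝ) + 1 := (Nat.lt_floor_add_one _).le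
    have h3 : v ^ 4 / 48 ≤ Real.log ((y : ℝ) + 1) := by
      rw [Real.le_log_iff_exp_le (by positivity)]
      exact h2
    refine h3.trans (h1.trans (le_of_eq ?_))
    apply Finset.sum_congr rfl
    intro u _
    rw [one_div]
  -- exponentials
  have hexp : 3 * v ^ 16 ≤ Real.exp (3 * v ^ 4 / 4) := by
    have h1 := Real.pow_div_factorial_le_exp (3 * v ^ 4 / 4) (by positivity) 5
    have h2 : (2401 : ℝ) ≤ v ^ 4 := by
      have := pow_le_pow_left₀ (by norm_num) hv 4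
      norm_num at this
      exact this
    refine le_trans ?_ h1
    have h3 : ((5 : ℕ).factorial : ℝ) = 120 := by norm_num [Nat.factorial]
    rw [h3, le_div_iff₀ (by norm_num)]
    have h4 : (3 * v ^ 4 / 4) ^ 5 = 243 / 1024 * (v ^ 4 * v ^ 16) := by ring
    rw [h4]
    have h5 : (0 : ℝ) < v ^ 16 := by positivity
    nlinarith
  have hexp2 : v ^ 16 ≤ X := by
    rw [hXe]
    have h1 : Real.exp (3 * v ^ 4 / 4) ≤ Real.exp (v ^ 4) := by
      apply Real.exp_le_exp.2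
      have : 0 ≤ v ^ 4 := by positivity
      linarith
    have : (0 : ℝ) ≤ v ^ 16 := by positivity
    linarith
  -- the union
  have hsub : E6b X ⊆ (Icc 1 I).biUnion (fun i => Fib X i) := by
    intro n hn
    rw [E6b, mem_filter] at hn
    obtain ⟨hn1, i, w, r, hi1, hiv, hw, hr, h1, h2⟩ := hn
    rw [mem_biUnion]
    refine ⟨i, ?_, ?_⟩
    · rw [mem_Icc]
      refine ⟨hi1, ?_⟩
      rw [hI]
      exact Nat.le_floor hiv
    · rw [Fib, mem_filter]
      exact ⟨hn1, w, r, hw, hr, h1, h2⟩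
  have h1 : ((E6b X).card : ℝ) ≤ ∑ i ∈ Icc 1 I, ((Fib X i).card : ℝ) := by
    have h2 := (Finset.card_le_card hsub).trans Finset.card_biUnion_le
    exact_mod_cast h2
  have h2 := sum_le X I y hy1
  set L := ∑ u ∈ Icc 1 y, (1 : ℝ) / u with hLdef
  have hXnn : (0 : ℝ) ≤ X := Nat.cast_nonneg X
  have h3 : 4 * ZZ * (2 * X * ZZ + (I : ℝ) ^ 2) / L ^ 2 ≤
      9216 * ZZ * (2 * ZZ + 1) * (X / v ^ 8) := by
    have hI2 : (I : ℝ) ^ 2 ≤ X := by
      calc (I : ℝ) ^ 2 ≤ (v ^ 8) ^ 2 := pow_le_pow_left₀ (Nat.cast_nonneg _) hIle 2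
        _ = v ^ 16 := by ring
        _ ≤ X := hexp2
    have hL2 : v ^ 8 / 2304 ≤ L ^ 2 := by
      calc v ^ 8 / 2304 = (v ^ 4 / 48) ^ 2 := by ring
        _ ≤ L ^ 2 := pow_le_pow_left₀ (by positivity) hL 2
    have hL0 : 0 < v ^ 8 / 2304 := by positivity
    calc 4 * ZZ * (2 * X * ZZ + (I : ℝ) ^ 2) / L ^ 2 ≤
          4 * ZZ * (2 * X * ZZ + X) / (v ^ 8 / 2304) := by
          apply div_le_div₀ (by positivity) _ hL0 hL2
          gcongr
      _ = 9216 * ZZ * (2 * ZZ + 1) * (X / v ^ 8) := by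
          field_simp
          ring
  have h4 : (I : ℝ) * ((y : ℝ) ^ 12 + y ^ 2 + 1) ≤ X / v ^ 8 := by
    have hy1r : (1 : ℝ) ≤ y := by exact_mod_cast hy1
    have h5 : (y : ℝ) ^ 12 + y ^ 2 + 1 ≤ 3 * (y : ℝ) ^ 12 := by
      have e1 : (y : ℝ) ^ 2 ≤ (y : ℝ) ^ 12 := pow_le_pow_right₀ hy1r (by norm_num)
      have e2 : (1 : ℝ) ≤ (y : ℝ) ^ 12 := one_le_pow₀ hy1r
      linarith
    have h6 : (y : ℝ) ^ 12 ≤ Real.exp (v ^ 4 / 4) := by
      calc (y : ℝ) ^ 12 ≤ (Real.exp (v ^ 4 / 48)) ^ 12 :=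
            pow_le_pow_left₀ (Nat.cast_nonneg _) hyle 12
        _ = Real.exp (v ^ 4 / 4) := by
            rw [← Real.exp_nat_mul]
            congr 1
            push_cast
            ring
    rw [le_div_iff₀ (by positivity)]
    have hE : 0 < Real.exp (v ^ 4 / 4) := Real.exp_pos _
    calc (I : ℝ) * ((y : ℝ) ^ 12 + y ^ 2 + 1) * v ^ 8 ≤
          v ^ 8 * (3 * Real.exp (v ^ 4 / 4)) * v ^ 8 := by
          gcongr
          linarith
      _ = (3 * v ^ 16) * Real.exp (v ^ 4 / 4) := by ring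
      _ ≤ Real.exp (3 * v ^ 4 / 4) * Real.exp (v ^ 4 / 4) := by gcongr
      _ = X := by
          rw [← Real.exp_add, hXe]
          congr 1
          ring
  have h5 : (9216 * ZZ * (2 * ZZ + 1) + 1) * (X / v ^ 8) =
      9216 * ZZ * (2 * ZZ + 1) * (X / v ^ 8) + X / v ^ 8 := by ring
  rw [h5]
  linarith

end Pool.Agent.ADS
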