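import Mathlib
import Pool.Agent.ADS.Stmts2

/-!
# Project ADS (MP_43d07b_co), fourth part: nilpotent groups are included
-/

set_option autoImplicit false

namespace Pool.Agent.ADS

open Finset

/-- Some finite group that is nilpotent or has a commutator subgroup of order at most
`exp (√(log n))` contains an affine difference set of order `n`. -/
def NearOrder3 (n : ℕ) : Prop :=
  ∃ (G : Type) (_ : Group G) (N : Subgroup G) (D : Finset G), IsAffineDifferenceSet n N D ∧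
    (Group.IsNilpotent G ∨
      (Nat.card (commutator G) : ℝ) ≤ Real.exp (Real.sqrt (Real.log n)))

/-- NIL: in a finite nilpotent group the primes dividing the order of the commutator subgroup
divide the group order at least twice. -/
def Stmt_NIL : Prop :=
  ∀ (G : Type) [Group G] [Finite G], Group.IsNilpotent G →
    ∀ p : ℕ, p.Prime → p ∣ Nat.card (commutator G) → p ^ 2 ∣ Nat.card G

open Classical in
/-- `n - 1` or `n + 1` has a large square divisor. -/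
noncomputable def E7 (X : ℕ) : Finset ℕ :=
  (Icc 2 X).filter (fun n => ∃ a : ℕ, (pB X) ^ (1 / 16 : ℝ) ≤ a ∧ (a ^ 2 ∣ n - 1 ∨ a ^ 2 ∣ n + 1))

def Stmt_E7 : Prop := Small E7

/-- SQF: from a large commutator subgroup to a large square divisor. -/
def Stmt_SQF : Prop :=
  ∃ X0 : ℕ, ∀ X n c : ℕ, X0 ≤ X → 2 ≤ n → n ≤ X → c ∣ n ^ 2 - 1 →
    (∀ p : ℕ, p.Prime → p ∣ c → p ^ 2 ∣ n ^ 2 - 1) → pB X < c → n ∈ E7 X

/-- The main theorem. -/
def MainStatement3 : Prop :=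
  ∃ C : ℝ, ∀ x : ℝ, 2 ≤ x →
    (Nat.primeCounting ⌊x⌋₊ : ℝ) ≤ ({n : ℕ | (n : ℝ) ≤ x ∧ CyclicOrder n}.ncard : ℝ) ∧
    ({n : ℕ | (n : ℝ) ≤ x ∧ NearOrder3 n}.ncard : ℝ) ≤
      Nat.primeCounting ⌊x⌋₊ + C * x / Real.log x ^ 2

/-- FINAL3. -/
def Stmt_FINAL3 : Prop :=
  Stmt_KEY2 → Stmt_CASES2 → Stmt_E0 → Stmt_E1 → Stmt_E2g → Stmt_E3 → Stmt_E4 → Stmt_E5a →
    Stmt_E5b → Stmt_E6a → Stmt_E6b → Stmt_BOSE → Stmt_NIL → Stmt_E7 → Stmt_SQF → MainStatement3

end Pool.Agent.ADS
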