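import Mathlib
import Pool.Agent.ADS.Stmts3
import Pool.Agent.ADS.E4E6a

/-!
# Project ADS: the set `E7` (large square divisors of `n - 1` or `n + 1`)
-/

set_option autoImplicit false

namespace Pool.Agent.ADS

open Finset

namespace E7

/-- The number of `n ≤ X` with `l² ∣ n - 1`. -/
theorem card_sq' (X l : ℕ) (hl : 1 ≤ l) :
    (((Icc 2 X).filter (fun n => l ^ 2 ∣ n - 1)).card : ℝ) ≤ (X + 1) * ((l : ℝ) ^ 2)⁻¹ := by
  have hl2 : 0 < l ^ 2 := by positivity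
  have h1 : ((Icc 2 X).filter (fun n => l ^ 2 ∣ n - 1)).card ≤ (X + 1) / l ^ 2 := by
    have h2 : ((Icc 2 X).filter (fun n => l ^ 2 ∣ n - 1)).card ≤
        (Icc 1 ((X + 1) / l ^ 2)).card := by
      apply Finset.card_le_card_of_injOn (fun n => (n - 1) / l ^ 2)
      · intro n hn
        rw [mem_coe, mem_filter, mem_Icc] at hn
        rw [mem_coe, mem_Icc]
        obtain ⟨⟨hn1, hn2⟩, hn3⟩ := hn
        refine ⟨Nat.div_pos (Nat.le_of_dvd (by omega) hn3) hl2, Nat.div_le_div_right (by omega)⟩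
      · intro m hm n hn hmn
        rw [mem_coe, mem_filter, mem_Icc] at hm hn
        simp only at hmn
        have h3 := Nat.div_mul_cancel hm.2
        have h4 := Nat.div_mul_cancel hn.2
        rw [hmn, h4] at h3
        omega
    rwa [Nat.card_Icc, Nat.add_sub_cancel] at h2
  calc (((Icc 2 X).filter (fun n => l ^ 2 ∣ n - 1)).card : ℝ)
      ≤ (((X + 1) / l ^ 2 : ℕ) : ℝ) := by exact_mod_cast h1
    _ ≤ ((X + 1 : ℕ) : ℝ) / ((l ^ 2 : ℕ) : ℝ) := Nat.cast_div_le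
    _ = (X + 1) * ((l : ℝ) ^ 2)⁻¹ := by push_cast; rw [div_eq_mul_inv]

theorem card_both (X l : ℕ) (hl : 1 ≤ l) :
    (((Icc 2 X).filter (fun n => l ^ 2 ∣ n - 1 ∨ l ^ 2 ∣ n + 1)).card : ℝ) ≤
      2 * (X + 1) * ((l : ℝ) ^ 2)⁻¹ := by
  have h1 : ((Icc 2 X).filter (fun n => l ^ 2 ∣ n - 1 ∨ l ^ 2 ∣ n + 1)).card ≤
      ((Icc 2 X).filter (fun n => l ^ 2 ∣ n - 1)).card +
        ((Icc 2 X).filter (fun n => l ^ 2 ∣ n + 1)).card := by
    rw [filter_or]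
    exact card_union_le _ _
  have h2 := card_sq' X l hl
  have h3 := E4E6a.card_sq X l hl
  have h4 : (((Icc 2 X).filter (fun n => l ^ 2 ∣ n - 1 ∨ l ^ 2 ∣ n + 1)).card : ℝ) ≤
      ((Icc 2 X).filter (fun n => l ^ 2 ∣ n - 1)).card +
        ((Icc 2 X).filter (fun n => l ^ 2 ∣ n + 1)).card := by exact_mod_cast h1
  linarith

theorem card_E7 (X : ℕ) :
    ((E7 X).card : ℝ) ≤ 2 * (X + 1) * (2 / pB X ^ (1 / 16 : ℝ)) := by
  classical
  have hB : 0 < pB X := Real.exp_pos _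
  have hY : 0 < pB X ^ (1 / 16 : ℝ) := Real.rpow_pos_of_pos hB _
  set Y := pB X ^ (1 / 16 : ℝ) with hYdef
  have hc : 1 ≤ ⌈Y⌉₊ := Nat.one_le_iff_ne_zero.2 (by
    have := Nat.ceil_pos.2 hY
    omega)
  have hsub : Pool.Agent.ADS.E7 X ⊆ (Ioo (⌈Y⌉₊ - 1) (X + 2)).biUnion
      (fun l => (Icc 2 X).filter (fun n => l ^ 2 ∣ n - 1 ∨ l ^ 2 ∣ n + 1)) := by
    intro n hn
    unfold Pool.Agent.ADS.E7 at hn
    rw [mem_filter] at hn
    obtain ⟨hn1, l, hl, hdvd⟩ := hn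
    rw [mem_biUnion]
    refine ⟨l, ?_, ?_⟩
    · rw [mem_Ioo]
      have h0 : ⌈Y⌉₊ ≤ l := Nat.ceil_le.2 hl
      rw [mem_Icc] at hn1
      have h2 : l ≤ l ^ 2 := Nat.le_self_pow (by norm_num) l
      refine ⟨by omega, ?_⟩
      rcases hdvd with hd | hd
      · have h1 := Nat.le_of_dvd (by omega) hd
        omega
      · have h1 := Nat.le_of_dvd (by omega) hd
        omega
    · rw [mem_filter]
      exact ⟨hn1, hdvd⟩
  calc ((Pool.Agent.ADS.E7 X).card : ℝ) ≤ (((Ioo (⌈Y⌉₊ - 1) (X + 2)).biUnion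
        (fun l => (Icc 2 X).filter (fun n => l ^ 2 ∣ n - 1 ∨ l ^ 2 ∣ n + 1))).card : ℝ) := by
        exact_mod_cast card_le_card hsub
    _ ≤ ∑ l ∈ Ioo (⌈Y⌉₊ - 1) (X + 2),
        (((Icc 2 X).filter (fun n => l ^ 2 ∣ n - 1 ∨ l ^ 2 ∣ n + 1)).card : ℝ) := by
        exact_mod_cast card_biUnion_le
    _ ≤ ∑ l ∈ Ioo (⌈Y⌉₊ - 1) (X + 2), (2 * ((X : ℝ) + 1) * ((l : ℝ) ^ 2)⁻¹) := by
        apply sum_le_sum
        intro l hl
        rw [mem_Ioo] at hl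
        exact card_both X l (by omega)
    _ = 2 * (X + 1) * ∑ l ∈ Ioo (⌈Y⌉₊ - 1) (X + 2), ((l : ℝ) ^ 2)⁻¹ := by rw [mul_sum]
    _ ≤ 2 * (X + 1) * (2 / (((⌈Y⌉₊ - 1 : ℕ) : ℝ) + 1)) := by
        gcongr
        exact sum_Ioo_inv_sq_le _ _
    _ ≤ 2 * (X + 1) * (2 / Y) := by
        have h3 : ((⌈Y⌉₊ - 1 : ℕ) : ℝ) + 1 = ⌈Y⌉₊ := by
          rw [Nat.cast_sub hc]
          push_cast
          ring
        rw [h3]
        gcongr
        exact Nat.le_ceil _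

/-- `exp (-v² / 16) ≤ C / v^8`. -/
theorem exp_small16 :
    ∃ C : ℝ, 0 ≤ C ∧ ∀ v : ℝ, 1 ≤ v → Real.exp (-(v ^ 2 / 16)) ≤ C / v ^ 8 := by
  obtain ⟨C, hC, h⟩ := Tools.pow_mul_exp_le 0 (c := 1 / 16) (by norm_num)
  refine ⟨C, hC, fun v hv => ?_⟩
  have h1 := h v hv
  rw [pow_zero, one_mul] at h1
  refine le_trans (Real.exp_le_exp.2 ?_) h1
  nlinarith

end E7

/-- **E7.** -/
theorem E7_thm : Stmt_E7 := by
  obtain ⟨C, hC, hexp⟩ := E7.exp_small16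
  obtain ⟨X0, hX0, hpv⟩ := Tools.exists_le_pv 1
  refine ⟨8 * C, X0, fun X hX => ?_⟩
  have hv := hpv X hX
  have hX1 : (1 : ℝ) ≤ X := by exact_mod_cast hX0.trans hX
  refine (E7.card_E7 X).trans ?_
  have h1 := hexp (pv X) hv
  have h2 : 2 / pB X ^ (1 / 16 : ℝ) = 2 * Real.exp (-(pv X ^ 2 / 16)) := by
    unfold pB
    rw [← Real.exp_mul, Real.exp_neg, div_eq_mul_inv]
    congr 3
    ring
  rw [h2]
  have h3 : 0 < Real.exp (-(pv X ^ 2 / 16)) := Real.exp_pos _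
  calc 2 * ((X : ℝ) + 1) * (2 * Real.exp (-(pv X ^ 2 / 16)))
      ≤ 2 * (2 * X) * (2 * (C / pv X ^ 8)) := by gcongr; linarith
    _ = 8 * C * (X / pv X ^ 8) := by ring

end Pool.Agent.ADS
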