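import Mathlib
import Pool.Agent.ADS.EvStmts

/-!
# Module ADS_EV6 (MP_43d07b_co): final assembly of the third part
-/

set_option autoImplicit false

namespace Pool.Agent.ADS

open Finset

namespace M_EV6

theorem count {C : ℝ} (hC : 0 < C) {X : ℕ} (hX : 2 ≤ X) {x : ℝ} (h1 : (X : ℝ) ≤ x)
    (h2 : x ≤ X + 1) :
    C * X / (Real.log X) ^ (1 / 3 : ℝ) ≤ (2 * C) * x / (Real.log x) ^ (1 / 3 : ℝ) := by
  have hX2 : (2 : ℝ) ≤ X := by exact_mod_cast hX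
  have hX0 : (0 : ℝ) < X := by linarith
  have hx0 : (0 : ℝ) < x := by linarith
  have hlX : 0 < Real.log X := Real.log_pos (by linarith)
  have hlx : 0 < Real.log x := Real.log_pos (by linarith)
  have h3 : Real.log x ≤ 2 * Real.log X := by
    have h4 : x ≤ (X : ℝ) ^ 2 := by nlinarith
    calc Real.log x ≤ Real.log ((X : ℝ) ^ 2) := Real.log_le_log hx0 h4
      _ = 2 * Real.log X := by rw [Real.log_pow]; norm_num
  have h5 : (Real.log x) ^ (1 / 3 : ℝ) ≤ 2 * (Real.log X) ^ (1 / 3 : ℝ) := by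
    calc (Real.log x) ^ (1 / 3 : ℝ) ≤ (2 * Real.log X) ^ (1 / 3 : ℝ) :=
          Real.rpow_le_rpow hlx.le h3 (by norm_num)
      _ = (2 : ℝ) ^ (1 / 3 : ℝ) * (Real.log X) ^ (1 / 3 : ℝ) :=
          Real.mul_rpow (by norm_num) hlX.le
      _ ≤ 2 * (Real.log X) ^ (1 / 3 : ℝ) := by
          refine mul_le_mul_of_nonneg_right ?_ (Real.rpow_nonneg hlX.le _)
          calc (2 : ℝ) ^ (1 / 3 : ℝ) ≤ (2 : ℝ) ^ (1 : ℝ) :=
                Real.rpow_le_rpow_of_exponent_le (by norm_num) (by norm_num)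
            _ = 2 := Real.rpow_one 2
  have hp1 : 0 < (Real.log X) ^ (1 / 3 : ℝ) := Real.rpow_pos_of_pos hlX _
  have hp2 : 0 < (Real.log x) ^ (1 / 3 : ℝ) := Real.rpow_pos_of_pos hlx _
  rw [div_le_div_iff₀ hp1 hp2]
  calc C * X * (Real.log x) ^ (1 / 3 : ℝ)
      ≤ C * x * (2 * (Real.log X) ^ (1 / 3 : ℝ)) := by
        refine mul_le_mul ?_ h5 hp2.le (by positivity)
        exact mul_le_mul_of_nonneg_left h1 hC.le
    _ = 2 * C * x * (Real.log X) ^ (1 / 3 : ℝ) := by ring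

end M_EV6

/-- Final assembly of the third part. -/
theorem EV6_thm : Stmt_EV6 := by
  intro hA hc
  refine ⟨fun n hn hs => (hA n hn hs).1, ?_⟩
  obtain ⟨C, hC, hcount⟩ := hc
  refine ⟨2 * C, fun x hx => ?_⟩
  have hX : 2 ≤ ⌊x⌋₊ := Nat.le_floor (by exact_mod_cast hx)
  have hx0 : 0 ≤ x := by linarith
  have hsub : {n : ℕ | (n : ℝ) ≤ x ∧ Even n ∧ SolvOrder n} ⊆ (SE ⌊x⌋₊ : Set ℕ) := by
    rintro n ⟨h1, h2, h3⟩
    have h4 : 2 ≤ n := by
      obtain ⟨G, iG, _, N, D, hD⟩ := h3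
      exact hD.two_le
    classical
    simp only [SE, Finset.coe_filter, Finset.mem_Icc, Set.mem_setOf_eq]
    exact ⟨⟨h4, Nat.le_floor h1⟩, h2, (hA n h2 h3).2⟩
  calc ({n : ℕ | (n : ℝ) ≤ x ∧ Even n ∧ SolvOrder n}.ncard : ℝ)
      ≤ ((SE ⌊x⌋₊).card : ℝ) := by
        have h := Set.ncard_le_ncard hsub (Finset.finite_toSet _)
        rw [Set.ncard_coe_finset] at h
        exact_mod_cast h
    _ ≤ C * (⌊x⌋₊ : ℕ) / (Real.log (⌊x⌋₊ : ℕ)) ^ (1 / 3 : ℝ) := hcount _ hX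
    _ ≤ (2 * C) * x / (Real.log x) ^ (1 / 3 : ℝ) :=
        M_EV6.count hC hX (Nat.floor_le hx0) (Nat.lt_floor_add_one x).le

end Pool.Agent.ADS
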