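import Mathlib
import Pool.Agent.ADS.Stmts2
import Pool.Agent.ADS.Tools

/-!
# Project ADS, module FINAL2: the assembly of the second part
-/

set_option autoImplicit false

namespace Pool.Agent.ADS

open Finset

namespace FinalTwo

theorem small_union {E F : ℕ → Finset ℕ} (hE : Small E) (hF : Small F) :
    Small (fun X => E X ∪ F X) := by
  obtain ⟨C, X0, h⟩ := hE
  obtain ⟨C', X0', h'⟩ := hF
  refine ⟨C + C', max X0 X0', ?_⟩
  intro X hX
  have h1 := h X ((le_max_left _ _).trans hX)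
  have h2 := h' X ((le_max_right _ _).trans hX)
  have h3 : (((E X ∪ F X).card : ℕ) : ℝ) ≤ ((E X).card : ℝ) + ((F X).card : ℝ) := by
    exact_mod_cast card_union_le (E X) (F X)
  calc (((E X ∪ F X).card : ℕ) : ℝ) ≤ ((E X).card : ℝ) + ((F X).card : ℝ) := h3
    _ ≤ C * (X / pv X ^ 8) + C' * (X / pv X ^ 8) := add_le_add h1 h2
    _ = (C + C') * (X / pv X ^ 8) := by ring

theorem small_mono {E F : ℕ → Finset ℕ} (hF : Small F)
    (h : ∃ X0 : ℕ, ∀ X : ℕ, X0 ≤ X → E X ⊆ F X) : Small E := by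
  obtain ⟨C, X0, hC⟩ := hF
  obtain ⟨X1, h1⟩ := h
  refine ⟨C, max X0 X1, ?_⟩
  intro X hX
  have h2 := hC X ((le_max_left _ _).trans hX)
  have h3 : ((E X).card : ℝ) ≤ ((F X).card : ℝ) := by
    exact_mod_cast card_le_card (h1 X ((le_max_right _ _).trans hX))
  exact h3.trans h2

/-- From a bound at the natural numbers to a bound at the real numbers. -/
theorem small_real {E : ℕ → Finset ℕ} (hE : Small E) (hsub : ∀ X, E X ⊆ Icc 2 X) :
    ∃ C : ℝ, ∀ x : ℝ, 2 ≤ x → ((E ⌊x⌋₊).card : ℝ) ≤ C * x / Real.log x ^ 2 := by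
  obtain ⟨C, X0, hC⟩ := hE
  refine ⟨4 * |C| + ((X0 : ℝ) + 1) ^ 2, ?_⟩
  intro x hx
  have hx0 : (0 : ℝ) < x := by linarith
  have hlog : 0 < Real.log x := Real.log_pos (by linarith)
  have hX2 : 2 ≤ ⌊x⌋₊ := Nat.le_floor (by exact_mod_cast hx)
  have hXx : ((⌊x⌋₊ : ℕ) : ℝ) ≤ x := Nat.floor_le hx0.le
  have hxX : x < ((⌊x⌋₊ : ℕ) : ℝ) + 1 := Nat.lt_floor_add_one x
  have hX2' : (2 : ℝ) ≤ ((⌊x⌋₊ : ℕ) : ℝ) := by exact_mod_cast hX2
  generalize hXdef : ⌊x⌋₊ = X at *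
  have hlogX : 0 < Real.log X := Real.log_pos (by linarith)
  have hsplit : (4 * |C| + ((X0 : ℝ) + 1) ^ 2) * x / Real.log x ^ 2 =
      4 * |C| * x / Real.log x ^ 2 + ((X0 : ℝ) + 1) ^ 2 * x / Real.log x ^ 2 := by ring
  rw [hsplit]
  rcases le_or_gt X0 X with h | h
  · have h1 := hC X h
    have h2 : pv X ^ 8 = Real.log X ^ 2 := by
      rw [Tools.log_eq]; ring
    rw [h2] at h1
    have h3 : Real.log x ≤ 2 * Real.log X := by
      have h31 : x ≤ (X : ℝ) ^ 2 := by nlinarith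
      have h32 := Real.log_le_log hx0 h31
      rw [Real.log_pow] at h32
      exact_mod_cast h32
    have h4 : C * ((X : ℝ) / Real.log X ^ 2) ≤ 4 * |C| * x / Real.log x ^ 2 := by
      have h41 : C * ((X : ℝ) / Real.log X ^ 2) ≤ |C| * ((X : ℝ) / Real.log X ^ 2) :=
        mul_le_mul_of_nonneg_right (le_abs_self C) (by positivity)
      have h42 : (X : ℝ) / Real.log X ^ 2 ≤ 4 * x / Real.log x ^ 2 := by
        rw [div_le_div_iff₀ (by positivity) (by positivity)]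
        have h43 : Real.log x ^ 2 ≤ 4 * Real.log X ^ 2 := by nlinarith
        calc (X : ℝ) * Real.log x ^ 2 ≤ x * (4 * Real.log X ^ 2) :=
              mul_le_mul hXx h43 (by positivity) hx0.le
          _ = 4 * x * Real.log X ^ 2 := by ring
      calc C * ((X : ℝ) / Real.log X ^ 2) ≤ |C| * ((X : ℝ) / Real.log X ^ 2) := h41
        _ ≤ |C| * (4 * x / Real.log x ^ 2) := mul_le_mul_of_nonneg_left h42 (abs_nonneg C)
        _ = 4 * |C| * x / Real.log x ^ 2 := by ring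
    have h5 : (0 : ℝ) ≤ ((X0 : ℝ) + 1) ^ 2 * x / Real.log x ^ 2 := by positivity
    linarith
  · have h1 : ((E X).card : ℝ) ≤ x := by
      have h11 := card_le_card (hsub X)
      rw [Nat.card_Icc] at h11
      have h12 : (E X).card ≤ X := by omega
      have h13 : ((E X).card : ℝ) ≤ X := by exact_mod_cast h12
      linarith
    have h2 : Real.log x ≤ (X0 : ℝ) + 1 := by
      have h21 := Real.log_le_sub_one_of_pos hx0
      have h22 : (X : ℝ) ≤ X0 := by exact_mod_cast h.le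
      linarith
    have h3 : x ≤ ((X0 : ℝ) + 1) ^ 2 * x / Real.log x ^ 2 := by
      rw [le_div_iff₀ (by positivity)]
      have h31 : Real.log x ^ 2 ≤ ((X0 : ℝ) + 1) ^ 2 := pow_le_pow_left₀ hlog.le h2 2
      calc x * Real.log x ^ 2 ≤ x * ((X0 : ℝ) + 1) ^ 2 :=
            mul_le_mul_of_nonneg_left h31 hx0.le
        _ = ((X0 : ℝ) + 1) ^ 2 * x := by ring
    have h5 : (0 : ℝ) ≤ 4 * |C| * x / Real.log x ^ 2 := by positivity
    linarith

/-- The set of natural numbers `≤ x` with a property is finite. -/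
theorem finite_le (x : ℝ) (P : ℕ → Prop) :
    {n : ℕ | (n : ℝ) ≤ x ∧ P n}.Finite := by
  refine (Finset.finite_toSet (Finset.range (⌊x⌋₊ + 1))).subset ?_
  intro n hn
  have h1 : n ≤ ⌊x⌋₊ := Nat.le_floor hn.1
  rw [Finset.mem_coe, Finset.mem_range]
  omega

theorem lower (hB : Stmt_BOSE) (x : ℝ) (hx : 2 ≤ x) :
    (Nat.primeCounting ⌊x⌋₊ : ℝ) ≤ ({n : ℕ | (n : ℝ) ≤ x ∧ CyclicOrder n}.ncard : ℝ) := by
  have hx0 : (0 : ℝ) ≤ x := by linarith
  have h1 : Nat.primeCounting ⌊x⌋₊ = ((Finset.range (⌊x⌋₊ + 1)).filter Nat.Prime).card := by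
    rw [Nat.primeCounting, Nat.primeCounting', Nat.count_eq_card_filter_range]
  rw [h1]
  have h2 : ((Finset.range (⌊x⌋₊ + 1)).filter Nat.Prime).card ≤
      {n : ℕ | (n : ℝ) ≤ x ∧ CyclicOrder n}.ncard := by
    rw [← Set.ncard_coe_finset]
    refine Set.ncard_le_ncard ?_ (finite_le x _)
    intro n hn
    rw [Finset.mem_coe, Finset.mem_filter, Finset.mem_range] at hn
    refine ⟨?_, hB n hn.2⟩
    have h3 : n ≤ ⌊x⌋₊ := by omega
    exact (Nat.le_floor_iff hx0).1 h3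
  exact_mod_cast h2

theorem near_mem (hK : Stmt_KEY2) {X n : ℕ} (hn : n ≤ X) (hN : NearOrder n) (hp : ¬ n.Prime) :
    n ∈ S2 X := by
  classical
  obtain ⟨G, iG, N, D, hD, hc⟩ := hN
  have h2 : 2 ≤ n := hD.two_le
  unfold S2
  rw [Finset.mem_filter, Finset.mem_Icc]
  refine ⟨⟨h2, hn⟩, hp, Nat.card (commutator G), ?_, hK G n N D hD⟩
  refine hc.trans ?_
  unfold pB
  apply Real.exp_le_exp.2
  have h3 : (0 : ℝ) < n := by
    have : 0 < n := by omega
    exact_mod_cast this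
  have h4 : Real.log n ≤ Real.log X := Real.log_le_log h3 (by exact_mod_cast hn)
  rw [Tools.log_eq X] at h4
  calc Real.sqrt (Real.log n) ≤ Real.sqrt (pv X ^ 4) := Real.sqrt_le_sqrt h4
    _ = Real.sqrt ((pv X ^ 2) ^ 2) := by ring_nf
    _ = pv X ^ 2 := Real.sqrt_sq (by positivity)

theorem upper (hK : Stmt_KEY2) (x : ℝ) (hx : 2 ≤ x) :
    ({n : ℕ | (n : ℝ) ≤ x ∧ NearOrder n}.ncard : ℝ) ≤
      Nat.primeCounting ⌊x⌋₊ + ((S2 ⌊x⌋₊).card : ℝ) := by
  classical
  have hx0 : (0 : ℝ) ≤ x := by linarith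
  have h1 : Nat.primeCounting ⌊x⌋₊ = ((Finset.range (⌊x⌋₊ + 1)).filter Nat.Prime).card := by
    rw [Nat.primeCounting, Nat.primeCounting', Nat.count_eq_card_filter_range]
  have h2 : {n : ℕ | (n : ℝ) ≤ x ∧ NearOrder n}.ncard ≤
      ((Finset.range (⌊x⌋₊ + 1)).filter Nat.Prime ∪ S2 ⌊x⌋₊).card := by
    rw [← Set.ncard_coe_finset]
    refine Set.ncard_le_ncard ?_ (Finset.finite_toSet _)
    rintro n ⟨hnx, hn⟩
    have h3 : n ≤ ⌊x⌋₊ := Nat.le_floor hnx
    rw [Finset.mem_coe, Finset.mem_union, Finset.mem_filter, Finset.mem_range]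
    by_cases hp : n.Prime
    · exact Or.inl ⟨by omega, hp⟩
    · exact Or.inr (near_mem hK h3 hn hp)
  have h3 := h2.trans (card_union_le _ _)
  rw [← h1] at h3
  exact_mod_cast h3

end FinalTwo

open FinalTwo in
/-- **FINAL2.** The assembly. -/
theorem FINAL2_thm : Stmt_FINAL2 := by
  classical
  intro hK hC h0 h1 h2 h3 h4 h5a h5b h6a h6b hB
  have hS : Small S2 := by
    refine small_mono ?_ hC
    exact small_union (small_union (small_union (small_union (small_union (small_union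
      (small_union (small_union h0 h1) h2) h3) h4) h5a) h5b) h6a) h6b
  obtain ⟨C, hC'⟩ := small_real hS (fun X => Finset.filter_subset _ _)
  refine ⟨C, fun x hx => ⟨lower hB x hx, ?_⟩⟩
  have h7 := upper hK x hx
  have h8 := hC' x hx
  linarith

end Pool.Agent.ADS
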