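import Mathlib
import Pool.Agent.ADS.Stmts
import Pool.Agent.ADS.Tools
import Pool.Agent.ADS.FINAL2

/-!
# Project ADS, module FINAL: the assembly of the first part
-/

set_option autoImplicit false

namespace Pool.Agent.ADS

open Finset

namespace FinalOne

theorem abelian_mem (hK : Stmt_KEY) {X n : ℕ} (hn : n ≤ X) (hN : AbelianOrder n)
    (hp : ¬ n.Prime) : n ∈ S0 X := by
  classical
  have hKC := hK n hN
  obtain ⟨G, iG, N, D, hD⟩ := hN
  have h2 : 2 ≤ n := hD.two_le
  unfold S0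
  rw [Finset.mem_filter, Finset.mem_Icc]
  exact ⟨⟨h2, hn⟩, hp, hKC⟩

theorem upper (hK : Stmt_KEY) (x : ℝ) (hx : 2 ≤ x) :
    ({n : ℕ | (n : ℝ) ≤ x ∧ AbelianOrder n}.ncard : ℝ) ≤
      Nat.primeCounting ⌊x⌋₊ + ((S0 ⌊x⌋₊).card : ℝ) := by
  classical
  have hx0 : (0 : ℝ) ≤ x := by linarith
  have h1 : Nat.primeCounting ⌊x⌋₊ = ((Finset.range (⌊x⌋₊ + 1)).filter Nat.Prime).card := by
    rw [Nat.primeCounting, Nat.primeCounting', Nat.count_eq_card_filter_range]
  have h2 : {n : ℕ | (n : ℝ) ≤ x ∧ AbelianOrder n}.ncard ≤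
      ((Finset.range (⌊x⌋₊ + 1)).filter Nat.Prime ∪ S0 ⌊x⌋₊).card := by
    rw [← Set.ncard_coe_finset]
    refine Set.ncard_le_ncard ?_ (Finset.finite_toSet _)
    rintro n ⟨hnx, hn⟩
    have h3 : n ≤ ⌊x⌋₊ := Nat.le_floor hnx
    rw [Finset.mem_coe, Finset.mem_union, Finset.mem_filter, Finset.mem_range]
    by_cases hp : n.Prime
    · exact Or.inl ⟨by omega, hp⟩
    · exact Or.inr (abelian_mem hK h3 hn hp)
  have h3 := h2.trans (card_union_le _ _)
  rw [← h1] at h3
  exact_mod_cast h3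

end FinalOne

open FinalTwo in
/-- **FINAL.** The assembly. -/
theorem FINAL_thm : Stmt_FINAL := by
  classical
  intro hK hC h1 h2 h3 h4 h5a h5b h6a h6b hB
  have hS : Small S0 := by
    refine small_mono ?_ hC
    exact small_union (small_union (small_union (small_union (small_union (small_union
      (small_union h1 h2) h3) h4) h5a) h5b) h6a) h6b
  obtain ⟨C, hC'⟩ := small_real hS (fun X => Finset.filter_subset _ _)
  refine ⟨C, fun x hx => ⟨lower hB x hx, ?_⟩⟩
  have h7 := FinalOne.upper hK x hx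
  have h8 := hC' x hx
  linarith

end Pool.Agent.ADS
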