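import Mathlib
import Pool.Agent.ADS.Stmts3
import Pool.Agent.ADS.FINAL2

/-!
# Project ADS, module FINAL3: the assembly of the fourth part
-/

set_option autoImplicit false

namespace Pool.Agent.ADS

open Finset

namespace FinalThree

open Classical in
/-- The non-prime orders. -/
noncomputable def T3 (X : ℕ) : Finset ℕ :=
  (Icc 2 X).filter (fun n => ¬ n.Prime ∧ NearOrder3 n)

theorem sub (hK : Stmt_KEY2) (hN : Stmt_NIL) (hS : Stmt_SQF) :
    ∃ X0 : ℕ, ∀ X : ℕ, X0 ≤ X → T3 X ⊆ S2 X ∪ E7 X := by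
  classical
  obtain ⟨X0, h0⟩ := hS
  refine ⟨X0, fun X hX n hn => ?_⟩
  unfold T3 at hn
  rw [Finset.mem_filter, Finset.mem_Icc] at hn
  obtain ⟨⟨h2, hnX⟩, hp, G, iG, N, D, hD, hc⟩ := hn
  have hn0 : (0 : ℝ) < n := by
    have : 0 < n := by omega
    exact_mod_cast this
  have hroot : Real.exp (Real.sqrt (Real.log n)) ≤ pB X := by
    unfold pB
    apply Real.exp_le_exp.2
    have h4 : Real.log n ≤ Real.log X := Real.log_le_log hn0 (by exact_mod_cast hnX)
    rw [Tools.log_eq X] at h4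
    calc Real.sqrt (Real.log n) ≤ Real.sqrt (pv X ^ 4) := Real.sqrt_le_sqrt h4
      _ = Real.sqrt ((pv X ^ 2) ^ 2) := by ring_nf
      _ = pv X ^ 2 := Real.sqrt_sq (by positivity)
  rw [Finset.mem_union]
  rcases le_or_gt ((Nat.card (commutator G) : ℕ) : ℝ) (pB X) with h | h
  · left
    unfold S2
    rw [Finset.mem_filter, Finset.mem_Icc]
    exact ⟨⟨h2, hnX⟩, hp, Nat.card (commutator G), h, hK G n N D hD⟩
  · right
    have hnil : Group.IsNilpotent G := by
      rcases hc with hc | hc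
      · exact hc
      · exact absurd (hc.trans hroot) (not_le.2 h)
    have hcard : Nat.card G = n ^ 2 - 1 := hD.card_group
    have hpos : 0 < n ^ 2 - 1 := by
      have : 2 ^ 2 ≤ n ^ 2 := Nat.pow_le_pow_left h2 2
      omega
    haveI : Finite G := Nat.finite_of_card_ne_zero (by omega)
    refine h0 X n (Nat.card (commutator G)) hX h2 hnX ?_ ?_ h
    · rw [← hcard]
      exact Subgroup.card_subgroup_dvd_card _
    · intro p hp1 hp2
      rw [← hcard]
      exact hN G hnil p hp1 hp2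

theorem upper (x : ℝ) :
    ({n : ℕ | (n : ℝ) ≤ x ∧ NearOrder3 n}.ncard : ℝ) ≤
      Nat.primeCounting ⌊x⌋₊ + ((T3 ⌊x⌋₊).card : ℝ) := by
  classical
  have h1 : Nat.primeCounting ⌊x⌋₊ = ((Finset.range (⌊x⌋₊ + 1)).filter Nat.Prime).card := by
    rw [Nat.primeCounting, Nat.primeCounting', Nat.count_eq_card_filter_range]
  have h2 : {n : ℕ | (n : ℝ) ≤ x ∧ NearOrder3 n}.ncard ≤
      ((Finset.range (⌊x⌋₊ + 1)).filter Nat.Prime ∪ T3 ⌊x⌋₊).card := by
    rw [← Set.ncard_coe_finset]
    refine Set.ncard_le_ncard ?_ (Finset.finite_toSet _)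
    rintro n ⟨hnx, hn⟩
    have h3 : n ≤ ⌊x⌋₊ := Nat.le_floor hnx
    rw [Finset.mem_coe, Finset.mem_union, Finset.mem_filter, Finset.mem_range]
    by_cases hp : n.Prime
    · exact Or.inl ⟨by omega, hp⟩
    · refine Or.inr ?_
      unfold T3
      rw [Finset.mem_filter, Finset.mem_Icc]
      refine ⟨⟨?_, h3⟩, hp, hn⟩
      obtain ⟨G, iG, N, D, hD, _⟩ := hn
      exact hD.two_le
  have h3 := h2.trans (card_union_le _ _)
  rw [← h1] at h3
  exact_mod_cast h3

end FinalThree

open FinalTwo FinalThree in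
/-- **FINAL3.** The assembly. -/
theorem FINAL3_thm : Stmt_FINAL3 := by
  classical
  intro hK hC h0 h1 h2 h3 h4 h5a h5b h6a h6b hB hN h7 hQ
  have hS : Small S2 := by
    refine small_mono ?_ hC
    exact small_union (small_union (small_union (small_union (small_union (small_union
      (small_union (small_union h0 h1) h2) h3) h4) h5a) h5b) h6a) h6b
  have hT : Small T3 := small_mono (small_union hS h7) (sub hK hN hQ)
  obtain ⟨C, hC'⟩ := small_real hT (fun X => Finset.filter_subset _ _)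
  refine ⟨C, fun x hx => ⟨lower hB x hx, ?_⟩⟩
  have h8 := FinalThree.upper x
  have h9 := hC' x hx
  linarith

end Pool.Agent.ADS
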