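import Pool.Agent.ADS.Stmts

/-!
# Project ADS (MP_43d07b_co): the order condition
-/

set_option autoImplicit false

namespace Pool.Agent.ADS

open Finset

namespace KEY

theorem coprime_card {n : ℕ} (hn : 2 ≤ n) : Nat.Coprime (n ^ 2 - 1) n := by
  obtain ⟨m, rfl⟩ : ∃ m, n = m + 1 := ⟨n - 1, by omega⟩
  have h : (m + 1) ^ 2 - 1 = m * (m + 2) := by
    have : (m + 1) ^ 2 = m * (m + 2) + 1 := by ring
    omega
  rw [h]
  refine Nat.Coprime.mul_left ?_ ?_
  · exact (Nat.coprime_self_add_right (m := m) (n := 1)).2 (Nat.coprime_one_right m)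
  · have : m + 2 = (m + 1) + 1 := rfl
    rw [this]
    exact (Nat.coprime_self_add_left (m := m + 1) (n := 1)).2 (Nat.coprime_one_left (m + 1))

theorem exists_translate {G : Type} [CommGroup G] {n : ℕ} {N : Subgroup G} {D : Finset G}
    (h : IsAffineDifferenceSet n N D) {p : ℕ} (hp : p.Prime) (hpn : p ∣ n) {g : G}
    (hg : ∀ d ∈ D, ∃ e ∈ D, d ^ p = g * e) :
    ∃ x : G, ∀ d ∈ D, ∃ e ∈ D, (x * d) ^ p = x * e := by
  classical
  have hn := h.two_le
  have hc : Nat.Coprime (Nat.card G) n := by rw [h.card_group]; exact coprime_card hn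
  have hcp : Nat.Coprime (Nat.card G) p := Nat.Coprime.coprime_dvd_right hpn hc
  have hbp := hcp.pow_left_bijective
  have hbn := hc.pow_left_bijective
  have hφ : ∀ d ∈ D, g⁻¹ * d ^ p ∈ D := by
    intro d hd
    obtain ⟨e, he, h1⟩ := hg d hd
    rw [h1, inv_mul_cancel_left]
    exact he
  have hinj : Function.Injective fun d : G => g⁻¹ * d ^ p := by
    intro a b hab
    exact hbp.1 (mul_left_cancel hab)
  have himg : D.image (fun d : G => g⁻¹ * d ^ p) = D := by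
    refine Finset.eq_of_subset_of_card_le ?_ ?_
    · intro y hy
      obtain ⟨d, hd, rfl⟩ := Finset.mem_image.1 hy
      exact hφ d hd
    · rw [Finset.card_image_of_injective _ hinj]
  have hprod : ∏ d ∈ D, (g⁻¹ * d ^ p) = ∏ d ∈ D, d := by
    rw [← Finset.prod_image (f := fun y : G => y) (s := D) (g := fun d : G => g⁻¹ * d ^ p)
      (fun a _ b _ hab => hinj hab), himg]
  rw [Finset.prod_mul_distrib, Finset.prod_const, Finset.prod_pow, h.card_set] at hprod
  obtain ⟨x, hx⟩ := hbn.2 (∏ d ∈ D, d)⁻¹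
  have hx' : x ^ n = (∏ d ∈ D, d)⁻¹ := hx
  obtain ⟨r, hr⟩ : ∃ r, p = r + 1 := ⟨p - 1, by have := hp.pos; omega⟩
  have hy : x ^ r * g = 1 := by
    refine hbn.1 ?_
    show (x ^ r * g) ^ n = 1 ^ n
    rw [one_pow, mul_pow, ← pow_mul, mul_comm r n, pow_mul, hx', inv_pow]
    rw [hr, pow_succ, inv_pow] at hprod
    -- (g ^ n)⁻¹ * (P ^ r * P) = P
    have h2 : (g ^ n)⁻¹ * (∏ d ∈ D, d) ^ r = 1 := by
      rw [← mul_assoc] at hprod
      exact mul_eq_right.1 hprod
    rw [inv_mul_eq_one] at h2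
    rw [← h2, inv_mul_cancel]
  refine ⟨x, fun d hd => ⟨g⁻¹ * d ^ p, hφ d hd, ?_⟩⟩
  calc (x * d) ^ p = x ^ p * d ^ p := mul_pow _ _ _
    _ = x * (x ^ r * g) * (g⁻¹ * d ^ p) := by
        rw [hr, pow_succ x]
        rw [mul_comm (x ^ r) x]
        simp only [mul_assoc, mul_inv_cancel_left]
    _ = x * (g⁻¹ * d ^ p) := by rw [hy, mul_one]

theorem iter {G : Type} [CommGroup G] {D : Finset G} {p : ℕ} {x : G}
    (hx : ∀ d ∈ D, ∃ e ∈ D, (x * d) ^ p = x * e) (j : ℕ) :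
    ∀ d ∈ D, ∃ e ∈ D, (x * d) ^ (p ^ j) = x * e := by
  induction j with
  | zero => intro d hd; exact ⟨d, hd, by rw [pow_zero, pow_one]⟩
  | succ j ih =>
    intro d hd
    obtain ⟨e, he, h1⟩ := ih d hd
    obtain ⟨f, hf, h2⟩ := hx e he
    exact ⟨f, hf, by rw [pow_succ, pow_mul, h1, h2]⟩

end KEY

open KEY in
theorem KEY_thm (hM : Stmt_MULT) : Stmt_KEY := by
  rintro n ⟨G, _, N, D, h⟩ p w hp hw hpn hwn
  have hn := h.two_le
  have hsq : n ^ 2 - 1 = (n + 1) * (n - 1) := by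
    obtain ⟨m, rfl⟩ : ∃ m, n = m + 1 := ⟨n - 1, by omega⟩
    have : (m + 1) ^ 2 = (m + 1 + 1) * m + 1 := by ring
    rw [Nat.add_sub_cancel]
    omega
  have hcG : Nat.card G ≠ 0 := by
    rw [h.card_group, hsq]
    exact Nat.mul_ne_zero (by omega) (by omega)
  have hfin : Finite G := Nat.finite_of_card_ne_zero hcG
  have hidx : N.index = n + 1 := by
    have h1 := N.index_mul_card
    rw [h.card_subgroup, h.card_group, hsq] at h1
    exact Nat.eq_of_mul_eq_mul_right (by omega) h1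
  obtain ⟨g, hg⟩ := hM G n N D h p hp hpn
  obtain ⟨x, hx⟩ := exists_translate h hp hpn hg
  obtain ⟨e, he⟩ : ∃ e, e = orderOf (p : ZMod (n + 1)) := ⟨_, rfl⟩
  rw [← he]
  obtain ⟨t, ht⟩ : ∃ t, t = p ^ e := ⟨_, rfl⟩
  have ht1 : 1 ≤ t := by rw [ht]; exact Nat.one_le_pow _ _ hp.pos
  have htn : n + 1 ∣ t - 1 := by
    have h1 : ((p : ZMod (n + 1)) ^ e) = 1 := by rw [he]; exact pow_orderOf_eq_one _
    have h2 : ((t : ℕ) : ZMod (n + 1)) = ((1 : ℕ) : ZMod (n + 1)) := by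
      rw [ht]; push_cast; exact h1
    have h3 := (ZMod.natCast_eq_natCast_iff t 1 (n + 1)).1 h2
    exact (Nat.modEq_iff_dvd' ht1).1 h3.symm
  -- all elements of the translate are fixed
  have hfix : ∀ d ∈ D, (x * d) ^ t = x * d := by
    intro d hd
    obtain ⟨d', hd', h1⟩ := iter hx e d hd
    rw [← ht] at h1
    have h2 : d' * d⁻¹ ∈ N := by
      have h3 : d' * d⁻¹ = (x * d) ^ (t - 1) := by
        have h4 : (x * d) ^ (t - 1) * (x * d) = x * d' := by
          rw [← pow_succ, Nat.sub_add_cancel ht1, h1]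
        have h5 : (x * d) ^ (t - 1) = x * d' * (x * d)⁻¹ := eq_mul_inv_of_mul_eq h4
        rw [h5, mul_inv_rev]
        rw [mul_comm d⁻¹ x⁻¹, mul_comm x d', mul_assoc, mul_inv_cancel_left]
      rw [h3]
      obtain ⟨c, hc⟩ := htn
      rw [hc, ← hidx, pow_mul]
      exact N.pow_mem (N.pow_index_mem _) c
    by_cases h6 : d' * d⁻¹ = 1
    · rw [h1, mul_inv_eq_one.1 h6]
    · exact absurd rfl (h.ne_of_mem _ h2 h6 d' hd' d hd)
  have hout : ∀ y : G, y ∉ N → y ^ t = y := by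
    intro y hy
    obtain ⟨⟨d₁, d₂⟩, ⟨h1, h2, h3⟩, -⟩ := h.existsUnique_of_notMem y hy
    have h1 : d₁ ∈ D := h1
    have h2 : d₂ ∈ D := h2
    have h3 : d₁ * d₂⁻¹ = y := h3
    have h4 : y = (x * d₁) * (x * d₂)⁻¹ := by
      rw [← h3, mul_inv_rev, mul_comm d₂⁻¹ x⁻¹, mul_comm x d₁, mul_assoc, mul_inv_cancel_left]
    rw [h4, mul_pow, inv_pow, hfix d₁ h1, hfix d₂ h2]
  have hexN : ∃ y : G, y ∉ N := by
    by_contra hcon
    push Not at hcon
    have h1 : N = ⊤ := (Subgroup.eq_top_iff' N).2 hcon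
    rw [h1, Subgroup.index_top] at hidx
    omega
  have hall : ∀ y : G, y ^ t = y := by
    intro y
    by_cases hy : y ∈ N
    · obtain ⟨z, hz⟩ := hexN
      have h1 : y * z ∉ N := fun h2 => hz ((N.mul_mem_cancel_left hy).1 h2)
      have h2 := hout _ h1
      rw [mul_pow, hout z hz] at h2
      exact mul_right_cancel h2
    · exact hout y hy
  have hwc : w ∣ Nat.card N := by rw [h.card_subgroup]; exact hwn
  have hwf : Fact w.Prime := ⟨hw⟩
  obtain ⟨z, hz⟩ := exists_prime_orderOf_dvd_card' (G := N) w hwc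
  have hz2 : (z : G) ^ t = (z : G) ^ 1 := by rw [pow_one]; exact hall _
  have hz3 : z ^ t = z ^ 1 := by
    apply Subtype.ext
    push_cast
    exact hz2
  have hmod : t ≡ 1 [MOD w] := by
    have := (pow_eq_pow_iff_modEq).1 hz3
    rwa [hz] at this
  refine orderOf_dvd_of_pow_eq_one ?_
  have h9 := (ZMod.natCast_eq_natCast_iff t 1 w).2 hmod
  rw [ht] at h9
  push_cast at h9
  exact h9

end Pool.Agent.ADS
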