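import Pool.Agent.ADS.Stmts2
import Pool.Agent.ADS.KEY

/-!
# Project ADS (MP_43d07b_co): the order condition for groups with a small commutator subgroup
-/

set_option autoImplicit false

namespace Pool.Agent.ADS

open Finset

namespace KEY2

open KEY

open Classical in
/-- The product of the images is one after a translation: `x ^ (p - 1) * g = 1`. -/
theorem exists_x {G : Type} [Group G] {A : Type} [CommGroup A] [Fintype A] (φ : G →* A) {n : ℕ}
    {D : Finset G} (hD : D.card = n) (hc : Nat.Coprime (Nat.card A) n) {p : ℕ} (hp : p.Prime)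
    (hpn : p ∣ n) {g : A}
    (hg : ∀ a : A, (D.filter (fun d => φ d = a)).card =
      (D.filter (fun d => φ d = g⁻¹ * a ^ p)).card) :
    ∃ x : A, x ^ (p - 1) * g = 1 := by
  have hcp : Nat.Coprime (Nat.card A) p := Nat.Coprime.coprime_dvd_right hpn hc
  have hbp := hcp.pow_left_bijective
  have hbn := hc.pow_left_bijective
  set c : A → ℕ := fun a => (D.filter (fun d => φ d = a)).card with hcdef
  have hP : ∏ d ∈ D, φ d = ∏ a : A, a ^ c a := by
    rw [← Finset.prod_fiberwise' D φ (fun a => a)]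
    refine Finset.prod_congr rfl fun a _ => ?_
    rw [Finset.prod_const]
  have hS : ∑ a : A, c a = n := by
    have h1 := Finset.sum_fiberwise' D φ (fun _ => (1 : ℕ))
    rw [Finset.sum_const, hD, smul_eq_mul, mul_one] at h1
    rw [← h1]
    refine Finset.sum_congr rfl fun a _ => ?_
    rw [Finset.sum_const, smul_eq_mul, mul_one]
  have hσ : Function.Bijective fun a : A => g⁻¹ * a ^ p := by
    have h1 : (fun a : A => g⁻¹ * a ^ p) = (fun y : A => g⁻¹ * y) ∘ fun a : A => a ^ p := rfl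
    rw [h1]
    exact (Group.mulLeft_bijective g⁻¹).comp hbp
  have h2 : ∏ a : A, (g⁻¹ * a ^ p) ^ c a = ∏ d ∈ D, φ d := by
    rw [hP, ← hσ.prod_comp fun a => a ^ c a]
    refine Finset.prod_congr rfl fun a _ => ?_
    show (g⁻¹ * a ^ p) ^ c a = (g⁻¹ * a ^ p) ^ c (g⁻¹ * a ^ p)
    have h3 : c a = c (g⁻¹ * a ^ p) := hg a
    rw [← h3]
  have h4 : (g⁻¹) ^ n * (∏ d ∈ D, φ d) ^ p = ∏ d ∈ D, φ d := by
    conv_rhs => rw [← h2]
    rw [hP, ← Finset.prod_pow]
    simp only [mul_pow]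
    rw [Finset.prod_mul_distrib, Finset.prod_pow_eq_pow_sum, hS]
    congr 1
    refine Finset.prod_congr rfl fun a _ => ?_
    rw [← pow_mul, ← pow_mul, mul_comm]
  obtain ⟨x, hx⟩ := hbn.2 (∏ d ∈ D, φ d)⁻¹
  have hx' : x ^ n = (∏ d ∈ D, φ d)⁻¹ := hx
  refine ⟨x, hbn.1 ?_⟩
  show (x ^ (p - 1) * g) ^ n = 1 ^ n
  obtain ⟨r, hr⟩ : ∃ r, p = r + 1 := ⟨p - 1, by have := hp.pos; omega⟩
  rw [hr, Nat.add_sub_cancel, one_pow, mul_pow, ← pow_mul, mul_comm r n, pow_mul, hx', inv_pow]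
  rw [hr, pow_succ, inv_pow, ← mul_assoc] at h4
  have h5 := mul_eq_right.1 h4
  rw [inv_mul_eq_one] at h5
  rw [← h5, inv_mul_cancel]

/-- The translate is closed under powers of `p`. -/
theorem step {G : Type} [Group G] {A : Type} [CommGroup A] (φ : G →* A) {D : Finset G} {p : ℕ}
    (hp : p.Prime) {g x : A} (hx : x ^ (p - 1) * g = 1)
    (hg : ∀ b : A, (∃ d ∈ D, φ d = b) → ∃ d ∈ D, φ d = g⁻¹ * b ^ p) (a : A)
    (ha : ∃ d ∈ D, x * φ d = a) : ∃ d ∈ D, x * φ d = a ^ p := by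
  obtain ⟨d, hd, rfl⟩ := ha
  obtain ⟨e, he, h1⟩ := hg (φ d) ⟨d, hd, rfl⟩
  refine ⟨e, he, ?_⟩
  obtain ⟨r, hr⟩ : ∃ r, p = r + 1 := ⟨p - 1, by have := hp.pos; omega⟩
  rw [hr, Nat.add_sub_cancel] at hx
  have h2 : g⁻¹ = x ^ r := (eq_inv_of_mul_eq_one_left hx).symm
  rw [h1, mul_pow, h2, hr, pow_succ x, ← mul_assoc, mul_comm x (x ^ r)]

theorem steps {A : Type} [CommGroup A] {S : A → Prop} {p : ℕ}
    (h : ∀ a : A, S a → S (a ^ p)) (j : ℕ) : ∀ a : A, S a → S (a ^ (p ^ j)) := by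
  induction j with
  | zero => intro a ha; rw [pow_zero, pow_one]; exact ha
  | succ j ih =>
    intro a ha
    rw [pow_succ, pow_mul]
    exact h _ (ih a ha)

theorem pow_fix {A : Type} [CommGroup A] {a : A} {t : ℕ} {k : ℕ} (h : a ^ (t ^ k) = a) (r : ℕ) :
    a ^ (t ^ (k * r)) = a := by
  induction r with
  | zero => rw [mul_zero, pow_zero, pow_one]
  | succ r ih => rw [mul_add, mul_one, pow_add, pow_mul, ih, h]

/-- The orbits of the power map on the translate have at most `m` elements. -/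
theorem orbit {G : Type} [Group G] {A : Type} [CommGroup A] (φ : G →* A) {n : ℕ}
    {N : Subgroup G} {D : Finset G} (h : IsAffineDifferenceSet n N D) {x : A} {t m : ℕ}
    (hfin : Finite φ.ker) (hm : Nat.card φ.ker = m)
    (ht : Function.Injective fun a : A => a ^ t)
    (hN : ∀ a : A, ∀ i : ℕ, a ^ (t ^ i) * a⁻¹ ∈ N.map φ)
    (hS : ∀ a : A, (∃ d ∈ D, x * φ d = a) → ∀ i : ℕ, ∃ d ∈ D, x * φ d = a ^ (t ^ i))
    (a : A) (ha : ∃ d ∈ D, x * φ d = a) : a ^ (t ^ m.factorial) = a := by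
  classical
  have hinj : ∀ i : ℕ, Function.Injective fun a : A => a ^ (t ^ i) := by
    intro i
    induction i with
    | zero => intro a b hab; simpa using hab
    | succ i ih =>
      intro a b hab
      have hab : a ^ (t ^ (i + 1)) = b ^ (t ^ (i + 1)) := hab
      rw [pow_succ, pow_mul, pow_mul] at hab
      exact ih (ht hab)
  choose d hdD hd using hS a ha
  have hd0 : x * φ (d 0) = a := by rw [hd 0, pow_zero, pow_one]
  have hμ : ∀ i : ℕ, ∃ ν ∈ N, ∃ μ ∈ φ.ker, d i = ν * μ * d 0 := by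
    intro i
    obtain ⟨ν, hν, h1⟩ := hN a i
    refine ⟨ν, hν, ν⁻¹ * d i * (d 0)⁻¹, ?_, by group⟩
    rw [MonoidHom.mem_ker, map_mul, map_mul, map_inv, map_inv, h1, ← hd i]
    conv_lhs => rw [← hd0]
    rw [mul_inv_rev, mul_inv_rev, mul_inv_rev, inv_inv, inv_inv]
    rw [mul_inv_eq_one, mul_inv, mul_comm x (φ (d 0))]
    group
  choose ν hν μ hμk hdec using hμ
  obtain ⟨i, j, hij, hμij⟩ : ∃ i j : Fin (m + 1), i ≠ j ∧
      (⟨μ i, hμk i⟩ : φ.ker) = ⟨μ j, hμk j⟩ := by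
    have hft := Fintype.ofFinite φ.ker
    have hlt : Fintype.card φ.ker < Fintype.card (Fin (m + 1)) := by
      rw [Fintype.card_fin, ← Nat.card_eq_fintype_card, hm]
      omega
    exact Fintype.exists_ne_map_eq_of_card_lt
      (fun i : Fin (m + 1) => (⟨μ i, hμk i⟩ : φ.ker)) hlt
  have hμ2 : μ i = μ j := congrArg Subtype.val hμij
  have hdd : d i = d j := by
    have h1 : d i * (d j)⁻¹ = ν i * (ν j)⁻¹ := by
      rw [hdec i, hdec j, hμ2]
      group
    have h2 : d i * (d j)⁻¹ ∈ N := by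
      rw [h1]
      exact N.mul_mem (hν i) (N.inv_mem (hν j))
    by_contra h3
    exact h.ne_of_mem _ h2 (fun h4 => h3 (mul_inv_eq_one.1 h4)) _ (hdD i) _ (hdD j) rfl
  have hpow : a ^ (t ^ (i : ℕ)) = a ^ (t ^ (j : ℕ)) := by
    rw [← hd i, ← hd j, hdd]
  have key : ∀ i j : ℕ, i < j → j ≤ m → a ^ (t ^ i) = a ^ (t ^ j) →
      a ^ (t ^ m.factorial) = a := by
    intro i j hij hjm he
    obtain ⟨k, rfl⟩ : ∃ k, j = k + i := ⟨j - i, by omega⟩
    rw [pow_add t k i, pow_mul] at he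
    have h1 : a = a ^ (t ^ k) := hinj i he
    obtain ⟨r, hr⟩ : k ∣ m.factorial := Nat.dvd_factorial (by omega) (by omega)
    rw [hr]
    exact pow_fix h1.symm r
  rcases lt_or_gt_of_ne hij with h1 | h1
  · exact key i j h1 (by have := j.2; omega) hpow
  · exact key j i h1 (by have := i.2; omega) hpow.symm

end KEY2

open KEY KEY2 in
open Classical in
theorem KEY2_thm (hM : Stmt_MULT2) : Stmt_KEY2 := by
  intro G _ n N D h p w l hp hw hl hpn hwn hmp hmw hml hlo
  have hn := h.two_le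
  have hsq : n ^ 2 - 1 = (n + 1) * (n - 1) := by
    obtain ⟨m, rfl⟩ : ∃ m, n = m + 1 := ⟨n - 1, by omega⟩
    have : (m + 1) ^ 2 = (m + 1 + 1) * m + 1 := by ring
    rw [Nat.add_sub_cancel]
    omega
  have hcG : Nat.card G ≠ 0 := by
    rw [h.card_group, hsq]
    exact Nat.mul_ne_zero (by omega) (by omega)
  have hfin : Finite G := Nat.finite_of_card_ne_zero hcG
  have hidx : N.index = n + 1 := by
    have h1 := N.index_mul_card
    rw [h.card_subgroup, h.card_group, hsq] at h1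
    exact Nat.eq_of_mul_eq_mul_right (by omega) h1
  obtain ⟨m, hm⟩ : ∃ m, m = Nat.card (commutator G) := ⟨_, rfl⟩
  rw [← hm] at hmp hmw hml
  have hm0 : 0 < m := by rw [hm]; exact Nat.card_pos
  let φ : G →* Abelianization G := Abelianization.of
  have hsurj : Function.Surjective φ := QuotientGroup.mk_surjective
  have hker : φ.ker = commutator G := Abelianization.ker_of G
  have hfA : Finite (Abelianization G) := Finite.of_surjective φ hsurj
  have hcA : Nat.card (Abelianization G) * m = n ^ 2 - 1 := by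
    rw [hm, ← h.card_group]
    exact (Subgroup.card_eq_card_quotient_mul_card_subgroup (commutator G)).symm
  have hft : Fintype (Abelianization G) := Fintype.ofFinite _
  have hcop : Nat.Coprime (Nat.card (Abelianization G)) n :=
    Nat.Coprime.coprime_dvd_left ⟨m, hcA.symm⟩ (coprime_card hn)
  have hcopp : Nat.Coprime (Nat.card (Abelianization G)) p :=
    Nat.Coprime.coprime_dvd_right hpn hcop
  obtain ⟨g, hg⟩ := hM G (Abelianization G) φ n N D hsurj h p hp hpn (by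
    rw [hker, ← hm]; exact hmp)
  obtain ⟨x, hx⟩ := exists_x φ h.card_set hcop hp hpn hg
  have hg2 : ∀ b : Abelianization G, (∃ d ∈ D, φ d = b) → ∃ d ∈ D, φ d = g⁻¹ * b ^ p := by
    rintro b ⟨d, hd, hb⟩
    have h1 : 0 < (D.filter (fun d => φ d = b)).card :=
      Finset.card_pos.2 ⟨d, Finset.mem_filter.2 ⟨hd, hb⟩⟩
    rw [hg b] at h1
    obtain ⟨e, he⟩ := Finset.card_pos.1 h1
    obtain ⟨he1, he2⟩ := Finset.mem_filter.1 he
    exact ⟨e, he1, he2⟩
  have hS := steps (S := fun a => ∃ d ∈ D, x * φ d = a) (step φ hp hx hg2)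
  obtain ⟨e, he⟩ : ∃ e, e = orderOf (p : ZMod (n + 1)) := ⟨_, rfl⟩
  obtain ⟨t, ht⟩ : ∃ t, t = p ^ e := ⟨_, rfl⟩
  have ht1 : 1 ≤ t := by rw [ht]; exact Nat.one_le_pow _ _ hp.pos
  have hti : ∀ i : ℕ, n + 1 ∣ t ^ i - 1 := by
    intro i
    have h1 : ((p : ZMod (n + 1)) ^ e) = 1 := by rw [he]; exact pow_orderOf_eq_one _
    have h2 : ((t ^ i : ℕ) : ZMod (n + 1)) = ((1 : ℕ) : ZMod (n + 1)) := by
      rw [ht]; push_cast; rw [h1, one_pow]
    have h3 := (ZMod.natCast_eq_natCast_iff (t ^ i) 1 (n + 1)).1 h2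
    exact (Nat.modEq_iff_dvd' (Nat.one_le_pow _ _ ht1)).1 h3.symm
  have hN : ∀ a : Abelianization G, ∀ i : ℕ, a ^ (t ^ i) * a⁻¹ ∈ N.map φ := by
    intro a i
    have h1 : a ^ (t ^ i) * a⁻¹ = a ^ (t ^ i - 1) := by
      have h2 : t ^ i = (t ^ i - 1) + 1 := (Nat.sub_add_cancel (Nat.one_le_pow _ _ ht1)).symm
      conv_lhs => rw [h2]
      rw [pow_succ, mul_inv_cancel_right]
    rw [h1]
    obtain ⟨c, hc⟩ := (Subgroup.index_map_dvd N hsurj).trans (hidx ▸ hti i)
    rw [hc, pow_mul]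
    exact (N.map φ).pow_mem ((N.map φ).pow_index_mem _) c
  have hinj : Function.Injective fun a : Abelianization G => a ^ t := by
    rw [ht]
    exact (Nat.Coprime.pow_right e hcopp).pow_left_bijective.1
  have hfk : Finite φ.ker := inferInstance
  have horb := orbit φ h hfk (by rw [hker, ← hm]) hinj hN (x := x) (by
    intro a ha i
    have h1 := hS (e * i) a ha
    rw [pow_mul, ← ht] at h1
    exact h1)
  obtain ⟨T, hT⟩ : ∃ T, T = t ^ m.factorial := ⟨_, rfl⟩
  rw [← hT] at horb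
  have hout : ∀ y : G, y ∉ N → φ y ^ T = φ y := by
    intro y hy
    obtain ⟨⟨d₁, d₂⟩, ⟨h1, h2, h3⟩, -⟩ := h.existsUnique_of_notMem y hy
    have h1 : d₁ ∈ D := h1
    have h2 : d₂ ∈ D := h2
    have h3 : d₁ * d₂⁻¹ = y := h3
    have h4 : φ y = (x * φ d₁) * (x * φ d₂)⁻¹ := by
      rw [← h3, map_mul, map_inv, mul_inv_rev, mul_comm (φ d₂)⁻¹ x⁻¹, mul_comm x (φ d₁),
        mul_assoc, mul_inv_cancel_left]
    rw [h4, mul_pow, inv_pow, horb _ ⟨d₁, h1, rfl⟩, horb _ ⟨d₂, h2, rfl⟩]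
  have hexN : ∃ y : G, y ∉ N := by
    by_contra hcon
    push Not at hcon
    have h1 : N = ⊤ := (Subgroup.eq_top_iff' N).2 hcon
    rw [h1, Subgroup.index_top] at hidx
    omega
  have hall : ∀ y : G, φ y ^ T = φ y := by
    intro y
    by_cases hy : y ∈ N
    · obtain ⟨z, hz⟩ := hexN
      have h1 : y * z ∉ N := fun h2 => hz ((N.mul_mem_cancel_left hy).1 h2)
      have h2 := hout _ h1
      rw [map_mul, mul_pow, hout z hz] at h2
      exact mul_right_cancel h2
    · exact hout y hy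
  have hwA : w ∣ Nat.card (Abelianization G) := by
    have h1 : w ∣ Nat.card (Abelianization G) * m := by
      rw [hcA, hsq]
      exact Dvd.dvd.mul_left hwn _
    rcases hw.dvd_mul.1 h1 with h2 | h2
    · exact h2
    · exact absurd (Nat.le_of_dvd hm0 h2) (by omega)
  have hwf : Fact w.Prime := ⟨hw⟩
  obtain ⟨z, hz⟩ := exists_prime_orderOf_dvd_card' (G := Abelianization G) w hwA
  obtain ⟨y, hy⟩ := hsurj z
  have hz2 : z ^ T = z ^ 1 := by rw [pow_one, ← hy]; exact hall _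
  have hmod : T ≡ 1 [MOD w] := by
    have := (pow_eq_pow_iff_modEq).1 hz2
    rwa [hz] at this
  have h9 : (p : ZMod w) ^ (e * m.factorial) = 1 := by
    have h9 := (ZMod.natCast_eq_natCast_iff T 1 w).2 hmod
    rw [hT, ht, ← pow_mul] at h9
    push_cast at h9
    exact h9
  have h10 : l ∣ e * m.factorial := hlo.trans (orderOf_dvd_of_pow_eq_one h9)
  have h11 : l ∣ e := by
    rcases hl.dvd_mul.1 h10 with h2 | h2
    · exact h2
    · exact absurd (hl.dvd_factorial.1 h2) (by omega)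
  refine h11.trans ?_
  rw [he]
  refine orderOf_dvd_of_pow_eq_one ?_
  have hc1 : Nat.Coprime p (n + 1) := by
    refine Nat.Coprime.coprime_dvd_left hpn ?_
    exact (Nat.coprime_self_add_right (m := n) (n := 1)).2 (Nat.coprime_one_right n)
  have h12 := (ZMod.natCast_eq_natCast_iff _ _ _).2 (Nat.ModEq.pow_totient hc1)
  push_cast at h12
  exact h12

end Pool.Agent.ADS
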