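import Mathlib
import Pool.Agent.ADS.Stmts

/-!
# MULT: the multiplier theorem for abelian affine difference sets
-/

set_option autoImplicit false

namespace Pool.Agent.ADS.MULT

open Finset MonoidAlgebra

variable {G : Type} [CommGroup G]

/-- The group element `g` in the integral group ring. -/
noncomputable abbrev el (g : G) : MonoidAlgebra ℤ G := single g 1

lemma el_mul (g h : G) : el g * el h = el (g * h) := by
  simp [el, single_mul_single]

lemma el_one : el (1 : G) = 1 := rfl

/-- The sum of the elements of a finset. -/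
noncomputable def sm (s : Finset G) : MonoidAlgebra ℤ G := ∑ g ∈ s, el g

omit [CommGroup G] in
lemma coeff_el (g x : G) [Decidable (g = x)] : (el g).coeff x = if g = x then 1 else 0 := by
  classical
  simp only [el, coeff_single, Finsupp.single_apply]

omit [CommGroup G] in
open Classical in
lemma coeff_sm (s : Finset G) (x : G) : (sm s).coeff x = if x ∈ s then 1 else 0 := by
  simp only [sm, coeff_sum, Finsupp.finsetSum_apply, coeff_el]
  simp

open Classical in
lemma coeff_sm_mul (s t : Finset G) (x : G) :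
    (sm s * sm t).coeff x = ∑ a ∈ s, ∑ b ∈ t, if a * b = x then (1 : ℤ) else 0 := by
  simp only [sm, Finset.sum_mul_sum, el_mul, coeff_sum, Finsupp.finsetSum_apply, coeff_el]

/-- inversion on the group ring -/
noncomputable def iv : MonoidAlgebra ℤ G →+* MonoidAlgebra ℤ G :=
  mapDomainRingHom ℤ (invMonoidHom : G →* G)

/-- `p`-th powers on the group ring -/
noncomputable def pw (p : ℕ) : MonoidAlgebra ℤ G →+* MonoidAlgebra ℤ G :=
  mapDomainRingHom ℤ (powMonoidHom p : G →* G)

lemma iv_el (g : G) : iv (el g) = el g⁻¹ := by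
  simp [iv, el]

lemma pw_el (p : ℕ) (g : G) : pw p (el g) = el (g ^ p) := by
  simp [pw, el]

lemma iv_iv (x : MonoidAlgebra ℤ G) : iv (iv x) = x := by
  have h : (iv : MonoidAlgebra ℤ G →+* MonoidAlgebra ℤ G).comp iv = RingHom.id _ := by
    rw [iv, ← mapDomainRingHom_comp]
    have : (invMonoidHom : G →* G).comp invMonoidHom = MonoidHom.id G := by
      ext x; simp
    rw [this, mapDomainRingHom_id]
  exact congrArg (fun f => f x) h

lemma pw_iv (p : ℕ) (x : MonoidAlgebra ℤ G) : pw p (iv x) = iv (pw p x) := by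
  have h : (pw p : MonoidAlgebra ℤ G →+* MonoidAlgebra ℤ G).comp iv = iv.comp (pw p) := by
    rw [iv, pw, ← mapDomainRingHom_comp, ← mapDomainRingHom_comp]
    congr 1
    ext x; simp
  exact congrArg (fun f => f x) h

lemma coeff_iv (x : MonoidAlgebra ℤ G) (g : G) : (iv x).coeff g = x.coeff g⁻¹ := by
  classical
  induction x using MonoidAlgebra.induction_linear with
  | zero => simp
  | add f g hf hg => simp [hf, hg]
  | single a r =>
    simp only [iv, mapDomainRingHom_apply, mapDomain_single, coeff_single, Finsupp.single_apply,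
      invMonoidHom_apply]
    by_cases h : a⁻¹ = g
    · rw [if_pos h, if_pos]; rw [← h, inv_inv]
    · rw [if_neg h, if_neg]; intro h'; apply h; rw [h', inv_inv]


/-! ### The sums over `G` and over `N` -/

section sums

variable [Fintype G] (N : Subgroup G)

/-- The sum of all elements. -/
noncomputable def TT : MonoidAlgebra ℤ G := sm univ

open Classical in
/-- The sum of the elements of `N`. -/
noncomputable def MM : MonoidAlgebra ℤ G := sm (univ.filter (· ∈ N))

omit [CommGroup G] in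
lemma coeff_TT (x : G) : (TT : MonoidAlgebra ℤ G).coeff x = 1 := by
  classical
  rw [TT, coeff_sm]; simp

open Classical in
lemma coeff_MM (x : G) : (MM N).coeff x = if x ∈ N then 1 else 0 := by
  rw [MM, coeff_sm]; simp

lemma el_mul_TT (g : G) : el g * TT = TT := by
  unfold TT sm
  rw [Finset.mul_sum]
  simp only [el_mul]
  exact Fintype.sum_equiv (Equiv.mulLeft g) _ _ (fun x => rfl)

omit [Fintype G] in
lemma coeff_el_mul (g x : G) (y : MonoidAlgebra ℤ G) : (el g * y).coeff x = y.coeff (g⁻¹ * x) := by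
  classical
  induction y using MonoidAlgebra.induction_linear with
  | zero => simp
  | add f g hf hg => simp only [mul_add, coeff_add, Finsupp.add_apply, hf, hg]
  | single a r =>
    simp only [el, single_mul_single, coeff_single, Finsupp.single_apply, one_mul]
    by_cases h : g * a = x
    · rw [if_pos h, if_pos]; rw [← h]; group
    · rw [if_neg h, if_neg]; intro h'; apply h; rw [h']; group

open Classical in
lemma coeff_el_mul_MM (g x : G) : (el g * MM N).coeff x = if g⁻¹ * x ∈ N then 1 else 0 := by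
  rw [coeff_el_mul, coeff_MM]

lemma el_mul_MM (g : G) (hg : g ∈ N) : el g * MM N = MM N := by
  classical
  apply MonoidAlgebra.ext
  ext x
  rw [coeff_el_mul_MM, coeff_MM]
  have : g⁻¹ * x ∈ N ↔ x ∈ N := by
    constructor
    · intro h
      have := N.mul_mem hg h
      simpa using this
    · intro h
      exact N.mul_mem (N.inv_mem hg) h
  simp only [this]

lemma sm_mul_TT (s : Finset G) : sm s * TT = (s.card : MonoidAlgebra ℤ G) * TT := by
  rw [sm, Finset.sum_mul]
  simp only [el_mul_TT, Finset.sum_const, nsmul_eq_mul]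

lemma TT_mul_TT : (TT : MonoidAlgebra ℤ G) * TT = (Fintype.card G : MonoidAlgebra ℤ G) * TT := by
  change sm univ * TT = _
  rw [sm_mul_TT]
  rfl

open Classical in
lemma card_N : ((univ.filter (fun x => x ∈ N) : Finset G)).card = Nat.card N := by
  rw [Nat.card_eq_fintype_card, Fintype.card_subtype]

lemma MM_mul_TT : MM N * TT = (Nat.card N : MonoidAlgebra ℤ G) * TT := by
  classical
  rw [MM, sm_mul_TT, ← card_N]

lemma MM_mul_MM : MM N * MM N = (Nat.card N : MonoidAlgebra ℤ G) * MM N := by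
  classical
  change sm (univ.filter (· ∈ N)) * MM N = _
  rw [sm, Finset.sum_mul, Finset.sum_congr rfl (g := fun _ => MM N), Finset.sum_const, ← card_N,
    nsmul_eq_mul]
  intro x hx
  exact el_mul_MM N x (by simpa using hx)

lemma iv_TT : iv (TT : MonoidAlgebra ℤ G) = TT := by
  apply MonoidAlgebra.ext
  ext x
  rw [coeff_iv, coeff_TT, coeff_TT]

lemma iv_MM : iv (MM N) = MM N := by
  classical
  apply MonoidAlgebra.ext
  ext x
  rw [coeff_iv, coeff_MM, coeff_MM]
  simp only [inv_mem_iff]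

lemma pw_TT (p : ℕ) (hp : (Nat.card G).Coprime p) : pw p (TT : MonoidAlgebra ℤ G) = TT := by
  rw [TT, sm, map_sum]
  simp only [pw_el]
  exact Fintype.sum_equiv (powCoprime hp) _ _ (fun x => rfl)

lemma pw_MM (p : ℕ) (hp : (Nat.card N).Coprime p) : pw p (MM N) = MM N := by
  classical
  have h1 : MM N = ∑ x : N, el (x : G) := by
    rw [MM, sm]
    exact Finset.sum_subtype _ (fun x => by simp) _
  rw [h1, map_sum]
  simp only [pw_el]
  exact Fintype.sum_equiv (powCoprime hp) _ _ (fun x => rfl)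

end sums


/-! ### Coefficients of products -/

lemma conv [Fintype G] (a b : MonoidAlgebra ℤ G) (g : G) :
    (a * b).coeff g = ∑ x : G, a.coeff x * b.coeff (x⁻¹ * g) := by
  classical
  induction a using MonoidAlgebra.induction_linear with
  | zero => simp
  | add f h hf hh =>
    simp only [add_mul, coeff_add, Finsupp.add_apply, hf, hh, ← Finset.sum_add_distrib]
  | single c r =>
    have h1 : (single c r : MonoidAlgebra ℤ G) = r • el c := by
      simp [el, smul_single]
    rw [h1, smul_mul_assoc, coeff_smul, Finsupp.smul_apply, coeff_el_mul, smul_eq_mul]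
    simp only [coeff_smul, Finsupp.smul_apply, coeff_el, smul_eq_mul]
    rw [Finset.sum_eq_single c]
    · simp
    · intro x _ hx
      rw [if_neg (Ne.symm hx)]; simp
    · intro h; exact absurd (Finset.mem_univ c) h

/-! ### The identities of an affine difference set -/

section ads

variable [Fintype G] {n : ℕ} {N : Subgroup G} {D : Finset G}

omit [Fintype G] in
open Classical in
lemma coeff_pair (D : Finset G) (f : G → G) (x : G) :
    ((∑ a ∈ D, el (f a)) * iv (sm D)).coeff x =
      ∑ a ∈ D, ∑ b ∈ D, if f a * b⁻¹ = x then (1 : ℤ) else 0 := by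
  have e : iv (sm D) = ∑ y ∈ D, el y⁻¹ := by rw [sm, map_sum]; simp only [iv_el]
  rw [e, Finset.sum_mul_sum]
  simp only [el_mul, coeff_sum, Finsupp.finsetSum_apply, coeff_el]

omit [Fintype G] in
open Classical in
lemma coeff_natCast' (m : ℕ) (x : G) :
    ((m : MonoidAlgebra ℤ G)).coeff x = if x = 1 then (m : ℤ) else 0 := by
  rw [MonoidAlgebra.natCast_def, coeff_single, Finsupp.single_apply]
  by_cases h : x = 1
  · rw [if_pos h, if_pos h.symm]
  · rw [if_neg h, if_neg (Ne.symm h)]

lemma d_ivd (h : IsAffineDifferenceSet n N D) :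
    sm D * iv (sm D) = (n : MonoidAlgebra ℤ G) + TT - MM N := by
  classical
  apply MonoidAlgebra.ext
  ext x
  have hL := coeff_pair D (fun a => a) x
  rw [← sm] at hL
  have hc : (∑ a ∈ D, ∑ b ∈ D, if a * b⁻¹ = x then (1 : ℤ) else 0) =
      (((D ×ˢ D).filter (fun d => d.1 * d.2⁻¹ = x)).card : ℤ) := by
    rw [Finset.card_filter, Finset.sum_product]
    push_cast
    rfl
  rw [hL, hc, coeff_sub, Finsupp.sub_apply, coeff_add, Finsupp.add_apply, coeff_natCast',
    coeff_TT, coeff_MM]
  by_cases hx : x ∈ N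
  · by_cases hx1 : x = 1
    · subst hx1
      have : ((D ×ˢ D).filter (fun d => d.1 * d.2⁻¹ = 1)) = D.image (fun a => (a, a)) := by
        ext ⟨a, b⟩
        simp only [Finset.mem_filter, Finset.mem_product, Finset.mem_image, Prod.mk.injEq]
        constructor
        · rintro ⟨⟨ha, _⟩, hab⟩
          exact ⟨a, ha, rfl, by simpa [mul_inv_eq_one] using hab⟩
        · rintro ⟨c, hc, rfl, rfl⟩
          exact ⟨⟨hc, hc⟩, by simp⟩
      rw [this, Finset.card_image_of_injective _ (fun a b hab => (Prod.mk.inj hab).1), h.card_set]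
      simp [hx]
    · have : ((D ×ˢ D).filter (fun d => d.1 * d.2⁻¹ = x)) = ∅ := by
        rw [Finset.filter_eq_empty_iff]
        rintro ⟨a, b⟩ hab
        rw [Finset.mem_product] at hab
        exact h.ne_of_mem x hx hx1 a hab.1 b hab.2
      rw [this]
      simp [hx, hx1]
  · obtain ⟨d, hd, hu⟩ := h.existsUnique_of_notMem x hx
    have : ((D ×ˢ D).filter (fun d => d.1 * d.2⁻¹ = x)) = {d} := by
      ext e
      rw [Finset.mem_filter, Finset.mem_product, Finset.mem_singleton]
      constructor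
      · rintro ⟨⟨h1, h2⟩, h3⟩
        exact hu e ⟨h1, h2, h3⟩
      · rintro rfl
        exact ⟨⟨hd.1, hd.2.1⟩, hd.2.2⟩
    have hx1 : x ≠ 1 := fun h1 => hx (h1 ▸ N.one_mem)
    rw [this]
    simp [hx, hx1]

omit [Fintype G] in
lemma inj_q (h : IsAffineDifferenceSet n N D) :
    Set.InjOn (fun a : G => (a : G ⧸ N)) (D : Set G) := by
  intro a ha b hb hab
  by_contra hne
  have h1 : a⁻¹ * b ∈ N := QuotientGroup.eq.mp hab
  have h2 : b * a⁻¹ ≠ 1 := by
    intro h3
    exact hne (mul_inv_eq_one.mp h3).symm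
  exact h.ne_of_mem (b * a⁻¹) (by rwa [mul_comm]) h2 b hb a ha rfl

omit [Fintype G] in
lemma card_q (h : IsAffineDifferenceSet n N D) : Nat.card (G ⧸ N) = n + 1 := by
  have h1 := N.card_eq_card_quotient_mul_card_subgroup
  rw [h.card_group, h.card_subgroup] at h1
  have h2 := h.two_le
  obtain ⟨m, rfl⟩ : ∃ m, n = m + 2 := ⟨n - 2, by omega⟩
  have h3 : (m + 2) ^ 2 - 1 = (m + 3) * (m + 1) := by
    have : (m + 2) ^ 2 = (m + 3) * (m + 1) + 1 := by ring
    omega
  rw [h3] at h1
  have h4 : m + 2 - 1 = m + 1 := by omega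
  rw [h4] at h1
  exact (Nat.eq_of_mul_eq_mul_right (by omega) h1).symm

lemma exists_c (h : IsAffineDifferenceSet n N D) :
    ∃ c : G, sm D * MM N = TT - el c * MM N := by
  classical
  have : Fintype (G ⧸ N) := Fintype.ofFinite _
  set S : Finset (G ⧸ N) := D.image (fun a : G => (a : G ⧸ N)) with hS
  have hcS : S.card = n := by
    rw [hS, Finset.card_image_of_injOn (inj_q h), h.card_set]
  have hcq : Fintype.card (G ⧸ N) = n + 1 := by
    rw [← Nat.card_eq_fintype_card]; exact card_q h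
  have hcc : (Sᶜ).card = 1 := by
    rw [Finset.card_compl, hcS, hcq]; omega
  obtain ⟨c', hc'⟩ := Finset.card_eq_one.mp hcc
  obtain ⟨c, rfl⟩ := QuotientGroup.mk_surjective c'
  refine ⟨c, ?_⟩
  apply MonoidAlgebra.ext
  ext x
  have h1 : (sm D * MM N).coeff x = ∑ a ∈ D, if a⁻¹ * x ∈ N then (1 : ℤ) else 0 := by
    rw [sm, Finset.sum_mul]
    simp only [coeff_sum, Finsupp.finsetSum_apply, coeff_el_mul_MM]
  rw [h1, coeff_sub, Finsupp.sub_apply, coeff_TT, coeff_el_mul_MM]
  have hmem : ∀ y : G, (y : G ⧸ N) ∈ S ↔ ¬ (c⁻¹ * y ∈ N) := by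
    intro y
    have : (y : G ⧸ N) ∈ Sᶜ ↔ (y : G ⧸ N) = (c : G ⧸ N) := by rw [hc']; simp
    rw [Finset.mem_compl] at this
    rw [← not_iff_not, not_not, this, eq_comm, QuotientGroup.eq]
  by_cases hx : c⁻¹ * x ∈ N
  · rw [if_pos hx, sub_self]
    apply Finset.sum_eq_zero
    intro a ha
    rw [if_neg]
    intro hax
    have : (x : G ⧸ N) ∈ S := by
      rw [hS, Finset.mem_image]
      exact ⟨a, ha, QuotientGroup.eq.mpr hax⟩
    exact (hmem x).mp this hx
  · rw [if_neg hx, sub_zero]
    have : (x : G ⧸ N) ∈ S := (hmem x).mpr hx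
    rw [hS, Finset.mem_image] at this
    obtain ⟨a, ha, hax⟩ := this
    rw [Finset.sum_eq_single a]
    · rw [if_pos (QuotientGroup.eq.mp hax)]
    · intro b hb hba
      rw [if_neg]
      intro hbx
      apply hba
      apply inj_q h hb ha
      change (b : G ⧸ N) = (a : G ⧸ N)
      rw [QuotientGroup.eq.mpr hbx, hax]
    · intro h'; exact absurd ha h'

/-! ### Reduction modulo `p` -/

/-- reduction modulo `p` -/
noncomputable def ph (p : ℕ) : MonoidAlgebra ℤ G →+* MonoidAlgebra (ZMod p) G :=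
  mapRingHom G (Int.castRingHom (ZMod p))

omit [Fintype G] in
lemma charP_alg (p : ℕ) [Fact p.Prime] : CharP (MonoidAlgebra (ZMod p) G) p := by
  apply charP_of_injective_algebraMap (R := ZMod p)
  intro a b hab
  have := congrArg (fun z => z.coeff 1) hab
  simpa using this

omit [Fintype G] in
lemma ph_pw (p : ℕ) [Fact p.Prime] (s : Finset G) : ph p (pw p (sm s)) = ph p (sm s) ^ p := by
  have := charP_alg (G := G) p
  rw [sm, map_sum, map_sum, map_sum, sum_pow_char]
  apply Finset.sum_congr rfl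
  intro x _
  rw [pw_el, ph, el, el, mapRingHom_single, mapRingHom_single, single_pow, map_one, one_pow]

lemma ring_step {R : Type*} [CommRing R] (δ τ μ γ : R) (h1 : δ * τ = 0) (h2 : δ * μ = τ - γ * μ)
    (h3 : γ * τ = τ) (k : ℕ) : δ ^ (k + 1) * μ = (-1) ^ (k + 1) * (γ ^ (k + 1) * μ - τ) := by
  have h4 : ∀ j : ℕ, γ ^ j * τ = τ := by
    intro j
    induction j with
    | zero => simp
    | succ j ih => rw [pow_succ, mul_assoc, h3, ih]
  induction k with
  | zero => rw [zero_add, pow_one, pow_one, pow_one, h2]; ring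
  | succ k ih =>
    have h5 := h4 (k + 1)
    calc δ ^ (k + 1 + 1) * μ = δ * (δ ^ (k + 1) * μ) := by ring
      _ = δ * ((-1) ^ (k + 1) * (γ ^ (k + 1) * μ - τ)) := by rw [ih]
      _ = (-1) ^ (k + 1) * (γ ^ (k + 1) * (δ * μ) - δ * τ) := by ring
      _ = (-1) ^ (k + 1) * (γ ^ (k + 1) * (τ - γ * μ)) := by rw [h2, h1, sub_zero]
      _ = (-1) ^ (k + 1) * (γ ^ (k + 1) * τ - γ ^ (k + 1) * γ * μ) := by ring
      _ = (-1) ^ (k + 1) * (τ - γ ^ (k + 1) * γ * μ) := by rw [h5]
      _ = (-1) ^ (k + 1 + 1) * (γ ^ (k + 1 + 1) * μ - τ) := by ring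

lemma ph_F (p k : ℕ) [Fact p.Prime] (hpk : p = k + 2) (hpn : p ∣ n)
    (h : IsAffineDifferenceSet n N D) (c : G) (hc : sm D * MM N = TT - el c * MM N) :
    ph p (pw p (sm D) * iv (sm D) - (TT - el (c ^ (k + 1)) * MM N)) = 0 := by
  have hch := charP_alg (G := G) p
  have hn0 : (n : MonoidAlgebra (ZMod p) G) = 0 := (CharP.cast_eq_zero_iff _ p n).mpr hpn
  have e1 : ph p (sm D) * ph p (iv (sm D)) = ph p TT - ph p (MM N) := by
    rw [← map_mul, d_ivd h, map_sub, map_add, map_natCast, hn0, zero_add]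
  have e2 : ph p (sm D) * ph p TT = 0 := by
    rw [← map_mul, sm_mul_TT, map_mul, h.card_set, map_natCast, hn0, zero_mul]
  have e3 : ph p (sm D) * ph p (MM N) = ph p TT - ph p (el c) * ph p (MM N) := by
    rw [← map_mul, hc, map_sub, map_mul]
  have e4 : ph p (el c) * ph p TT = (ph p TT : MonoidAlgebra (ZMod p) G) := by
    rw [← map_mul, el_mul_TT]
  have e5 := ring_step _ _ _ _ e2 e3 e4 k
  have e6 : (-1 : MonoidAlgebra (ZMod p) G) ^ (k + 1) = 1 := by
    have h1 : (-1 : ZMod p) ^ (k + 1) = 1 := by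
      have h2 : (-1 : ZMod p) ^ (p - 1) = 1 := ZMod.pow_card_sub_one_eq_one (by simp)
      have h3 : p - 1 = k + 1 := by omega
      rwa [h3] at h2
    have h4 := congrArg (algebraMap (ZMod p) (MonoidAlgebra (ZMod p) G)) h1
    rwa [map_pow, map_neg, map_one] at h4
  have e7 : ph p (el (c ^ (k + 1))) = ph p (el c) ^ (k + 1) := by
    rw [← map_pow]
    congr 1
    rw [el, el, single_pow, one_pow]
  rw [map_sub, map_mul, ph_pw, map_sub, map_mul, e7]
  have e8 : ph p (sm D) ^ p * ph p (iv (sm D)) =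
      ph p (sm D) ^ (k + 1) * (ph p (sm D) * ph p (iv (sm D))) := by
    have h1 : ph p (sm D) ^ p = ph p (sm D) ^ (k + 1 + 1) :=
      congrArg (fun m => ph p (sm D) ^ m) hpk
    rw [h1]
    ring
  rw [e8, e1, mul_sub, e5, e6]
  have e9 : ph p (sm D) ^ (k + 1) * ph p TT = 0 := by
    rw [pow_succ, mul_assoc, e2, mul_zero]
  rw [e9]
  ring

lemma exists_E (p : ℕ) [Fact p.Prime] (y : MonoidAlgebra ℤ G) (hy : ph p y = 0) :
    ∃ E : MonoidAlgebra ℤ G, y = (p : MonoidAlgebra ℤ G) * E ∧
      ∀ x, y.coeff x = p * E.coeff x := by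
  have h1 : ∀ x, (p : ℤ) ∣ y.coeff x := by
    intro x
    have h2 := congrArg (fun z => z.coeff x) hy
    simp only [ph, coeff_mapRingHom, coeff_zero, Finsupp.coe_zero, Pi.zero_apply] at h2
    exact (ZMod.intCast_zmod_eq_zero_iff_dvd _ p).mp h2
  have h3 : ∀ x, y.coeff x =
      p * (ofCoeff (Finsupp.equivFunOnFinite.symm fun x => y.coeff x / p) :
        MonoidAlgebra ℤ G).coeff x := by
    intro x
    simp only [Finsupp.equivFunOnFinite_symm_apply_apply]
    exact (Int.mul_ediv_cancel' (h1 x)).symm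
  refine ⟨ofCoeff (Finsupp.equivFunOnFinite.symm fun x => y.coeff x / p), ?_, h3⟩
  rw [← nsmul_eq_mul]
  apply MonoidAlgebra.ext
  ext x
  rw [h3 x, coeff_smul, Finsupp.smul_apply, nsmul_eq_mul]

/-! ### The integral identity -/

omit [Fintype G] in
lemma iv_el_inv (g : G) : iv (el g) = el g⁻¹ := iv_el g

lemma key_identity (p k : ℕ) (hpk : p = k + 2) (hcG : (Nat.card G).Coprime p)
    (hcN : (Nat.card N).Coprime p)
    (h : IsAffineDifferenceSet n N D) (c : G) (hc : sm D * MM N = TT - el c * MM N) :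
    (pw p (sm D) * iv (sm D) - (TT - el (c ^ (k + 1)) * MM N)) *
      iv (pw p (sm D) * iv (sm D) - (TT - el (c ^ (k + 1)) * MM N)) =
      (n : MonoidAlgebra ℤ G) ^ 2 := by
  have hn := h.two_le
  -- abbreviations
  have hTT : (TT : MonoidAlgebra ℤ G) * TT = ((n : MonoidAlgebra ℤ G) ^ 2 - 1) * TT := by
    rw [TT_mul_TT, ← Nat.card_eq_fintype_card, h.card_group]
    have : ((n ^ 2 - 1 : ℕ) : MonoidAlgebra ℤ G) = (n : MonoidAlgebra ℤ G) ^ 2 - 1 := by
      rw [Nat.cast_sub (Nat.one_le_pow _ _ (by omega))]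
      push_cast; ring
    rw [this]
  have hcN' : ((Nat.card N : ℕ) : MonoidAlgebra ℤ G) = (n : MonoidAlgebra ℤ G) - 1 := by
    rw [h.card_subgroup, Nat.cast_sub (by omega)]
    push_cast; ring
  have hMT : MM N * TT = ((n : MonoidAlgebra ℤ G) - 1) * TT := by rw [MM_mul_TT, hcN']
  have hMM : MM N * MM N = ((n : MonoidAlgebra ℤ G) - 1) * MM N := by rw [MM_mul_MM, hcN']
  have hdd := d_ivd h
  have hdT : sm D * TT = (n : MonoidAlgebra ℤ G) * TT := by rw [sm_mul_TT, h.card_set]
  -- images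
  have hidT : iv (sm D) * TT = (n : MonoidAlgebra ℤ G) * TT := by
    have := congrArg iv hdT
    rwa [map_mul, map_mul, iv_TT, map_natCast] at this
  have hpdT : pw p (sm D) * TT = (n : MonoidAlgebra ℤ G) * TT := by
    have := congrArg (pw p) hdT
    rwa [map_mul, map_mul, pw_TT p hcG, map_natCast] at this
  have hpidT : iv (pw p (sm D)) * TT = (n : MonoidAlgebra ℤ G) * TT := by
    have := congrArg iv hpdT
    rwa [map_mul, map_mul, iv_TT, map_natCast] at this
  have hidM : iv (sm D) * MM N = TT - el c⁻¹ * MM N := by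
    have := congrArg iv hc
    rwa [map_mul, map_sub, map_mul, iv_TT, iv_MM, iv_el] at this
  have hpdM : pw p (sm D) * MM N = TT - el (c ^ p) * MM N := by
    have := congrArg (pw p) hc
    rwa [map_mul, map_sub, map_mul, pw_TT p hcG, pw_MM N p hcN, pw_el] at this
  have hpp : pw p (sm D) * iv (pw p (sm D)) = (n : MonoidAlgebra ℤ G) + TT - MM N := by
    have := congrArg (pw p) hdd
    rwa [map_mul, pw_iv, map_sub, map_add, map_natCast, pw_TT p hcG, pw_MM N p hcN] at this
  -- b
  set b : MonoidAlgebra ℤ G := el (c ^ (k + 1)) with hb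
  have hib : iv b = el (c ^ (k + 1))⁻¹ := iv_el _
  have hbb : b * iv b = 1 := by
    rw [hib, hb, el_mul, mul_inv_cancel, el_one]
  have hbT : b * TT = TT := el_mul_TT _
  have hibT : iv b * TT = TT := by rw [hib]; exact el_mul_TT _
  have hcp : el c⁻¹ * el (c ^ p) = b := by
    rw [el_mul, hb]
    congr 1
    rw [hpk, pow_succ' c (k + 1)]
    group
  -- F M
  have hFM : pw p (sm D) * iv (sm D) * MM N = ((n : MonoidAlgebra ℤ G) - 1) * TT + b * MM N := by
    calc pw p (sm D) * iv (sm D) * MM N = pw p (sm D) * (iv (sm D) * MM N) := by ring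
      _ = pw p (sm D) * TT - el c⁻¹ * (pw p (sm D) * MM N) := by rw [hidM]; ring
      _ = (n : MonoidAlgebra ℤ G) * TT - el c⁻¹ * TT + el c⁻¹ * el (c ^ p) * MM N := by
          rw [hpdT, hpdM]; ring
      _ = ((n : MonoidAlgebra ℤ G) - 1) * TT + b * MM N := by
          rw [el_mul_TT, hcp]; ring
  have hFT : pw p (sm D) * iv (sm D) * TT = (n : MonoidAlgebra ℤ G) ^ 2 * TT := by
    calc pw p (sm D) * iv (sm D) * TT = pw p (sm D) * (iv (sm D) * TT) := by ring
      _ = (n : MonoidAlgebra ℤ G) * (pw p (sm D) * TT) := by rw [hidT]; ring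
      _ = (n : MonoidAlgebra ℤ G) ^ 2 * TT := by rw [hpdT]; ring
  -- F K'
  have hFK : pw p (sm D) * iv (sm D) * (TT - iv b * MM N) =
      ((n : MonoidAlgebra ℤ G) ^ 2 - (n : MonoidAlgebra ℤ G) + 1) * TT - MM N := by
    calc pw p (sm D) * iv (sm D) * (TT - iv b * MM N)
        = pw p (sm D) * iv (sm D) * TT - iv b * (pw p (sm D) * iv (sm D) * MM N) := by ring
      _ = (n : MonoidAlgebra ℤ G) ^ 2 * TT
          - (((n : MonoidAlgebra ℤ G) - 1) * (iv b * TT) + (b * iv b) * MM N) := by
          rw [hFT, hFM]; ring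
      _ = _ := by rw [hibT, hbb]; ring
  have hFK' : iv (pw p (sm D)) * sm D * (TT - b * MM N) =
      ((n : MonoidAlgebra ℤ G) ^ 2 - (n : MonoidAlgebra ℤ G) + 1) * TT - MM N := by
    have := congrArg iv hFK
    simp only [map_mul, map_sub, map_add, map_pow, map_natCast, map_one, iv_iv, iv_TT,
      iv_MM] at this
    exact this
  have hKK : (TT - b * MM N) * (TT - iv b * MM N) =
      ((n : MonoidAlgebra ℤ G) - 1) ^ 2 * TT + ((n : MonoidAlgebra ℤ G) - 1) * MM N := by
    calc (TT - b * MM N) * (TT - iv b * MM N)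
        = TT * TT - MM N * (iv b * TT) - MM N * (b * TT) + (b * iv b) * (MM N * MM N) := by ring
      _ = _ := by rw [hibT, hbT, hbb, hTT, hMT, hMM]; ring
  have hFF : pw p (sm D) * iv (sm D) * (iv (pw p (sm D)) * sm D) =
      (n : MonoidAlgebra ℤ G) ^ 2 + ((n : MonoidAlgebra ℤ G) ^ 2 + 1) * TT
        - ((n : MonoidAlgebra ℤ G) + 1) * MM N := by
    calc pw p (sm D) * iv (sm D) * (iv (pw p (sm D)) * sm D)
        = (pw p (sm D) * iv (pw p (sm D))) * (sm D * iv (sm D)) := by ring
      _ = (n : MonoidAlgebra ℤ G) ^ 2 + 2 * (n : MonoidAlgebra ℤ G) * TT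
            - 2 * (n : MonoidAlgebra ℤ G) * MM N + TT * TT
            - 2 * (MM N * TT) + MM N * MM N := by rw [hpp, hdd]; ring
      _ = _ := by rw [hTT, hMT, hMM]; ring
  have hivF : iv (pw p (sm D) * iv (sm D) - (TT - b * MM N)) =
      iv (pw p (sm D)) * sm D - (TT - iv b * MM N) := by
    simp only [map_mul, map_sub, iv_iv, iv_TT, iv_MM]
  rw [hivF]
  linear_combination hFF - hFK - hFK' + hKK

/-! ### Extraction of the translate -/

/-- A nonnegative element `E` with `(pE)(pE)* = n^2` is a multiple of a group element. -/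
lemma point (p : ℕ) (hn : 2 ≤ n) (E : MonoidAlgebra ℤ G) (hE : ∀ x, 0 ≤ E.coeff x)
    (hid : ((p : MonoidAlgebra ℤ G) * E) * iv ((p : MonoidAlgebra ℤ G) * E) =
      (n : MonoidAlgebra ℤ G) ^ 2) :
    ∃ z : G, (p : ℤ) * E.coeff z = n := by
  classical
  have hp : ∀ x, (((p : MonoidAlgebra ℤ G) * E)).coeff x = (p : ℤ) * E.coeff x := by
    intro x
    rw [← nsmul_eq_mul, coeff_smul, Finsupp.smul_apply, nsmul_eq_mul]
  set a : MonoidAlgebra ℤ G := (p : MonoidAlgebra ℤ G) * E with ha
  have ha0 : ∀ x, 0 ≤ a.coeff x := fun x => by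
    rw [hp x]; exact mul_nonneg (by positivity) (hE x)
  have hco : ∀ g : G, ∑ x : G, a.coeff x * a.coeff (g⁻¹ * x) = if g = 1 then (n : ℤ) ^ 2 else 0 := by
    intro g
    have h1 := congrArg (fun y => y.coeff g) hid
    simp only [conv, coeff_iv] at h1
    have h2 : ((n : MonoidAlgebra ℤ G) ^ 2).coeff g = if g = 1 then (n : ℤ) ^ 2 else 0 := by
      have h3 := coeff_natCast' (G := G) (n ^ 2) g
      push_cast at h3
      exact h3
    rw [h2] at h1
    rw [← h1]
    apply Finset.sum_congr rfl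
    intro x _
    congr 2
    group
  -- two elements of the support coincide
  have huniq : ∀ x y : G, a.coeff x ≠ 0 → a.coeff y ≠ 0 → x = y := by
    intro x y hx hy
    by_contra hne
    have hg : x * y⁻¹ ≠ 1 := fun h1 => hne (mul_inv_eq_one.mp h1)
    have h1 := hco (x * y⁻¹)
    rw [if_neg hg] at h1
    have h2 := (Finset.sum_eq_zero_iff_of_nonneg (fun z _ => mul_nonneg (ha0 _) (ha0 _))).mp h1 x
      (Finset.mem_univ x)
    have h3 : (x * y⁻¹)⁻¹ * x = y := by group
    rw [h3] at h2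
    rcases mul_eq_zero.mp h2 with h4 | h4
    · exact hx h4
    · exact hy h4
  have h1 := hco 1
  rw [if_pos rfl] at h1
  simp only [inv_one, one_mul] at h1
  have hne : ∃ z, a.coeff z ≠ 0 := by
    by_contra hcon
    push Not at hcon
    simp only [hcon, mul_zero, Finset.sum_const_zero] at h1
    have : (n : ℤ) ^ 2 ≠ 0 := by positivity
    exact this h1.symm
  obtain ⟨z, hz⟩ := hne
  refine ⟨z, ?_⟩
  rw [Finset.sum_eq_single z] at h1
  · rw [← hp z]
    have h2 : a.coeff z ^ 2 = (n : ℤ) ^ 2 := by rw [← h1]; ring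
    exact (pow_left_inj₀ (ha0 z) (by positivity) two_ne_zero).mp h2
  · intro x _ hx
    have : a.coeff x = 0 := by
      by_contra h2
      exact hx (huniq x z h2 hz)
    rw [this, zero_mul]
  · intro h2; exact absurd (Finset.mem_univ z) h2

lemma cop (n p : ℕ) (hn : 2 ≤ n) (hpn : p ∣ n) : (n ^ 2 - 1).Coprime p ∧ (n - 1).Coprime p := by
  constructor
  · apply Nat.Coprime.coprime_dvd_right hpn
    have h1 : n ^ 2 - 1 + 1 = n * n := by
      have : 1 ≤ n ^ 2 := Nat.one_le_pow _ _ (by omega)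
      rw [Nat.sub_add_cancel this]; ring
    apply Nat.coprime_of_dvd
    intro k hk hk1 hk2
    have h2 : k ∣ n ^ 2 - 1 + 1 := by rw [h1]; exact Dvd.dvd.mul_right hk2 n
    have h3 := (Nat.dvd_add_right hk1).mp h2
    exact hk.one_lt.ne' (Nat.dvd_one.mp h3)
  · apply Nat.Coprime.coprime_dvd_right hpn
    have h1 : n - 1 + 1 = n := by omega
    apply Nat.coprime_of_dvd
    intro k hk hk1 hk2
    have h2 : k ∣ n - 1 + 1 := by rw [h1]; exact hk2
    have h3 := (Nat.dvd_add_right hk1).mp h2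
    exact hk.one_lt.ne' (Nat.dvd_one.mp h3)

theorem main (p : ℕ) (hp : p.Prime) (hpn : p ∣ n) (h : IsAffineDifferenceSet n N D) :
    ∃ g : G, ∀ d ∈ D, ∃ e ∈ D, d ^ p = g * e := by
  classical
  have : Fact p.Prime := ⟨hp⟩
  have hn := h.two_le
  obtain ⟨k, hpk⟩ : ∃ k, p = k + 2 := ⟨p - 2, by have := hp.two_le; omega⟩
  obtain ⟨c, hc⟩ := exists_c h
  have hcop := cop n p hn hpn
  have hcG : (Nat.card G).Coprime p := by rw [h.card_group]; exact hcop.1
  have hcN : (Nat.card N).Coprime p := by rw [h.card_subgroup]; exact hcop.2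
  obtain ⟨E, hE1, hE2⟩ := exists_E p _ (ph_F p k hpk hpn h c hc)
  have hid := key_identity p k hpk hcG hcN h c hc
  rw [hE1] at hid
  have hF : ∀ x, (pw p (sm D) * iv (sm D)).coeff x =
      ∑ a ∈ D, ∑ b ∈ D, if a ^ p * b⁻¹ = x then (1 : ℤ) else 0 := by
    intro x
    have h1 : pw p (sm D) = ∑ a ∈ D, el (a ^ p) := by rw [sm, map_sum]; simp only [pw_el]
    rw [h1]
    exact coeff_pair D (fun a => a ^ p) x
  have hK : ∀ x, (TT - el (c ^ (k + 1)) * MM N).coeff x =
      1 - if (c ^ (k + 1))⁻¹ * x ∈ N then 1 else 0 := by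
    intro x
    rw [coeff_sub, Finsupp.sub_apply, coeff_TT, coeff_el_mul_MM]
  have hK0 : ∀ x, 0 ≤ (TT - el (c ^ (k + 1)) * MM N).coeff x := by
    intro x; rw [hK]; split_ifs <;> norm_num
  have hK1 : ∀ x, (TT - el (c ^ (k + 1)) * MM N).coeff x ≤ 1 := by
    intro x; rw [hK]; split_ifs <;> norm_num
  have hF0 : ∀ x, 0 ≤ (pw p (sm D) * iv (sm D)).coeff x := by
    intro x; rw [hF]
    exact Finset.sum_nonneg fun a _ => Finset.sum_nonneg fun b _ => by split_ifs <;> norm_num
  have hFE : ∀ x, (pw p (sm D) * iv (sm D)).coeff x =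
      (TT - el (c ^ (k + 1)) * MM N).coeff x + p * E.coeff x := by
    intro x
    have h1 := hE2 x
    rw [coeff_sub (pw p (sm D) * iv (sm D)), Finsupp.sub_apply] at h1
    linarith
  have hEn : ∀ x, 0 ≤ E.coeff x := by
    intro x
    by_contra hcon
    push Not at hcon
    have h1 := hFE x
    have h2 := hF0 x
    have h3 := hK1 x
    have h4 : (2 : ℤ) ≤ p := by exact_mod_cast hp.two_le
    nlinarith
  obtain ⟨z, hz⟩ := point p hn E hEn hid
  have hFz : (n : ℤ) ≤ (pw p (sm D) * iv (sm D)).coeff z := by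
    rw [hFE z, hz]; linarith [hK0 z]
  rw [hF] at hFz
  refine ⟨z, ?_⟩
  have hin : ∀ a ∈ D, (∑ b ∈ D, if a ^ p * b⁻¹ = z then (1 : ℤ) else 0) ≤ 1 := by
    intro a _
    rw [Finset.sum_boole]
    have : (D.filter (fun b => a ^ p * b⁻¹ = z)).card ≤ 1 := by
      rw [Finset.card_le_one]
      intro b hb b' hb'
      rw [Finset.mem_filter] at hb hb'
      have := hb.2.trans hb'.2.symm
      exact inv_injective (mul_left_cancel this)
    exact_mod_cast this
  by_contra hcon
  push Not at hcon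
  obtain ⟨d, hd, hde⟩ := hcon
  have h0 : (∑ b ∈ D, if d ^ p * b⁻¹ = z then (1 : ℤ) else 0) = 0 := by
    apply Finset.sum_eq_zero
    intro b hb
    rw [if_neg]
    intro h1
    apply hde b hb
    rw [← h1]; group
  have h1 : (∑ a ∈ D, ∑ b ∈ D, if a ^ p * b⁻¹ = z then (1 : ℤ) else 0) < ∑ a ∈ D, (1 : ℤ) :=
    Finset.sum_lt_sum hin ⟨d, hd, by rw [h0]; norm_num⟩
  rw [Finset.sum_const, h.card_set] at h1
  simp only [nsmul_eq_mul, mul_one] at h1
  exact absurd hFz (not_le.mpr h1)

end ads

end Pool.Agent.ADS.MULT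

namespace Pool.Agent.ADS

/-- MULT: the multiplier theorem. -/
theorem MULT_thm : Stmt_MULT := by
  intro G _ n N D h p hp hpn
  have hfin : Finite G := by
    apply Nat.finite_of_card_ne_zero
    rw [h.card_group]
    have h2 := h.two_le
    have : 2 ^ 2 ≤ n ^ 2 := Nat.pow_le_pow_left h2 2
    omega
  have : Fintype G := Fintype.ofFinite G
  exact MULT.main p hp hpn h

end Pool.Agent.ADS
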