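import Mathlib
import Pool.Agent.ADS.Stmts2

/-!
# MULT2: the multiplier theorem in an abelian quotient

Group ring computation in `ℤ[A]`.
-/

set_option autoImplicit false

namespace Pool.Agent.ADS.M_MULT2

open Finset

theorem sum_pow_prime {R ι : Type*} [CommRing R] {p : ℕ} (hp : p.Prime) (s : Finset ι)
    (f : ι → R) : ∃ r, (∑ i ∈ s, f i) ^ p = ∑ i ∈ s, f i ^ p + p * r := by
  classical
  induction s using Finset.induction_on with
  | empty => exact ⟨0, by simp [hp.ne_zero]⟩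
  | insert a s ha ih =>
    obtain ⟨r, hr⟩ := ih
    obtain ⟨u, hu⟩ := exists_add_pow_prime_eq hp (f a) (∑ i ∈ s, f i)
    refine ⟨r + f a * (∑ i ∈ s, f i) * u, ?_⟩
    rw [Finset.sum_insert ha, Finset.sum_insert ha, hu, hr]
    ring

theorem alg_sq {R : Type*} [CommRing R] (n D1 Di Dp Dpi Gs Ns c ci : R) (q : ℕ)
    (hc : c * ci = 1)
    (h1 : D1 * Di = n + Gs - Ns) (h2 : Dp * Dpi = n + Gs - Ns)
    (h3 : D1 * Ns = Gs - c * Ns) (h4 : Di * Ns = Gs - ci * Ns)
    (h5 : Dp * Ns = Gs - c ^ (q + 1) * Ns) (h6 : Dpi * Ns = Gs - ci ^ (q + 1) * Ns)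
    (g1 : D1 * Gs = n * Gs) (g2 : Di * Gs = n * Gs) (g3 : Dp * Gs = n * Gs)
    (g4 : Dpi * Gs = n * Gs) (g5 : c * Gs = Gs) (g6 : ci * Gs = Gs)
    (k1 : Gs * Gs = (n ^ 2 - 1) * Gs) (k2 : Gs * Ns = (n - 1) * Gs)
    (k3 : Ns * Ns = (n - 1) * Ns) :
    (Dp * Di - (Gs - c ^ q * Ns)) * (Dpi * D1 - (Gs - ci ^ q * Ns)) = n ^ 2 := by
  have gq : ∀ k : ℕ, c ^ k * Gs = Gs := by
    intro k
    induction k with
    | zero => simp
    | succ k ih => rw [pow_succ, mul_assoc, g5, ih]
  have gqi : ∀ k : ℕ, ci ^ k * Gs = Gs := by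
    intro k
    induction k with
    | zero => simp
    | succ k ih => rw [pow_succ, mul_assoc, g6, ih]
  have hcq : c ^ q * ci ^ q = 1 := by rw [← mul_pow, hc, one_pow]
  have FN : Dp * Di * Ns = (n - 1) * Gs + c ^ q * Ns := by
    have e1 : c ^ (q + 1) * ci = c ^ q := by rw [pow_succ, mul_assoc, hc, mul_one]
    linear_combination Dp * h4 + g3 - ci * h5 - g6 + Ns * e1
  have FiN : Dpi * D1 * Ns = (n - 1) * Gs + ci ^ q * Ns := by
    have e1 : ci ^ (q + 1) * c = ci ^ q := by rw [pow_succ, mul_assoc, mul_comm ci c, hc, mul_one]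
    linear_combination Dpi * h3 + g4 - c * h6 - g5 + Ns * e1
  have FG : Dp * Di * Gs = n ^ 2 * Gs := by linear_combination Dp * g2 + n * g3
  have FiG : Dpi * D1 * Gs = n ^ 2 * Gs := by linear_combination Dpi * g1 + n * g4
  have FFi : (Dp * Di) * (Dpi * D1) = n ^ 2 + (n ^ 2 + 1) * Gs - (n + 1) * Ns := by
    linear_combination (D1 * Di) * h2 + (n + Gs - Ns) * h1 + k1 - 2 * k2 + k3
  have FKi : (Dp * Di) * (Gs - ci ^ q * Ns) = (n ^ 2 - n + 1) * Gs - Ns := by
    linear_combination FG - ci ^ q * FN - (n - 1) * gqi q - Ns * hcq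
  have FiK : (Dpi * D1) * (Gs - c ^ q * Ns) = (n ^ 2 - n + 1) * Gs - Ns := by
    linear_combination FiG - c ^ q * FiN - (n - 1) * gq q - Ns * hcq
  have KKi : (Gs - c ^ q * Ns) * (Gs - ci ^ q * Ns) = (n - 1) ^ 2 * Gs + (n - 1) * Ns := by
    linear_combination k1 - ci ^ q * k2 - c ^ q * k2 - (n - 1) * gqi q - (n - 1) * gq q +
      c ^ q * ci ^ q * k3 + (n - 1) * Ns * hcq
  linear_combination FFi - FKi - FiK + KKi

theorem alg_fin {R : Type*} [CommRing R] (n D1 Di Dp Gs Ns c g : R) (q : ℕ)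
    (h1 : D1 * Di = n + Gs - Ns)
    (h3 : D1 * Ns = Gs - c * Ns)
    (h5 : Dp * Ns = Gs - c ^ (q + 1) * Ns)
    (g1 : D1 * Gs = n * Gs) (g3 : Dp * Gs = n * Gs) (g5 : c * Gs = Gs)
    (hF : Dp * Di = Gs - c ^ q * Ns + n * g) : n * Dp = n * (g * D1) := by
  have gq : ∀ k : ℕ, c ^ k * Gs = Gs := by
    intro k
    induction k with
    | zero => simp
    | succ k ih => rw [pow_succ, mul_assoc, g5, ih]
  linear_combination D1 * hF - Dp * h1 + g1 - g3 - c ^ q * h3 + h5 - gq q

theorem alg_cong {R : Type*} [CommRing R] (p : ℕ) (hp : p.Prime) (t D1 Di Dp Gs Ns c r : R) (q : ℕ)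
    (hq : p = q + 1)
    (h1 : D1 * Di = p * t + Gs - Ns)
    (h3 : D1 * Ns = Gs - c * Ns)
    (g1 : D1 * Gs = p * t * Gs) (g5 : c * Gs = Gs)
    (hr : D1 ^ p = Dp + p * r) : ∃ E, Dp * Di = (Gs - c ^ q * Ns) + p * E := by
  have gq : ∀ k : ℕ, c ^ k * Gs = Gs := by
    intro k
    induction k with
    | zero => simp
    | succ k ih => rw [pow_succ, mul_assoc, g5, ih]
  have key : ∀ k : ℕ, ∃ s, D1 ^ (k + 1) * Ns =
      (-1) ^ (k + 1) * (c ^ (k + 1) * Ns - Gs) + (p : R) * s := by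
    intro k
    induction k with
    | zero => exact ⟨0, by linear_combination h3⟩
    | succ k ih =>
      obtain ⟨s, hs⟩ := ih
      refine ⟨D1 * s - (-1) ^ (k + 1) * t * Gs, ?_⟩
      linear_combination D1 * hs + (-1) ^ (k + 1) * c ^ (k + 1) * h3 - (-1) ^ (k + 1) * g1 +
        (-1) ^ (k + 1) * gq (k + 1)
  have hG : ∀ k : ℕ, D1 ^ k * Gs = (p * t) ^ k * Gs := by
    intro k
    induction k with
    | zero => simp
    | succ k ih =>
      linear_combination D1 * ih + (p * t) ^ k * g1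
  obtain ⟨m, rfl⟩ : ∃ m, q = m + 1 := ⟨q - 1, by have := hp.two_le; omega⟩
  have hu : ∃ u : R, (-1) ^ (m + 1) = 1 + (p : R) * u := by
    rcases hp.eq_two_or_odd' with h2 | h2
    · have : m = 0 := by omega
      subst this
      refine ⟨-1, ?_⟩
      rw [h2]
      push_cast
      ring
    · refine ⟨0, ?_⟩
      have : Even (m + 1) := by
        rw [hq] at h2
        by_contra hne
        rw [Nat.not_even_iff_odd] at hne
        rcases hne with ⟨a, ha⟩
        rcases h2 with ⟨b, hb⟩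
        omega
      rw [this.neg_one_pow]
      ring
  obtain ⟨u, hu⟩ := hu
  obtain ⟨s, hs⟩ := key m
  refine ⟨t * D1 ^ (m + 1) + t * (p * t) ^ m * Gs - u * (c ^ (m + 1) * Ns - Gs) - s - r * Di, ?_⟩
  rw [hq] at hr
  have hr' : D1 ^ (m + 1 + 1) = Dp + (p : R) * r := by rw [hr, hq]
  rw [hu] at hs
  linear_combination -Di * hr' + D1 ^ (m + 1) * h1 + hG (m + 1) - hs

/-- The support argument: `E` has nonnegative coefficients and `E E* = t²`. -/
theorem supp_arg {A : Type} [CommGroup A] [Fintype A] (E Ei : MonoidAlgebra ℤ A) (t : ℕ)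
    (ht : 0 < t) (hpos : ∀ a, 0 ≤ E.coeff a) (hEi : ∀ a, Ei.coeff a = E.coeff a⁻¹)
    (hE : E * Ei = ((t : ℕ) : MonoidAlgebra ℤ A) ^ 2) :
    ∃ g : A, E = (t : MonoidAlgebra ℤ A) * MonoidAlgebra.of ℤ A g := by
  classical
  have hco : ∀ g : A, (E * Ei).coeff g = ∑ a : A, E.coeff a * E.coeff (g⁻¹ * a) := by
    intro g
    rw [MonoidAlgebra.coeff_mul_apply_left, Finsupp.sum_fintype _ _ (by simp)]
    refine Finset.sum_congr rfl fun a _ => ?_
    rw [hEi]
    congr 2
    simp
  have hone : ∑ a : A, E.coeff a * E.coeff a = (t : ℤ) ^ 2 := by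
    have := hco 1
    rw [hE] at this
    simp only [inv_one, one_mul] at this
    rw [← this, ← Nat.cast_pow, MonoidAlgebra.coeff_natCast]
    simp
  have hoff : ∀ g : A, g ≠ 1 → ∑ a : A, E.coeff a * E.coeff (g⁻¹ * a) = 0 := by
    intro g hg
    rw [← hco g, hE, ← Nat.cast_pow, MonoidAlgebra.coeff_natCast]
    rw [Finsupp.single_apply, if_neg (Ne.symm hg)]
  have hex : ∃ x, E.coeff x ≠ 0 := by
    by_contra hne
    push Not at hne
    have : (t : ℤ) ^ 2 = 0 := by
      rw [← hone]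
      exact Finset.sum_eq_zero fun a _ => by rw [hne a, zero_mul]
    have : (t : ℤ) = 0 := by simpa using this
    omega
  obtain ⟨x, hx⟩ := hex
  have hother : ∀ y, y ≠ x → E.coeff y = 0 := by
    intro y hy
    by_contra hne
    have hg : x * y⁻¹ ≠ 1 := by
      intro h
      exact hy (mul_inv_eq_one.mp h).symm
    have h0 := hoff (x * y⁻¹) hg
    rw [Finset.sum_eq_zero_iff_of_nonneg (fun a _ => mul_nonneg (hpos _) (hpos _))] at h0
    have := h0 x (Finset.mem_univ x)
    have e1 : (x * y⁻¹)⁻¹ * x = y := by group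
    rw [e1] at this
    rcases mul_eq_zero.mp this with h | h
    · exact hx h
    · exact hne h
  have hxt : E.coeff x = t := by
    have h1 : ∑ a : A, E.coeff a * E.coeff a = E.coeff x * E.coeff x := by
      refine Finset.sum_eq_single x (fun b _ hb => by rw [hother b hb, zero_mul]) (by simp)
    rw [hone] at h1
    have h2 := hpos x
    nlinarith [sq_nonneg (E.coeff x - t), sq_nonneg (E.coeff x + t)]
  refine ⟨x, ?_⟩
  apply MonoidAlgebra.ext
  ext a
  rw [MonoidAlgebra.natCast_def, MonoidAlgebra.of_apply, MonoidAlgebra.single_mul_single,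
    MonoidAlgebra.coeff_single, Finsupp.single_apply]
  by_cases h : a = x
  · subst h
    simp [hxt]
  · rw [hother a h, if_neg]
    simpa using (Ne.symm h)

theorem coeff_sum_of {ι A : Type*} [CommGroup A] [DecidableEq A] (s : Finset ι) (f : ι → A)
    (a : A) : (∑ i ∈ s, MonoidAlgebra.of ℤ A (f i)).coeff a =
      ((s.filter (fun i => f i = a)).card : ℤ) := by
  rw [MonoidAlgebra.coeff_sum, Finsupp.finsetSum_apply, Finset.card_filter]
  push_cast
  refine Finset.sum_congr rfl fun i _ => ?_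
  rw [MonoidAlgebra.of_apply, MonoidAlgebra.coeff_single, Finsupp.single_apply]

section grp

variable {G : Type} [Group G] [Fintype G] {R : Type*} [CommRing R] (χ : G →* R)

theorem sum_sub (N : Subgroup G) [Fintype N] [DecidablePred (· ∈ N)] :
    ∑ m : N, χ m = ∑ g : G, if g ∈ N then χ g else 0 := by
  rw [← Finset.sum_filter]
  exact (Finset.sum_subtype (univ.filter (· ∈ N)) (by simp) (fun g => χ g)).symm

theorem grp_h1 {n : ℕ} {N : Subgroup G} [Fintype N] {D : Finset G}
    (hD : IsAffineDifferenceSet n N D) :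
    (∑ d ∈ D, χ d) * (∑ d ∈ D, χ d⁻¹) = (n : R) + ∑ g : G, χ g - ∑ m : N, χ m := by
  classical
  rw [Finset.sum_mul_sum, ← Finset.sum_product', sum_sub]
  rw [← Finset.sum_fiberwise_of_maps_to (s := D ×ˢ D) (t := univ)
    (g := fun x : G × G => x.1 * x.2⁻¹) (by simp)]
  have hterm : ∀ g : G, (∑ x ∈ (D ×ˢ D).filter (fun x => x.1 * x.2⁻¹ = g), χ x.1 * χ x.2⁻¹) =
      (if g = 1 then (n : R) else 0) + χ g - (if g ∈ N then χ g else 0) := by
    intro g
    have e1 : (∑ x ∈ (D ×ˢ D).filter (fun x => x.1 * x.2⁻¹ = g), χ x.1 * χ x.2⁻¹) =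
        (((D ×ˢ D).filter (fun x => x.1 * x.2⁻¹ = g)).card : R) * χ g := by
      rw [← nsmul_eq_mul, ← Finset.sum_const]
      refine Finset.sum_congr rfl fun x hx => ?_
      rw [← map_mul, (Finset.mem_filter.mp hx).2]
    rw [e1]
    by_cases hg : g = 1
    · subst hg
      have : (D ×ˢ D).filter (fun x => x.1 * x.2⁻¹ = 1) = D.diag := by
        ext x
        simp only [Finset.mem_filter, Finset.mem_product, Finset.mem_diag, mul_inv_eq_one]
        constructor
        · rintro ⟨⟨h1, h2⟩, h3⟩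
          exact ⟨h1, h3⟩
        · rintro ⟨h1, h2⟩
          exact ⟨⟨h1, h2 ▸ h1⟩, h2⟩
      rw [this, Finset.diag_card, hD.card_set]
      simp [N.one_mem]
    · by_cases hN : g ∈ N
      · have : (D ×ˢ D).filter (fun x => x.1 * x.2⁻¹ = g) = ∅ := by
          apply Finset.filter_eq_empty_iff.mpr
          intro x hx
          rw [Finset.mem_product] at hx
          exact hD.ne_of_mem g hN hg _ hx.1 _ hx.2
        rw [this]
        simp [hg, hN]
      · obtain ⟨x, hx, hu⟩ := hD.existsUnique_of_notMem g hN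
        have : (D ×ˢ D).filter (fun x => x.1 * x.2⁻¹ = g) = {x} := by
          ext y
          simp only [Finset.mem_filter, Finset.mem_product, Finset.mem_singleton]
          constructor
          · rintro ⟨⟨h1, h2⟩, h3⟩
            exact hu y ⟨h1, h2, h3⟩
          · rintro rfl
            exact ⟨⟨hx.1, hx.2.1⟩, hx.2.2⟩
        rw [this]
        simp [hg, hN]
  rw [Finset.sum_congr rfl fun g _ => hterm g, Finset.sum_sub_distrib, Finset.sum_add_distrib]
  simp

theorem grp_h3 {n : ℕ} {N : Subgroup G} [Fintype N] {D : Finset G}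
    (hD : IsAffineDifferenceSet n N D) :
    ∃ γ : G, (∑ d ∈ D, χ d) * (∑ m : N, χ m) = ∑ g : G, χ g - χ γ * ∑ m : N, χ m := by
  classical
  set f : N × G → G := fun x => (x.1 : G) * x.2 with hf
  have hinj : Set.InjOn f ((univ : Finset N) ×ˢ D : Finset (N × G)) := by
    rintro ⟨m, d⟩ hx ⟨m', d'⟩ hy hxy
    simp only [Finset.coe_product, Set.mem_prod, Finset.mem_coe, Finset.mem_univ, true_and] at hx hy
    simp only [hf] at hxy
    have hmem : d' * d⁻¹ ∈ N := by
      have : d' * d⁻¹ = (m' : G)⁻¹ * m := by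
        rw [eq_inv_mul_iff_mul_eq, ← mul_assoc, ← hxy]
        group
      rw [this]
      exact N.mul_mem (N.inv_mem m'.2) m.2
    have hdd : d' * d⁻¹ = 1 := by
      by_contra hne
      exact hD.ne_of_mem _ hmem hne d' hy d hx rfl
    have hd : d' = d := mul_inv_eq_one.mp hdd
    subst hd
    have hm : m = m' := Subtype.ext (mul_right_cancel hxy)
    rw [hm]
  set U : Finset G := ((univ : Finset N) ×ˢ D).image f with hU
  have hn := hD.two_le
  have hcN : Fintype.card N = n - 1 := by rw [← Nat.card_eq_fintype_card]; exact hD.card_subgroup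
  have hcG : Fintype.card G = n ^ 2 - 1 := by rw [← Nat.card_eq_fintype_card]; exact hD.card_group
  have hUc : U.card = (n - 1) * n := by
    rw [hU, Finset.card_image_of_injOn hinj, Finset.card_product, Finset.card_univ, hcN,
      hD.card_set]
  have hVc : Uᶜ.card = n - 1 := by
    rw [Finset.card_compl, hUc, hcG]
    obtain ⟨k, rfl⟩ : ∃ k, n = k + 2 := ⟨n - 2, by omega⟩
    have e1 : (k + 2) ^ 2 - 1 = k * k + 4 * k + 3 := by
      have : (k + 2) ^ 2 = k * k + 4 * k + 3 + 1 := by ring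
      omega
    have e2 : (k + 2 - 1) * (k + 2) = k * k + 3 * k + 2 := by
      have : k + 2 - 1 = k + 1 := by omega
      rw [this]; ring
    rw [e1, e2]
    omega
  have hVne : Uᶜ.Nonempty := by
    rw [← Finset.card_pos, hVc]
    omega
  obtain ⟨γ, hγ⟩ := hVne
  have hγU : γ ∉ U := Finset.mem_compl.mp hγ
  set W : Finset G := (univ : Finset N).image (fun m : N => (m : G) * γ) with hW
  have hWinj : Function.Injective (fun m : N => (m : G) * γ) := by
    intro a b hab
    exact Subtype.ext (mul_right_cancel hab)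
  have hWc : W.card = n - 1 := by
    rw [hW, Finset.card_image_of_injective _ hWinj, Finset.card_univ, hcN]
  have hWV : W ⊆ Uᶜ := by
    intro x hx
    obtain ⟨m, -, rfl⟩ := Finset.mem_image.mp hx
    rw [Finset.mem_compl]
    intro hxU
    obtain ⟨⟨m', d⟩, hmd, hxe⟩ := Finset.mem_image.mp hxU
    apply hγU
    rw [hU, Finset.mem_image]
    refine ⟨(m⁻¹ * m', d), ?_, ?_⟩
    · rw [Finset.mem_product] at hmd ⊢
      exact ⟨Finset.mem_univ _, hmd.2⟩
    · simp only [hf] at hxe ⊢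
      push_cast
      rw [mul_assoc, hxe]
      group
  have hWe : W = Uᶜ := Finset.eq_of_subset_of_card_le hWV (by rw [hWc, hVc])
  refine ⟨γ, ?_⟩
  have e1 : (∑ d ∈ D, χ d) * (∑ m : N, χ m) = ∑ g ∈ U, χ g := by
    rw [hU, Finset.sum_image hinj, Finset.sum_product, mul_comm, Finset.sum_mul_sum]
    refine Finset.sum_congr rfl fun m _ => Finset.sum_congr rfl fun d _ => ?_
    simp only [hf, map_mul]
  have e2 : χ γ * ∑ m : N, χ m = ∑ g ∈ Uᶜ, χ g := by
    rw [← hWe, hW, Finset.sum_image (fun a _ b _ h => hWinj h), Finset.mul_sum]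
    refine Finset.sum_congr rfl fun m _ => ?_
    rw [map_mul, mul_comm]
  rw [e1, e2, ← Finset.sum_add_sum_compl U]
  ring

theorem mul_Gs (x : G) : χ x * ∑ g : G, χ g = ∑ g : G, χ g := by
  rw [Finset.mul_sum]
  simp_rw [← map_mul]
  exact Fintype.sum_bijective (fun g => x * g) (Group.mulLeft_bijective x) _ _ fun _ => rfl

omit [Fintype G] in
theorem mul_Ns (N : Subgroup G) [Fintype N] (x : N) : χ x * ∑ m : N, χ m = ∑ m : N, χ m := by
  rw [Finset.mul_sum]
  simp_rw [← map_mul]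
  exact Fintype.sum_bijective (fun g : N => x * g) (Group.mulLeft_bijective x) _ _
    fun _ => by simp

end grp

end Pool.Agent.ADS.M_MULT2

namespace Pool.Agent.ADS

open Finset M_MULT2

theorem MULT2_thm : Stmt_MULT2 := by
  intro G _ A _ φ n N D hφ hD p hp hpn hker
  classical
  have hn2 := hD.two_le
  have hcard0 : Nat.card G ≠ 0 := by
    rw [hD.card_group]
    have : 2 ^ 2 ≤ n ^ 2 := Nat.pow_le_pow_left hn2 2
    omega
  have : Finite G := Nat.finite_of_card_ne_zero hcard0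
  have : Finite A := Finite.of_surjective φ hφ
  let _ : Fintype G := Fintype.ofFinite G
  let _ : Fintype A := Fintype.ofFinite A
  let _ : Fintype N := Fintype.ofFinite N
  obtain ⟨t, rfl⟩ := hpn
  have ht : 0 < t := by
    rcases Nat.eq_zero_or_pos t with h | h
    · subst h; omega
    · exact h
  -- coprimality
  have hcopG : (Nat.card G).Coprime p := by
    rw [Nat.coprime_comm, hp.coprime_iff_not_dvd, hD.card_group]
    intro h
    have h1 : p ∣ (p * t) ^ 2 := Dvd.dvd.pow (Dvd.intro t rfl) (by norm_num)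
    have h2 : 1 ≤ (p * t) ^ 2 := Nat.one_le_pow _ _ (by omega)
    have h3 : p ∣ 1 := by
      have := Nat.dvd_sub h1 h
      rwa [Nat.sub_sub_self h2] at this
    exact hp.one_lt.ne' (Nat.dvd_one.mp h3)
  have hcopN : (Nat.card N).Coprime p := hcopG.coprime_dvd_left (Subgroup.card_subgroup_dvd_card N)
  have hcopA : (Nat.card A).Coprime p :=
    hcopG.coprime_dvd_left (Subgroup.card_dvd_of_surjective φ hφ)
  -- the group ring
  set e : A →* MonoidAlgebra ℤ A := MonoidAlgebra.of ℤ A with he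
  set χ : G →* MonoidAlgebra ℤ A := e.comp φ with hχ
  have hχa : ∀ g, χ g = e (φ g) := fun g => rfl
  set ψ : MonoidAlgebra ℤ A →+* MonoidAlgebra ℤ A :=
    MonoidAlgebra.mapDomainRingHom ℤ (powMonoidHom p : A →* A) with hψ
  set ι : MonoidAlgebra ℤ A →+* MonoidAlgebra ℤ A :=
    MonoidAlgebra.mapDomainRingHom ℤ (invMonoidHom : A →* A) with hι
  have hψe : ∀ a, ψ (e a) = e (a ^ p) := by
    intro a
    rw [hψ, he, MonoidAlgebra.of_apply, MonoidAlgebra.of_apply]
    simp
  have hιe : ∀ a, ι (e a) = e (a⁻¹) := by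
    intro a
    rw [hι, he, MonoidAlgebra.of_apply, MonoidAlgebra.of_apply]
    simp
  set D1 : MonoidAlgebra ℤ A := ∑ d ∈ D, χ d with hD1
  set Di : MonoidAlgebra ℤ A := ∑ d ∈ D, χ d⁻¹ with hDi
  set Gs : MonoidAlgebra ℤ A := ∑ g : G, χ g with hGs
  set Ns : MonoidAlgebra ℤ A := ∑ m : N, χ m with hNs
  have hψG : ψ Gs = Gs := by
    rw [hGs, map_sum]
    refine Fintype.sum_bijective (powCoprime hcopG) (powCoprime hcopG).bijective _ _ fun g => ?_
    rw [hχa, hχa, hψe, ← map_pow]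
    rfl
  have hψN : ψ Ns = Ns := by
    rw [hNs, map_sum]
    refine Fintype.sum_bijective (powCoprime hcopN) (powCoprime hcopN).bijective _ _ fun g => ?_
    rw [hχa, hχa, hψe, ← map_pow]
    rfl
  have hιG : ι Gs = Gs := by
    rw [hGs, map_sum]
    refine Fintype.sum_bijective (Equiv.inv G) (Equiv.inv G).bijective _ _ fun g => ?_
    rw [hχa, hχa, hιe, ← map_inv]
    rfl
  have hιN : ι Ns = Ns := by
    rw [hNs, map_sum]
    refine Fintype.sum_bijective (Equiv.inv N) (Equiv.inv N).bijective _ _ fun g => ?_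
    rw [hχa, hχa, hιe, ← map_inv]
    rfl
  have hιD : ι D1 = Di := by
    rw [hD1, hDi, map_sum]
    refine Finset.sum_congr rfl fun d _ => ?_
    rw [hχa, hχa, hιe, map_inv φ]
  have hιι : ∀ x, ι (ι x) = x := by
    intro x
    have : (ι.comp ι) = RingHom.id _ := by
      apply MonoidAlgebra.ringHom_ext
      · intro r
        simp [hι]
      · intro a
        simp [hι]
    exact congrArg (fun f => f x) this
  have hιψ : ∀ x, ι (ψ x) = ψ (ι x) := by
    intro x
    have : (ι.comp ψ) = ψ.comp ι := by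
      apply MonoidAlgebra.ringHom_ext
      · intro r
        simp [hι, hψ]
      · intro a
        simp [hι, hψ]
    exact congrArg (fun f => f x) this
  have h1 : D1 * Di = ((p * t : ℕ) : MonoidAlgebra ℤ A) + Gs - Ns := grp_h1 χ hD
  obtain ⟨γ, h3⟩ := grp_h3 χ hD
  change D1 * Ns = Gs - χ γ * Ns at h3
  set c := χ γ with hc
  have hιc : c * ι c = 1 := by
    rw [hc, hχa, hιe, ← map_mul, mul_inv_cancel, map_one]
  have hψc : ψ c = c ^ p := by
    rw [hc, hχa, hψe, map_pow]
  have hψιc : ψ (ι c) = (ι c) ^ p := by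
    rw [← hιψ, hψc, map_pow]
  have h2 : ψ D1 * ψ Di = ((p * t : ℕ) : MonoidAlgebra ℤ A) + Gs - Ns := by
    rw [← map_mul, h1, map_sub, map_add, map_natCast, hψG, hψN]
  have h4 : Di * Ns = Gs - ι c * Ns := by
    have := congrArg ι h3
    rwa [map_mul, map_sub, map_mul, hιD, hιG, hιN] at this
  obtain ⟨q, hq⟩ : ∃ q, p = q + 1 := ⟨p - 1, by have := hp.two_le; omega⟩
  have h5 : ψ D1 * Ns = Gs - c ^ (q + 1) * Ns := by
    have := congrArg ψ h3
    rwa [map_mul, map_sub, map_mul, hψG, hψN, hψc, hq] at this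
  have h6 : ψ Di * Ns = Gs - (ι c) ^ (q + 1) * Ns := by
    have := congrArg ψ h4
    rwa [map_mul, map_sub, map_mul, hψG, hψN, hψιc, hq] at this
  have g1 : D1 * Gs = ((p * t : ℕ) : MonoidAlgebra ℤ A) * Gs := by
    rw [hD1, Finset.sum_mul, Finset.sum_congr rfl fun d _ => mul_Gs χ d, Finset.sum_const,
      hD.card_set, nsmul_eq_mul]
  have g2 : Di * Gs = ((p * t : ℕ) : MonoidAlgebra ℤ A) * Gs := by
    have := congrArg ι g1
    rwa [map_mul, map_mul, map_natCast, hιD, hιG] at this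
  have g3 : ψ D1 * Gs = ((p * t : ℕ) : MonoidAlgebra ℤ A) * Gs := by
    have := congrArg ψ g1
    rwa [map_mul, map_mul, map_natCast, hψG] at this
  have g4 : ψ Di * Gs = ((p * t : ℕ) : MonoidAlgebra ℤ A) * Gs := by
    have := congrArg ψ g2
    rwa [map_mul, map_mul, map_natCast, hψG] at this
  have g5 : c * Gs = Gs := mul_Gs χ γ
  have g6 : ι c * Gs = Gs := by
    have := congrArg ι g5
    rwa [map_mul, hιG] at this
  have k1 : Gs * Gs = (((p * t : ℕ) : MonoidAlgebra ℤ A) ^ 2 - 1) * Gs := by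
    conv_lhs => rw [hGs, Finset.sum_mul, Finset.sum_congr rfl fun d _ => mul_Gs χ d]
    rw [Finset.sum_const, Finset.card_univ, ← Nat.card_eq_fintype_card, hD.card_group,
      nsmul_eq_mul, Nat.cast_sub (Nat.one_le_pow _ _ (by omega)), Nat.cast_pow, Nat.cast_one]
  have hNc : (Fintype.card N : MonoidAlgebra ℤ A) = ((p * t : ℕ) : MonoidAlgebra ℤ A) - 1 := by
    rw [← Nat.card_eq_fintype_card, hD.card_subgroup, Nat.cast_sub (by omega), Nat.cast_one]
  have k2 : Gs * Ns = (((p * t : ℕ) : MonoidAlgebra ℤ A) - 1) * Gs := by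
    rw [mul_comm Gs Ns]
    conv_lhs => rw [hNs, Finset.sum_mul, Finset.sum_congr rfl fun (d : N) _ => mul_Gs χ (d : G)]
    rw [Finset.sum_const, Finset.card_univ, nsmul_eq_mul, hNc]
  have k3 : Ns * Ns = (((p * t : ℕ) : MonoidAlgebra ℤ A) - 1) * Ns := by
    conv_lhs => rw [hNs, Finset.sum_mul, Finset.sum_congr rfl fun (d : N) _ => mul_Ns χ N d]
    rw [Finset.sum_const, Finset.card_univ, nsmul_eq_mul, hNc]
  -- the congruence
  obtain ⟨r, hr⟩ := sum_pow_prime hp D (fun d => χ d)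
  have hr' : D1 ^ p = ψ D1 + (p : MonoidAlgebra ℤ A) * r := by
    rw [hD1, hr, map_sum]
    congr 1
    refine Finset.sum_congr rfl fun d _ => ?_
    rw [hχa, hψe, map_pow]
  obtain ⟨E, hE⟩ := alg_cong p hp (t : MonoidAlgebra ℤ A) D1 Di (ψ D1) Gs Ns c r q hq
    (by rw [h1]; push_cast; ring) h3 (by rw [g1]; push_cast; ring) g5 hr'
  have hsq := alg_sq ((p * t : ℕ) : MonoidAlgebra ℤ A) D1 Di (ψ D1) (ψ Di) Gs Ns c (ι c) q hιc
    h1 h2 h3 h4 h5 h6 g1 g2 g3 g4 g5 g6 k1 k2 k3
  have hEi : ψ Di * D1 - (Gs - (ι c) ^ q * Ns) = (p : MonoidAlgebra ℤ A) * ι E := by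
    have := congrArg ι hE
    rw [map_mul, map_add, map_sub, map_mul, map_mul, map_natCast, map_pow, hιG, hιN, hιψ, hιD,
      ← hιD, hιι, hιD] at this
    rw [this]
    ring
  have hE2 : (p : MonoidAlgebra ℤ A) ^ 2 * (E * ι E) =
      (p : MonoidAlgebra ℤ A) ^ 2 * (t : MonoidAlgebra ℤ A) ^ 2 := by
    rw [hEi, hE] at hsq
    push_cast at hsq
    linear_combination hsq
  have hcancel : ∀ x y : MonoidAlgebra ℤ A, (p : MonoidAlgebra ℤ A) * x =
      (p : MonoidAlgebra ℤ A) * y → x = y := by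
    intro x y hxy
    apply MonoidAlgebra.ext
    ext a
    have := congrArg (fun z => MonoidAlgebra.coeff z a) hxy
    simp only [← nsmul_eq_mul, MonoidAlgebra.coeff_smul_apply] at this
    simpa [hp.ne_zero] using this
  have hEE : E * ι E = (t : MonoidAlgebra ℤ A) ^ 2 := by
    apply hcancel
    apply hcancel
    linear_combination hE2
  -- coefficients
  have hcι : ∀ (x : MonoidAlgebra ℤ A) (a : A), (ι x).coeff a = x.coeff a⁻¹ := by
    intro x a
    have h : (ι x).coeff = x.coeff.mapDomain (fun b => b⁻¹) := rfl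
    rw [h]
    conv_lhs => rw [show a = (fun b : A => b⁻¹) a⁻¹ from (inv_inv a).symm]
    exact Finsupp.mapDomain_apply inv_injective _ _
  have hFe : ψ D1 * Di = ∑ x ∈ D ×ˢ D, e (φ x.1 ^ p * (φ x.2)⁻¹) := by
    rw [hD1, hDi, map_sum, Finset.sum_mul_sum, ← Finset.sum_product']
    refine Finset.sum_congr rfl fun x _ => ?_
    rw [hχa, hχa, hψe, map_inv φ, ← map_mul]
  have hF0 : ∀ a, 0 ≤ (ψ D1 * Di).coeff a := by
    intro a
    rw [hFe, he, coeff_sum_of]
    exact Int.natCast_nonneg _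
  have hNe : c ^ q * Ns = ∑ m : N, e (φ γ ^ q * φ m) := by
    rw [hNs, Finset.mul_sum]
    refine Finset.sum_congr rfl fun m _ => ?_
    rw [hc, hχa, hχa, ← map_pow, ← map_mul]
  have hN0 : ∀ a, 0 ≤ (c ^ q * Ns).coeff a := by
    intro a
    rw [hNe, he, coeff_sum_of]
    exact Int.natCast_nonneg _
  have hGc : ∀ a, Gs.coeff a < p := by
    intro a
    have h : Gs = ∑ g : G, e (φ g) := rfl
    rw [h, he, coeff_sum_of]
    obtain ⟨g0, hg0⟩ := hφ a
    have hle : (univ.filter (fun g => φ g = a)).card ≤ Nat.card φ.ker := by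
      rw [Nat.card_eq_fintype_card, ← Fintype.card_subtype]
      refine Fintype.card_le_of_injective (fun g => (⟨g0⁻¹ * g.1, ?_⟩ : φ.ker)) ?_
      · rw [MonoidHom.mem_ker, map_mul, map_inv, g.2, hg0, inv_mul_cancel]
      · intro x y hxy
        have := congrArg Subtype.val hxy
        exact Subtype.ext (mul_left_cancel this)
    exact_mod_cast lt_of_le_of_lt hle hker
  have hEpos : ∀ a, 0 ≤ E.coeff a := by
    intro a
    have h := congrArg (fun z => MonoidAlgebra.coeff z a) hE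
    simp only [← nsmul_eq_mul p, MonoidAlgebra.coeff_add, MonoidAlgebra.coeff_sub,
      Finsupp.add_apply, Finsupp.sub_apply, MonoidAlgebra.coeff_smul_apply] at h
    rw [nsmul_eq_mul] at h
    have h1 := hF0 a
    have h2 := hN0 a
    have h3 := hGc a
    have hp0 : (0 : ℤ) < p := by exact_mod_cast hp.pos
    by_contra hneg
    push Not at hneg
    nlinarith
  obtain ⟨g, hg⟩ := supp_arg E (ι E) t ht hEpos (hcι E) hEE
  refine ⟨g, fun a => ?_⟩
  have hfin := alg_fin ((p * t : ℕ) : MonoidAlgebra ℤ A) D1 Di (ψ D1) Gs Ns c (e g) q h1 h3 h5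
    g1 g3 g5 (by rw [hE, hg]; push_cast; ring)
  have hDp : ψ D1 = e g * D1 := by
    apply MonoidAlgebra.ext
    ext b
    have h := congrArg (fun z => MonoidAlgebra.coeff z b) hfin
    simp only [← nsmul_eq_mul, MonoidAlgebra.coeff_smul_apply] at h
    have h0 : ((p * t : ℕ) : ℤ) ≠ 0 := by exact_mod_cast (by omega : p * t ≠ 0)
    rw [nsmul_eq_mul, nsmul_eq_mul] at h
    exact mul_left_cancel₀ h0 h
  have hpinj : Function.Injective (fun x : A => x ^ p) := (powCoprime hcopA).injective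
  have e1 : (ψ D1).coeff (a ^ p) = ((D.filter (fun d => φ d = a)).card : ℤ) := by
    have h : ψ D1 = ∑ d ∈ D, e (φ d ^ p) := by
      rw [hD1, map_sum]
      refine Finset.sum_congr rfl fun d _ => ?_
      rw [hχa, hψe]
    rw [h, he, coeff_sum_of]
    congr 2
    ext d
    simp only [Finset.mem_filter]
    exact and_congr_right fun _ => hpinj.eq_iff
  have e2 : (e g * D1).coeff (a ^ p) = ((D.filter (fun d => φ d = g⁻¹ * a ^ p)).card : ℤ) := by
    have h : e g * D1 = ∑ d ∈ D, e (g * φ d) := by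
      rw [hD1, Finset.mul_sum]
      refine Finset.sum_congr rfl fun d _ => ?_
      rw [hχa, ← map_mul]
    rw [h, he, coeff_sum_of]
    congr 2
    ext d
    simp only [Finset.mem_filter]
    exact and_congr_right fun _ => eq_inv_mul_iff_mul_eq.symm
  have e3 := e1.symm.trans ((congrArg (fun z => MonoidAlgebra.coeff z (a ^ p)) hDp).trans e2)
  exact_mod_cast e3

end Pool.Agent.ADS
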