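import Mathlib
import Pool.Agent.ADS.Stmts3
import Pool.Agent.ADS.Tools

/-!
# Project ADS (MP_43d07b_co), fourth part: modules NIL and SQF   (helper42)
-/

set_option autoImplicit false

namespace Pool.Agent.ADS

open Finset

/-- NIL. -/
theorem NIL_thm : Stmt_NIL := by
  intro G _ _ hnil p hp hpc
  have _ : Fact p.Prime := ⟨hp⟩
  by_contra hsq
  have hpG : p ∣ Nat.card G := hpc.trans (Subgroup.card_subgroup_dvd_card _)
  have hG0 : Nat.card G ≠ 0 := Nat.card_pos.ne'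
  -- the Sylow subgroup has order `p`
  have hval : (Nat.card G).factorization p = 1 := by
    have h1 : 1 ≤ (Nat.card G).factorization p :=
      (hp.dvd_iff_one_le_factorization hG0).1 hpG
    have h2 : ¬ 2 ≤ (Nat.card G).factorization p := fun h =>
      hsq ((hp.pow_dvd_iff_le_factorization hG0).2 h)
    omega
  obtain ⟨e⟩ : Nonempty
      ((∀ q : (Nat.card G).primeFactors, ∀ P : Sylow q G, (↑P : Subgroup G)) ≃* G) :=
    (Group.isNilpotent_of_finite_tfae.out 0 4 rfl rfl).1 hnil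
  let q : (Nat.card G).primeFactors := ⟨p, Nat.mem_primeFactors.2 ⟨hp, hpG, hG0⟩⟩
  let P : Sylow (q : ℕ) G := (default : Sylow p G)
  have hP : Nat.card (P : Subgroup G) = p := by
    have h := Sylow.card_eq_multiplicity (p := p) P
    rw [hval, pow_one] at h
    exact h
  let ev : (∀ q : (Nat.card G).primeFactors, ∀ P : Sylow q G, (↑P : Subgroup G)) →*
      (P : Subgroup G) :=
    { toFun := fun f => f q P, map_one' := rfl, map_mul' := fun _ _ => rfl }
  let φ : G →* (P : Subgroup G) := ev.comp e.symm.toMonoidHom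
  have hsurj : Function.Surjective φ := by
    classical
    intro x
    refine ⟨e (Function.update 1 q (Function.update 1 P x)), ?_⟩
    show ev (e.symm (e (Function.update 1 q (Function.update 1 P x)))) = x
    rw [MulEquiv.symm_apply_apply]
    show (Function.update (1 : ∀ q : (Nat.card G).primeFactors, ∀ P : Sylow q G,
      (↑P : Subgroup G)) q (Function.update 1 P x)) q P = x
    simp
  have hcyc : IsCyclic (P : Subgroup G) := isCyclic_of_prime_card hP
  have hcomm : ∀ x y : (P : Subgroup G), x * y = y * x := fun x y =>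
    (IsCyclic.commGroup (α := (P : Subgroup G))).mul_comm x y
  have hker : commutator G ≤ φ.ker := by
    rw [commutator_def, Subgroup.commutator_le]
    intro a _ b _
    rw [MonoidHom.mem_ker, map_commutatorElement, commutatorElement_eq_one_iff_mul_comm]
    exact hcomm _ _
  have hidx : Nat.card φ.ker * p = Nat.card G := by
    have h1 := Subgroup.card_mul_index φ.ker
    rw [Subgroup.index_ker, MonoidHom.range_eq_top.2 hsurj] at h1
    have h2 : Nat.card (⊤ : Subgroup (P : Subgroup G)) = p := by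
      rw [Subgroup.card_top]; exact hP
    rw [h2] at h1
    exact h1
  have hpk : p ∣ Nat.card φ.ker := hpc.trans (Subgroup.card_dvd_of_le hker)
  apply hsq
  rw [← hidx, pow_two]
  exact Nat.mul_dvd_mul_right hpk p

/-- A divisor whose odd prime factors divide `m` twice is at most twice the cube of the root of
the largest square divisor. -/
theorem exists_sq_dvd {g m : ℕ} (hm : m ≠ 0) (hgm : g ∣ m)
    (h : ∀ p : ℕ, p.Prime → p ≠ 2 → p ∣ g → p ^ 2 ∣ m) :
    ∃ b : ℕ, b ^ 2 ∣ m ∧ g ≤ 2 * b ^ 3 := by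
  obtain ⟨a', b, hab, hsf⟩ := Nat.sq_mul_squarefree m
  have hb0 : b ≠ 0 := by
    rintro rfl
    apply hm
    rw [← hab]; simp
  refine ⟨b, ⟨a', hab.symm⟩, ?_⟩
  have hs : Nat.gcd g a' ∣ 2 * b := by
    have hsq : Squarefree (Nat.gcd g a') := hsf.squarefree_of_dvd (Nat.gcd_dvd_right g a')
    rw [← Nat.prod_primeFactors_of_squarefree hsq]
    refine dvd_trans ?_ (Nat.prod_primeFactors_dvd (2 * b))
    apply Finset.prod_dvd_prod_of_subset
    intro p hp
    rw [Nat.mem_primeFactors] at hp ⊢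
    obtain ⟨hpp, hpd, -⟩ := hp
    refine ⟨hpp, ?_, by positivity⟩
    by_cases h2 : p = 2
    · rw [h2]; exact dvd_mul_right 2 b
    · have hpg : p ∣ g := hpd.trans (Nat.gcd_dvd_left _ _)
      have hpm := h p hpp h2 hpg
      apply dvd_mul_of_dvd_right
      by_contra hpb
      have hcop : Nat.Coprime (p ^ 2) (b ^ 2) :=
        Nat.Coprime.pow 2 2 ((Nat.Prime.coprime_iff_not_dvd hpp).2 hpb)
      rw [← hab] at hpm
      have h3 : p ^ 2 ∣ a' := hcop.dvd_of_dvd_mul_left hpm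
      rw [pow_two] at h3
      have h4 := hsf p h3
      exact hpp.one_lt.ne' (Nat.isUnit_iff.1 h4)
  have hdvd : g ∣ 2 * b ^ 3 := by
    have h1 : g ∣ Nat.gcd g (b ^ 2) * Nat.gcd g a' := by
      have h2 := Nat.gcd_mul_right_dvd_mul_gcd g (b ^ 2) a'
      rw [hab, Nat.gcd_eq_left hgm] at h2
      exact h2
    refine h1.trans ?_
    have h3 : 2 * b ^ 3 = b ^ 2 * (2 * b) := by ring
    rw [h3]
    exact Nat.mul_dvd_mul (Nat.gcd_dvd_right _ _) hs
  exact Nat.le_of_dvd (by positivity) hdvd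

theorem SQF_real {B b : ℝ} (hB : 16 ≤ B) (hb : 0 ≤ b) (h : B < (2 * b ^ 3) ^ 2) :
    B ^ (1 / 16 : ℝ) ≤ b := by
  have hB0 : 0 < B := by linarith
  have h1 : B / 4 < b ^ 6 := by
    have : (2 * b ^ 3) ^ 2 = 4 * b ^ 6 := by ring
    rw [this] at h
    linarith
  have h2 : B ^ (1 / 2 : ℝ) ≤ B / 4 := by
    rw [← Real.sqrt_eq_rpow, Real.sqrt_le_left (by linarith)]
    nlinarith
  have h3 : B ^ (1 / 2 : ℝ) ≤ b ^ 6 := by linarith
  have h4 : (B ^ (1 / 12 : ℝ)) ^ 6 ≤ b ^ 6 := by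
    rw [← Real.rpow_natCast (B ^ (1 / 12 : ℝ)) 6, ← Real.rpow_mul hB0.le]
    have e : (1 / 12 : ℝ) * ((6 : ℕ) : ℝ) = 1 / 2 := by norm_num
    rw [e]
    exact h3
  have h5 : B ^ (1 / 12 : ℝ) ≤ b := le_of_pow_le_pow_left₀ (by norm_num) hb h4
  refine le_trans ?_ h5
  exact Real.rpow_le_rpow_of_exponent_le (by linarith) (by norm_num)

/-- SQF. -/
theorem SQF_thm : Stmt_SQF := by
  classical
  obtain ⟨X0, -, hX0⟩ := Tools.exists_le_pv 2
  refine ⟨X0, ?_⟩
  intro X n c hX hn2 hnX hc hp hBc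
  have hB16 : 16 ≤ pB X := by
    have h1 := hX0 X hX
    have h2 : (4 : ℝ) ≤ pv X ^ 2 := by nlinarith
    have h3 : (16 : ℝ) ≤ Real.exp 4 := by
      have h4 : (2.7182818283 : ℝ) < Real.exp 1 := Real.exp_one_gt_d9
      have h5 : Real.exp 4 = Real.exp 1 ^ 4 := by
        rw [← Real.exp_nat_mul]; norm_num
      rw [h5]
      calc (16 : ℝ) = 2 ^ 4 := by norm_num
        _ ≤ Real.exp 1 ^ 4 := by
          apply pow_le_pow_left₀ (by norm_num)
          linarith
    exact h3.trans (Real.exp_le_exp.2 h2)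
  obtain ⟨k, rfl⟩ : ∃ k, n = k + 1 := ⟨n - 1, by omega⟩
  have hk : 1 ≤ k := by omega
  have hprod : (k + 1) ^ 2 - 1 = k * (k + 2) := by
    have : (k + 1) ^ 2 = k * (k + 2) + 1 := by ring
    omega
  rw [hprod] at hc hp
  -- odd primes
  have hodd1 : ∀ p : ℕ, p.Prime → p ≠ 2 → p ∣ Nat.gcd c k → p ^ 2 ∣ k := by
    intro p hpp h2 hpd
    have h3 := hp p hpp (hpd.trans (Nat.gcd_dvd_left _ _))
    have hpk : p ∣ k := hpd.trans (Nat.gcd_dvd_right _ _)
    have hnot : ¬ p ∣ k + 2 := by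
      intro h4
      have h5 : p ∣ 2 := (Nat.dvd_add_right hpk).1 h4
      exact h2 ((Nat.prime_dvd_prime_iff_eq hpp Nat.prime_two).1 h5)
    exact (Nat.Coprime.pow_left 2 ((Nat.Prime.coprime_iff_not_dvd hpp).2 hnot)).dvd_of_dvd_mul_right h3
  have hodd2 : ∀ p : ℕ, p.Prime → p ≠ 2 → p ∣ Nat.gcd c (k + 2) → p ^ 2 ∣ k + 2 := by
    intro p hpp h2 hpd
    have h3 := hp p hpp (hpd.trans (Nat.gcd_dvd_left _ _))
    have hpk : p ∣ k + 2 := hpd.trans (Nat.gcd_dvd_right _ _)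
    have hnot : ¬ p ∣ k := by
      intro h4
      have h5 : p ∣ 2 := (Nat.dvd_add_right h4).1 hpk
      exact h2 ((Nat.prime_dvd_prime_iff_eq hpp Nat.prime_two).1 h5)
    exact (Nat.Coprime.pow_left 2 ((Nat.Prime.coprime_iff_not_dvd hpp).2 hnot)).dvd_of_dvd_mul_left h3
  obtain ⟨b₁, hb₁, hg₁⟩ := exists_sq_dvd (by omega : k ≠ 0) (Nat.gcd_dvd_right c k) hodd1
  obtain ⟨b₂, hb₂, hg₂⟩ := exists_sq_dvd (by omega : k + 2 ≠ 0) (Nat.gcd_dvd_right c (k + 2)) hodd2
  have hcg : c ≤ Nat.gcd c k * Nat.gcd c (k + 2) := by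
    have h1 := Nat.gcd_mul_right_dvd_mul_gcd c k (k + 2)
    rw [Nat.gcd_eq_left hc] at h1
    have hc0 : c ≠ 0 := by
      rintro rfl
      simp at hc
      omega
    apply Nat.le_of_dvd _ h1
    exact Nat.mul_pos (Nat.gcd_pos_of_pos_left _ (Nat.pos_of_ne_zero hc0))
      (Nat.gcd_pos_of_pos_left _ (Nat.pos_of_ne_zero hc0))
  have hfin : ∀ g g' b : ℕ, g' ≤ g → c ≤ g * g' → g ≤ 2 * b ^ 3 →
      (pB X) ^ (1 / 16 : ℝ) ≤ b := by
    intro g g' b h1 h2 h3
    apply SQF_real hB16 (Nat.cast_nonneg b)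
    have h4 : c ≤ (2 * b ^ 3) ^ 2 := by
      calc c ≤ g * g' := h2
        _ ≤ (2 * b ^ 3) * (2 * b ^ 3) := Nat.mul_le_mul h3 (h1.trans h3)
        _ = (2 * b ^ 3) ^ 2 := by ring
    have h5 : (c : ℝ) ≤ (2 * (b : ℝ) ^ 3) ^ 2 := by exact_mod_cast h4
    linarith
  unfold E7
  rw [Finset.mem_filter, Finset.mem_Icc]
  refine ⟨⟨hn2, hnX⟩, ?_⟩
  rcases le_total (Nat.gcd c k) (Nat.gcd c (k + 2)) with h | h
  · exact ⟨b₂, hfin _ _ b₂ h (by rw [mul_comm]; exact hcg) hg₂, Or.inr hb₂⟩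
  · refine ⟨b₁, hfin _ _ b₁ h hcg hg₁, Or.inl ?_⟩
    simpa using hb₁

end Pool.Agent.ADS
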